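import Mathlib
import Pool.Agent.GAvg.RecDef

/-!
# Uniform definability of recursions of logarithmic length

The advice in the non-uniform families of `GAvg` is removed by checking the recursion.
First application: the graph of `j ↦ b ^ j`.
-/

set_option autoImplicit false

namespace Pool.Agent.PTr

open Finset Filter Pool.Agent.Grz Pool.Agent.GAvg

/-! ### Chinese remainders without primes -/

theorem two_pow_le_centralBinom {m : ℕ} (hm : 1 ≤ m) : 2 ^ m ≤ Nat.centralBinom m := by
  have h1 := Nat.four_pow_le_two_mul_self_mul_centralBinom m (by omega)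
  have h2 : 2 * m ≤ 2 ^ m := by
    induction m, hm using Nat.le_induction with
    | base => norm_num
    | succ k hk ih =>
      have := ih (Nat.four_pow_le_two_mul_self_mul_centralBinom k (by omega))
      rw [pow_succ]
      omega
  have h3 : (4 : ℕ) ^ m = 2 ^ m * 2 ^ m := by
    rw [← mul_pow]
    norm_num
  rw [h3] at h1
  have h4 : 2 ^ m * 2 ^ m ≤ 2 ^ m * Nat.centralBinom m :=
    h1.trans (Nat.mul_le_mul_right _ h2)
  exact Nat.le_of_mul_le_mul_left h4 (by positivity)

/-- A number divisible by all `d ≤ 2 m` is `0` or at least `2 ^ m`. -/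
theorem eq_zero_of_dvd_all {m x : ℕ} (hm : 1 ≤ m) (h : ∀ d, 1 ≤ d → d ≤ 2 * m → d ∣ x)
    (hx : x < 2 ^ m) : x = 0 := by
  by_contra h0
  have h1 : Nat.centralBinom m ∣ x := by
    rw [← Nat.factorization_le_iff_dvd (Nat.centralBinom_ne_zero m) h0]
    intro p
    by_cases hp : p.Prime
    · have h2 : p ^ (Nat.centralBinom m).factorization p ≤ 2 * m := by
        rw [Nat.centralBinom_eq_two_mul_choose]
        exact Nat.pow_factorization_choose_le (by omega)
      exact (hp.pow_dvd_iff_le_factorization h0).1 (h _ (Nat.one_le_pow _ _ hp.pos) h2)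
    · rw [Nat.factorization_eq_zero_of_not_prime _ hp]
      exact Nat.zero_le _
  have h2 := Nat.le_of_dvd (Nat.pos_of_ne_zero h0) h1
  have h3 := two_pow_le_centralBinom hm
  omega

/-- Numbers `< 2 ^ m` are determined by their residues modulo `1, …, 2 m`. -/
theorem eq_of_mod_all {m x y : ℕ} (hm : 1 ≤ m) (hx : x < 2 ^ m) (hy : y < 2 ^ m)
    (h : ∀ d, 1 ≤ d → d ≤ 2 * m → x % d = y % d) : x = y := by
  wlog hxy : x ≤ y generalizing x y
  · exact (this hy hx (fun d h1 h2 => (h d h1 h2).symm) (by omega)).symm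
  have h1 : y - x = 0 := by
    refine eq_zero_of_dvd_all hm (fun d h1 h2 => ?_) (by omega)
    exact (Nat.modEq_iff_dvd' hxy).1 (h d h1 h2)
  omega

/-! ### Removing the advice -/

/-- A function with a `Delta0` recursion which is non-uniformly definable is definable. -/
theorem uniform_rec {r : ℕ} {A : (Fin r → ℕ) → ℕ} (hA : DFun r A)
    {H : ℕ → ℕ → (Fin r → ℕ) → ℕ}
    (hH : DFun (r + 2) (fun w => H (w 0) (w 1) (fun i => w i.succ.succ)))
    {φ : ℕ → (Fin r → ℕ) → ℕ} (h0 : ∀ v, φ 0 v = A v) (h1 : ∀ j v, φ (j + 1) v = H j (φ j v) v)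
    {Dom : ℕ → (Fin (r + 1) → ℕ) → Prop}
    (hφ : NUF (r + 1) Dom (fun _ w => φ (w 0) (fun i => w i.succ))) :
    ∃ (P : (Fin (r + 3) → ℕ) → Prop) (n₀ : ℕ), Delta0 (r + 3) P ∧
      (∀ n j y v, P (Matrix.vecCons n (Matrix.vecCons j (Matrix.vecCons y v))) → y = φ j v) ∧
      ∀ n j v, n₀ ≤ n → (∀ i, i ≤ j → Dom n (Matrix.vecCons i v)) →
        P (Matrix.vecCons n (Matrix.vecCons j (Matrix.vecCons (φ j v) v))) := by
  obtain ⟨c, g, hg, hev⟩ := hφ
  obtain ⟨n₀, hn₀⟩ := eventually_atTop.1 hev
  -- `u = (a, n, j, y, v)`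
  have hgF : ∀ {m : ℕ} {a i : (Fin m → ℕ) → ℕ} {v : Fin r → (Fin m → ℕ) → ℕ}, DFun m a →
      DFun m i → (∀ l, DFun m (v l)) →
      DFun m (fun w => g (Matrix.vecCons (a w) (Matrix.vecCons (i w) (fun l => v l w)))) := by
    intro m a i v ha hi hv
    have := Adv.dfun_cons (m := r + 1) hg ha (B := Fin.cons i v) (by
      intro l
      refine Fin.cases ?_ (fun l => ?_) l
      · exact hi
      · exact hv l)
    simpa only [Adv.cons_apply] using this
  refine ⟨fun w => ∃ a, a ≤ (w 0 + 2) ^ c ∧
      (g (Matrix.vecCons a (Matrix.vecCons 0 (fun l : Fin r => w l.succ.succ.succ))) =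
          A (fun l => w l.succ.succ.succ) ∧
        (∀ i, i ≤ w 1 → i < w 1 →
          g (Matrix.vecCons a (Matrix.vecCons (i + 1) (fun l : Fin r => w l.succ.succ.succ))) =
            H i (g (Matrix.vecCons a (Matrix.vecCons i (fun l : Fin r => w l.succ.succ.succ))))
              (fun l => w l.succ.succ.succ)) ∧
        g (Matrix.vecCons a (Matrix.vecCons (w 1) (fun l : Fin r => w l.succ.succ.succ))) =
          w 2), n₀, ?_, ?_, ?_⟩
  · have hb : DFun (r + 3) (fun w => (w 0 + 2) ^ c) := by
      have := DFun.ofPoly (n := r + 3) ((MvPolynomial.X 0 + 2) ^ c)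
      simpa using this
    refine Delta0.bexFun hb ?_
    refine Delta0.and ?_ (Delta0.and ?_ ?_)
    · refine Delta0.eqFun ?_ ?_
      · exact hgF (a := fun w => w 0) (i := fun _ => 0)
          (v := fun l w => w l.succ.succ.succ.succ) (DFun.proj 0) (DFun.const 0)
          (fun l => DFun.proj _)
      · exact hA.comp (h := fun l w => w l.succ.succ.succ.succ) (fun l => DFun.proj _)
    · refine Delta0.ballFun (b := fun w => w 2) (DFun.proj 2)
        (P := fun i w => i < w 2 →
          g (Matrix.vecCons (w 0) (Matrix.vecCons (i + 1)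
            (fun l : Fin r => w l.succ.succ.succ.succ))) =
            H i (g (Matrix.vecCons (w 0) (Matrix.vecCons i
              (fun l : Fin r => w l.succ.succ.succ.succ))))
              (fun l => w l.succ.succ.succ.succ)) ?_
      refine Delta0.imp (Delta0.ltFun (DFun.proj 0) (DFun.proj 3)) ?_
      refine Delta0.eqFun ?_ ?_
      · exact hgF (a := fun w => w 1) (i := fun w => w 0 + 1)
          (v := fun l w => w l.succ.succ.succ.succ.succ) (DFun.proj 1)
          ((DFun.proj 0).add (DFun.const 1)) (fun l => DFun.proj _)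
      · have h3 := hgF (a := fun w : Fin (r + 5) → ℕ => w 1) (i := fun w => w 0)
          (v := fun l w => w l.succ.succ.succ.succ.succ) (DFun.proj 1)
          (DFun.proj 0) (fun l => DFun.proj _)
        have h4 := hH.comp (n := r + 5) (h := Fin.cons (fun w => w 0) (Fin.cons (fun w =>
          g (Matrix.vecCons (w 1) (Matrix.vecCons (w 0)
              (fun l : Fin r => w l.succ.succ.succ.succ.succ))))
            (fun l w => w l.succ.succ.succ.succ.succ))) (by
          intro l
          refine Fin.cases ?_ (fun l => ?_) l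
          · exact DFun.proj 0
          · refine Fin.cases ?_ (fun l => ?_) l
            · exact h3
            · exact DFun.proj _)
        exact h4
    · refine Delta0.eqFun ?_ (DFun.proj 3)
      exact hgF (a := fun w => w 0) (i := fun w => w 2)
          (v := fun l w => w l.succ.succ.succ.succ) (DFun.proj 0) (DFun.proj 2)
          (fun l => DFun.proj _)
  · rintro n j y v ⟨a, -, ha0, ha1, ha2⟩
    simp only [Matrix.cons_val_zero, Matrix.cons_val_one, Matrix.cons_val_succ,
      Matrix.cons_val] at ha0 ha1 ha2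
    have key : ∀ i, i ≤ j → g (Matrix.vecCons a (Matrix.vecCons i v)) = φ i v := by
      intro i
      induction i with
      | zero => intro _; rw [h0]; exact ha0
      | succ i ih =>
        intro hi
        rw [h1, ← ih (by omega)]
        exact ha1 i (by omega) (by omega)
    rw [← key j le_rfl]
    exact ha2.symm
  · intro n j v hn hD
    obtain ⟨a, ha, hag⟩ := hn₀ n hn
    have key : ∀ i, i ≤ j → g (Matrix.vecCons a (Matrix.vecCons i v)) = φ i v := by
      intro i hi
      have := hag _ (hD i hi)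
      simpa using this
    refine ⟨a, ha, ?_⟩
    simp only [Matrix.cons_val_zero, Matrix.cons_val_one, Matrix.cons_val_succ,
      Matrix.cons_val]
    refine ⟨?_, ?_, ?_⟩
    · rw [key 0 (Nat.zero_le _)]; exact h0 v
    · intro i hi hi'
      rw [key (i + 1) (by omega), key i hi]
      exact h1 i v
    · exact key j le_rfl

/-! ### Powers with a fixed base -/

theorem lg_pow_ge (n : ℕ) (h : 1 ≤ n) : 2 ^ lg n ≤ n := Nat.pow_log_le_self 2 (by omega)

theorem lt_two_pow_lg (n : ℕ) : n < 2 ^ (lg n + 1) := Nat.lt_pow_succ_log_self (by norm_num) n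

theorem one_le_lg {n : ℕ} (h : 2 ≤ n) : 1 ≤ lg n :=
  Nat.le_log_of_pow_le (by norm_num) (by simpa using h)

/-- residues of powers, non-uniformly -/
theorem nuf_powMod (b : ℕ) :
    NUF 2 (fun n w => w 0 ≤ lg n + 1 ∧ 1 ≤ w 1 ∧ w 1 ≤ lg n ^ 2) (fun _ w => b ^ w 0 % w 1) := by
  have hmod : ∀ {r : ℕ} {C : ℕ → (Fin r → ℕ) → Prop} {f g : ℕ → (Fin r → ℕ) → ℕ}, NUF r C f →
    NUF r C g → NUF r C (fun n v => f n v % g n v) := fun hf hg => NUF.mod hf hg
  refine NUF.recLog (r := 2) 2 2 (L := fun _ w => w 0) (A₀ := fun _ w => 1 % w 1)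
    (H := fun _ _ a w => a * b % w 1) (f := fun _ j w => b ^ j % w 1) (NUF.proj 0) ?_ ?_ ?_ ?_ ?_ ?_
  · filter_upwards [eventually_ge_atTop 4] with n hn v hv
    have h2 : 2 ≤ lg n := Nat.le_log_of_pow_le (by norm_num) (by simpa using hn)
    refine hv.1.trans ?_
    nlinarith
  · exact hmod (NUF.const 1) (NUF.proj 1)
  · exact hmod (NUF.mul (NUF.proj 1) (NUF.const b)) (NUF.proj 3)
  · exact Eventually.of_forall fun n v _ => by simp
  · refine Eventually.of_forall fun n v _ j _ => ?_
    rw [pow_succ, Nat.mod_mul_mod]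
  · refine Eventually.of_forall fun n v hv j _ => ?_
    exact (Nat.mod_lt _ (by omega)).le.trans hv.2.2

/-- powers of a fixed base below `n`, non-uniformly -/
theorem nuf_pow {b : ℕ} (hb : 2 ≤ b) :
    NUF 1 (fun n w => b ^ w 0 ≤ n) (fun _ w => b ^ w 0) := by
  have hexp : ∀ n j : ℕ, b ^ j ≤ n → j ≤ lg n := by
    intro n j h
    have h1 : 2 ^ j ≤ n := (Nat.pow_le_pow_left hb j).trans h
    exact Nat.le_log_of_pow_le (by norm_num) h1
  refine NUF.ofGraph (B := fun n _ => n + 1) (NUF.param (PolyB.id.add (PolyB.const 1))) ?_ ?_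
  · exact Eventually.of_forall fun n v hv => Nat.lt_succ_of_le hv
  · have h1 : NUP 2 (fun n w => b ^ w 1 ≤ n ∧ w 0 < n + 1)
        (fun n w => ∀ d, d < 2 * (lg n + 1) + 1 → 1 ≤ d → w 0 % d = b ^ w 1 % d) := by
      refine NUP.ball (r := 2) (R := fun _ d w => 1 ≤ d → w 0 % d = b ^ w 1 % d)
        (NUF.param ?_) ?_
      · have h := (recDef_polylg 1).mul (PolyB.const 2)
        have h' := h.add (PolyB.const 3)
        refine h'.mono (Eventually.of_forall fun n => ?_)
        simp only [pow_one]
        omega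
      · refine NUP.impOn (NUP.leFun (NUF.const 1) (NUF.proj 0)) ?_
        refine NUP.eqFun (NUF.mod (NUF.proj 1) (NUF.proj 0)) ?_
        have h2 := NUF.comp (nuf_powMod b) (r := 3)
          (C := fun n w => ((b ^ w 2 ≤ n ∧ w 1 < n + 1) ∧ w 0 < 2 * (lg n + 1) + 1) ∧ 1 ≤ w 0)
          (h := fun i _ w => (![w 2, w 0] : Fin 2 → ℕ) i) (by
            intro i
            fin_cases i
            · exact NUF.proj 2
            · exact NUF.proj 0) (by
            filter_upwards [eventually_ge_atTop 8] with n hn w hw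
            have h3 : 3 ≤ lg n := Nat.le_log_of_pow_le (by norm_num) (by simpa using hn)
            simp only [Matrix.cons_val_zero, Matrix.cons_val_one]
            refine ⟨(hexp n _ hw.1.1.1).trans (Nat.le_succ _), hw.2, ?_⟩
            have := hw.1.2
            nlinarith)
        refine NUF.mono (NUF.congr h2 (Eventually.of_forall fun n w _ => ?_))
          (Eventually.of_forall fun n w hw => ?_)
        · rfl
        · exact hw
    refine NUP.congr h1 ?_
    filter_upwards [eventually_ge_atTop 4] with n hn w hw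
    constructor
    · intro h d _ _
      rw [h]
      rfl
    · intro h
      refine eq_of_mod_all (m := lg n + 1) (by omega) ?_ ?_ ?_
      · have := lt_two_pow_lg n
        have := hw.2
        omega
      · have h5 := lt_two_pow_lg n
        have h6 : b ^ w 1 ≤ n := hw.1
        exact lt_of_le_of_lt h6 h5
      · intro d h1d h2d
        exact h d (by omega) h1d

/-- The graph of `j ↦ b ^ j` is definable by a bounded formula. -/
theorem delta0_pow {b : ℕ} (hb : 2 ≤ b) : Delta0 2 (fun v => v 0 = b ^ v 1) := by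
  obtain ⟨P, n₀, hP, hs, hc⟩ := uniform_rec (r := 0) (A := fun _ => 1) (DFun.const 1)
    (H := fun _ a _ => a * b) ((DFun.proj 1).mul (DFun.const b)) (φ := fun j _ => b ^ j)
    (fun _ => pow_zero b) (fun j _ => pow_succ b j)
    (Dom := fun n w => b ^ w 0 ≤ n) (nuf_pow hb)
  have h1 : Delta0 2 (fun v => P (Matrix.vecCons (v 0 + n₀) (Matrix.vecCons (v 1)
      (Matrix.vecCons (v 0) Fin.elim0)))) := by
    have := hP.subst (n := 2) (h := Fin.cons (fun v => v 0 + n₀) (Fin.cons (fun v => v 1)
      (Fin.cons (fun v => v 0) Fin.elim0))) (by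
      intro i
      refine Fin.cases ?_ (fun i => ?_) i
      · exact (DFun.proj 0).add (DFun.const n₀)
      · refine Fin.cases ?_ (fun i => ?_) i
        · exact DFun.proj 1
        · refine Fin.cases ?_ (fun i => ?_) i
          · exact DFun.proj 0
          · exact i.elim0)
    refine this.of_iff fun v => ?_
    refine iff_of_eq (congrArg P ?_)
    funext i
    refine Fin.cases ?_ (fun i => ?_) i
    · rfl
    · refine Fin.cases ?_ (fun i => ?_) i
      · rfl
      · refine Fin.cases ?_ (fun i => ?_) i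
        · rfl
        · exact i.elim0
  refine h1.of_iff fun v => ?_
  constructor
  · intro h
    have := hc (v 0 + n₀) (v 1) Fin.elim0 (by omega) (by
      intro i hi
      show b ^ (Matrix.vecCons i Fin.elim0 : Fin 1 → ℕ) 0 ≤ v 0 + n₀
      simp only [Matrix.cons_val_zero]
      have h2 : b ^ i ≤ b ^ v 1 := Nat.pow_le_pow_right (by omega) hi
      omega)
    rw [← h] at this
    exact this
  · intro h
    exact hs _ _ _ _ h

/-- the graph of powers, with functions substituted -/
theorem Delta0.eqPow {b : ℕ} (hb : 2 ≤ b) {n : ℕ} {f g : (Fin n → ℕ) → ℕ} (hf : DFun n f)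
    (hg : DFun n g) : Delta0 n (fun v => f v = b ^ g v) := by
  have := (delta0_pow hb).subst (n := n) (h := ![f, g]) (by
    intro i
    fin_cases i
    · exact hf
    · exact hg)
  exact this.of_iff fun v => Iff.rfl

/-- `x / b ^ i` -/
theorem DFun.divPow {b : ℕ} (hb : 2 ≤ b) {n : ℕ} {f g : (Fin n → ℕ) → ℕ} (hf : DFun n f)
    (hg : DFun n g) : DFun n (fun v => f v / b ^ g v) := by
  refine DFun.ofGraph (b := f) hf (fun v => Nat.div_le_self _ _) ?_
  have h0 : DFun (n + 1) (fun w => w 0) := DFun.proj 0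
  have h1 : Delta0 (n + 1) (fun w => ∃ x, x ≤ f (fun i => w i.succ) ∧
      (x = b ^ g (fun i => w i.succ) ∧ w 0 * x ≤ f (fun i => w i.succ) ∧
        f (fun i => w i.succ) < (w 0 + 1) * x)) := by
    refine Delta0.bexFun hf.weak (P := fun x w => x = b ^ g (fun i => w i.succ) ∧
      w 0 * x ≤ f (fun i => w i.succ) ∧ f (fun i => w i.succ) < (w 0 + 1) * x) ?_
    refine (Delta0.eqPow hb (DFun.proj 0) hg.weak.weak).and
      ((Delta0.leFun ((DFun.proj 1).mul (DFun.proj 0)) hf.weak.weak).and
        (Delta0.ltFun hf.weak.weak (((DFun.proj 1).add (DFun.const 1)).mul (DFun.proj 0))))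
  have h2 : Delta0 (n + 1) (fun w => ∃ x, x ≤ f (fun i => w i.succ) ∧
      x = b ^ g (fun i => w i.succ)) :=
    Delta0.bexFun hf.weak (P := fun x w => x = b ^ g (fun i => w i.succ))
      (Delta0.eqPow hb (DFun.proj 0) hg.weak.weak)
  refine (h1.or (h2.not.and (Delta0.eqFun h0 (DFun.const 0)))).of_iff fun w => ?_
  have hpos : 0 < b ^ g (fun i => w i.succ) := Nat.pos_of_ne_zero (by positivity)
  constructor
  · intro h
    by_cases hle : b ^ g (fun i => w i.succ) ≤ f (fun i => w i.succ)
    · left
      refine ⟨_, hle, rfl, ?_, ?_⟩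
      · rw [h]; exact Nat.div_mul_le_self _ _
      · rw [h]
        have h5 := Nat.div_add_mod (f (fun i => w i.succ)) (b ^ g (fun i => w i.succ))
        have h6 := Nat.mod_lt (f (fun i => w i.succ)) hpos
        calc f (fun i => w i.succ) = b ^ g (fun i => w i.succ) *
              (f (fun i => w i.succ) / b ^ g (fun i => w i.succ)) +
              f (fun i => w i.succ) % b ^ g (fun i => w i.succ) := h5.symm
          _ < b ^ g (fun i => w i.succ) *
              (f (fun i => w i.succ) / b ^ g (fun i => w i.succ)) +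
              b ^ g (fun i => w i.succ) := by omega
          _ = _ := by ring
    · right
      refine ⟨?_, ?_⟩
      · rintro ⟨x, hx, rfl⟩
        exact hle hx
      · rw [h]; exact Nat.div_eq_of_lt (by omega)
  · rintro (⟨x, hx, rfl, h3, h4⟩ | ⟨h3, h4⟩)
    · exact ((Nat.div_eq_iff hpos).2 ⟨h3, by
        have : (w 0 + 1) * b ^ g (fun i => w i.succ) =
          w 0 * b ^ g (fun i => w i.succ) + b ^ g (fun i => w i.succ) := by ring
        omega⟩).symm
    · rw [h4]
      refine (Nat.div_eq_of_lt ?_).symm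
      by_contra h5
      exact h3 ⟨_, not_lt.1 h5, rfl⟩

/-- digits -/
theorem DFun.dig {b : ℕ} (hb : 2 ≤ b) {n : ℕ} {f g : (Fin n → ℕ) → ℕ} (hf : DFun n f)
    (hg : DFun n g) : DFun n (fun v => GAvg.dig b (f v) (g v)) := by
  have h := (DFun.divPow hb hf hg).mod (DFun.const (n := n) (b - 1))
  have h2 : (fun v => f v / b ^ g v % (b - 1 + 1)) = fun v => GAvg.dig b (f v) (g v) := by
    funext v
    rw [Nat.sub_add_cancel (by omega)]
    rfl
  rwa [h2] at h

/-- the binary logarithm -/
theorem DFun.lg {n : ℕ} {f : (Fin n → ℕ) → ℕ} (hf : DFun n f) : DFun n (fun v => lg (f v)) := by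
  refine DFun.ofGraph (b := f) hf (fun v => Nat.log_le_self 2 (f v)) ?_
  have h0 : DFun (n + 1) (fun w => w 0) := DFun.proj 0
  have hd : DFun (n + 1) (fun w => f (fun i => w i.succ) / 2 ^ w 0) :=
    DFun.divPow (le_refl 2) hf.weak h0
  refine ((Delta0.eqFun hd (DFun.const 1)).or ((Delta0.eqFun hf.weak (DFun.const 0)).and
    (Delta0.eqFun h0 (DFun.const 0)))).of_iff fun w => ?_
  rcases Nat.eq_zero_or_pos (f (fun i => w i.succ)) with hz | hp
  · rw [hz]
    simp [GAvg.lg]
  · constructor
    · intro h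
      left
      rw [h]
      have h1 := lg_pow_ge (f (fun i => w i.succ)) hp
      have h2 := lt_two_pow_lg (f (fun i => w i.succ))
      rw [Nat.div_eq_iff (by positivity)]
      rw [pow_succ] at h2
      constructor <;> omega
    · rintro (h | ⟨h, -⟩)
      · rw [Nat.div_eq_iff (by positivity)] at h
        symm
        refine (Nat.log_eq_iff (by right; exact ⟨by norm_num, hp.ne'⟩)).2 ⟨by omega, ?_⟩
        rw [pow_succ]
        have : 0 < 2 ^ w 0 := by positivity
        omega
      · omega

end Pool.Agent.PTr
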