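import Mathlib
import Pool.Agent.PTr.Pow

/-!
# Logarithmically long runs of linear machines are definable by bounded formulas

A linear machine has finitely many registers with values in `ℕ` and finitely many instructions,
each of them a linear map with integer coefficients together with a `Delta0` guard.
-/

set_option autoImplicit false

namespace Pool.Agent.PTr

open Finset Filter Pool.Agent.Grz Pool.Agent.GAvg

/-- predicates of states which are `Delta0` for all `DFun` substitutions -/
def DK {κ : Type} (P : (κ → ℕ) → Prop) : Prop :=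
  ∀ (n : ℕ) (g : κ → (Fin n → ℕ) → ℕ), (∀ k, DFun n (g k)) → Delta0 n (fun v => P (fun k => g k v))

/-- a linear step with integer matrix `A - B` -/
def Lin {κ : Type} [Fintype κ] (A B : κ → κ → ℕ) (s t : κ → ℕ) : Prop :=
  ∀ k, t k + ∑ l, B k l * s l = ∑ l, A k l * s l

/-- `Run A B G L s t`: the machine goes from `s` to `t` in `L` steps. -/
inductive Run {ι κ : Type} [Fintype κ] (A B : ι → κ → κ → ℕ) (G : ι → (κ → ℕ) → Prop) :
    ℕ → (κ → ℕ) → (κ → ℕ) → Prop
  | refl (s : κ → ℕ) : Run A B G 0 s s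
  | step {L : ℕ} {s t u : κ → ℕ} (i : ι) : Run A B G L s t → G i t → Lin (A i) (B i) t u →
      Run A B G (L + 1) s u

section tools

theorem DFun.divPos {n : ℕ} {f g : (Fin n → ℕ) → ℕ} (hf : DFun n f) (hg : DFun n g)
    (h : ∀ v, 0 < g v) : DFun n (fun v => f v / g v) := by
  have h1 := hf.div (hg.sub (DFun.const 1))
  have h2 : (fun v => f v / (g v - 1 + 1)) = fun v => f v / g v := by
    funext v
    rw [Nat.sub_add_cancel (h v)]
  rwa [h2] at h1

theorem DFun.modPos {n : ℕ} {f g : (Fin n → ℕ) → ℕ} (hf : DFun n f) (hg : DFun n g)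
    (h : ∀ v, 0 < g v) : DFun n (fun v => f v % g v) := by
  have h1 := hf.mod (hg.sub (DFun.const 1))
  have h2 : (fun v => f v % (g v - 1 + 1)) = fun v => f v % g v := by
    funext v
    rw [Nat.sub_add_cancel (h v)]
  rwa [h2] at h1

theorem DFun.powConst {n : ℕ} {f : (Fin n → ℕ) → ℕ} (hf : DFun n f) (k : ℕ) :
    DFun n (fun v => f v ^ k) := by
  induction k with
  | zero => simpa using DFun.const (n := n) 1
  | succ k ih =>
    have := ih.mul hf
    simpa only [pow_succ] using this

theorem DFun.finSum {n : ℕ} {α : Type} (s : Finset α) {f : α → (Fin n → ℕ) → ℕ}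
    (hf : ∀ a, DFun n (f a)) : DFun n (fun v => ∑ a ∈ s, f a v) := by
  classical
  induction s using Finset.induction_on with
  | empty => simpa using DFun.const (n := n) 0
  | insert a s ha ih =>
    have := (hf a).add ih
    simpa only [Finset.sum_insert ha] using this

theorem Delta0.finAll {n : ℕ} {α : Type} (s : Finset α) {P : α → (Fin n → ℕ) → Prop}
    (hP : ∀ a, Delta0 n (P a)) : Delta0 n (fun v => ∀ a ∈ s, P a v) := by
  classical
  induction s using Finset.induction_on with
  | empty => exact (Delta0.eqFun (DFun.const 0) (DFun.const 0)).of_iff fun v => by simp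
  | insert a s ha ih =>
    refine ((hP a).and ih).of_iff fun v => ?_
    simp only [Finset.mem_insert, forall_eq_or_imp]

theorem Delta0.finEx {n : ℕ} {α : Type} (s : Finset α) {P : α → (Fin n → ℕ) → Prop}
    (hP : ∀ a, Delta0 n (P a)) : Delta0 n (fun v => ∃ a ∈ s, P a v) := by
  refine ((Delta0.finAll s fun a => (hP a).not).not).of_iff fun v => ?_
  push Not
  rfl

theorem Delta0.allOf {n : ℕ} {α : Type} [Fintype α] {P : α → (Fin n → ℕ) → Prop}
    (hP : ∀ a, Delta0 n (P a)) : Delta0 n (fun v => ∀ a, P a v) :=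
  (Delta0.finAll Finset.univ hP).of_iff fun v => by simp

theorem Delta0.exOf {n : ℕ} {α : Type} [Fintype α] {P : α → (Fin n → ℕ) → Prop}
    (hP : ∀ a, Delta0 n (P a)) : Delta0 n (fun v => ∃ a, P a v) :=
  (Delta0.finEx Finset.univ hP).of_iff fun v => by simp

/-- functions with finite support -/
theorem DFun.table (c : ℕ → ℕ) (m : ℕ) {n : ℕ} {f : (Fin n → ℕ) → ℕ} (hf : DFun n f) :
    DFun n (fun v => if f v < m then c (f v) else 0) := by
  induction m with
  | zero => simpa using DFun.const (n := n) 0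
  | succ m ih =>
    have h := DFun.ite (Delta0.eqFun hf (DFun.const m)) (DFun.const (c m)) ih
    refine (show (fun v => if f v < m + 1 then c (f v) else 0) = _ from ?_) ▸ h
    funext v
    by_cases h1 : f v = m
    · rw [if_pos (by omega), if_pos h1, h1]
    · rw [if_neg h1]
      by_cases h2 : f v < m
      · rw [if_pos (by omega), if_pos h2]
      · rw [if_neg (by omega), if_neg h2]

/-- bounded quantification over vectors -/
theorem Delta0.bexVec {D : ℕ} : ∀ {n : ℕ} {b : (Fin n → ℕ) → ℕ}, DFun n b →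
    ∀ {P : (Fin D → ℕ) → (Fin n → ℕ) → Prop},
    (∀ (m : ℕ) (x : Fin D → (Fin m → ℕ) → ℕ) (v : Fin n → (Fin m → ℕ) → ℕ),
      (∀ k, DFun m (x k)) → (∀ i, DFun m (v i)) →
        Delta0 m (fun w => P (fun k => x k w) (fun i => v i w))) →
    Delta0 n (fun v => ∃ x : Fin D → ℕ, (∀ k, x k ≤ b v) ∧ P x v) := by
  induction D with
  | zero =>
    intro n b hb P hP
    refine (hP n Fin.elim0 (fun i v => v i) (fun k => k.elim0) (fun i => DFun.proj i)).of_iff
      fun v => ?_
    constructor
    · rintro ⟨x, -, hx⟩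
      have : x = fun k => (Fin.elim0 k : (Fin n → ℕ) → ℕ) v := funext fun k => k.elim0
      rw [this] at hx
      exact hx
    · intro h
      exact ⟨_, fun k => k.elim0, h⟩
  | succ D ih =>
    intro n b hb P hP
    have h1 := ih (n := n + 1) (b := fun w => b (fun i => w i.succ)) hb.weak
      (P := fun x w => P (Fin.cons (w 0) x) (fun i => w i.succ)) (by
        intro m x v hx hv
        have h2 := hP m (Fin.cons (v 0) x) (fun i => v i.succ) (by
          intro k
          refine Fin.cases ?_ (fun k => ?_) k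
          · exact hv 0
          · exact hx k) (fun i => hv _)
        refine h2.of_iff fun w => ?_
        refine iff_of_eq (congrArg (fun z => P z _) ?_)
        funext k
        refine Fin.cases ?_ (fun k => ?_) k
        · rfl
        · rfl)
    have h2 := Delta0.bexFun hb (P := fun x0 v => ∃ x : Fin D → ℕ, (∀ k, x k ≤ b v) ∧
      P (Fin.cons x0 x) v) h1
    refine h2.of_iff fun v => ?_
    constructor
    · rintro ⟨x, hx, hP⟩
      refine ⟨x 0, hx 0, fun k => x k.succ, fun k => hx _, ?_⟩
      have : (Fin.cons (x 0) (fun k : Fin D => x k.succ) : Fin (D + 1) → ℕ) = x :=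
        Fin.cons_self_tail x
      rw [this]
      exact hP
    · rintro ⟨x0, hx0, x, hx, hP⟩
      refine ⟨Fin.cons x0 x, ?_, hP⟩
      intro k
      refine Fin.cases ?_ (fun k => ?_) k
      · exact hx0
      · exact hx k

end tools

section core

variable {m D : ℕ}

/-- the code of the residues modulo `d + 1` -/
def code (d : ℕ) (x : Fin D → ℕ) : ℕ := ∑ k : Fin D, x k % (d + 1) * (d + 1) ^ (k : ℕ)

theorem code_eq_range (d : ℕ) (x : Fin D → ℕ) :
    code d x = ∑ i ∈ range D, (if h : i < D then x ⟨i, h⟩ % (d + 1) else 0) * (d + 1) ^ i := by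
  unfold code
  rw [Finset.sum_range]
  refine Finset.sum_congr rfl fun k _ => ?_
  rw [dif_pos k.isLt]

theorem dig_code (d : ℕ) (x : Fin D → ℕ) (k : Fin D) :
    GAvg.dig (d + 1) (code d x) k = x k % (d + 1) := by
  rw [code_eq_range, GAvg.dig_sum (Nat.succ_pos d)
    (fun i => if h : i < D then x ⟨i, h⟩ % (d + 1) else 0) ?_ k.isLt]
  · rw [dif_pos k.isLt]
  · intro i hi
    rw [dif_pos hi]
    exact Nat.mod_lt _ (Nat.succ_pos d)

theorem code_lt (d : ℕ) (x : Fin D → ℕ) : code d x < (d + 1) ^ D := by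
  rw [code_eq_range]
  refine GAvg.sum_lt (Nat.succ_pos d)
    (fun i => if h : i < D then x ⟨i, h⟩ % (d + 1) else 0) ?_
  intro i hi
  rw [dif_pos hi]
  exact Nat.mod_lt _ (Nat.succ_pos d)

/-- the coefficients, extended to all numbers of instructions -/
def ext (A : Fin m → Fin D → Fin D → ℕ) (i : ℕ) (k l : Fin D) : ℕ :=
  if h : i < m then A ⟨i, h⟩ k l else 0

/-- one step modulo `d + 1` -/
def stepMod (A B : Fin m → Fin D → Fin D → ℕ) (d i : ℕ) (x : Fin D → ℕ) (k : Fin D) : ℕ :=
  ∑ l, ext A i k l * x l + d * ∑ l, ext B i k l * x l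

/-- the states modulo `d + 1` along the word `W` -/
def fmod (A B : Fin m → Fin D → Fin D → ℕ) (d W : ℕ) (s : Fin D → ℕ) : ℕ → Fin D → ℕ
  | 0 => s
  | j + 1 => fun k => stepMod A B d (GAvg.dig (m + 2) W j) (fun l => fmod A B d W s j l % (d + 1)) k

/-- the recursion for codes -/
def hfun (A B : Fin m → Fin D → Fin D → ℕ) (j a : ℕ) (v : Fin (D + 2) → ℕ) : ℕ :=
  code (v 0) (fun k => stepMod A B (v 0) (GAvg.dig (m + 2) (v 1) j)
    (fun l => GAvg.dig (v 0 + 1) a l) k)

theorem DFun.code {n : ℕ} {d : (Fin n → ℕ) → ℕ} {x : Fin D → (Fin n → ℕ) → ℕ}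
    (hd : DFun n d) (hx : ∀ k, DFun n (x k)) : DFun n (fun v => code (d v) (fun k => x k v)) := by
  unfold PTr.code
  refine DFun.finSum _ fun k => ?_
  exact ((hx k).mod hd).mul (DFun.powConst (hd.add (DFun.const 1)) _)

theorem DFun.ext (A : Fin m → Fin D → Fin D → ℕ) (k l : Fin D) {n : ℕ} {f : (Fin n → ℕ) → ℕ}
    (hf : DFun n f) : DFun n (fun v => ext A (f v) k l) := by
  have h := DFun.table (fun i => if h : i < m then A ⟨i, h⟩ k l else 0) m hf
  refine (show (fun v => PTr.ext A (f v) k l) = _ from ?_) ▸ h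
  funext v
  unfold PTr.ext
  by_cases h1 : f v < m
  · rw [if_pos h1]
  · rw [if_neg h1, dif_neg h1]

theorem DFun.stepMod (A B : Fin m → Fin D → Fin D → ℕ) {n : ℕ} {d i : (Fin n → ℕ) → ℕ}
    {x : Fin D → (Fin n → ℕ) → ℕ} (hd : DFun n d) (hi : DFun n i) (hx : ∀ k, DFun n (x k))
    (k : Fin D) : DFun n (fun v => stepMod A B (d v) (i v) (fun l => x l v) k) := by
  unfold PTr.stepMod
  exact (DFun.finSum _ fun l => (DFun.ext A k l hi).mul (hx l)).add
    (hd.mul (DFun.finSum _ fun l => (DFun.ext B k l hi).mul (hx l)))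

theorem DFun.hfun (A B : Fin m → Fin D → Fin D → ℕ) {n : ℕ} {j a : (Fin n → ℕ) → ℕ}
    {v : Fin (D + 2) → (Fin n → ℕ) → ℕ} (hj : DFun n j) (ha : DFun n a) (hv : ∀ i, DFun n (v i)) :
    DFun n (fun w => hfun A B (j w) (a w) (fun i => v i w)) := by
  unfold PTr.hfun
  refine DFun.code (hv 0) fun k => ?_
  refine DFun.stepMod A B (hv 0) (DFun.dig (by omega) (hv 1) hj) (fun l => ?_) k
  unfold GAvg.dig
  refine DFun.modPos (DFun.divPos ha (DFun.powConst ((hv 0).add (DFun.const 1)) _) ?_)
    ((hv 0).add (DFun.const 1)) (fun _ => Nat.succ_pos _)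
  intro w
  positivity

theorem hfun_spec (A B : Fin m → Fin D → Fin D → ℕ) (j d W : ℕ) (s : Fin D → ℕ) :
    code d (fmod A B d W s (j + 1)) =
      hfun A B j (code d (fmod A B d W s j)) (Matrix.vecCons d (Matrix.vecCons W s)) := by
  unfold hfun
  simp only [Matrix.cons_val_zero, Matrix.cons_val_one]
  congr 1
  funext k
  simp only [fmod]
  congr 1
  funext l
  rw [dig_code]

/-- the residues of the states along a word, by bounded formulas -/
theorem exists_resid (A B : Fin m → Fin D → Fin D → ℕ) :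
    ∃ (P : (Fin (D + 5) → ℕ) → Prop) (n₀ : ℕ), Delta0 (D + 5) P ∧
      (∀ n j y d W s, P (Matrix.vecCons n (Matrix.vecCons j (Matrix.vecCons y
        (Matrix.vecCons d (Matrix.vecCons W s))))) → y = code d (fmod A B d W s j)) ∧
      ∀ n j d W s, n₀ ≤ n → j ≤ lg n → d ≤ lg n →
        P (Matrix.vecCons n (Matrix.vecCons j (Matrix.vecCons (code d (fmod A B d W s j))
          (Matrix.vecCons d (Matrix.vecCons W s))))) := by
  set φ : ℕ → (Fin (D + 2) → ℕ) → ℕ := fun j v =>
    code (v 0) (fmod A B (v 0) (v 1) (fun k => v k.succ.succ) j) with hφ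
  have hA : DFun (D + 2) (fun v => code (v 0) (fun k : Fin D => v k.succ.succ)) :=
    DFun.code (DFun.proj 0) (fun k => DFun.proj _)
  have hH : DFun (D + 2 + 2) (fun w => hfun A B (w 0) (w 1) (fun i => w i.succ.succ)) :=
    DFun.hfun A B (DFun.proj 0) (DFun.proj 1) (fun i => DFun.proj _)
  have h0 : ∀ v : Fin (D + 2) → ℕ, φ 0 v = code (v 0) (fun k : Fin D => v k.succ.succ) :=
    fun v => rfl
  have h1 : ∀ j (v : Fin (D + 2) → ℕ), φ (j + 1) v = hfun A B j (φ j v) v := by
    intro j v
    have h := hfun_spec A B j (v 0) (v 1) (fun k => v k.succ.succ)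
    rw [hφ]
    simp only
    rw [h]
    congr 1
    funext i
    refine Fin.cases ?_ (fun i => ?_) i
    · rfl
    · refine Fin.cases ?_ (fun i => ?_) i
      · rfl
      · rfl
  have hN : NUF (D + 2 + 1) (fun n w => w 0 ≤ lg n ∧ w 1 ≤ lg n)
      (fun _ w => φ (w 0) (fun i => w i.succ)) := by
    refine NUF.recLog (r := D + 2 + 1) (2 * D) 1 (L := fun _ w => w 0)
      (A₀ := fun _ w => code (w 1) (fun k : Fin D => w k.succ.succ.succ))
      (H := fun _ j a w => hfun A B j a (fun i => w i.succ))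
      (f := fun _ j w => φ j (fun i => w i.succ)) (NUF.proj 0) ?_ ?_ ?_ ?_ ?_ ?_
    · refine Eventually.of_forall fun n v hv => ?_
      rw [pow_one]
      exact hv.1
    · exact Adv.ofDFun (DFun.code (DFun.proj 1) (fun k => DFun.proj _))
    · exact Adv.ofDFun (k := fun w : Fin (D + 2 + 1 + 2) → ℕ =>
        hfun A B (w 0) (w 1) (fun i => w i.succ.succ.succ))
        (DFun.hfun A B (DFun.proj 0) (DFun.proj 1) (fun i => DFun.proj _))
    · exact Eventually.of_forall fun n v _ => h0 (fun i => v i.succ)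
    · exact Eventually.of_forall fun n v _ j _ => h1 j (fun i => v i.succ)
    · filter_upwards [eventually_ge_atTop 4] with n hn v hv j _
      have h2 : 2 ≤ lg n := Nat.le_log_of_pow_le (by norm_num) (by simpa using hn)
      refine (code_lt _ _).le.trans ?_
      rw [pow_mul]
      refine Nat.pow_le_pow_left ?_ D
      have : v 1 ≤ lg n := hv.2
      show v (Fin.succ 0) + 1 ≤ lg n ^ 2
      have h3 : v (Fin.succ 0) ≤ lg n := this
      nlinarith
  obtain ⟨P, n₀, hP, hs, hc⟩ := uniform_rec hA hH h0 h1 hN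
  refine ⟨P, n₀, hP, ?_, ?_⟩
  · intro n j y d W s h
    exact hs n j y _ h
  · intro n j d W s hn hj hd
    exact hc n j (Matrix.vecCons d (Matrix.vecCons W s)) hn (fun i hi => ⟨hi.trans hj, hd⟩)

end core

end Pool.Agent.PTr
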