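import Mathlib
import Pool.Agent.PTr.Chain

/-!
# Logarithmically long runs of linear machines are definable by bounded formulas (continued)
-/

set_option autoImplicit false

namespace Pool.Agent.PTr

open Finset Filter Pool.Agent.Grz Pool.Agent.GAvg

section core

variable {m D : ℕ}

theorem code_congr {d : ℕ} {x y : Fin D → ℕ} (h : ∀ k, x k % (d + 1) = y k % (d + 1)) :
    code d x = code d y := by
  unfold code
  exact Finset.sum_congr rfl fun k _ => by rw [h k]

theorem mod_eq_of_code {d : ℕ} {x y : Fin D → ℕ} (h : code d x = code d y) (k : Fin D) :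
    x k % (d + 1) = y k % (d + 1) := by
  rw [← dig_code, ← dig_code, h]

theorem eq_of_codes {e a : ℕ} (ha : 1 ≤ a) (hae : 2 * a ≤ e + 1) {x y : Fin D → ℕ}
    (hx : ∀ k, x k < 2 ^ a) (hy : ∀ k, y k < 2 ^ a) (h : ∀ d, d ≤ e → code d x = code d y) :
    x = y := by
  funext k
  refine eq_of_mod_all ha (hx k) (hy k) fun d h1 h2 => ?_
  obtain ⟨d', rfl⟩ : ∃ d', d = d' + 1 := ⟨d - 1, by omega⟩
  exact mod_eq_of_code (h d' (by omega)) k

theorem lin_mod (A B : Fin m → Fin D → Fin D → ℕ) (d : ℕ) (i : Fin m) {x y : Fin D → ℕ}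
    (h : Lin (A i) (B i) x y) {z : Fin D → ℕ} (hz : ∀ k, z k % (d + 1) = x k % (d + 1))
    (k : Fin D) : stepMod A B d i (fun l => z l % (d + 1)) k % (d + 1) = y k % (d + 1) := by
  have h1 := h k
  have e1 : ∀ l, ext A i k l = A i k l := fun l => by
    unfold ext; rw [dif_pos i.isLt]
  have e2 : ∀ l, ext B i k l = B i k l := fun l => by
    unfold ext; rw [dif_pos i.isLt]
  have hs : ∀ C : Fin D → ℕ, (∑ l, C l * (z l % (d + 1))) ≡ ∑ l, C l * x l [MOD (d + 1)] := by
    intro C
    unfold Nat.ModEq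
    rw [Finset.sum_nat_mod, Finset.sum_nat_mod (f := fun l => C l * x l)]
    congr 1
    refine Finset.sum_congr rfl fun l _ => ?_
    rw [Nat.mul_mod, Nat.mod_mod, hz l, ← Nat.mul_mod]
  unfold stepMod
  simp only [e1, e2]
  have h2 := (hs (A i k)).add ((hs (B i k)).mul_left d)
  have h3 : (∑ l, A i k l * x l) + d * ∑ l, B i k l * x l =
      y k + (d + 1) * ∑ l, B i k l * x l := by
    rw [← h1]; ring
  rw [h3] at h2
  have h4 : y k + (d + 1) * ∑ l, B i k l * x l ≡ y k [MOD (d + 1)] := by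
    have : (d + 1) * ∑ l, B i k l * x l ≡ 0 [MOD (d + 1)] := by
      exact (Nat.modEq_zero_iff_dvd).2 (Dvd.intro _ rfl)
    have h5 := (Nat.ModEq.refl (y k)).add this
    rwa [Nat.add_zero] at h5
  exact h2.trans h4

theorem fmod_path (A B : Fin m → Fin D → Fin D → ℕ) (d W : ℕ) {p : ℕ → Fin D → ℕ} {L : ℕ}
    (hp : ∀ j, j < L → ∃ i : Fin m, GAvg.dig (m + 2) W j = i ∧ Lin (A i) (B i) (p j) (p (j + 1))) :
    ∀ j, j ≤ L → ∀ k, fmod A B d W (p 0) j k % (d + 1) = p j k % (d + 1) := by
  intro j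
  induction j with
  | zero => intro _ k; rfl
  | succ j ih =>
    intro hj k
    obtain ⟨i, hi, hl⟩ := hp j (by omega)
    have := lin_mod A B d i hl (z := fun l => fmod A B d W (p 0) j l) (ih (by omega)) k
    rw [← this]
    simp only [fmod]
    rw [hi]

/-- runs as sequences -/
theorem run_iff_path {ι κ : Type} [Fintype κ] (A B : ι → κ → κ → ℕ)
    (G : ι → (κ → ℕ) → Prop) (L : ℕ) (s t : κ → ℕ) :
    Run A B G L s t ↔ ∃ p : ℕ → κ → ℕ, p 0 = s ∧ p L = t ∧
      ∀ j, j < L → ∃ i, G i (p j) ∧ Lin (A i) (B i) (p j) (p (j + 1)) := by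
  constructor
  · intro h
    induction h with
    | refl s => exact ⟨fun _ => s, rfl, rfl, fun j hj => absurd hj (Nat.not_lt_zero j)⟩
    | @step L s t u i _ hG hL ih =>
      obtain ⟨p, h0, h1, h2⟩ := ih
      refine ⟨fun j => if j ≤ L then p j else u, ?_, ?_, ?_⟩
      · simp [h0]
      · simp
      · intro j hj
        rcases Nat.lt_or_ge j L with hj' | hj'
        · simp only [if_pos hj'.le, if_pos (Nat.succ_le_of_lt hj')]
          exact h2 j hj'
        · have : j = L := by omega
          subst this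
          refine ⟨i, ?_, ?_⟩
          · simp only [le_refl, if_true]; rw [h1]; exact hG
          · simp only [le_refl, if_true, if_neg (Nat.not_succ_le_self j)]
            rw [h1]; exact hL
  · rintro ⟨p, h0, h1, h2⟩
    have key : ∀ j, j ≤ L → Run A B G j s (p j) := by
      intro j
      induction j with
      | zero => intro _; rw [h0]; exact Run.refl s
      | succ j ih =>
        intro hj
        obtain ⟨i, hi, hl⟩ := h2 j (by omega)
        exact Run.step i (ih (by omega)) hi hl
    rw [← h1]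
    exact key L le_rfl

theorem lin_sum_le {κ : Type} [Fintype κ] {A B : κ → κ → ℕ} {c : ℕ}
    (hc : (∑ k, ∑ l, A k l) ≤ c) {x y : κ → ℕ} (h : Lin A B x y) : ∑ k, y k ≤ c * ∑ l, x l := by
  calc ∑ k, y k ≤ ∑ k, ∑ l, A k l * x l := by
        refine Finset.sum_le_sum fun k _ => ?_
        have := h k
        omega
    _ ≤ ∑ k, ∑ l, A k l * ∑ l', x l' := by
        refine Finset.sum_le_sum fun k _ => Finset.sum_le_sum fun l _ => ?_
        exact Nat.mul_le_mul_left _ (Finset.single_le_sum (fun _ _ => Nat.zero_le _)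
          (Finset.mem_univ l))
    _ = (∑ k, ∑ l, A k l) * ∑ l', x l' := by
        rw [Finset.sum_mul]
        refine Finset.sum_congr rfl fun k _ => ?_
        rw [Finset.sum_mul]
    _ ≤ c * ∑ l, x l := Nat.mul_le_mul_right _ hc

theorem path_sum_le {ι κ : Type} [Fintype ι] [Fintype κ] {A B : ι → κ → κ → ℕ}
    {p : ℕ → κ → ℕ} {L : ℕ} (hp : ∀ j, j < L → ∃ i, Lin (A i) (B i) (p j) (p (j + 1))) :
    ∀ j, j ≤ L → ∑ k, p j k ≤ (1 + ∑ i, ∑ k, ∑ l, A i k l) ^ j * ∑ k, p 0 k := by
  intro j
  induction j with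
  | zero => intro _; simp
  | succ j ih =>
    intro hj
    obtain ⟨i, hi⟩ := hp j (by omega)
    have h1 : (∑ k, ∑ l, A i k l) ≤ 1 + ∑ i, ∑ k, ∑ l, A i k l :=
      (Finset.single_le_sum (f := fun i => ∑ k, ∑ l, A i k l) (fun _ _ => Nat.zero_le _)
        (Finset.mem_univ i)).trans (Nat.le_add_left _ _)
    have h2 := lin_sum_le h1 hi
    calc ∑ k, p (j + 1) k ≤ (1 + ∑ i, ∑ k, ∑ l, A i k l) * ∑ l, p j l := h2
      _ ≤ (1 + ∑ i, ∑ k, ∑ l, A i k l) * ((1 + ∑ i, ∑ k, ∑ l, A i k l) ^ j * ∑ k, p 0 k) :=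
        Nat.mul_le_mul_left _ (ih (by omega))
      _ = (1 + ∑ i, ∑ k, ∑ l, A i k l) ^ (j + 1) * ∑ k, p 0 k := by ring

theorem pow_le_poly (c C w L : ℕ) (hL : L ≤ C * (lg w + 1)) :
    c ^ L ≤ (2 * (w + 1)) ^ (c * C) := by
  have h0 : 2 ^ lg w ≤ w + 1 := by
    rcases Nat.eq_zero_or_pos w with h | h
    · subst h; simp [lg]
    · exact (lg_pow_ge w h).trans (Nat.le_succ w)
  calc c ^ L ≤ (2 ^ c) ^ L := Nat.pow_le_pow_left (Nat.lt_two_pow_self).le L
    _ = 2 ^ (c * L) := by rw [← pow_mul]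
    _ ≤ 2 ^ (c * (C * (lg w + 1))) := Nat.pow_le_pow_right (by norm_num) (Nat.mul_le_mul_left _ hL)
    _ = (2 ^ (lg w + 1)) ^ (c * C) := by rw [← pow_mul]; congr 1; ring
    _ ≤ (2 * (w + 1)) ^ (c * C) := Nat.pow_le_pow_left (by rw [pow_succ]; omega) _

theorem exists_word {b : ℕ} (hb : 2 ≤ b) (L : ℕ) (σ : ℕ → ℕ) (hσ : ∀ j, j < L → σ j < b) :
    ∃ W, W < b ^ L ∧ ∀ j, j < L → GAvg.dig b W j = σ j := by
  refine ⟨∑ j ∈ range L, σ j * b ^ j, GAvg.sum_lt (by omega) σ hσ, fun j hj => ?_⟩
  exact GAvg.dig_sum (by omega) σ hσ hj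

theorem run_delta0_fin (A B : Fin m → Fin D → Fin D → ℕ) (G : Fin m → (Fin D → ℕ) → Prop)
    (hG : ∀ i, DK (G i)) (C : ℕ) {n : ℕ} {w : (Fin n → ℕ) → ℕ} (hw : DFun n w)
    {s t : Fin D → (Fin n → ℕ) → ℕ} (hs : ∀ k, DFun n (s k)) (ht : ∀ k, DFun n (t k)) :
    Delta0 n (fun v => ∃ L, L ≤ C * (lg (w v) + 1) ∧
      Run A B G L (fun k => s k v) (fun k => t k v)) := by
  obtain ⟨P, n₀, hP, hPs, hPc⟩ := exists_resid A B
  set lam : ℕ := 1 + ∑ i, ∑ k, ∑ l, A i k l with hlam
  set Bd : (Fin n → ℕ) → ℕ := fun v => (2 * (w v + 1)) ^ (lam * C) * ∑ k, s k v with hBd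
  set Nn : (Fin n → ℕ) → ℕ := fun v => n₀ + ((2 * (w v + 1)) ^ C + 4 * (Bd v + 1) ^ 2) with hNn
  set Wb : (Fin n → ℕ) → ℕ := fun v => (2 * (w v + 1)) ^ ((m + 2) * C) with hWb
  have h2w : DFun n (fun v => 2 * (w v + 1)) := (DFun.const 2).mul (hw.add (DFun.const 1))
  have hBdD : DFun n Bd := (DFun.powConst h2w _).mul (DFun.finSum _ hs)
  have hNnD : DFun n Nn := (DFun.const n₀).add ((DFun.powConst h2w _).add
    ((DFun.const 4).mul (DFun.powConst (hBdD.add (DFun.const 1)) 2)))
  have hWbD : DFun n Wb := DFun.powConst h2w _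
  -- the predicate comparing a vector with the state number `j`
  have hVal : ∀ {r : ℕ} {N j W : (Fin r → ℕ) → ℕ} {x s' : Fin D → (Fin r → ℕ) → ℕ},
      DFun r N → DFun r j → DFun r W → (∀ k, DFun r (x k)) → (∀ k, DFun r (s' k)) →
      Delta0 r (fun v => ∀ d, d ≤ lg (N v) → P (Matrix.vecCons (N v) (Matrix.vecCons (j v)
        (Matrix.vecCons (code d (fun k => x k v)) (Matrix.vecCons d (Matrix.vecCons (W v)
          (fun k => s' k v))))))) := by
    intro r N j W x s' hN hj hW hx hs'
    refine Delta0.ballFun (b := fun v => lg (N v)) (DFun.lg hN)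
      (P := fun d v => P (Matrix.vecCons (N v) (Matrix.vecCons (j v)
        (Matrix.vecCons (code d (fun k => x k v)) (Matrix.vecCons d (Matrix.vecCons (W v)
          (fun k => s' k v))))))) ?_
    have h := hP.subst (n := r + 1) (h := Fin.cons (fun v => N (fun i => v i.succ))
      (Fin.cons (fun v => j (fun i => v i.succ))
        (Fin.cons (fun v => code (v 0) (fun k => x k (fun i => v i.succ)))
          (Fin.cons (fun v => v 0) (Fin.cons (fun v => W (fun i => v i.succ))
            (fun k v => s' k (fun i => v i.succ))))))) (by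
      intro i
      refine Fin.cases hN.weak (fun i => ?_) i
      refine Fin.cases hj.weak (fun i => ?_) i
      refine Fin.cases (DFun.code (DFun.proj 0) (fun k => (hx k).weak)) (fun i => ?_) i
      refine Fin.cases (DFun.proj 0) (fun i => ?_) i
      refine Fin.cases hW.weak (fun i => ?_) i
      exact (hs' i).weak)
    refine h.of_iff fun v => iff_of_eq (congrArg P ?_)
    funext i
    refine Fin.cases rfl (fun i => ?_) i
    refine Fin.cases rfl (fun i => ?_) i
    refine Fin.cases rfl (fun i => ?_) i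
    refine Fin.cases rfl (fun i => ?_) i
    refine Fin.cases rfl (fun i => ?_) i
    rfl
  -- the formula
  have hForm : Delta0 n (fun v => ∃ L, L ≤ C * (lg (w v) + 1) ∧ ∃ W, W ≤ Wb v ∧
      ((∀ k, t k v ≤ Bd v) ∧ (∀ d, d ≤ lg (Nn v) → P (Matrix.vecCons (Nn v) (Matrix.vecCons L
        (Matrix.vecCons (code d (fun k => t k v)) (Matrix.vecCons d (Matrix.vecCons W
          (fun k => s k v))))))) ∧
      ∀ j, j ≤ L → j < L → ∃ x : Fin D → ℕ, (∀ k, x k ≤ Bd v) ∧
        ∃ y : Fin D → ℕ, (∀ k, y k ≤ Bd v) ∧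
          ((∀ d, d ≤ lg (Nn v) → P (Matrix.vecCons (Nn v) (Matrix.vecCons j
            (Matrix.vecCons (code d x) (Matrix.vecCons d (Matrix.vecCons W
              (fun k => s k v))))))) ∧
          (∀ d, d ≤ lg (Nn v) → P (Matrix.vecCons (Nn v) (Matrix.vecCons (j + 1)
            (Matrix.vecCons (code d y) (Matrix.vecCons d (Matrix.vecCons W
              (fun k => s k v))))))) ∧
          ∃ i : Fin m, GAvg.dig (m + 2) W j = i ∧ G i x ∧ Lin (A i) (B i) x y))) := by
    refine Delta0.bexFun ((DFun.const C).mul ((DFun.lg hw).add (DFun.const 1))) (P := fun L v =>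
      ∃ W, W ≤ Wb v ∧
      ((∀ k, t k v ≤ Bd v) ∧ (∀ d, d ≤ lg (Nn v) → P (Matrix.vecCons (Nn v) (Matrix.vecCons L
        (Matrix.vecCons (code d (fun k => t k v)) (Matrix.vecCons d (Matrix.vecCons W
          (fun k => s k v))))))) ∧
      ∀ j, j ≤ L → j < L → ∃ x : Fin D → ℕ, (∀ k, x k ≤ Bd v) ∧
        ∃ y : Fin D → ℕ, (∀ k, y k ≤ Bd v) ∧
          ((∀ d, d ≤ lg (Nn v) → P (Matrix.vecCons (Nn v) (Matrix.vecCons j
            (Matrix.vecCons (code d x) (Matrix.vecCons d (Matrix.vecCons W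
              (fun k => s k v))))))) ∧
          (∀ d, d ≤ lg (Nn v) → P (Matrix.vecCons (Nn v) (Matrix.vecCons (j + 1)
            (Matrix.vecCons (code d y) (Matrix.vecCons d (Matrix.vecCons W
              (fun k => s k v))))))) ∧
          ∃ i : Fin m, GAvg.dig (m + 2) W j = i ∧ G i x ∧ Lin (A i) (B i) x y))) ?_
    refine Delta0.bexFun (b := fun v => Wb (fun i => v i.succ)) hWbD.weak (P := fun W v =>
      ((∀ k, t k (fun i => v i.succ) ≤ Bd (fun i => v i.succ)) ∧
      (∀ d, d ≤ lg (Nn (fun i => v i.succ)) → P (Matrix.vecCons (Nn (fun i => v i.succ))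
        (Matrix.vecCons (v 0) (Matrix.vecCons (code d (fun k => t k (fun i => v i.succ)))
          (Matrix.vecCons d (Matrix.vecCons W (fun k => s k (fun i => v i.succ)))))))) ∧
      ∀ j, j ≤ v 0 → j < v 0 → ∃ x : Fin D → ℕ, (∀ k, x k ≤ Bd (fun i => v i.succ)) ∧
        ∃ y : Fin D → ℕ, (∀ k, y k ≤ Bd (fun i => v i.succ)) ∧
          ((∀ d, d ≤ lg (Nn (fun i => v i.succ)) → P (Matrix.vecCons (Nn (fun i => v i.succ))
            (Matrix.vecCons j (Matrix.vecCons (code d x) (Matrix.vecCons d (Matrix.vecCons W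
              (fun k => s k (fun i => v i.succ)))))))) ∧
          (∀ d, d ≤ lg (Nn (fun i => v i.succ)) → P (Matrix.vecCons (Nn (fun i => v i.succ))
            (Matrix.vecCons (j + 1) (Matrix.vecCons (code d y) (Matrix.vecCons d (Matrix.vecCons W
              (fun k => s k (fun i => v i.succ)))))))) ∧
          ∃ i : Fin m, GAvg.dig (m + 2) W j = i ∧ G i x ∧ Lin (A i) (B i) x y))) ?_
    refine Delta0.and ?_ (Delta0.and ?_ ?_)
    · exact Delta0.allOf fun k => Delta0.leFun (ht k).weak.weak hBdD.weak.weak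
    · exact hVal hNnD.weak.weak (DFun.proj 1) (DFun.proj 0) (fun k => (ht k).weak.weak)
        (fun k => (hs k).weak.weak)
    · refine Delta0.ballFun (b := fun v => v 1) (DFun.proj 1) (P := fun j v => j < v 1 →
        ∃ x : Fin D → ℕ, (∀ k, x k ≤ Bd (fun i => v i.succ.succ)) ∧
        ∃ y : Fin D → ℕ, (∀ k, y k ≤ Bd (fun i => v i.succ.succ)) ∧
          ((∀ d, d ≤ lg (Nn (fun i => v i.succ.succ)) →
            P (Matrix.vecCons (Nn (fun i => v i.succ.succ))
            (Matrix.vecCons j (Matrix.vecCons (code d x) (Matrix.vecCons d (Matrix.vecCons (v 0)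
              (fun k => s k (fun i => v i.succ.succ)))))))) ∧
          (∀ d, d ≤ lg (Nn (fun i => v i.succ.succ)) →
            P (Matrix.vecCons (Nn (fun i => v i.succ.succ))
            (Matrix.vecCons (j + 1) (Matrix.vecCons (code d y) (Matrix.vecCons d
              (Matrix.vecCons (v 0) (fun k => s k (fun i => v i.succ.succ)))))))) ∧
          ∃ i : Fin m, GAvg.dig (m + 2) (v 0) j = i ∧ G i x ∧ Lin (A i) (B i) x y)) ?_
      refine Delta0.imp (Delta0.ltFun (DFun.proj 0) (DFun.proj 2)) ?_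
      refine Delta0.bexVec (n := n + 3) (b := fun v => Bd (fun i => v i.succ.succ.succ))
        hBdD.weak.weak.weak (P := fun x v =>
        ∃ y : Fin D → ℕ, (∀ k, y k ≤ Bd (fun i => v i.succ.succ.succ)) ∧
          ((∀ d, d ≤ lg (Nn (fun i => v i.succ.succ.succ)) →
            P (Matrix.vecCons (Nn (fun i => v i.succ.succ.succ))
            (Matrix.vecCons (v 0) (Matrix.vecCons (code d x) (Matrix.vecCons d
              (Matrix.vecCons (v 1) (fun k => s k (fun i => v i.succ.succ.succ)))))))) ∧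
          (∀ d, d ≤ lg (Nn (fun i => v i.succ.succ.succ)) →
            P (Matrix.vecCons (Nn (fun i => v i.succ.succ.succ))
            (Matrix.vecCons (v 0 + 1) (Matrix.vecCons (code d y) (Matrix.vecCons d
              (Matrix.vecCons (v 1) (fun k => s k (fun i => v i.succ.succ.succ)))))))) ∧
          ∃ i : Fin m, GAvg.dig (m + 2) (v 1) (v 0) = i ∧ G i x ∧ Lin (A i) (B i) x y)) ?_
      intro r x v hx hv
      have c3 : ∀ {f : (Fin n → ℕ) → ℕ}, DFun n f →
          DFun r (fun w => f (fun i => v i.succ.succ.succ w)) :=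
        fun hf => hf.comp (h := fun i => v i.succ.succ.succ) (fun i => hv _)
      refine Delta0.bexVec (n := r) (b := fun w => Bd (fun i => v i.succ.succ.succ w))
        (c3 hBdD) (P := fun y w =>
          ((∀ d, d ≤ lg (Nn (fun i => v i.succ.succ.succ w)) →
            P (Matrix.vecCons (Nn (fun i => v i.succ.succ.succ w))
            (Matrix.vecCons (v 0 w) (Matrix.vecCons (code d (fun k => x k w)) (Matrix.vecCons d
              (Matrix.vecCons (v 1 w) (fun k => s k (fun i => v i.succ.succ.succ w)))))))) ∧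
          (∀ d, d ≤ lg (Nn (fun i => v i.succ.succ.succ w)) →
            P (Matrix.vecCons (Nn (fun i => v i.succ.succ.succ w))
            (Matrix.vecCons (v 0 w + 1) (Matrix.vecCons (code d y) (Matrix.vecCons d
              (Matrix.vecCons (v 1 w) (fun k => s k (fun i => v i.succ.succ.succ w)))))))) ∧
          ∃ i : Fin m, GAvg.dig (m + 2) (v 1 w) (v 0 w) = i ∧ G i (fun k => x k w) ∧
            Lin (A i) (B i) (fun k => x k w) y)) ?_
      intro q y u hy hu
      have c4 : ∀ {f : (Fin r → ℕ) → ℕ}, DFun r f → DFun q (fun w => f (fun i => u i w)) :=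
        fun hf => hf.comp (h := u) hu
      refine Delta0.and ?_ (Delta0.and ?_ ?_)
      · exact hVal (c4 (c3 hNnD)) (c4 (hv 0)) (c4 (hv 1)) (fun k => c4 (hx k))
          (fun k => c4 (c3 (hs k)))
      · exact hVal (c4 (c3 hNnD)) ((c4 (hv 0)).add (DFun.const 1)) (c4 (hv 1)) (fun k => hy k)
          (fun k => c4 (c3 (hs k)))
      · refine Delta0.exOf fun i => ?_
        refine Delta0.and ?_ (Delta0.and ?_ ?_)
        · exact Delta0.eqFun (DFun.dig (by omega) (c4 (hv 1)) (c4 (hv 0))) (DFun.const i)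
        · exact hG i q _ (fun k => c4 (hx k))
        · unfold Lin
          refine Delta0.allOf fun k => ?_
          refine Delta0.eqFun ((hy k).add (DFun.finSum _ fun l =>
            (DFun.const _).mul (c4 (hx l)))) (DFun.finSum _ fun l =>
            (DFun.const _).mul (c4 (hx l)))
  refine hForm.of_iff fun v => ?_
  -- sizes
  have hN0 : n₀ ≤ Nn v := Nat.le_add_right _ _
  have hlgN : ∀ L, L ≤ C * (lg (w v) + 1) → L ≤ lg (Nn v) := by
    intro L hL
    refine hL.trans (Nat.le_log_of_pow_le (by norm_num) ?_)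
    have h0 : 2 ^ lg (w v) ≤ w v + 1 := by
      rcases Nat.eq_zero_or_pos (w v) with h | h
      · rw [h]; simp [lg]
      · exact (lg_pow_ge _ h).trans (Nat.le_succ _)
    calc 2 ^ (C * (lg (w v) + 1)) = (2 ^ (lg (w v) + 1)) ^ C := by rw [← pow_mul]; congr 1; ring
      _ ≤ (2 * (w v + 1)) ^ C := Nat.pow_le_pow_left (by rw [pow_succ]; omega) _
      _ ≤ Nn v := by rw [hNn]; simp only; omega
  set a : ℕ := lg (Bd v) + 1 with ha
  have hBa : Bd v < 2 ^ a := lt_two_pow_lg _
  have hae : 2 * a ≤ lg (Nn v) + 1 := by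
    have : 2 * a ≤ lg (Nn v) := by
      refine Nat.le_log_of_pow_le (by norm_num) ?_
      have h0 : 2 ^ lg (Bd v) ≤ Bd v + 1 := by
        rcases Nat.eq_zero_or_pos (Bd v) with h | h
        · rw [h]; simp [lg]
        · exact (lg_pow_ge _ h).trans (Nat.le_succ _)
      calc 2 ^ (2 * a) = 4 * (2 ^ lg (Bd v)) ^ 2 := by
            rw [ha, ← pow_mul, show (4 : ℕ) = 2 ^ 2 by norm_num, ← pow_add]; congr 1; ring
        _ ≤ 4 * (Bd v + 1) ^ 2 := Nat.mul_le_mul_left _ (Nat.pow_le_pow_left h0 2)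
        _ ≤ Nn v := by rw [hNn]; simp only; omega
    omega
  have hsum0 : ∀ {p : ℕ → Fin D → ℕ} {L : ℕ}, L ≤ C * (lg (w v) + 1) →
      p 0 = (fun k => s k v) →
      (∀ j, j < L → ∃ i, Lin (A i) (B i) (p j) (p (j + 1))) → ∀ j, j ≤ L → ∀ k, p j k ≤ Bd v := by
    intro p L hL h0 hp j hj k
    have h1 := path_sum_le hp j hj
    have h2 : p j k ≤ ∑ k, p j k :=
      Finset.single_le_sum (f := fun k => p j k) (fun _ _ => Nat.zero_le _) (Finset.mem_univ k)
    refine h2.trans (h1.trans ?_)
    rw [hBd, h0]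
    exact Nat.mul_le_mul_right _ (pow_le_poly lam C (w v) j (hj.trans hL))
  constructor
  · -- from runs to the formula
    rintro ⟨L, hL, hR⟩
    obtain ⟨p, h0, h1, h2⟩ := (run_iff_path A B G L _ _).1 hR
    have hex : ∀ j, ∃ i : ℕ, j < L → ∃ i' : Fin m, i = i' ∧ G i' (p j) ∧
        Lin (A i') (B i') (p j) (p (j + 1)) := by
      intro j
      by_cases hj : j < L
      · obtain ⟨i, hi⟩ := h2 j hj
        exact ⟨i, fun _ => ⟨i, rfl, hi.1, hi.2⟩⟩
      · exact ⟨0, fun h => absurd h hj⟩
    choose σ hσ using hex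
    obtain ⟨W, hW1, hW2⟩ := exists_word (b := m + 2) (by omega) L σ (by
      intro j hj
      obtain ⟨i, hi, -⟩ := hσ j hj
      have := i.isLt
      omega)
    have hpath : ∀ j, j < L → ∃ i : Fin m, GAvg.dig (m + 2) W j = i ∧
        Lin (A i) (B i) (p j) (p (j + 1)) := by
      intro j hj
      obtain ⟨i, hi, -, hl⟩ := hσ j hj
      exact ⟨i, by rw [hW2 j hj, hi], hl⟩
    have hle := hsum0 hL h0 (fun j hj => by
      obtain ⟨i, -, hl⟩ := hpath j hj
      exact ⟨i, hl⟩)
    have hval : ∀ j, j ≤ L → ∀ d, d ≤ lg (Nn v) → P (Matrix.vecCons (Nn v) (Matrix.vecCons j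
        (Matrix.vecCons (code d (p j)) (Matrix.vecCons d (Matrix.vecCons W
          (fun k => s k v)))))) := by
      intro j hj d hd
      have h3 := hPc (Nn v) j d W (fun k => s k v) hN0 (hj.trans (hlgN L hL)) hd
      have h4 : code d (fmod A B d W (fun k => s k v) j) = code d (p j) := by
        refine code_congr fun k => ?_
        rw [← h0]
        exact fmod_path A B d W hpath j hj k
      rwa [h4] at h3
    refine ⟨L, hL, W, ?_, ?_, ?_, ?_⟩
    · exact hW1.le.trans (pow_le_poly _ C (w v) L hL)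
    · intro k
      have := hle L le_rfl k
      rw [h1] at this
      exact this
    · have := hval L le_rfl
      rw [h1] at this
      exact this
    · intro j _ hj
      refine ⟨p j, hle j (by omega), p (j + 1), hle (j + 1) (by omega), hval j (by omega),
        hval (j + 1) (by omega), ?_⟩
      obtain ⟨i, hi, hg, hl⟩ := hσ j hj
      exact ⟨i, by rw [hW2 j hj, hi], hg, hl⟩
  · -- from the formula to runs
    rintro ⟨L, hL, W, hW, htB, htV, hstep⟩
    refine ⟨L, hL, ?_⟩
    have key : ∀ j, j ≤ L → ∃ p : ℕ → Fin D → ℕ, p 0 = (fun k => s k v) ∧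
        (∀ i, i < j → ∃ i' : Fin m, GAvg.dig (m + 2) W i = i' ∧ G i' (p i) ∧
          Lin (A i') (B i') (p i) (p (i + 1))) := by
      intro j
      induction j with
      | zero => intro _; exact ⟨fun _ => fun k => s k v, rfl, fun i hi => absurd hi (Nat.not_lt_zero i)⟩
      | succ j ih =>
        intro hj
        obtain ⟨p, h0, hp⟩ := ih (by omega)
        obtain ⟨x, hx, y, hy, hVx, hVy, i, hi, hg, hl⟩ := hstep j (by omega) (by omega)
        have hpath : ∀ i, i < j → ∃ i' : Fin m, GAvg.dig (m + 2) W i = i' ∧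
            Lin (A i') (B i') (p i) (p (i + 1)) := fun i hi => by
          obtain ⟨i', a1, a2, a3⟩ := hp i hi
          exact ⟨i', a1, a3⟩
        have hxp : x = p j := by
          refine eq_of_codes (a := a) (by omega) hae (fun k => (hx k).trans_lt hBa)
            (fun k => ?_) ?_
          · refine lt_of_le_of_lt (hsum0 (L := j) (by omega) h0 (fun i hi => ?_) j le_rfl k) hBa
            obtain ⟨i', -, a3⟩ := hpath i hi
            exact ⟨i', a3⟩
          · intro d hd
            rw [hPs _ _ _ _ _ _ (hVx d hd)]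
            refine code_congr fun k => ?_
            rw [← h0]
            exact fmod_path A B d W hpath j le_rfl k
        refine ⟨fun i => if i ≤ j then p i else y, ?_, ?_⟩
        · simp [h0]
        · intro i' hi'
          rcases Nat.lt_or_ge i' j with hlt | hge
          · simp only [if_pos hlt.le, if_pos (Nat.succ_le_of_lt hlt)]
            exact hp i' hlt
          · have : i' = j := by omega
            subst this
            simp only [le_refl, if_true, if_neg (Nat.not_succ_le_self i')]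
            rw [← hxp]
            exact ⟨i, hi, hg, hl⟩
    obtain ⟨p, h0, hp⟩ := key L le_rfl
    have hpath : ∀ i, i < L → ∃ i' : Fin m, GAvg.dig (m + 2) W i = i' ∧
        Lin (A i') (B i') (p i) (p (i + 1)) := fun i hi => by
      obtain ⟨i', a1, a2, a3⟩ := hp i hi
      exact ⟨i', a1, a3⟩
    have htp : (fun k => t k v) = p L := by
      refine eq_of_codes (a := a) (by omega) hae (fun k => (htB k).trans_lt hBa)
        (fun k => ?_) ?_
      · refine lt_of_le_of_lt (hsum0 (L := L) hL h0 (fun i hi => ?_) L le_rfl k) hBa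
        obtain ⟨i', -, a3⟩ := hpath i hi
        exact ⟨i', a3⟩
      · intro d hd
        rw [hPs _ _ _ _ _ _ (htV d hd)]
        refine code_congr fun k => ?_
        rw [← h0]
        exact fmod_path A B d W hpath L le_rfl k
    refine (run_iff_path A B G L _ _).2 ⟨p, h0, htp.symm, fun j hj => ?_⟩
    obtain ⟨i', -, a2, a3⟩ := hp j hj
    exact ⟨i', a2, a3⟩

end core

section transport

variable {ι κ : Type} [Fintype ι] [Fintype κ]

theorem lin_equiv {κ' : Type} [Fintype κ'] (e : κ ≃ κ') (A B : κ → κ → ℕ) (s t : κ → ℕ) :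
    Lin A B s t ↔ Lin (fun k l => A (e.symm k) (e.symm l)) (fun k l => B (e.symm k) (e.symm l))
      (fun k => s (e.symm k)) (fun k => t (e.symm k)) := by
  unfold Lin
  constructor
  · intro h k
    have := h (e.symm k)
    rw [← Equiv.sum_comp e.symm, ← Equiv.sum_comp e.symm] at this
    exact this
  · intro h k
    have := h (e k)
    simp only [Equiv.symm_apply_apply] at this
    rw [Equiv.sum_comp e.symm (fun l => B k l * s l),
      Equiv.sum_comp e.symm (fun l => A k l * s l)] at this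
    exact this

theorem run_transport (A B : ι → κ → κ → ℕ) (G : ι → (κ → ℕ) → Prop) {ι' κ' : Type}
    [Fintype κ'] (e : ι ≃ ι') (f : κ ≃ κ') {L : ℕ} {s t : κ → ℕ} (h : Run A B G L s t) :
    Run (fun i k l => A (e.symm i) (f.symm k) (f.symm l))
      (fun i k l => B (e.symm i) (f.symm k) (f.symm l))
      (fun i s => G (e.symm i) (fun k => s (f k))) L (fun k => s (f.symm k))
      (fun k => t (f.symm k)) := by
  induction h with
  | refl s => exact Run.refl _
  | @step L s t u i _ hG hL ih =>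
    refine Run.step (e i) ih ?_ ?_
    · simp only [Equiv.symm_apply_apply]
      exact hG
    · simp only [Equiv.symm_apply_apply]
      exact (lin_equiv f (A i) (B i) t u).1 hL

/-- **Main lemma on linear machines.** The relation `t` is reached from `s` in at most
`C (log w + 1)` steps is definable by a bounded formula. -/
theorem run_delta0 (A B : ι → κ → κ → ℕ) (G : ι → (κ → ℕ) → Prop)
    (hG : ∀ i, DK (G i)) (C : ℕ) {n : ℕ} {w : (Fin n → ℕ) → ℕ} (hw : DFun n w)
    {s t : κ → (Fin n → ℕ) → ℕ} (hs : ∀ k, DFun n (s k)) (ht : ∀ k, DFun n (t k)) :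
    Delta0 n (fun v => ∃ L, L ≤ C * (lg (w v) + 1) ∧
      Run A B G L (fun k => s k v) (fun k => t k v)) := by
  let e := Fintype.equivFin ι
  let f := Fintype.equivFin κ
  have h := run_delta0_fin (fun i k l => A (e.symm i) (f.symm k) (f.symm l))
    (fun i k l => B (e.symm i) (f.symm k) (f.symm l))
    (fun i s => G (e.symm i) (fun k => s (f k))) (fun i n g hg => hG _ n (fun k => g (f k))
      (fun k => hg _)) C hw (s := fun k => s (f.symm k)) (t := fun k => t (f.symm k))
    (fun k => hs _) (fun k => ht _)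
  refine h.of_iff fun v => ?_
  constructor
  · rintro ⟨L, hL, hR⟩
    exact ⟨L, hL, run_transport A B G e f hR⟩
  · rintro ⟨L, hL, hR⟩
    refine ⟨L, hL, ?_⟩
    have := run_transport _ _ _ e.symm f.symm hR
    simpa only [Equiv.symm_symm, Equiv.symm_apply_apply, Equiv.apply_symm_apply] using this

end transport

end Pool.Agent.PTr
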