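import Mathlib

/-!
# Band systems and the macro step of the Rauzy induction

A band system on `[0, N)` consists of bands `h`, which connect the interval
`[a h, a h + l h)` with the interval `[b h, b h + l h)`. Both families of intervals are partitions
of `[0, N)`. Every band has two weights `u h`, `d h` (numbers of up and down moves).
-/

set_option autoImplicit false

namespace Pool.Agent.PTr

variable {H : Type}

/-- a system of bands with weights -/
structure Sys (H : Type) where
  /-- length of the interval -/
  N : ℕ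
  /-- left ends at the bottom -/
  a : H → ℕ
  /-- left ends at the top -/
  b : H → ℕ
  /-- widths -/
  l : H → ℕ
  /-- first weights -/
  u : H → ℕ
  /-- second weights -/
  d : H → ℕ

/-- exchange of the two sides -/
def Sys.swap (S : Sys H) : Sys H := ⟨S.N, S.b, S.a, S.l, S.d, S.u⟩

/-- Both sides are partitions; the points `0`, `1` belong to bands of width `1`. -/
structure GoodSys (S : Sys H) : Prop where
  covA : ∀ y, y < S.N → ∃ h, S.a h ≤ y ∧ y < S.a h + S.l h
  covB : ∀ y, y < S.N → ∃ h, S.b h ≤ y ∧ y < S.b h + S.l h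
  disA : ∀ h h' y, S.a h ≤ y → y < S.a h + S.l h → S.a h' ≤ y → y < S.a h' + S.l h' → h = h'
  disB : ∀ h h' y, S.b h ≤ y → y < S.b h + S.l h → S.b h' ≤ y → y < S.b h' + S.l h' → h = h'
  ranA : ∀ h, 0 < S.l h → S.a h + S.l h ≤ S.N
  ranB : ∀ h, 0 < S.l h → S.b h + S.l h ≤ S.N
  unitA : ∀ h, 0 < S.l h → S.a h ≤ 1 → S.l h = 1
  unitB : ∀ h, 0 < S.l h → S.b h ≤ 1 → S.l h = 1

theorem GoodSys.swap {S : Sys H} (h : GoodSys S) : GoodSys S.swap :=
  ⟨h.covB, h.covA, h.disB, h.disA, h.ranB, h.ranA, h.unitB, h.unitA⟩

/-- labellings compatible with the weights -/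
def Lab (S : Sys H) (f : ℕ → WithBot ℤ) : Prop :=
  ∀ h t, t < S.l h → f (S.b h + t) = f (S.a h + t) + (((S.u h : ℤ) - S.d h : ℤ) : WithBot ℤ)

/-- labellings constant on the components -/
def Inv (S : Sys H) (f : ℕ → Prop) : Prop :=
  ∀ h t, t < S.l h → (f (S.a h + t) ↔ f (S.b h + t))

/-- `0` and `1` are in the same component -/
def Same (S : Sys H) : Prop := ∀ f : ℕ → Prop, Inv S f → (f 0 ↔ f 1)

theorem Lab.swap {S : Sys H} {f : ℕ → WithBot ℤ} (h : Lab S f) : Lab S.swap f := by
  intro k t ht
  have h1 := h k t ht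
  show f (S.a k + t) = f (S.b k + t) + (((S.d k : ℤ) - S.u k : ℤ) : WithBot ℤ)
  rw [h1, add_assoc, ← WithBot.coe_add]
  have : ((S.u k : ℤ) - S.d k + ((S.d k : ℤ) - S.u k)) = 0 := by ring
  rw [this]
  simp

theorem Same.swap {S : Sys H} (h : Same S) : Same S.swap := by
  intro f hf
  exact h f fun k t ht => (hf k t ht).symm

/-! ### Removal of a closed band -/

section rm

variable [DecidableEq H]

/-- removal of a closed band at the right end -/
def Sys.rm (S : Sys H) (i : H) : Sys H :=
  ⟨S.N - S.l i, S.a, S.b, fun h => if h = i then 0 else S.l h, S.u, S.d⟩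

/-- the removal is allowed -/
structure RmOk (S : Sys H) (i : H) : Prop where
  three : 3 ≤ S.N
  pos : 0 < S.l i
  last : S.a i + S.l i = S.N
  closed : S.b i = S.a i

omit [DecidableEq H] in
theorem RmOk.two_le {S : Sys H} {i : H} (hS : GoodSys S) (h : RmOk S i) : 2 ≤ S.N - S.l i := by
  have h1 := h.last
  have h2 := h.three
  by_contra h3
  have := hS.unitA i h.pos (by omega)
  omega

theorem GoodSys.rm {S : Sys H} (hS : GoodSys S) {i : H} (h : RmOk S i) : GoodSys (S.rm i) := by
  have hl := h.last
  have hp := h.pos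
  have hc := h.closed
  have hbelowA : ∀ k, k ≠ i → 0 < S.l k → S.a k + S.l k ≤ S.a i := by
    intro k hk hk0
    by_contra hlt
    have h1 := hS.ranA k hk0
    rcases Nat.lt_or_ge (S.a k) (S.a i) with h2 | h2
    · exact hk (hS.disA k i (S.a i) (by omega) (by omega) le_rfl (by omega))
    · exact hk (hS.disA k i (S.a k) le_rfl (by omega) (by omega) (by omega))
  have hbelowB : ∀ k, k ≠ i → 0 < S.l k → S.b k + S.l k ≤ S.b i := by
    intro k hk hk0
    by_contra hlt
    have h1 := hS.ranB k hk0
    rcases Nat.lt_or_ge (S.b k) (S.b i) with h2 | h2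
    · exact hk (hS.disB k i (S.b i) (by omega) (by omega) le_rfl (by omega))
    · exact hk (hS.disB k i (S.b k) le_rfl (by omega) (by omega) (by omega))
  have hlen : ∀ k, (S.rm i).l k = if k = i then 0 else S.l k := fun k => rfl
  refine ⟨?_, ?_, ?_, ?_, ?_, ?_, ?_, ?_⟩
  · intro y hy
    have hy' : y < S.N - S.l i := hy
    obtain ⟨k, h1, h2⟩ := hS.covA y (by omega)
    have hk : k ≠ i := by rintro rfl; omega
    exact ⟨k, h1, by rw [hlen, if_neg hk]; exact h2⟩
  · intro y hy
    have hy' : y < S.N - S.l i := hy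
    obtain ⟨k, h1, h2⟩ := hS.covB y (by omega)
    have hk : k ≠ i := by rintro rfl; omega
    exact ⟨k, h1, by rw [hlen, if_neg hk]; exact h2⟩
  · intro k k' y h1 h2 h3 h4
    rw [hlen] at h2 h4
    have e1 : (S.rm i).a = S.a := rfl
    rw [e1] at h1 h2 h3 h4
    split_ifs at h2 h4 with a1 a2 <;> try omega
    exact hS.disA k k' y h1 h2 h3 h4
  · intro k k' y h1 h2 h3 h4
    rw [hlen] at h2 h4
    have e1 : (S.rm i).b = S.b := rfl
    rw [e1] at h1 h2 h3 h4
    split_ifs at h2 h4 with a1 a2 <;> try omega
    exact hS.disB k k' y h1 h2 h3 h4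
  · intro k hk
    rw [hlen] at hk ⊢
    show S.a k + _ ≤ S.N - S.l i
    split_ifs at hk ⊢ with a1
    · omega
    · have := hbelowA k a1 hk
      omega
  · intro k hk
    rw [hlen] at hk ⊢
    show S.b k + _ ≤ S.N - S.l i
    split_ifs at hk ⊢ with a1
    · omega
    · have := hbelowB k a1 hk
      omega
  · intro k hk h1
    rw [hlen] at hk ⊢
    split_ifs at hk ⊢ with a1
    · omega
    · exact hS.unitA k hk h1
  · intro k hk h1
    rw [hlen] at hk ⊢
    split_ifs at hk ⊢ with a1
    · omega
    · exact hS.unitB k hk h1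

theorem Lab.rm {S : Sys H} {f : ℕ → WithBot ℤ} (h : Lab S f) (i : H) : Lab (S.rm i) f := by
  intro k t ht
  have hlen : (S.rm i).l k = if k = i then 0 else S.l k := rfl
  rw [hlen] at ht
  split_ifs at ht with a1
  · omega
  · exact h k t ht

theorem Same.rm {S : Sys H} (hS : GoodSys S) {i : H} (h : RmOk S i) (hs : Same S) :
    Same (S.rm i) := by
  intro f hf
  have hl := h.last
  have hc := h.closed
  have h2 := h.two_le hS
  have hlen : ∀ k, (S.rm i).l k = if k = i then 0 else S.l k := fun k => rfl
  have := hs (fun p => p < S.N - S.l i ∧ f p) (by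
    intro k t ht
    by_cases hk : k = i
    · subst hk
      rw [hc]
    · have h3 := (hS.rm h).ranA k (by rw [hlen, if_neg hk]; omega)
      have h4 := (hS.rm h).ranB k (by rw [hlen, if_neg hk]; omega)
      rw [hlen, if_neg hk] at h3 h4
      have h5 := hf k t (by rw [hlen, if_neg hk]; exact ht)
      have e0 : (S.rm i).N = S.N - S.l i := rfl
      have e1 : (S.rm i).a = S.a := rfl
      have e2 : (S.rm i).b = S.b := rfl
      rw [e0] at h3 h4
      rw [e1] at h3 h5
      rw [e2] at h4 h5
      have h6 : S.a k + t < S.N - S.l i := by omega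
      have h7 : S.b k + t < S.N - S.l i := by omega
      simp only [h6, h7, true_and]
      exact h5)
  have h8 : 0 < S.N - S.l i := by omega
  have h9 : 1 < S.N - S.l i := by omega
  simpa only [h8, h9, true_and] using this

end rm

/-! ### The macro step -/

section mstep

variable [DecidableEq H]

/-- how often the band `h` is extended by the band `w` -/
def mult (S : Sys H) (w : H) (q e : ℕ) (h : H) : ℕ :=
  if h = w ∨ S.l h = 0 then 0
  else if S.N - e ≤ S.b h then q + 1
  else if S.N - (S.a w - S.b w) ≤ S.b h then q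
  else 0

/-- the macro step: the right part of length `q D + e` is removed -/
def Sys.ms (S : Sys H) (w : H) (q e : ℕ) : Sys H :=
  ⟨S.N - (q * (S.a w - S.b w) + e), S.a,
    fun h => S.b h - mult S w q e h * (S.a w - S.b w),
    fun h => if h = w then S.l w - (q * (S.a w - S.b w) + e) else S.l h,
    fun h => S.u h + mult S w q e h * S.u w,
    fun h => S.d h + mult S w q e h * S.d w⟩

/-- the macro step is allowed -/
structure MsOk (S : Sys H) (w : H) (q e : ℕ) : Prop where
  three : 3 ≤ S.N
  pos : 0 < S.l w
  last : S.a w + S.l w = S.N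
  lt : S.b w < S.a w
  le : q * (S.a w - S.b w) + e ≤ S.l w
  eD : e ≤ S.a w - S.b w
  bdry : ∀ h, 0 < S.l h → S.b h < S.N - e → S.b h + S.l h ≤ S.N - e
  unit : S.l w = 1 → q = 0 ∧ e = 1

/-- the types of the bands -/
theorem ms_types {S : Sys H} (hS : GoodSys S) {w : H} {q e : ℕ} (hm : MsOk S w q e) (h : H)
    (hw : h ≠ w) (hl : 0 < S.l h) :
    (mult S w q e h = q + 1 ∧ S.N - e ≤ S.b h) ∨
    (mult S w q e h = q ∧ S.N - (S.a w - S.b w) ≤ S.b h ∧ S.b h + S.l h ≤ S.N - e) ∨
    (mult S w q e h = 0 ∧ S.b h + S.l h ≤ S.b w) := by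
  have h1 := hm.last
  have h2 := hm.lt
  have h3 := hm.pos
  have h0 := hm.eD
  have h5 := hS.ranB h hl
  unfold mult
  rw [if_neg (by rintro (h6 | h6); exacts [hw h6, by omega])]
  by_cases ha : S.N - e ≤ S.b h
  · left
    rw [if_pos ha]
    exact ⟨rfl, ha⟩
  · rw [if_neg ha]
    by_cases hb : S.N - (S.a w - S.b w) ≤ S.b h
    · right; left
      rw [if_pos hb]
      exact ⟨rfl, hb, hm.bdry h hl (by omega)⟩
    · right; right
      rw [if_neg hb]
      refine ⟨rfl, ?_⟩
      by_contra h6
      rcases Nat.lt_or_ge (S.b h) (S.b w) with h7 | h7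
      · exact hw (hS.disB h w (S.b w) (by omega) (by omega) le_rfl (by omega))
      · exact hw (hS.disB h w (S.b h) le_rfl (by omega) h7 (by omega))

omit [DecidableEq H] in
theorem ms_dom {S : Sys H} (hS : GoodSys S) {w : H} {q e : ℕ} (hm : MsOk S w q e) (h : H)
    (hw : h ≠ w) (hl : 0 < S.l h) : S.a h + S.l h ≤ S.a w := by
  have h1 := hm.last
  have h3 := hm.pos
  have h5 := hS.ranA h hl
  by_contra h6
  rcases Nat.lt_or_ge (S.a h) (S.a w) with h7 | h7
  · exact hw (hS.disA h w (S.a w) (by omega) (by omega) le_rfl (by omega))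
  · exact hw (hS.disA h w (S.a h) le_rfl (by omega) h7 (by omega))

/-- the shift of a point -/
def sig (S : Sys H) (w : H) (q e y : ℕ) : ℕ :=
  if y < S.N - (q * (S.a w - S.b w) + e) - (S.a w - S.b w) then 0
  else if y < S.N - (S.a w - S.b w) - q * (S.a w - S.b w) then (q + 1) * (S.a w - S.b w)
  else q * (S.a w - S.b w)

theorem ms_cov {S : Sys H} (hS : GoodSys S) {w : H} {q e : ℕ} (hm : MsOk S w q e) (h : H) (y : ℕ)
    (hy : y < (S.ms w q e).N) :
    ((S.ms w q e).b h ≤ y ∧ y < (S.ms w q e).b h + (S.ms w q e).l h) ↔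
      (S.b h ≤ y + sig S w q e y ∧ y + sig S w q e y < S.b h + S.l h) := by
  have h1 := hm.last
  have h2 := hm.lt
  have h3 := hm.pos
  have h4 := hm.le
  have h0 := hm.eD
  have hy' : y < S.N - (q * (S.a w - S.b w) + e) := hy
  have eb : (S.ms w q e).b h = S.b h - mult S w q e h * (S.a w - S.b w) := rfl
  have el : (S.ms w q e).l h = if h = w then S.l w - (q * (S.a w - S.b w) + e) else S.l h := rfl
  rw [eb, el]
  unfold sig
  have hq1 : (q + 1) * (S.a w - S.b w) = q * (S.a w - S.b w) + (S.a w - S.b w) := by ring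
  by_cases hw : h = w
  · subst hw
    have hmu : mult S h q e h = 0 := by unfold mult; simp
    rw [hmu, if_pos rfl, hq1]
    set X := q * (S.a h - S.b h) with hX
    split_ifs <;> constructor <;> intro h9 <;> omega
  · rw [if_neg hw]
    by_cases hl : S.l h = 0
    · rw [hl]
      constructor <;> intro h9 <;> omega
    · rcases ms_types hS hm h hw (by omega) with ⟨hmu, h5⟩ | ⟨hmu, h5, h6⟩ | ⟨hmu, h5⟩
      · have h7 := hS.ranB h (by omega)
        rw [hmu, hq1]
        set X := q * (S.a w - S.b w) with hX
        split_ifs <;> constructor <;> intro h9 <;> omega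
      · rw [hmu, hq1]
        set X := q * (S.a w - S.b w) with hX
        split_ifs <;> constructor <;> intro h9 <;> omega
      · rw [hmu, hq1]
        set X := q * (S.a w - S.b w) with hX
        split_ifs <;> constructor <;> intro h9 <;> omega

theorem sig_lt {S : Sys H} {w : H} {q e : ℕ} (hm : MsOk S w q e) (y : ℕ)
    (hy : y < (S.ms w q e).N) : y + sig S w q e y < S.N := by
  have h1 := hm.last
  have h2 := hm.lt
  have h3 := hm.pos
  have h4 := hm.le
  have h0 := hm.eD
  have hy' : y < S.N - (q * (S.a w - S.b w) + e) := hy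
  unfold sig
  have hq1 : (q + 1) * (S.a w - S.b w) = q * (S.a w - S.b w) + (S.a w - S.b w) := by ring
  rw [hq1]
  set X := q * (S.a w - S.b w) with hX
  split_ifs <;> omega

theorem MsOk.two_le {S : Sys H} (hS : GoodSys S) {w : H} {q e : ℕ} (hm : MsOk S w q e) :
    2 ≤ (S.ms w q e).N := by
  have h1 := hm.last
  have h2 := hm.three
  have h3 := hm.pos
  have h4 := hm.le
  show 2 ≤ S.N - (q * (S.a w - S.b w) + e)
  by_contra h5
  have := hS.unitA w h3 (by omega)
  omega

theorem GoodSys.ms {S : Sys H} (hS : GoodSys S) {w : H} {q e : ℕ} (hm : MsOk S w q e) :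
    GoodSys (S.ms w q e) := by
  have h1 := hm.last
  have h2 := hm.lt
  have h3 := hm.pos
  have h4 := hm.le
  have h0 := hm.eD
  have el : ∀ h, (S.ms w q e).l h = if h = w then S.l w - (q * (S.a w - S.b w) + e) else S.l h :=
    fun h => rfl
  have eb : ∀ h, (S.ms w q e).b h = S.b h - mult S w q e h * (S.a w - S.b w) := fun h => rfl
  have ea : (S.ms w q e).a = S.a := rfl
  have eN : (S.ms w q e).N = S.N - (q * (S.a w - S.b w) + e) := rfl
  have hq1 : (q + 1) * (S.a w - S.b w) = q * (S.a w - S.b w) + (S.a w - S.b w) := by ring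
  have hmw : mult S w q e w = 0 := by unfold mult; simp
  refine ⟨?_, ?_, ?_, ?_, ?_, ?_, ?_, ?_⟩
  · intro y hy
    rw [eN] at hy
    obtain ⟨k, h5, h6⟩ := hS.covA y (by omega)
    refine ⟨k, h5, ?_⟩
    rw [ea, el]
    split_ifs with hk
    · subst hk; omega
    · exact h6
  · intro y hy
    obtain ⟨k, h5⟩ := hS.covB _ (sig_lt hm y hy)
    exact ⟨k, (ms_cov hS hm k y hy).2 h5⟩
  · intro k k' y h5 h6 h7 h8
    rw [ea] at h5 h6 h7 h8
    rw [el] at h6 h8
    refine hS.disA k k' y h5 ?_ h7 ?_
    · split_ifs at h6 with hk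
      · subst hk; omega
      · exact h6
    · split_ifs at h8 with hk
      · subst hk; omega
      · exact h8
  · intro k k' y h5 h6 h7 h8
    have hy : y < (S.ms w q e).N := by
      rw [eN]
      rw [eb, el] at h6
      rw [eb] at h5
      by_cases hk : k = w
      · subst hk
        rw [hmw, if_pos rfl] at h6
        omega
      · rw [if_neg hk] at h6
        by_cases hl : S.l k = 0
        · omega
        rcases ms_types hS hm k hk (by omega) with ⟨hmu, h9⟩ | ⟨hmu, h9, h10⟩ | ⟨hmu, h9⟩
        · have h11 := hS.ranB k (by omega)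
          rw [hmu, hq1] at h6 h5
          omega
        · rw [hmu] at h6 h5
          omega
        · rw [hmu] at h6 h5
          omega
    have h9 := (ms_cov hS hm k y hy).1 ⟨h5, h6⟩
    have h10 := (ms_cov hS hm k' y hy).1 ⟨h7, h8⟩
    exact hS.disB k k' _ h9.1 h9.2 h10.1 h10.2
  · intro k hk
    rw [el] at hk
    rw [ea, el, eN]
    split_ifs at hk ⊢ with hkw
    · subst hkw; omega
    · have := ms_dom hS hm k hkw hk
      omega
  · intro k hk
    rw [el] at hk
    rw [eb, el, eN]
    by_cases hkw : k = w
    · subst hkw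
      rw [if_pos rfl] at hk ⊢
      rw [hmw]
      omega
    · rw [if_neg hkw] at hk ⊢
      rcases ms_types hS hm k hkw hk with ⟨hmu, h9⟩ | ⟨hmu, h9, h10⟩ | ⟨hmu, h9⟩
      · have h11 := hS.ranB k hk
        rw [hmu, hq1]
        omega
      · rw [hmu]
        omega
      · rw [hmu]
        omega
  · intro k hk hk1
    rw [el] at hk ⊢
    rw [ea] at hk1
    split_ifs at hk ⊢ with hkw
    · subst hkw
      have := hS.unitA k h3 hk1
      have h5 := hm.three
      omega
    · exact hS.unitA k hk hk1
  · intro k hk hk1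
    rw [el] at hk ⊢
    rw [eb] at hk1
    by_cases hkw : k = w
    · subst hkw
      rw [if_pos rfl] at hk ⊢
      rw [hmw] at hk1
      have h5 := hS.unitB k h3 (by omega)
      have h6 := hm.unit h5
      rw [h6.1, h6.2] at hk
      omega
    · rw [if_neg hkw] at hk ⊢
      rcases ms_types hS hm k hkw hk with ⟨hmu, h9⟩ | ⟨hmu, h9, h10⟩ | ⟨hmu, h9⟩
      · rw [hmu, hq1] at hk1
        have h5 := hS.unitB w h3 (by omega)
        have h6 := hm.unit h5
        rw [h6.2] at h9
        have h7 := hS.ranB k hk
        omega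
      · rw [hmu] at hk1
        have h5 := hS.unitB w h3 (by omega)
        have h6 := hm.unit h5
        rw [h6.1] at hk1
        refine hS.unitB k hk (by omega)
      · rw [hmu] at hk1
        exact hS.unitB k hk (by omega)

/-! ### labellings under the macro step -/

omit [DecidableEq H] in
theorem lab_drift {S : Sys H} {f : ℕ → WithBot ℤ} (h : Lab S f) {w : H} (hlt : S.b w < S.a w)
    (hlast : S.a w + S.l w = S.N) :
    ∀ (s x : ℕ), x < S.N → (s = 0 ∨ S.a w + (s - 1) * (S.a w - S.b w) ≤ x) →
      f (x - s * (S.a w - S.b w)) = f x + (((s * S.u w : ℤ) - s * S.d w : ℤ) : WithBot ℤ) := by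
  intro s
  induction s with
  | zero => intro x _ _; simp
  | succ s ih =>
    intro x hx hs
    have hs' : S.a w + s * (S.a w - S.b w) ≤ x := by
      rcases hs with hs | hs
      · omega
      · simpa using hs
    have h1 := ih x hx (by
      rcases Nat.eq_zero_or_pos s with h0 | h0
      · left; exact h0
      · right
        refine le_trans (Nat.add_le_add_left (Nat.mul_le_mul_right _ (Nat.sub_le s 1)) _) hs')
    have h2 := h w (x - s * (S.a w - S.b w) - S.a w) (by omega)
    have e1 : S.a w + (x - s * (S.a w - S.b w) - S.a w) = x - s * (S.a w - S.b w) := by omega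
    have e3 : (s + 1) * (S.a w - S.b w) = s * (S.a w - S.b w) + (S.a w - S.b w) := by ring
    have e2 : S.b w + (x - s * (S.a w - S.b w) - S.a w) = x - (s + 1) * (S.a w - S.b w) := by
      rw [e3]; omega
    rw [e1, e2, h1, add_assoc, ← WithBot.coe_add] at h2
    rw [h2]
    congr 2
    push_cast
    ring

theorem Lab.ms {S : Sys H} (hS : GoodSys S) {f : ℕ → WithBot ℤ} (h : Lab S f) {w : H} {q e : ℕ}
    (hm : MsOk S w q e) : Lab (S.ms w q e) f := by
  have h1 := hm.last
  have h2 := hm.lt
  have h3 := hm.pos
  have h4 := hm.le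
  have h0 := hm.eD
  intro k t ht
  have el : (S.ms w q e).l k = if k = w then S.l w - (q * (S.a w - S.b w) + e) else S.l k := rfl
  have eb : (S.ms w q e).b k = S.b k - mult S w q e k * (S.a w - S.b w) := rfl
  have eu : (S.ms w q e).u k = S.u k + mult S w q e k * S.u w := rfl
  have ed : (S.ms w q e).d k = S.d k + mult S w q e k * S.d w := rfl
  have ea : (S.ms w q e).a = S.a := rfl
  rw [el] at ht
  rw [eb, eu, ed, ea]
  by_cases hk : k = w
  · subst hk
    rw [if_pos rfl] at ht
    have hmw : mult S k q e k = 0 := by unfold mult; simp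
    rw [hmw]
    simpa using h k t (by omega)
  · rw [if_neg hk] at ht
    have h5 := h k t ht
    have key : ∀ s : ℕ, mult S w q e k = s → S.b k + t < S.N →
        (s = 0 ∨ S.a w + (s - 1) * (S.a w - S.b w) ≤ S.b k + t) → s * (S.a w - S.b w) ≤ S.b k →
        f (S.b k - mult S w q e k * (S.a w - S.b w) + t) =
          f (S.a k + t) + ((((S.u k + mult S w q e k * S.u w : ℕ) : ℤ) -
            ((S.d k + mult S w q e k * S.d w : ℕ) : ℤ) : ℤ) : WithBot ℤ) := by
      intro s hs hN hx hle
      have h6 := lab_drift h h2 h1 s (S.b k + t) hN hx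
      rw [hs]
      have e1 : S.b k - s * (S.a w - S.b w) + t = S.b k + t - s * (S.a w - S.b w) := by omega
      rw [e1, h6, h5, add_assoc, ← WithBot.coe_add]
      congr 2
      push_cast
      ring
    have hq1 : (q + 1) * (S.a w - S.b w) = q * (S.a w - S.b w) + (S.a w - S.b w) := by ring
    rcases ms_types hS hm k hk (by omega) with ⟨hmu, h9⟩ | ⟨hmu, h9, h10⟩ | ⟨hmu, h9⟩
    · have h11 := hS.ranB k (by omega)
      refine key (q + 1) hmu (by omega) (Or.inr ?_) ?_
      · rw [Nat.add_sub_cancel]
        omega
      · rw [hq1]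
        omega
    · refine key q hmu (by omega) ?_ (by omega)
      rcases Nat.eq_zero_or_pos q with hq | hq
      · left; exact hq
      · right
        have e1 : (q - 1) * (S.a w - S.b w) + (S.a w - S.b w) = q * (S.a w - S.b w) := by
          obtain ⟨q', rfl⟩ : ∃ q', q = q' + 1 := ⟨q - 1, by omega⟩
          rw [Nat.add_sub_cancel]
          ring
        omega
    · exact key 0 hmu (by have := hS.ranB k (by omega); omega) (Or.inl rfl) (by omega)

theorem Same.ms {S : Sys H} (hS : GoodSys S) (hs : Same S) {w : H} {q e : ℕ}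
    (hm : MsOk S w q e) : Same (S.ms w q e) := by
  intro f hf
  have h1 := hm.last
  have h2 := hm.lt
  have h3 := hm.pos
  have h4 := hm.le
  have h0 := hm.eD
  have hN2 := hm.two_le hS
  have el : ∀ h, (S.ms w q e).l h = if h = w then S.l w - (q * (S.a w - S.b w) + e) else S.l h :=
    fun h => rfl
  have eb : ∀ h, (S.ms w q e).b h = S.b h - mult S w q e h * (S.a w - S.b w) := fun h => rfl
  have ea : (S.ms w q e).a = S.a := rfl
  have eN : (S.ms w q e).N = S.N - (q * (S.a w - S.b w) + e) := rfl
  have hq1 : (q + 1) * (S.a w - S.b w) = q * (S.a w - S.b w) + (S.a w - S.b w) := by ring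
  have hmw : mult S w q e w = 0 := by unfold mult; simp
  set Dd := S.a w - S.b w with hD
  set N' := S.N - (q * Dd + e) with hN'
  have hDpos : 0 < Dd := by omega
  rw [eN] at hN2
  set p0 : ℕ → ℕ := fun p => p + (S.N - 1 - p) / Dd * Dd with hp0
  have hp0r : ∀ p, p < S.N → S.N - Dd ≤ p0 p ∧ p0 p < S.N := by
    intro p hp
    have h5 := Nat.div_add_mod (S.N - 1 - p) Dd
    have h6 := Nat.mod_lt (S.N - 1 - p) hDpos
    rw [mul_comm] at h5
    simp only [hp0]
    omega
  set g : ℕ → Prop := fun p => if p < N' then f p else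
    ∃ h t, t < S.l h ∧ S.b h + t = p0 p ∧ f (S.a h + t) with hg
  have hgl : ∀ p, p < N' → (g p ↔ f p) := by
    intro p hp
    simp only [hg, if_pos hp]
  have hgr : ∀ p h t, N' ≤ p → t < S.l h → S.b h + t = p0 p → (g p ↔ f (S.a h + t)) := by
    intro p h t hp ht hb
    simp only [hg, if_neg (not_lt.2 hp)]
    constructor
    · rintro ⟨h', t', ht', hb', hf'⟩
      have e1 : h' = h := hS.disB h' h (p0 p) (by omega) (by omega) (by omega) (by omega)
      subst e1
      have e2 : t' = t := by omega
      subst e2
      exact hf'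
    · intro hf'
      exact ⟨h, t, ht, hb, hf'⟩
  have hinv : Inv S g := by
    intro h t ht
    by_cases hw : h = w
    · subst hw
      have hxy : S.b h + t = S.a h + t - Dd := by omega
      rcases Nat.lt_or_ge (S.a h + t) N' with hx | hx
      · rw [hgl _ hx, hgl _ (by omega)]
        have := hf h t (by rw [el, if_pos rfl]; omega)
        rw [ea, eb, hmw] at this
        simpa using this
      · -- decode the point
        obtain ⟨hr1, hr2⟩ := hp0r (S.a h + t) (by omega)
        obtain ⟨k, hk1, hk2⟩ := hS.covB _ hr2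
        obtain ⟨t', ht'⟩ : ∃ t', S.b k + t' = p0 (S.a h + t) := ⟨p0 (S.a h + t) - S.b k, by omega⟩
        have htl : t' < S.l k := by omega
        rw [hgr _ k t' hx htl ht']
        have hk : k ≠ h := by
          rintro rfl
          omega
        rcases Nat.lt_or_ge (S.b h + t) N' with hy | hy
        · rw [hgl _ hy]
          set s := (S.N - 1 - (S.a h + t)) / Dd with hs_def
          have hp0e : p0 (S.a h + t) = S.a h + t + s * Dd := rfl
          have hs1 : (s + 1) * Dd = s * Dd + Dd := by ring
          have hmul : mult S h q e k = s + 1 := by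
            rcases ms_types hS hm k hk (by omega) with ⟨hmu, h9⟩ | ⟨hmu, h9, h10⟩ | ⟨hmu, h9⟩
            · rw [hmu]
              have : s = q := by
                rcases Nat.lt_trichotomy s q with h5 | h5 | h5
                · exfalso
                  have h6 : (s + 1) * Dd ≤ q * Dd := Nat.mul_le_mul_right _ h5
                  omega
                · exact h5
                · exfalso
                  have h6 : (q + 1) * Dd ≤ s * Dd := Nat.mul_le_mul_right _ h5
                  rw [hq1] at h6
                  omega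
              rw [this]
            · rw [hmu]
              rcases Nat.lt_or_ge (s + 1) q with h5 | h5
              · exfalso
                have h6 : (s + 2) * Dd ≤ q * Dd := Nat.mul_le_mul_right _ h5
                have h7 : (s + 2) * Dd = s * Dd + Dd + Dd := by ring
                omega
              · rcases Nat.lt_or_ge s q with h6 | h6
                · omega
                · exfalso
                  have h7 : q * Dd ≤ s * Dd := Nat.mul_le_mul_right _ h6
                  omega
            · exfalso
              omega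
          have h5 := hf k t' (by rw [el, if_neg hk]; exact htl)
          rw [ea, eb, hmul, hs1] at h5
          have h6 : S.b k - (s * Dd + Dd) + t' = S.b h + t := by
            have h7 : s * Dd + Dd ≤ S.b k := by
              have h8 : (s + 1) * Dd ≤ S.b k := by
                rcases ms_types hS hm k hk (by omega) with ⟨hmu, h9⟩ | ⟨hmu, h9, h10⟩ | ⟨hmu, h9⟩
                · rw [← hmul, hmu, hq1]; omega
                · rw [← hmul, hmu]; omega
                · rw [← hmul, hmu]; omega
              omega
            omega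
          rw [h6] at h5
          exact h5
        · have h5 : p0 (S.b h + t) = p0 (S.a h + t) := by
            simp only [hp0]
            have h6 : S.N - 1 - (S.b h + t) = S.N - 1 - (S.a h + t) + Dd := by omega
            rw [h6, Nat.add_div_right _ hDpos, Nat.succ_mul]
            omega
          rw [hgr _ k t' hy htl (by rw [h5]; exact ht')]
    · have hx := ms_dom hS hm h hw (by omega)
      rw [hgl (S.a h + t) (by omega)]
      have h5 := hf h t (by rw [el, if_neg hw]; exact ht)
      rw [ea, eb] at h5
      rcases ms_types hS hm h hw (by omega) with ⟨hmu, h9⟩ | ⟨hmu, h9, h10⟩ | ⟨hmu, h9⟩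
      · have h6 := hS.ranB h (by omega)
        have h7 : p0 (S.b h + t) = S.b h + t := by
          simp only [hp0]
          rw [Nat.div_eq_of_lt (by omega)]
          omega
        exact (hgr (S.b h + t) h t (by omega) ht h7.symm).symm
      · rcases Nat.lt_or_ge (S.b h + t) N' with hy | hy
        · have hq : q = 0 := by
            by_contra hq
            have : 1 * Dd ≤ q * Dd := Nat.mul_le_mul_right _ (by omega)
            omega
          rw [hgl _ hy]
          rw [hmu, hq] at h5
          simpa using h5
        · have h7 : p0 (S.b h + t) = S.b h + t := by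
            simp only [hp0]
            rw [Nat.div_eq_of_lt (by omega)]
            omega
          exact (hgr (S.b h + t) h t hy ht h7.symm).symm
      · rw [hgl _ (by omega)]
        rw [hmu] at h5
        simpa using h5
  have := hs g hinv
  rwa [hgl 0 (by omega), hgl 1 (by omega)] at this

end mstep

end Pool.Agent.PTr
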