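import Mathlib
import Pool.Agent.PTr.Bands

/-!
# The Rauzy induction needs only logarithmically many digits
-/

set_option autoImplicit false

namespace Pool.Agent.PTr

open Finset

variable {H : Type} [DecidableEq H] [Fintype H]

/-- reductions with costs -/
inductive Red : ℕ → Sys H → Sys H → Prop
  | refl (S : Sys H) : Red 0 S S
  | swap {c : ℕ} {S T : Sys H} : Red c S T → Red (c + 1) S T.swap
  | rm {c : ℕ} {S T : Sys H} (i : H) : Red c S T → RmOk T i → Red (c + 1) S (T.rm i)
  | ms {c : ℕ} {S T : Sys H} (w : H) (q e : ℕ) : Red c S T → MsOk T w q e →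
      (e = 0 ∨ ∃ h, 0 < T.l h ∧ T.b h + e = T.N) → Red (c + q.size + 1) S (T.ms w q e)

omit [Fintype H] in
theorem Red.trans {c c' : ℕ} {S T U : Sys H} (h : Red c S T) (h' : Red c' T U) :
    Red (c + c') S U := by
  induction h' with
  | refl T => exact h
  | swap _ ih => exact (ih h).swap
  | rm i _ ho ih => exact (ih h).rm i ho
  | @ms c' T U w q e _ ho he ih =>
    have := (ih h).ms w q e ho he
    rw [show c + (c' + q.size + 1) = c + c' + q.size + 1 by ring]
    exact this

omit [Fintype H] in
theorem Red.one_swap (S : Sys H) : Red 1 S S.swap := (Red.refl S).swap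

/-- the total number of binary digits -/
def Phi (S : Sys H) : ℕ := ∑ h, (S.l h).size

omit [DecidableEq H] in
theorem Phi_swap (S : Sys H) : Phi S.swap = Phi S := rfl

theorem size_add_size_le {x y : ℕ} (hx : 1 ≤ x) (hy : 1 ≤ y) : x.size + y.size ≤ (x * y).size + 1 := by
  have h1 : 0 < x.size := Nat.size_pos.2 hx
  have h2 : 0 < y.size := Nat.size_pos.2 hy
  have h3 : 2 ^ (x.size - 1) ≤ x := Nat.lt_size.1 (by omega)
  have h4 : 2 ^ (y.size - 1) ≤ y := Nat.lt_size.1 (by omega)
  have h5 : 2 ^ (x.size - 1 + (y.size - 1)) ≤ x * y := by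
    rw [pow_add]
    exact Nat.mul_le_mul h3 h4
  have h6 := Nat.lt_size.2 h5
  omega

theorem size_half {x y : ℕ} (h : 2 * x ≤ y) (hy : 0 < y) : x.size < y.size := by
  rcases Nat.eq_zero_or_pos x with h0 | h0
  · subst h0
    simpa using Nat.size_pos.2 hy
  · have h1 : 0 < x.size := Nat.size_pos.2 h0
    have h3 : 2 ^ (x.size - 1) ≤ x := Nat.lt_size.1 (by omega)
    refine Nat.lt_size.2 ?_
    obtain ⟨s, hs⟩ : ∃ s, x.size = s + 1 := ⟨x.size - 1, by omega⟩
    rw [hs] at h3 ⊢
    rw [Nat.add_sub_cancel] at h3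
    rw [pow_succ]
    omega

theorem Phi_ms (S : Sys H) (w : H) (q e : ℕ) :
    Phi (S.ms w q e) + (S.l w).size = Phi S + (S.l w - (q * (S.a w - S.b w) + e)).size := by
  unfold Phi
  have e1 : ∀ h, ((S.ms w q e).l h).size =
      if h = w then (S.l w - (q * (S.a w - S.b w) + e)).size else (S.l h).size := by
    intro h
    show (if h = w then _ else _ : ℕ).size = _
    split_ifs <;> rfl
  rw [Finset.sum_congr rfl fun h _ => e1 h, ← Finset.add_sum_erase _ _ (Finset.mem_univ w),
    ← Finset.add_sum_erase (Finset.univ) (fun h => (S.l h).size) (Finset.mem_univ w), if_pos rfl]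
  have e2 : ∑ x ∈ univ.erase w, (if x = w then (S.l w - (q * (S.a w - S.b w) + e)).size
      else (S.l x).size) = ∑ x ∈ univ.erase w, (S.l x).size :=
    Finset.sum_congr rfl fun x hx => by rw [if_neg (Finset.ne_of_mem_erase hx)]
  rw [e2]
  ring

theorem Phi_rm (S : Sys H) (i : H) : Phi (S.rm i) + (S.l i).size = Phi S := by
  unfold Phi
  have e1 : ∀ h, ((S.rm i).l h).size = if h = i then 0 else (S.l h).size := by
    intro h
    show (if h = i then _ else _ : ℕ).size = _
    split_ifs
    · exact Nat.size_zero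
    · rfl
  rw [Finset.sum_congr rfl fun h _ => e1 h, ← Finset.add_sum_erase _ _ (Finset.mem_univ i),
    ← Finset.add_sum_erase (Finset.univ) (fun h => (S.l h).size) (Finset.mem_univ i), if_pos rfl]
  have e2 : ∑ x ∈ univ.erase i, (if x = i then 0 else (S.l x).size) =
      ∑ x ∈ univ.erase i, (S.l x).size :=
    Finset.sum_congr rfl fun x hx => by rw [if_neg (Finset.ne_of_mem_erase hx)]
  rw [e2]
  ring

/-- the two bands at the right end have widths `M`, `m` -/
def Ends (S : Sys H) (M m : ℕ) : Prop :=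
  ∃ i j, i ≠ j ∧ 0 < S.l i ∧ 0 < S.l j ∧ S.a i + S.l i = S.N ∧ S.b j + S.l j = S.N ∧ m ≤ M ∧
    ((S.l i = M ∧ S.l j = m) ∨ (S.l i = m ∧ S.l j = M))

omit [DecidableEq H] [Fintype H] in
theorem Ends.swap {S : Sys H} {M m : ℕ} (h : Ends S M m) : Ends S.swap M m := by
  obtain ⟨i, j, h1, h2, h3, h4, h5, h6, h7⟩ := h
  exact ⟨j, i, h1.symm, h3, h2, h5, h4, h6, by tauto⟩

omit [DecidableEq H] [Fintype H] in
theorem Ends.unique {S : Sys H} (hS : GoodSys S) {M m M' m' : ℕ} (h : Ends S M m)
    (h' : Ends S M' m') : M = M' ∧ m = m' := by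
  obtain ⟨i, j, h1, h2, h3, h4, h5, h6, h7⟩ := h
  obtain ⟨i', j', h1', h2', h3', h4', h5', h6', h7'⟩ := h'
  have e1 : i = i' := hS.disA i i' (S.N - 1) (by omega) (by omega) (by omega) (by omega)
  have e2 : j = j' := hS.disB j j' (S.N - 1) (by omega) (by omega) (by omega) (by omega)
  subst e1 e2
  omega

omit [Fintype H] in
/-- one macro step -/
theorem fwd {S : Sys H} (hS : GoodSys S) (h3 : 3 ≤ S.N) {i j : H} (hij : i ≠ j) (hi : 0 < S.l i)
    (hj : 0 < S.l j) (hai : S.a i + S.l i = S.N) (hbj : S.b j + S.l j = S.N)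
    (hle : S.l j ≤ S.l i) :
    ∃ q e, MsOk S i q e ∧ (e = 0 ∨ ∃ h, 0 < S.l h ∧ S.b h + e = S.N) ∧
      q.size + ((S.ms i q e).l i).size ≤ (S.l i).size + 1 ∧
      (2 * (S.ms i q e).l i ≤ S.l i ∨
        (q = 0 ∧ 2 * S.l j ≤ S.l i ∧ S.l i < 2 * (S.ms i q e).l i ∧
          ∃ M', (S.ms i q e).l i < M' ∧ Ends (S.ms i q e) M' ((S.ms i q e).l i))) := by
  classical
  have hbi : S.b i + S.l i ≤ S.N := hS.ranB i hi
  have hlt : S.b i < S.a i := by
    by_contra h
    have : i = j := hS.disB i j (S.N - 1) (by omega) (by omega) (by omega) (by omega)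
    exact hij this
  obtain ⟨D, hD⟩ : ∃ D, D = S.a i - S.b i := ⟨_, rfl⟩
  have hDpos : 0 < D := by omega
  obtain ⟨q, hq⟩ : ∃ q, q = (S.l i - 1) / D := ⟨_, rfl⟩
  have hdm := Nat.div_add_mod (S.l i - 1) D
  have hml := Nat.mod_lt (S.l i - 1) hDpos
  rw [← hq, mul_comm] at hdm
  obtain ⟨rem, hrem⟩ : ∃ rem, rem = S.l i - q * D := ⟨_, rfl⟩
  have hrem1 : 1 ≤ rem := by omega
  have hremD : rem ≤ D := by omega
  have hremq : q * D + rem = S.l i := by omega
  set P : ℕ → Prop := fun e => e = 0 ∨ ∃ h, 0 < S.l h ∧ S.b h + e = S.N with hP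
  obtain ⟨e, he⟩ : ∃ e, e = Nat.findGreatest P rem := ⟨_, rfl⟩
  have hPe : P e := by
    rw [he]
    exact Nat.findGreatest_spec (Nat.zero_le rem) (Or.inl rfl)
  have hele : e ≤ rem := by rw [he]; exact Nat.findGreatest_le rem
  have hemax : ∀ k, e < k → k ≤ rem → ¬ P k := by
    intro k hk hk'
    rw [he] at hk
    exact Nat.findGreatest_is_greatest hk hk'
  have hej : S.l j ≤ rem → S.l j ≤ e := by
    intro h
    by_contra h'
    exact hemax (S.l j) (by omega) h (Or.inr ⟨j, hj, hbj⟩)
  have hq1 : (q + 1) * D = q * D + D := by ring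
  have hm : MsOk S i q e := by
    refine ⟨h3, hi, hai, hlt, ?_, ?_, ?_, ?_⟩
    · rw [← hD]; omega
    · rw [← hD]; omega
    · intro h hl hb
      rcases hPe with h0 | ⟨h0, hl0, hb0⟩
      · rw [h0]
        exact hS.ranB h hl
      · by_contra hcon
        have : h = h0 := hS.disB h h0 (S.b h0) (by omega) (by omega) le_rfl (by omega)
        subst this
        omega
    · intro h1
      have hq0 : q = 0 := by
        rw [hq, h1]; simp
      rw [hq0, zero_mul] at hremq
      have := hej (by omega)
      exact ⟨hq0, by omega⟩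
  have hl' : (S.ms i q e).l i = rem - e := by
    show (if i = i then S.l i - (q * (S.a i - S.b i) + e) else S.l i) = rem - e
    rw [if_pos rfl, ← hD]
    omega
  have eN : (S.ms i q e).N = S.N - (q * D + e) := by rw [hD]; rfl
  refine ⟨q, e, hm, hPe, ?_, ?_⟩
  · rw [hl']
    rcases Nat.eq_zero_or_pos q with h0 | h0
    · rw [h0, Nat.size_zero]
      have := Nat.size_le_size (show rem - e ≤ S.l i by omega)
      omega
    · have hqD : q ≤ q * D := Nat.le_mul_of_pos_right q hDpos
      rcases Nat.eq_zero_or_pos (rem - e) with h1 | h1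
      · rw [h1, Nat.size_zero]
        have := Nat.size_le_size (show q ≤ S.l i by omega)
        omega
      · have h2 := size_add_size_le h0 h1
        have h4 : q * (rem - e) ≤ S.l i := by
          calc q * (rem - e) ≤ q * D := Nat.mul_le_mul_left _ (by omega)
            _ ≤ S.l i := by omega
        have := Nat.size_le_size h4
        omega
  · rw [hl']
    rcases Nat.eq_zero_or_pos q with h0 | h0
    · -- no complete round
      have hrl : rem = S.l i := by rw [h0, zero_mul] at hremq; omega
      have hej' := hej (by omega)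
      by_cases hhalf : 2 * (rem - e) ≤ S.l i
      · left; exact hhalf
      · right
        refine ⟨h0, by omega, by omega, ?_⟩
        have hG := hS.ms hm
        have hN2 := hm.two_le hS
        replace eN : (S.ms i q e).N = S.N - e := eN.trans (by rw [h0, zero_mul, zero_add])
        obtain ⟨k, hk1, hk2⟩ := hG.covB ((S.ms i q e).N - 1) (by omega)
        have hk1' := hk1
        have hk2' := hk2
        have hmi : mult S i q e i = 0 := by unfold mult; simp
        have hki : k ≠ i := by
          rintro rfl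
          have eb : (S.ms k q e).b k = S.b k := by
            show S.b k - mult S k q e k * _ = _
            rw [hmi]; simp
          rw [eb, hl', eN] at hk2
          omega
        have hlk : (S.ms i q e).l k = S.l k := by
          show (if k = i then _ else _) = _
          rw [if_neg hki]
        have hlk0 : 0 < S.l k := by
          rw [hlk] at hk2
          rw [eN] at hk2
          rcases Nat.eq_zero_or_pos (S.l k) with h4 | h4
          · omega
          · exact h4
        have ebk : (S.ms i q e).b k = S.b k - mult S i q e k * D := by rw [hD]; rfl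
        have hmk : mult S i q e k = 0 ∧ S.b k < S.N - e := by
          rcases ms_types hS hm k hki hlk0 with ⟨hmu, h9⟩ | ⟨hmu, h9, h10⟩ | ⟨hmu, h9⟩
          · exfalso
            have hmu1 : mult S i q e k = 1 := by rw [hmu]; omega
            rw [ebk, hlk, hmu1, one_mul, eN] at hk2
            have := hS.ranB k hlk0
            omega
          · exact ⟨by rw [hmu, h0], by omega⟩
          · exact ⟨hmu, by omega⟩
        rw [ebk, hmk.1, zero_mul, Nat.sub_zero] at hk1 hk2
        rw [hlk, eN] at hk2
        rw [eN] at hk1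
        have hkend : S.b k + S.l k = S.N - e := by
          have := hm.bdry k hlk0 hmk.2
          omega
        have hkbig : rem < S.N - S.b k := by
          by_contra hcon
          exact hemax (S.N - S.b k) (by omega) (by omega) (Or.inr ⟨k, hlk0, by omega⟩)
        refine ⟨S.l k, by omega, i, k, hki.symm, by rw [hl']; omega, by rw [hlk]; exact hlk0, ?_,
          ?_, by omega, Or.inr ⟨hl', hlk⟩⟩
        · rw [hl', eN]
          show S.a i + (rem - e) = S.N - e
          omega
        · rw [ebk, hmk.1, zero_mul, Nat.sub_zero, hlk, eN]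
          exact hkend
    · left
      have : D ≤ q * D := Nat.le_mul_of_pos_left D h0
      omega

/-- one turn -/
theorem turn {S : Sys H} (hS : GoodSys S) (h3 : 3 ≤ S.N) :
    ∃ T c, Red c S T ∧ GoodSys T ∧ 2 ≤ T.N ∧ (∀ h, T.l h ≤ S.l h) ∧
      ((Phi T < Phi S ∧ c + Phi T ≤ 3 + Phi S) ∨
        (c ≤ 3 ∧ Phi T ≤ Phi S ∧ ∃ M m M' m', Ends S M m ∧ 2 * m ≤ M ∧ Ends T M' m' ∧ m' < M' ∧
          M < 2 * m')) := by
  obtain ⟨i, hi1, hi2⟩ := hS.covA (S.N - 1) (by omega)
  obtain ⟨j, hj1, hj2⟩ := hS.covB (S.N - 1) (by omega)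
  have hi0 : 0 < S.l i := by omega
  have hj0 : 0 < S.l j := by omega
  have hi : S.a i + S.l i = S.N := by have := hS.ranA i hi0; omega
  have hj : S.b j + S.l j = S.N := by have := hS.ranB j hj0; omega
  by_cases hij : i = j
  · subst hij
    have hok : RmOk S i := ⟨h3, hi0, hi, by omega⟩
    have hphi := Phi_rm S i
    have hsz : 0 < (S.l i).size := Nat.size_pos.2 hi0
    refine ⟨S.rm i, 1, (Red.refl S).rm i hok, hS.rm hok, hok.two_le hS, ?_, Or.inl ⟨by omega, by
      omega⟩⟩
    intro h
    show (if h = i then 0 else S.l h) ≤ S.l h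
    split_ifs <;> omega
  · -- the step for the larger side
    have main : ∀ (S : Sys H), GoodSys S → 3 ≤ S.N → ∀ i j : H, i ≠ j → 0 < S.l i → 0 < S.l j →
        S.a i + S.l i = S.N → S.b j + S.l j = S.N → S.l j ≤ S.l i →
        ∃ T c, Red c S T ∧ GoodSys T ∧ 2 ≤ T.N ∧ (∀ h, T.l h ≤ S.l h) ∧
          ((Phi T < Phi S ∧ c + Phi T ≤ 2 + Phi S) ∨
            (c ≤ 2 ∧ Phi T ≤ Phi S ∧ ∃ M m M' m', Ends S M m ∧ 2 * m ≤ M ∧ Ends T M' m' ∧
              m' < M' ∧ M < 2 * m')) := by
      intro S hS h3 i j hij hi0 hj0 hi hj hle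
      obtain ⟨q, e, hm, he, hsz, halt⟩ := fwd hS h3 hij hi0 hj0 hi hj hle
      have hphi := Phi_ms S i q e
      have hl' : (S.ms i q e).l i = S.l i - (q * (S.a i - S.b i) + e) := by
        show (if i = i then _ else _) = _
        rw [if_pos rfl]
      rw [← hl'] at hphi
      have hlmono : ∀ h, (S.ms i q e).l h ≤ S.l h := by
        intro h
        show (if h = i then _ else _) ≤ _
        split_ifs with h1
        · subst h1; omega
        · exact le_rfl
      have hszmono : ((S.ms i q e).l i).size ≤ (S.l i).size := Nat.size_le_size (hlmono i)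
      refine ⟨S.ms i q e, 0 + q.size + 1, (Red.refl S).ms i q e hm he, hS.ms hm, hm.two_le hS,
        hlmono, ?_⟩
      rcases halt with h1 | ⟨hq, h1, h2, M', h4, h5⟩
      · left
        have := size_half h1 hi0
        omega
      · right
        refine ⟨by rw [hq, Nat.size_zero]; norm_num, by omega, S.l i, S.l j, M', (S.ms i q e).l i,
          ⟨i, j, hij, hi0, hj0, hi, hj, hle, Or.inl ⟨rfl, rfl⟩⟩, h1, h5, h4, h2⟩
    rcases le_total (S.l j) (S.l i) with hle | hle
    · obtain ⟨T, c, h1, h2, h4, h5, h6⟩ := main S hS h3 i j hij hi0 hj0 hi hj hle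
      refine ⟨T, c, h1, h2, h4, h5, ?_⟩
      rcases h6 with ⟨h6, h7⟩ | ⟨h6, h7, h8⟩
      · left; exact ⟨h6, by omega⟩
      · right; exact ⟨by omega, h7, h8⟩
    · obtain ⟨T, c, h1, h2, h4, h5, h6⟩ := main S.swap hS.swap h3 j i (Ne.symm hij) hj0 hi0 hj hi hle
      rw [Phi_swap] at h6
      refine ⟨T, 1 + c, (Red.one_swap S).trans h1, h2, h4, h5, ?_⟩
      rcases h6 with ⟨h6, h7⟩ | ⟨h6, h7, M, m, M', m', h8, h9⟩
      · left; exact ⟨h6, by omega⟩
      · right
        exact ⟨by omega, h7, M, m, M', m', h8.swap, h9⟩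

theorem descend : ∀ (n : ℕ) (S : Sys H), GoodSys S → 3 ≤ S.N →
    (∀ M m, Ends S M m → (univ.filter fun h => M < S.l h).card ≤ n) →
    ∃ T c, Red c S T ∧ GoodSys T ∧ 2 ≤ T.N ∧ Phi T < Phi S ∧ c + Phi T ≤ 3 * (n + 2) + Phi S := by
  intro n
  induction n with
  | zero =>
    intro S hS h3 hn
    obtain ⟨T, c, h1, h2, h4, h5, h6⟩ := turn hS h3
    rcases h6 with ⟨h6, h7⟩ | ⟨h6, h7, M, m, M', m', h8, h9, h10, h11, h12⟩
    · exact ⟨T, c, h1, h2, h4, h6, by omega⟩
    · have hT3 : 3 ≤ T.N := by
        by_contra hcon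
        obtain ⟨i, j, -, hi0, hj0, hi, hj, -, hh⟩ := h10
        have e1 := h2.unitA i hi0 (by omega)
        have e2 := h2.unitB j hj0 (by omega)
        omega
      by_cases hc : M' < 2 * m'
      · obtain ⟨U, c', k1, k2, k4, k5, k6⟩ := turn h2 hT3
        rcases k6 with ⟨k6, k7⟩ | ⟨k6, k7, N1, n1, N1', n1', k8, k9, k10, k11, k12⟩
        · exact ⟨U, c + c', h1.trans k1, k2, k4, by omega, by omega⟩
        · exfalso
          have := Ends.unique h2 h10 k8
          omega
      · exfalso
        have h13 := hn M m h8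
        obtain ⟨i, j, -, hi0, hj0, hi, hj, -, hh⟩ := h10
        have : ∃ k, M < S.l k := by
          rcases hh with ⟨e1, e2⟩ | ⟨e1, e2⟩
          · exact ⟨i, by have := h5 i; omega⟩
          · exact ⟨j, by have := h5 j; omega⟩
        obtain ⟨k, hk⟩ := this
        have h14 : k ∈ univ.filter fun h => M < S.l h := by simp [hk]
        have := Finset.card_pos.2 ⟨k, h14⟩
        omega
  | succ n ih =>
    intro S hS h3 hn
    obtain ⟨T, c, h1, h2, h4, h5, h6⟩ := turn hS h3
    rcases h6 with ⟨h6, h7⟩ | ⟨h6, h7, M, m, M', m', h8, h9, h10, h11, h12⟩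
    · exact ⟨T, c, h1, h2, h4, h6, by omega⟩
    · have hT3 : 3 ≤ T.N := by
        by_contra hcon
        obtain ⟨i, j, -, hi0, hj0, hi, hj, -, hh⟩ := h10
        have e1 := h2.unitA i hi0 (by omega)
        have e2 := h2.unitB j hj0 (by omega)
        omega
      by_cases hc : M' < 2 * m'
      · obtain ⟨U, c', k1, k2, k4, k5, k6⟩ := turn h2 hT3
        rcases k6 with ⟨k6, k7⟩ | ⟨k6, k7, N1, n1, N1', n1', k8, k9, k10, k11, k12⟩
        · exact ⟨U, c + c', h1.trans k1, k2, k4, by omega, by omega⟩
        · exfalso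
          have := Ends.unique h2 h10 k8
          omega
      · have hlt : (univ.filter fun h => M' < T.l h).card <
            (univ.filter fun h => M < S.l h).card := by
          refine Finset.card_lt_card ?_
          rw [Finset.ssubset_iff_of_subset]
          · obtain ⟨i, j, -, hi0, hj0, hi, hj, -, hh⟩ := h10
            rcases hh with ⟨e1, e2⟩ | ⟨e1, e2⟩
            · refine ⟨i, ?_, ?_⟩
              · simp only [mem_filter, mem_univ, true_and]
                have := h5 i; omega
              · simp only [mem_filter, mem_univ, true_and]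
                omega
            · refine ⟨j, ?_, ?_⟩
              · simp only [mem_filter, mem_univ, true_and]
                have := h5 j; omega
              · simp only [mem_filter, mem_univ, true_and]
                omega
          · intro k hk
            simp only [mem_filter, mem_univ, true_and] at hk ⊢
            have := h5 k
            omega
        obtain ⟨U, c', k1, k2, k4, k5, k6⟩ := ih T h2 hT3 (by
          intro N1 n1 hE
          have := Ends.unique h2 h10 hE
          rw [← this.1]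
          have := hn M m h8
          omega)
        exact ⟨U, c + c', h1.trans k1, k2, k4, by omega, by omega⟩

/-- **The induction is short.** -/
theorem exists_red : ∀ (p : ℕ) (S : Sys H), GoodSys S → 2 ≤ S.N → Phi S ≤ p →
    ∃ T c, Red c S T ∧ GoodSys T ∧ T.N = 2 ∧ c ≤ (3 * (Fintype.card H + 2) + 1) * Phi S := by
  intro p
  induction p with
  | zero =>
    intro S hS h2 hp
    rcases Nat.lt_or_ge 2 S.N with h3 | h3
    · exfalso
      obtain ⟨T, c, h1, h4, h5, h6, h7⟩ := descend (Fintype.card H) S hS h3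
        (fun M m _ => (Finset.card_filter_le _ _).trans (by rw [Finset.card_univ]))
      omega
    · exact ⟨S, 0, Red.refl S, hS, by omega, Nat.zero_le _⟩
  | succ p ih =>
    intro S hS h2 hp
    rcases Nat.lt_or_ge 2 S.N with h3 | h3
    · obtain ⟨T, c, h1, h4, h5, h6, h7⟩ := descend (Fintype.card H) S hS h3
        (fun M m _ => (Finset.card_filter_le _ _).trans (by rw [Finset.card_univ]))
      obtain ⟨U, c', k1, k2, k3, k4⟩ := ih T h4 h5 (by omega)
      refine ⟨U, c + c', h1.trans k1, k2, k3, ?_⟩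
      set K := 3 * (Fintype.card H + 2) with hK
      have h8 : (K + 1) * Phi S = (K + 1) * Phi T + (K + 1) * (Phi S - Phi T) := by
        rw [← Nat.mul_add]
        congr 1
        omega
      have h9 : K + (Phi S - Phi T) ≤ (K + 1) * (Phi S - Phi T) := by
        have : K * 1 ≤ K * (Phi S - Phi T) := Nat.mul_le_mul_left _ (by omega)
        rw [Nat.add_mul, one_mul]
        omega
      omega
    · exact ⟨S, 0, Red.refl S, hS, by omega, Nat.zero_le _⟩

omit [DecidableEq H] in
theorem Phi_le {S : Sys H} (hS : GoodSys S) : Phi S ≤ Fintype.card H * S.N.size := by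
  unfold Phi
  calc ∑ h, (S.l h).size ≤ ∑ _h : H, S.N.size := by
        refine Finset.sum_le_sum fun h _ => ?_
        refine Nat.size_le_size ?_
        rcases Nat.eq_zero_or_pos (S.l h) with h0 | h0
        · omega
        · have := hS.ranA h h0
          omega
    _ = Fintype.card H * S.N.size := by simp

end Pool.Agent.PTr
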