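import Mathlib
import Pool.Agent.PTr.Chain2
import Pool.Agent.PTr.Count

/-!
# The Rauzy induction as a linear machine
-/

set_option autoImplicit false

namespace Pool.Agent.PTr

open Finset Filter Pool.Agent.Grz Pool.Agent.GAvg

/-- registers -/
inductive Reg (H : Type) : Type
  | N | X | Y | Z
  | a (h : H) | b (h : H) | l (h : H) | u (h : H) | d (h : H)
  deriving DecidableEq, Fintype

/-- instructions -/
inductive Ins (H : Type) : Type
  | sh (w : H) (β : Bool)
  | ap (w : H) (h0 : Option H) (ty : H → Fin 3)
  | rm (i : H)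
  | sw

instance {H : Type} [DecidableEq H] [Fintype H] : Fintype (Ins H) :=
  Fintype.ofEquiv ((H × Bool) ⊕ (H × Option H × (H → Fin 3)) ⊕ H ⊕ Unit)
    { toFun := fun x => match x with
        | .inl (w, β) => .sh w β
        | .inr (.inl (w, h0, ty)) => .ap w h0 ty
        | .inr (.inr (.inl i)) => .rm i
        | .inr (.inr (.inr _)) => .sw
      invFun := fun x => match x with
        | .sh w β => .inl (w, β)
        | .ap w h0 ty => .inr (.inl (w, h0, ty))
        | .rm i => .inr (.inr (.inl i))
        | .sw => .inr (.inr (.inr ()))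
      left_inv := by rintro (⟨w, β⟩ | ⟨w, h0, ty⟩ | i | u) <;> rfl
      right_inv := by rintro (⟨w, β⟩ | ⟨w, h0, ty⟩ | i | _) <;> rfl }

section defs

variable {H : Type} [DecidableEq H] [Fintype H]

/-- the positive part of the rows -/
def pos : Ins H → Reg H → List (Reg H)
  | .sh w β, .X => [.X, .X] ++ (if β then [.a w] else [])
  | .sh w β, .Y => [.Y, .Y] ++ (if β then [.u w] else [])
  | .sh w β, .Z => [.Z, .Z] ++ (if β then [.d w] else [])
  | .sh _ _, k => [k]
  | .ap _ none _, .N => [.N]
  | .ap _ (some h0) _, .N => [.b h0]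
  | .ap w none _, .l h => if h = w then [.l w, .N] else [.l h]
  | .ap w (some h0) _, .l h => if h = w then [.l w, .b h0] else [.l h]
  | .ap w _ ty, .b h => if ty h = 2 then [.b h, .b w] else [.b h]
  | .ap w _ ty, .u h => if ty h = 0 then [.u h] else if ty h = 1 then [.u h, .Y]
      else [.u h, .Y, .u w]
  | .ap w _ ty, .d h => if ty h = 0 then [.d h] else if ty h = 1 then [.d h, .Z]
      else [.d h, .Z, .d w]
  | .ap _ _ _, .a h => [.a h]
  | .ap _ _ _, .X => []
  | .ap _ _ _, .Y => []
  | .ap _ _ _, .Z => []
  | .rm i, .l h => if h = i then [] else [.l h]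
  | .rm _, k => [k]
  | .sw, .a h => [.b h]
  | .sw, .b h => [.a h]
  | .sw, .u h => [.d h]
  | .sw, .d h => [.u h]
  | .sw, k => [k]

/-- the negative part of the rows -/
def neg : Ins H → Reg H → List (Reg H)
  | .sh w β, .X => if β then [.b w] else []
  | .ap _ _ _, .N => [.X]
  | .ap w _ _, .l h => if h = w then [.X, .N] else []
  | .ap w _ ty, .b h => if ty h = 0 then [] else if ty h = 1 then [.X] else [.X, .a w]
  | .rm i, .N => [.l i]
  | _, _ => []

/-- the system stored in the registers -/
def toSys (s : Reg H → ℕ) : Sys H :=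
  ⟨s .N, fun h => s (.a h), fun h => s (.b h), fun h => s (.l h), fun h => s (.u h),
    fun h => s (.d h)⟩

/-- the partial round -/
def eOf (s : Reg H → ℕ) : Option H → ℕ
  | none => 0
  | some h0 => s .N - s (.b h0)

/-- the left end used by the partial round -/
def bOf (s : Reg H → ℕ) : Option H → ℕ
  | none => 0
  | some h0 => s (.b h0)

/-- multiplicities -/
def tyval (q : ℕ) : Fin 3 → ℕ
  | 0 => 0
  | 1 => q
  | 2 => q + 1

/-- guards -/
def guard : Ins H → (Reg H → ℕ) → Prop
  | .sh _ _, _ => True
  | .ap w h0 ty, s => ∃ q, q ≤ s .X ∧ (s .X = q * (s (.a w) - s (.b w)) ∧ s .Y = q * s (.u w) ∧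
      s .Z = q * s (.d w) ∧ bOf s h0 ≤ s .N ∧ MsOk (toSys s) w q (eOf s h0) ∧
      ∀ h, mult (toSys s) w q (eOf s h0) h = tyval q (ty h))
  | .rm i, s => RmOk (toSys s) i
  | .sw, _ => True

/-- positive coefficients -/
def cA (i : Ins H) (k l : Reg H) : ℕ := (pos i k).count l

/-- negative coefficients -/
def cB (i : Ins H) (k l : Reg H) : ℕ := (neg i k).count l

theorem sum_count {κ : Type} [Fintype κ] [DecidableEq κ] (L : List κ) (s : κ → ℕ) :
    ∑ l, L.count l * s l = (L.map s).sum := by
  induction L with
  | nil => simp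
  | cons x L ih =>
    simp only [List.count_cons, List.map_cons, List.sum_cons, add_mul, Finset.sum_add_distrib, ih]
    rw [add_comm]
    congr 1
    rw [Finset.sum_eq_single x]
    · simp
    · intro b _ hb
      simp [Ne.symm hb]
    · intro h
      exact absurd (Finset.mem_univ x) h

theorem lin_iff (i : Ins H) (s t : Reg H → ℕ) :
    Lin (cA i) (cB i) s t ↔
      ∀ k, t k + ((neg i k).map s).sum = ((pos i k).map s).sum := by
  unfold Lin cA cB
  simp only [sum_count]

/-! ### Definability of the guards -/

theorem DFun.mult {n : ℕ} {g : Reg H → (Fin n → ℕ) → ℕ} (hg : ∀ k, DFun n (g k)) (w : H)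
    {q e : (Fin n → ℕ) → ℕ} (hq : DFun n q) (he : DFun n e) (h : H) :
    DFun n (fun v => mult (toSys fun k => g k v) w (q v) (e v) h) := by
  unfold PTr.mult toSys
  by_cases hw : h = w
  · simp only [hw, true_or, if_true]
    exact DFun.const 0
  · simp only [hw, false_or]
    refine DFun.ite (Delta0.eqFun (hg _) (DFun.const 0)) (DFun.const 0) ?_
    refine DFun.ite (Delta0.leFun ((hg _).sub he) (hg _)) (hq.add (DFun.const 1)) ?_
    exact DFun.ite (Delta0.leFun ((hg _).sub ((hg _).sub (hg _))) (hg _)) hq (DFun.const 0)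

theorem DFun.eOf {n : ℕ} {g : Reg H → (Fin n → ℕ) → ℕ} (hg : ∀ k, DFun n (g k))
    (h0 : Option H) : DFun n (fun v => eOf (fun k => g k v) h0) := by
  cases h0 with
  | none => exact DFun.const 0
  | some h0 => exact (hg _).sub (hg _)

theorem delta0_rmOk {n : ℕ} {g : Reg H → (Fin n → ℕ) → ℕ} (hg : ∀ k, DFun n (g k)) (i : H) :
    Delta0 n (fun v => RmOk (toSys fun k => g k v) i) := by
  have h := ((Delta0.leFun (DFun.const 3) (hg .N)).and ((Delta0.ltFun (DFun.const 0) (hg (.l i))).and
    ((Delta0.eqFun ((hg (.a i)).add (hg (.l i))) (hg .N)).and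
      (Delta0.eqFun (hg (.b i)) (hg (.a i))))))
  refine h.of_iff fun v => ?_
  constructor
  · rintro ⟨h1, h2, h3, h4⟩
    exact ⟨h1, h2, h3, h4⟩
  · rintro ⟨h1, h2, h3, h4⟩
    exact ⟨h1, h2, h3, h4⟩

theorem delta0_msOk {n : ℕ} {g : Reg H → (Fin n → ℕ) → ℕ} (hg : ∀ k, DFun n (g k)) (w : H)
    {q e : (Fin n → ℕ) → ℕ} (hq : DFun n q) (he : DFun n e) :
    Delta0 n (fun v => MsOk (toSys fun k => g k v) w (q v) (e v)) := by
  have hD := (hg (.a w)).sub (hg (.b w))
  have h := ((Delta0.leFun (DFun.const 3) (hg .N)).and ((Delta0.ltFun (DFun.const 0) (hg (.l w))).and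
    ((Delta0.eqFun ((hg (.a w)).add (hg (.l w))) (hg .N)).and
    ((Delta0.ltFun (hg (.b w)) (hg (.a w))).and
    ((Delta0.leFun ((hq.mul hD).add he) (hg (.l w))).and
    ((Delta0.leFun he hD).and
    ((Delta0.allOf fun h : H => (Delta0.ltFun (DFun.const 0) (hg (.l h))).imp
      ((Delta0.ltFun (hg (.b h)) ((hg .N).sub he)).imp
        (Delta0.leFun ((hg (.b h)).add (hg (.l h))) ((hg .N).sub he)))).and
    ((Delta0.eqFun (hg (.l w)) (DFun.const 1)).imp ((Delta0.eqFun hq (DFun.const 0)).and
      (Delta0.eqFun he (DFun.const 1)))))))))))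
  refine h.of_iff fun v => ?_
  constructor
  · rintro ⟨h1, h2, h3, h4, h5, h6, h7, h8⟩
    exact ⟨h1, h2, h3, h4, h5, h6, h7, h8⟩
  · rintro ⟨h1, h2, h3, h4, h5, h6, h7, h8⟩
    exact ⟨h1, h2, h3, h4, h5, h6, h7, h8⟩

theorem dk_guard (i : Ins H) : DK (guard i) := by
  intro n g hg
  cases i with
  | sh w β => exact (Delta0.eqFun (DFun.const 0) (DFun.const 0)).of_iff fun v => by simp [guard]
  | sw => exact (Delta0.eqFun (DFun.const 0) (DFun.const 0)).of_iff fun v => by simp [guard]
  | rm i => exact delta0_rmOk hg i
  | ap w h0 ty =>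
    show Delta0 n (fun v => ∃ q, q ≤ g .X v ∧ (g .X v = q * (g (.a w) v - g (.b w) v) ∧
      g .Y v = q * g (.u w) v ∧ g .Z v = q * g (.d w) v ∧ bOf (fun k => g k v) h0 ≤ g .N v ∧
      MsOk (toSys fun k => g k v) w q (eOf (fun k => g k v) h0) ∧
      ∀ h, mult (toSys fun k => g k v) w q (eOf (fun k => g k v) h0) h = tyval q (ty h)))
    refine Delta0.bexFun (hg .X) (P := fun q v => g .X v = q * (g (.a w) v - g (.b w) v) ∧
      g .Y v = q * g (.u w) v ∧ g .Z v = q * g (.d w) v ∧ bOf (fun k => g k v) h0 ≤ g .N v ∧
      MsOk (toSys fun k => g k v) w q (eOf (fun k => g k v) h0) ∧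
      ∀ h, mult (toSys fun k => g k v) w q (eOf (fun k => g k v) h0) h = tyval q (ty h)) ?_
    have hg' : ∀ k, DFun (n + 1) (fun v => g k (fun i => v i.succ)) := fun k => (hg k).weak
    have he := DFun.eOf hg' h0
    refine Delta0.and ?_ (Delta0.and ?_ (Delta0.and ?_ (Delta0.and ?_ (Delta0.and ?_ ?_))))
    · exact Delta0.eqFun (hg' _) ((DFun.proj 0).mul ((hg' _).sub (hg' _)))
    · exact Delta0.eqFun (hg' _) ((DFun.proj 0).mul (hg' _))
    · exact Delta0.eqFun (hg' _) ((DFun.proj 0).mul (hg' _))
    · refine Delta0.leFun ?_ (hg' _)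
      cases h0 with
      | none => exact DFun.const 0
      | some k => exact hg' _
    · exact delta0_msOk (g := fun k v => g k (fun i => v i.succ)) hg' w (DFun.proj 0) he
    · refine Delta0.allOf fun h => ?_
      refine Delta0.eqFun (DFun.mult (g := fun k v => g k (fun i => v i.succ)) hg' w
        (DFun.proj 0) he h) ?_
      match hty : ty h with
      | 0 => exact DFun.const 0
      | 1 => exact DFun.proj 0
      | 2 => exact (DFun.proj 0).add (DFun.const 1)

/-! ### Semantics of the instructions -/

theorem sys_ext {S T : Sys H} (hN : S.N = T.N) (ha : ∀ h, S.a h = T.a h) (hb : ∀ h, S.b h = T.b h)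
    (hl : ∀ h, S.l h = T.l h) (hu : ∀ h, S.u h = T.u h) (hd : ∀ h, S.d h = T.d h) : S = T := by
  cases S; cases T
  simp only [Sys.mk.injEq]
  exact ⟨hN, funext ha, funext hb, funext hl, funext hu, funext hd⟩

theorem sem_sh {s t : Reg H → ℕ} {w : H} {β : Bool} (h : Lin (cA (.sh w β)) (cB (.sh w β)) s t) :
    toSys t = toSys s := by
  rw [lin_iff] at h
  refine sys_ext ?_ ?_ ?_ ?_ ?_ ?_
  · have := h .N; simpa [pos, neg, toSys] using this
  all_goals intro k
  · have := h (.a k); simpa [pos, neg, toSys] using this
  · have := h (.b k); simpa [pos, neg, toSys] using this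
  · have := h (.l k); simpa [pos, neg, toSys] using this
  · have := h (.u k); simpa [pos, neg, toSys] using this
  · have := h (.d k); simpa [pos, neg, toSys] using this

theorem sem_sw {s t : Reg H → ℕ} (h : Lin (cA (.sw : Ins H)) (cB .sw) s t) :
    toSys t = (toSys s).swap := by
  rw [lin_iff] at h
  refine sys_ext ?_ ?_ ?_ ?_ ?_ ?_
  · have := h .N; simpa [pos, neg, toSys, Sys.swap] using this
  all_goals intro k
  · have := h (.a k); simpa [pos, neg, toSys, Sys.swap] using this
  · have := h (.b k); simpa [pos, neg, toSys, Sys.swap] using this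
  · have := h (.l k); simpa [pos, neg, toSys, Sys.swap] using this
  · have := h (.u k); simpa [pos, neg, toSys, Sys.swap] using this
  · have := h (.d k); simpa [pos, neg, toSys, Sys.swap] using this

theorem sem_rm {s t : Reg H → ℕ} {i : H} (h : Lin (cA (.rm i)) (cB (.rm i)) s t) :
    toSys t = (toSys s).rm i := by
  rw [lin_iff] at h
  refine sys_ext ?_ ?_ ?_ ?_ ?_ ?_
  · have := h .N
    simp only [pos, neg, List.map_cons, List.map_nil, List.sum_cons, List.sum_nil,
      Nat.add_zero] at this
    show t .N = s .N - s (.l i)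
    omega
  all_goals intro k
  · have := h (.a k); simpa [pos, neg, toSys, Sys.rm] using this
  · have := h (.b k); simpa [pos, neg, toSys, Sys.rm] using this
  · have := h (.l k)
    simp only [pos, neg] at this
    show t (.l k) = if k = i then 0 else s (.l k)
    split_ifs at this ⊢ <;> simpa using this
  · have := h (.u k); simpa [pos, neg, toSys, Sys.rm] using this
  · have := h (.d k); simpa [pos, neg, toSys, Sys.rm] using this

theorem sem_ap {s t : Reg H → ℕ} {w : H} {h0 : Option H} {ty : H → Fin 3} {q : ℕ}
    (hX : s .X = q * (s (.a w) - s (.b w))) (hY : s .Y = q * s (.u w))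
    (hZ : s .Z = q * s (.d w)) (hm : MsOk (toSys s) w q (eOf s h0))
    (hb : bOf s h0 ≤ s .N)
    (hty : ∀ h, mult (toSys s) w q (eOf s h0) h = tyval q (ty h))
    (h : Lin (cA (.ap w h0 ty)) (cB (.ap w h0 ty)) s t) :
    toSys t = (toSys s).ms w q (eOf s h0) := by
  rw [lin_iff] at h
  have hb0 : ∀ k, h0 = some k → s (.b k) ≤ s .N := by
    rintro k rfl
    exact hb
  have h1 : s (.a w) + s (.l w) = s .N := hm.last
  have h2 : s (.b w) < s (.a w) := hm.lt
  have h4 : q * (s (.a w) - s (.b w)) + eOf s h0 ≤ s (.l w) := hm.le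
  rw [← hX] at h4
  have hbase : ((pos (.ap w h0 ty) .N).map s).sum = s .N - eOf s h0 := by
    cases h0 with
    | none => simp [pos, eOf]
    | some k =>
      have := hb0 k rfl
      simp only [pos, List.map_cons, List.map_nil, List.sum_cons, List.sum_nil, Nat.add_zero, eOf]
      omega
  refine sys_ext ?_ ?_ ?_ ?_ ?_ ?_
  · have h5 := h .N
    rw [hbase] at h5
    simp only [neg, List.map_cons, List.map_nil, List.sum_cons, List.sum_nil,
      Nat.add_zero] at h5
    show t .N = s .N - (q * (s (.a w) - s (.b w)) + eOf s h0)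
    rw [← hX]
    omega
  all_goals intro k
  · have := h (.a k)
    cases h0 <;> simpa [pos, neg, toSys, Sys.ms] using this
  · have h5 := h (.b k)
    have h6 := hty k
    show t (.b k) = s (.b k) - mult (toSys s) w q (eOf s h0) k * (s (.a w) - s (.b w))
    rw [h6]
    match hk : ty k with
    | 0 =>
      cases h0 <;> simp [pos, neg, hk] at h5 <;> simp [tyval, h5]
    | 1 =>
      have h7 : t (.b k) + s .X = s (.b k) := by
        cases h0 <;> simpa [pos, neg, hk] using h5
      simp only [tyval]
      rw [← hX]
      omega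
    | 2 =>
      have h7 : t (.b k) + (s .X + s (.a w)) = s (.b k) + s (.b w) := by
        cases h0 <;> simpa [pos, neg, hk] using h5
      simp only [tyval]
      rw [Nat.add_mul, one_mul, ← hX]
      omega
  · have h5 := h (.l k)
    show t (.l k) = if k = w then s (.l w) - (q * (s (.a w) - s (.b w)) + eOf s h0) else s (.l k)
    rw [← hX]
    by_cases hk : k = w
    · subst hk
      rw [if_pos rfl]
      have h7 : t (.l k) + (s .X + s .N) = s (.l k) + (s .N - eOf s h0) := by
        cases h0 with
        | none => simpa [pos, neg, eOf] using h5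
        | some k0 =>
          have := hb0 k0 rfl
          have h8 : t (.l k) + (s .X + s .N) = s (.l k) + s (.b k0) := by
            simpa [pos, neg, eOf] using h5
          simp only [eOf]
          omega
      omega
    · rw [if_neg hk]
      cases h0 <;> simpa [pos, neg, hk] using h5
  · have h5 := h (.u k)
    have h6 := hty k
    show t (.u k) = s (.u k) + mult (toSys s) w q (eOf s h0) k * s (.u w)
    rw [h6]
    match hk : ty k with
    | 0 =>
      cases h0 <;> simp [pos, neg, hk] at h5 <;> simp [tyval, h5]
    | 1 =>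
      have h7 : t (.u k) = s (.u k) + s .Y := by
        cases h0 <;> simpa [pos, neg, hk] using h5
      simp only [tyval]
      rw [h7, hY]
    | 2 =>
      have h7 : t (.u k) = s (.u k) + (s .Y + s (.u w)) := by
        cases h0 <;> simpa [pos, neg, hk] using h5
      simp only [tyval]
      rw [Nat.add_mul, one_mul, h7, hY]
  · have h5 := h (.d k)
    have h6 := hty k
    show t (.d k) = s (.d k) + mult (toSys s) w q (eOf s h0) k * s (.d w)
    rw [h6]
    match hk : ty k with
    | 0 =>
      cases h0 <;> simp [pos, neg, hk] at h5 <;> simp [tyval, h5]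
    | 1 =>
      have h7 : t (.d k) = s (.d k) + s .Z := by
        cases h0 <;> simpa [pos, neg, hk] using h5
      simp only [tyval]
      rw [h7, hZ]
    | 2 =>
      have h7 : t (.d k) = s (.d k) + (s .Z + s (.d w)) := by
        cases h0 <;> simpa [pos, neg, hk] using h5
      simp only [tyval]
      rw [Nat.add_mul, one_mul, h7, hZ]

/-! ### Simulation of the reductions -/

/-- registers from a system -/
def vec (S : Sys H) (x y z : ℕ) : Reg H → ℕ
  | .N => S.N
  | .X => x
  | .Y => y
  | .Z => z
  | .a h => S.a h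
  | .b h => S.b h
  | .l h => S.l h
  | .u h => S.u h
  | .d h => S.d h

theorem Run.trans {ι κ : Type} [Fintype κ] {A B : ι → κ → κ → ℕ} {G : ι → (κ → ℕ) → Prop}
    {L L' : ℕ} {s t u : κ → ℕ} (h : Run A B G L s t) (h' : Run A B G L' t u) :
    Run A B G (L + L') s u := by
  induction h' with
  | refl => exact h
  | step i _ hg hl ih => exact Run.step i (ih h) hg hl

theorem size_div {q : ℕ} (hq : q ≠ 0) : q.size = (q / 2).size + 1 := by
  conv_lhs => rw [← Nat.bit_bodd_div2 q]
  rw [Nat.size_bit (by rw [Nat.bit_bodd_div2]; exact hq), Nat.div2_val]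

theorem lin_sh (S : Sys H) (w : H) (β : Bool) {x y z x' y' z' : ℕ}
    (hx : x' + (if β then S.b w else 0) = 2 * x + (if β then S.a w else 0))
    (hy : y' = 2 * y + (if β then S.u w else 0)) (hz : z' = 2 * z + (if β then S.d w else 0)) :
    Lin (cA (.sh w β)) (cB (.sh w β)) (vec S x y z) (vec S x' y' z') := by
  rw [lin_iff]
  intro k
  cases k with
  | X => cases β <;> simp [pos, neg, vec] at * <;> omega
  | Y => cases β <;> simp [pos, neg, vec] at * <;> omega
  | Z => cases β <;> simp [pos, neg, vec] at * <;> omega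
  | N => simp [pos, neg, vec]
  | a h => simp [pos, neg, vec]
  | b h => simp [pos, neg, vec]
  | l h => simp [pos, neg, vec]
  | u h => simp [pos, neg, vec]
  | d h => simp [pos, neg, vec]

theorem run_shift (S : Sys H) (w : H) (hw : S.b w ≤ S.a w) :
    ∀ q : ℕ, Run cA cB guard q.size (vec S 0 0 0)
      (vec S (q * (S.a w - S.b w)) (q * S.u w) (q * S.d w)) := by
  intro q
  induction q using Nat.strong_induction_on with
  | _ q ih =>
    by_cases hq : q = 0
    · subst hq
      rw [Nat.size_zero]
      simp only [zero_mul]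
      exact Run.refl _
    · rw [size_div hq]
      have hdm := Nat.div_add_mod q 2
      obtain ⟨D, hD⟩ : ∃ D, S.a w = S.b w + D := ⟨S.a w - S.b w, by omega⟩
      have hD' : S.a w - S.b w = D := by omega
      rcases Nat.mod_two_eq_zero_or_one q with h2 | h2
      · refine Run.step (.sh w false) (ih (q / 2) (by omega)) trivial (lin_sh S w false ?_ ?_ ?_)
        all_goals
          obtain ⟨r, hr⟩ : ∃ r, r = q / 2 := ⟨_, rfl⟩
          have hq' : q = 2 * r := by omega
          rw [← hr]
          simp only [hq', Bool.false_eq_true, if_false]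
          ring
      · refine Run.step (.sh w true) (ih (q / 2) (by omega)) trivial (lin_sh S w true ?_ ?_ ?_)
        all_goals
          obtain ⟨r, hr⟩ : ∃ r, r = q / 2 := ⟨_, rfl⟩
          have hq' : q = 2 * r + 1 := by omega
          rw [← hr]
          simp only [hq', if_true]
        · rw [hD', hD]
          ring
        · ring
        · ring

theorem run_ap {S : Sys H} (hS : GoodSys S) {w : H} {q e : ℕ} (hm : MsOk S w q e)
    (he : e = 0 ∨ ∃ h, 0 < S.l h ∧ S.b h + e = S.N) :
    Run cA cB guard 1 (vec S (q * (S.a w - S.b w)) (q * S.u w) (q * S.d w))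
      (vec (S.ms w q e) 0 0 0) := by
  set s := vec S (q * (S.a w - S.b w)) (q * S.u w) (q * S.d w) with hs
  obtain ⟨h0, hh0, hb0⟩ : ∃ h0 : Option H, eOf s h0 = e ∧ bOf s h0 ≤ S.N := by
    rcases he with he | ⟨h, hl, he⟩
    · exact ⟨none, he.symm, Nat.zero_le _⟩
    · refine ⟨some h, ?_, ?_⟩
      · show S.N - S.b h = e
        omega
      · show S.b h ≤ S.N
        omega
  set ty : H → Fin 3 := fun h => if h = w ∨ S.l h = 0 then 0
    else if S.N - e ≤ S.b h then 2
    else if S.N - (S.a w - S.b w) ≤ S.b h then 1 else 0 with hty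
  have hmult : ∀ h, mult S w q e h = tyval q (ty h) := by
    intro h
    unfold mult
    simp only [hty]
    split_ifs <;> rfl
  have h1 := hm.last
  have h2 := hm.lt
  have h4 := hm.le
  have hDpos : 1 ≤ S.a w - S.b w := by omega
  refine Run.step (.ap w h0 ty) (Run.refl _) ?_ ?_
  · refine ⟨q, ?_, rfl, rfl, rfl, hb0, ?_, ?_⟩
    · show q ≤ q * (S.a w - S.b w)
      exact Nat.le_mul_of_pos_right q hDpos
    · rw [hh0]; exact hm
    · rw [hh0]; exact hmult
  · rw [lin_iff]
    have hN' : (S.ms w q e).N = S.N - (q * (S.a w - S.b w) + e) := rfl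
    intro k
    cases k with
    | N =>
      show (S.ms w q e).N + _ = _
      rw [hN']
      have hbase : ((pos (.ap w h0 ty) .N).map s).sum = S.N - e := by
        rw [← hh0]
        cases h0 with
        | none => simp [pos, eOf, hs, vec]
        | some k =>
          have : S.b k ≤ S.N := hb0
          simp [pos, eOf, hs, vec]
          omega
      rw [hbase]
      have hneg : ((neg (.ap w h0 ty) .N).map s).sum = q * (S.a w - S.b w) := by
        cases h0 <;> simp [neg, hs, vec]
      rw [hneg]
      omega
    | X => cases h0 <;> simp [pos, neg, vec]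
    | Y => cases h0 <;> simp [pos, neg, vec]
    | Z => cases h0 <;> simp [pos, neg, vec]
    | a h => cases h0 <;> simp [pos, neg, vec, hs, Sys.ms]
    | b h =>
      show (S.b h - mult S w q e h * (S.a w - S.b w)) + _ = _
      by_cases hw : h = w
      · subst hw
        have ht0 : ty h = 0 := by simp [hty]
        rw [hmult, ht0]
        cases h0 <;> simp [pos, neg, hs, vec, tyval, ht0]
      · by_cases hl : S.l h = 0
        · have ht0 : ty h = 0 := by simp [hty, hl]
          rw [hmult, ht0]
          cases h0 <;> simp [pos, neg, hs, vec, tyval, ht0]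
        · have hr := hS.ranB h (by omega)
          match hk : ty h with
          | 0 =>
            rw [hmult, hk]
            cases h0 <;> simp [pos, neg, hs, vec, tyval, hk]
          | 1 =>
            have hle : q * (S.a w - S.b w) ≤ S.b h := by
              rcases ms_types hS hm h hw (by omega) with ⟨hmu, h9⟩ | ⟨hmu, h9, h10⟩ | ⟨hmu, h9⟩
              · omega
              · omega
              · rw [hmult, hk] at hmu
                simp only [tyval] at hmu
                rw [hmu]; omega
            rw [hmult, hk]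
            have hneg : ((neg (.ap w h0 ty) (.b h)).map s).sum = q * (S.a w - S.b w) := by
              cases h0 <;> simp [neg, hs, vec, hk]
            have hpos : ((pos (.ap w h0 ty) (.b h)).map s).sum = S.b h := by
              cases h0 <;> simp [pos, hs, vec, hk]
            rw [hneg, hpos]
            simp only [tyval]
            omega
          | 2 =>
            have hle : S.N - e ≤ S.b h := by
              by_contra hcon
              have : ty h ≠ 2 := by
                simp only [hty]
                split_ifs <;> simp_all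
              exact this hk
            rw [hmult, hk]
            have hneg : ((neg (.ap w h0 ty) (.b h)).map s).sum =
                q * (S.a w - S.b w) + S.a w := by
              cases h0 <;> simp [neg, hs, vec, hk]
            have hpos : ((pos (.ap w h0 ty) (.b h)).map s).sum = S.b h + S.b w := by
              cases h0 <;> simp [pos, hs, vec, hk]
            rw [hneg, hpos]
            simp only [tyval]
            rw [Nat.add_mul, one_mul]
            omega
    | l h =>
      show (if h = w then S.l w - (q * (S.a w - S.b w) + e) else S.l h) + _ = _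
      by_cases hw : h = w
      · subst hw
        rw [if_pos rfl]
        have hneg : ((neg (.ap h h0 ty) (.l h)).map s).sum = q * (S.a h - S.b h) + S.N := by
          cases h0 <;> simp [neg, hs, vec]
        have hpos : ((pos (.ap h h0 ty) (.l h)).map s).sum = S.l h + (S.N - e) := by
          rw [← hh0]
          cases h0 with
          | none => simp [pos, eOf, hs, vec]
          | some k =>
            have : S.b k ≤ S.N := hb0
            simp [pos, eOf, hs, vec]
            omega
        rw [hneg, hpos]
        have he' : e ≤ S.N := by omega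
        omega
      · rw [if_neg hw]
        cases h0 <;> simp [pos, neg, hs, vec, hw]
    | u h =>
      show (S.u h + mult S w q e h * S.u w) + _ = _
      rw [hmult]
      match hk : ty h with
      | 0 => cases h0 <;> simp [pos, neg, hs, vec, tyval, hk]
      | 1 => cases h0 <;> simp [pos, neg, hs, vec, tyval, hk]
      | 2 =>
        cases h0 <;> simp [pos, neg, hs, vec, tyval, hk] <;> ring
    | d h =>
      show (S.d h + mult S w q e h * S.d w) + _ = _
      rw [hmult]
      match hk : ty h with
      | 0 => cases h0 <;> simp [pos, neg, hs, vec, tyval, hk]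
      | 1 => cases h0 <;> simp [pos, neg, hs, vec, tyval, hk]
      | 2 =>
        cases h0 <;> simp [pos, neg, hs, vec, tyval, hk] <;> ring

theorem run_of_red {c : ℕ} {S T : Sys H} (h : Red c S T) (hS : GoodSys S) :
    Run cA cB guard c (vec S 0 0 0) (vec T 0 0 0) ∧ GoodSys T := by
  induction h with
  | refl S => exact ⟨Run.refl _, hS⟩
  | @swap c S T _ ih =>
    obtain ⟨h1, h2⟩ := ih hS
    refine ⟨Run.step .sw h1 trivial ?_, h2.swap⟩
    rw [lin_iff]
    intro k
    cases k <;> simp [pos, neg, vec, Sys.swap]
  | @rm c S T i _ ho ih =>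
    obtain ⟨h1, h2⟩ := ih hS
    refine ⟨Run.step (.rm i) h1 ho ?_, h2.rm ho⟩
    rw [lin_iff]
    have hl := h2.ranA i ho.pos
    intro k
    cases k with
    | N =>
      simp [pos, neg, vec, Sys.rm]
      omega
    | l h =>
      by_cases hw : h = i
      · simp [pos, neg, vec, Sys.rm, hw]
      · simp [pos, neg, vec, Sys.rm, hw]
    | X => simp [pos, neg, vec]
    | Y => simp [pos, neg, vec]
    | Z => simp [pos, neg, vec]
    | a h => simp [pos, neg, vec, Sys.rm]
    | b h => simp [pos, neg, vec, Sys.rm]
    | u h => simp [pos, neg, vec, Sys.rm]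
    | d h => simp [pos, neg, vec, Sys.rm]
  | @ms c S T w q e _ ho he ih =>
    obtain ⟨h1, h2⟩ := ih hS
    refine ⟨?_, h2.ms ho⟩
    have := (h1.trans (run_shift T w ho.lt.le q)).trans (run_ap h2 ho he)
    exact this

end defs

end Pool.Agent.PTr
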