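import Mathlib
import Pool.Agent.PTr.Machine

/-!
# Weighted connectivity in band systems is definable by bounded formulas
-/

set_option autoImplicit false

namespace Pool.Agent.PTr

open Finset Filter Pool.Agent.Grz Pool.Agent.GAvg

/-- bounded quantification over states -/
theorem Delta0.bexState {κ : Type} [Fintype κ] {n : ℕ} {b : (Fin n → ℕ) → ℕ} (hb : DFun n b)
    {P : (κ → ℕ) → (Fin n → ℕ) → Prop}
    (hP : ∀ (m : ℕ) (x : κ → (Fin m → ℕ) → ℕ) (v : Fin n → (Fin m → ℕ) → ℕ),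
      (∀ k, DFun m (x k)) → (∀ i, DFun m (v i)) →
        Delta0 m (fun w => P (fun k => x k w) (fun i => v i w))) :
    Delta0 n (fun v => ∃ x : κ → ℕ, (∀ k, x k ≤ b v) ∧ P x v) := by
  let f := Fintype.equivFin κ
  have h := Delta0.bexVec (D := Fintype.card κ) hb (P := fun x v => P (fun k => x (f k)) v) (by
    intro m x v hx hv
    exact hP m (fun k => x (f k)) v (fun k => hx _) hv)
  refine h.of_iff fun v => ?_
  constructor
  · rintro ⟨x, hx, hP⟩
    refine ⟨fun k => x (f.symm k), fun k => hx _, ?_⟩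
    simpa only [Equiv.symm_apply_apply] using hP
  · rintro ⟨x, hx, hP⟩
    exact ⟨fun k => x (f k), fun k => hx _, hP⟩

theorem run_bound {ι κ : Type} [Fintype ι] [Fintype κ] {A B : ι → κ → κ → ℕ}
    {G : ι → (κ → ℕ) → Prop} {L C w : ℕ} {s t : κ → ℕ} (h : Run A B G L s t)
    (hL : L ≤ C * (lg w + 1)) (k : κ) :
    t k ≤ (2 * (w + 1)) ^ ((1 + ∑ i, ∑ k, ∑ l, A i k l) * C) * ∑ l, s l := by
  obtain ⟨p, h0, h1, h2⟩ := (run_iff_path A B G L s t).1 h
  have h3 := path_sum_le (A := A) (B := B) (p := p) (L := L) (fun j hj => by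
    obtain ⟨i, -, hl⟩ := h2 j hj
    exact ⟨i, hl⟩) L le_rfl
  rw [h0, h1] at h3
  refine (Finset.single_le_sum (f := fun k => t k) (fun _ _ => Nat.zero_le _)
    (Finset.mem_univ k)).trans (h3.trans ?_)
  exact Nat.mul_le_mul_right _ (pow_le_poly _ C w L hL)

/-- existence of a run to a state with a definable property -/
theorem exists_run_delta0 {ι κ : Type} [Fintype ι] [Fintype κ] (A B : ι → κ → κ → ℕ)
    (G : ι → (κ → ℕ) → Prop) (hG : ∀ i, DK (G i)) (C : ℕ) {n : ℕ} {w : (Fin n → ℕ) → ℕ}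
    (hw : DFun n w) {s : κ → (Fin n → ℕ) → ℕ} (hs : ∀ k, DFun n (s k))
    {F : (κ → ℕ) → (Fin n → ℕ) → Prop}
    (hF : ∀ (m : ℕ) (x : κ → (Fin m → ℕ) → ℕ) (v : Fin n → (Fin m → ℕ) → ℕ),
      (∀ k, DFun m (x k)) → (∀ i, DFun m (v i)) →
        Delta0 m (fun w => F (fun k => x k w) (fun i => v i w))) :
    Delta0 n (fun v => ∃ t : κ → ℕ, (∃ L, L ≤ C * (lg (w v) + 1) ∧
      Run A B G L (fun k => s k v) t) ∧ F t v) := by
  have hb : DFun n (fun v => (2 * (w v + 1)) ^ ((1 + ∑ i, ∑ k, ∑ l, A i k l) * C) *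
      ∑ l, s l v) :=
    (DFun.powConst ((DFun.const 2).mul (hw.add (DFun.const 1))) _).mul (DFun.finSum _ hs)
  have h := Delta0.bexState hb (P := fun t v => (∃ L, L ≤ C * (lg (w v) + 1) ∧
      Run A B G L (fun k => s k v) t) ∧ F t v) (by
    intro m x v hx hv
    refine Delta0.and ?_ (hF m x v hx hv)
    exact run_delta0 A B G hG C (w := fun u => w (fun i => v i u)) (hw.comp hv)
      (s := fun k u => s k (fun i => v i u)) (fun k => (hs k).comp hv) hx)
  refine h.of_iff fun v => ?_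
  constructor
  · rintro ⟨t, ⟨L, hL, hR⟩, hF⟩
    exact ⟨t, fun k => run_bound hR hL k, ⟨L, hL, hR⟩, hF⟩
  · rintro ⟨t, -, h⟩
    exact ⟨t, h⟩

section conn

variable {H : Type} [DecidableEq H] [Fintype H]

/-- the constant in the length of the induction -/
def cH (H : Type) [Fintype H] : ℕ := (3 * (Fintype.card H + 2) + 1) * Fintype.card H

/-- there is a short run to a system with two points, where the band at `0` leads to `1` with
weight `s` -/
def ConnQ (S : Sys H) (s : ℕ) : Prop :=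
  ∃ t : Reg H → ℕ, (∃ L, L ≤ cH H * (lg S.N + 1) ∧ Run cA cB guard L (vec S 0 0 0) t) ∧
    ∃ h, t (.l h) = 1 ∧ t (.a h) = 0 ∧ t (.b h) = 1 ∧ t (.u h) = t (.d h) + s

theorem connQ_delta0 {n : ℕ} {N s : (Fin n → ℕ) → ℕ} {a b l u d : H → (Fin n → ℕ) → ℕ}
    (hN : DFun n N) (hs : DFun n s) (ha : ∀ h, DFun n (a h)) (hb : ∀ h, DFun n (b h))
    (hl : ∀ h, DFun n (l h)) (hu : ∀ h, DFun n (u h)) (hd : ∀ h, DFun n (d h)) :
    Delta0 n (fun v => ConnQ (H := H) ⟨N v, fun h => a h v, fun h => b h v, fun h => l h v,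
      fun h => u h v, fun h => d h v⟩ (s v)) := by
  have h := exists_run_delta0 cA cB guard (fun i => dk_guard i) (cH H) hN
    (s := fun (k : Reg H) v => match k with
      | .N => N v | .X => 0 | .Y => 0 | .Z => 0 | .a h => a h v | .b h => b h v
      | .l h => l h v | .u h => u h v | .d h => d h v) (by
      intro k
      cases k with
      | N => exact hN
      | X => exact DFun.const 0
      | Y => exact DFun.const 0
      | Z => exact DFun.const 0
      | a h => exact ha h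
      | b h => exact hb h
      | l h => exact hl h
      | u h => exact hu h
      | d h => exact hd h)
    (F := fun t v => ∃ h : H, t (.l h) = 1 ∧ t (.a h) = 0 ∧ t (.b h) = 1 ∧
      t (.u h) = t (.d h) + s v) (by
      intro m x v hx hv
      refine Delta0.exOf fun h => ?_
      exact (Delta0.eqFun (hx _) (DFun.const 1)).and ((Delta0.eqFun (hx _) (DFun.const 0)).and
        ((Delta0.eqFun (hx _) (DFun.const 1)).and (Delta0.eqFun (hx _)
          ((hx _).add (hs.comp hv))))))
  refine h.of_iff fun v => ?_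
  have e : (fun k : Reg H => (match k with
      | .N => N v | .X => 0 | .Y => 0 | .Z => 0 | .a h => a h v | .b h => b h v
      | .l h => l h v | .u h => u h v | .d h => d h v : ℕ)) =
      vec ⟨N v, fun h => a h v, fun h => b h v, fun h => l h v,
        fun h => u h v, fun h => d h v⟩ 0 0 0 := by
    funext k
    cases k <;> rfl
  unfold ConnQ
  rw [← e]

/-- invariants of the machine -/
theorem run_inv {L : ℕ} {s t : Reg H → ℕ} (h : Run cA cB guard L s t) :
    GoodSys (toSys s) → ∀ f, Lab (toSys s) f → GoodSys (toSys t) ∧ Lab (toSys t) f := by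
  induction h with
  | refl s => exact fun h1 f h2 => ⟨h1, h2⟩
  | @step L s t u i _ hg hl ih =>
    intro h1 f h2
    obtain ⟨h3, h4⟩ := ih h1 f h2
    cases i with
    | sh w β => rw [sem_sh hl]; exact ⟨h3, h4⟩
    | sw => rw [sem_sw hl]; exact ⟨h3.swap, h4.swap⟩
    | rm i => rw [sem_rm hl]; exact ⟨h3.rm hg, h4.rm i⟩
    | ap w h0 ty =>
      obtain ⟨q, -, hX, hY, hZ, hb, hm, hty⟩ := hg
      rw [sem_ap hX hY hZ hm hb hty hl]
      exact ⟨h3.ms hm, h4.ms h3 hm⟩

theorem connQ_sound {S : Sys H} (hS : GoodSys S) {f : ℕ → WithBot ℤ} (hf : Lab S f) {s : ℕ}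
    (h : ConnQ S s) : f 1 = f 0 + ((s : ℤ) : WithBot ℤ) := by
  obtain ⟨t, ⟨L, -, hR⟩, h, h1, h2, h3, h4⟩ := h
  obtain ⟨-, h6⟩ := run_inv hR hS f hf
  have h7 := h6 h 0 (by show 0 < t (.l h); omega)
  have e1 : (toSys t).b h + 0 = 1 := h3
  have e2 : (toSys t).a h + 0 = 0 := h2
  rw [e1, e2] at h7
  rw [h7]
  congr 2
  show ((t (.u h) : ℤ) - t (.d h)) = s
  rw [h4]
  push_cast
  ring

theorem same_red {c : ℕ} {S T : Sys H} (h : Red c S T) : GoodSys S → Same S → GoodSys T ∧ Same T := by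
  induction h with
  | refl S => exact fun h1 h2 => ⟨h1, h2⟩
  | swap _ ih =>
    intro h1 h2
    obtain ⟨h3, h4⟩ := ih h1 h2
    exact ⟨h3.swap, h4.swap⟩
  | rm i _ ho ih =>
    intro h1 h2
    obtain ⟨h3, h4⟩ := ih h1 h2
    exact ⟨h3.rm ho, h4.rm h3 ho⟩
  | ms w q e _ ho he ih =>
    intro h1 h2
    obtain ⟨h3, h4⟩ := ih h1 h2
    exact ⟨h3.ms ho, h4.ms h3 ho⟩

theorem connQ_complete {S : Sys H} (hS : GoodSys S) (h2 : 2 ≤ S.N) (hs : Same S)
    {f : ℕ → WithBot ℤ} (hf : Lab S f) {s : ℕ} {z : ℤ} (h0 : f 0 = ((z : ℤ) : WithBot ℤ))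
    (h1 : f 1 = ((z + s : ℤ) : WithBot ℤ)) : ConnQ S s := by
  obtain ⟨T, c, hred, hT, hT2, hc⟩ := exists_red (Phi S) S hS h2 le_rfl
  obtain ⟨-, hsame⟩ := same_red hred hS hs
  obtain ⟨hrun, -⟩ := run_of_red hred hS
  have hinv := run_inv hrun hS f hf
  have hlab : Lab T f := hinv.2
  obtain ⟨h, ha, hla⟩ := hT.covA 0 (by omega)
  have ha0 : T.a h = 0 := by omega
  have hl1 : T.l h = 1 := hT.unitA h (by omega) (by omega)
  have hb2 : T.b h + T.l h ≤ T.N := hT.ranB h (by omega)
  have hb1 : T.b h = 1 := by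
    by_contra hb
    have hb0 : T.b h = 0 := by omega
    have hI : Inv T (fun p => p = 0) := by
      intro k t ht
      have hr := hT.ranA k (by omega)
      have hr' := hT.ranB k (by omega)
      have hu := hT.unitA k (by omega) (by omega)
      have ht0 : t = 0 := by omega
      subst ht0
      constructor
      · intro h5
        have : k = h := hT.disA k h 0 (by omega) (by omega) (by omega) (by omega)
        subst this
        omega
      · intro h5
        have : k = h := hT.disB k h 0 (by omega) (by omega) (by omega) (by omega)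
        subst this
        omega
    have := hsame _ hI
    simp at this
  have h7 := hlab h 0 (by omega)
  rw [ha0, hb1] at h7
  simp only [Nat.add_zero] at h7
  rw [h0, h1, ← WithBot.coe_add, WithBot.coe_inj] at h7
  refine ⟨vec T 0 0 0, ⟨c, ?_, hrun⟩, h, hl1, ha0, hb1, ?_⟩
  · refine hc.trans ?_
    have h8 := Phi_le hS
    have h9 : S.N.size ≤ lg S.N + 1 := Nat.size_le.2 (lt_two_pow_lg S.N)
    unfold cH
    rw [mul_assoc]
    exact Nat.mul_le_mul_left _ (h8.trans (Nat.mul_le_mul_left _ h9))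
  · show T.u h = T.d h + s
    omega

end conn

end Pool.Agent.PTr
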