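import Mathlib
import Pool.Agent.PTr.Conn

/-!
# The Euler tour of a piecewise translation is a band system

A tree-like functional graph on `[0, M)` with the root `1` and the start `0` is given by `m` pieces:
`α i + t ↦ β i + t` for `t < n i`. The tour visits `(v, i)`, `i ≤ m`, in the coordinate `i M + v`.
-/

set_option autoImplicit false

namespace Pool.Agent.PTr

open Finset

variable {m : ℕ}

/-- the vertex `1` is reached from `v` in `k` steps -/
def RR (α β n : Fin m → ℕ) : ℕ → ℕ → Prop
  | 0, v => v = 1
  | k + 1, v => ∃ i t, t < n i ∧ v = α i + t ∧ RR α β n k (β i + t)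

/-- admissible pieces -/
structure FunOk (M : ℕ) (α β n : Fin m → ℕ) : Prop where
  two : 2 ≤ M
  ranα : ∀ i, α i + n i ≤ M
  ranβ : ∀ i, β i + n i ≤ M
  cov : ∀ v, v < M → v ≠ 1 → ∃ i, α i ≤ v ∧ v < α i + n i
  dis : ∀ i j v, α i ≤ v → v < α i + n i → α j ≤ v → v < α j + n j → i = j
  one : ∀ i, ¬ (α i ≤ 1 ∧ 1 < α i + n i)
  zero : ∀ i, 0 < n i → α i = 0 → n i = 1
  first : ∀ i : Fin m, (i : ℕ) = 0 → β i = 1 ∧ n i = 1
  pos : 0 < m

/-- the bands of the tour -/
abbrev TB (m : ℕ) : Type := (Fin m × Fin 3) ⊕ (Fin m ⊕ Unit)

/-- the lower layer -/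
def loL : TB m → ℕ
  | .inl (i, _) => i
  | .inr _ => m

/-- the offset in the lower layer -/
def loV (α β n : Fin m → ℕ) : TB m → ℕ
  | .inl (_, 0) => 0
  | .inl (i, 1) => β i
  | .inl (i, 2) => β i + n i
  | .inr (.inl j) => α j
  | .inr (.inr _) => 1

/-- the upper layer -/
def upL : TB m → ℕ
  | .inl (i, 0) => i + 1
  | .inl (_, 1) => 0
  | .inl (i, 2) => i + 1
  | .inr (.inl j) => j + 1
  | .inr (.inr _) => 0

/-- the offset in the upper layer -/
def upV (α β n : Fin m → ℕ) : TB m → ℕ
  | .inl (_, 0) => 0
  | .inl (i, 1) => α i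
  | .inl (i, 2) => β i + n i
  | .inr (.inl j) => β j
  | .inr (.inr _) => 1

/-- the widths -/
def wid (M : ℕ) (β n : Fin m → ℕ) : TB m → ℕ
  | .inl (i, 0) => β i
  | .inl (i, 1) => n i
  | .inl (i, 2) => M - (β i + n i)
  | .inr (.inl j) => n j
  | .inr (.inr _) => 1

/-- the number of up moves -/
def wu : TB m → ℕ
  | .inr (.inl _) => 1
  | _ => 0

/-- the number of down moves -/
def wd : TB m → ℕ
  | .inl (_, 1) => 1
  | _ => 0

/-- the band system of the tour -/
def tourSys (M : ℕ) (α β n : Fin m → ℕ) : Sys (TB m) where
  N := (m + 1) * M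
  a := fun h => loL h * M + loV α β n h
  b := fun h => upL h * M + upV α β n h
  l := wid M β n
  u := wu
  d := wd

theorem layerIff {M L v l y : ℕ} (hM : v + l ≤ M) :
    (L * M + v ≤ y ∧ y < L * M + v + l) ↔ (y / M = L ∧ v ≤ y % M ∧ y % M < v + l) := by
  constructor
  · rintro ⟨h1, h2⟩
    have hMpos : 0 < M := by
      rcases Nat.eq_zero_or_pos M with h | h
      · subst h; omega
      · exact h
    have hd : y / M = L := by
      rw [Nat.div_eq_iff hMpos]
      constructor
      · omega
      · have : (L + 1) * M = L * M + M := by ring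
        omega
    have hm := Nat.div_add_mod y M
    rw [hd, mul_comm] at hm
    exact ⟨hd, by omega, by omega⟩
  · rintro ⟨h1, h2, h3⟩
    have hm := Nat.div_add_mod y M
    rw [h1, mul_comm] at hm
    omega

variable {M : ℕ} {α β n : Fin m → ℕ}

theorem lo_le (h : FunOk M α β n) (k : TB m) : loV α β n k + wid M β n k ≤ M := by
  have h2 := h.two
  rcases k with ⟨i, c⟩ | j | u
  · have := h.ranβ i
    match c with
    | 0 => simp only [loV, wid]; omega
    | 1 => simp only [loV, wid]; omega
    | 2 => simp only [loV, wid]; omega
  · exact h.ranα j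
  · simp only [loV, wid]; omega

theorem up_le (h : FunOk M α β n) (k : TB m) : upV α β n k + wid M β n k ≤ M := by
  have h2 := h.two
  rcases k with ⟨i, c⟩ | j | u
  · have := h.ranβ i
    have := h.ranα i
    match c with
    | 0 => simp only [upV, wid]; omega
    | 1 => simp only [upV, wid]; omega
    | 2 => simp only [upV, wid]; omega
  · exact h.ranβ j
  · simp only [upV, wid]; omega

theorem lo_iff (h : FunOk M α β n) (k : TB m) (y : ℕ) :
    ((tourSys M α β n).a k ≤ y ∧ y < (tourSys M α β n).a k + (tourSys M α β n).l k) ↔
      (y / M = loL k ∧ loV α β n k ≤ y % M ∧ y % M < loV α β n k + wid M β n k) :=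
  layerIff (lo_le h k)

theorem up_iff (h : FunOk M α β n) (k : TB m) (y : ℕ) :
    ((tourSys M α β n).b k ≤ y ∧ y < (tourSys M α β n).b k + (tourSys M α β n).l k) ↔
      (y / M = upL k ∧ upV α β n k ≤ y % M ∧ y % M < upV α β n k + wid M β n k) :=
  layerIff (up_le h k)

theorem loL_le (k : TB m) : loL k ≤ m := by
  rcases k with ⟨i, c⟩ | j | u
  · exact i.isLt.le
  · exact le_rfl
  · exact le_rfl

theorem upL_le (k : TB m) : upL k ≤ m := by
  rcases k with ⟨i, c⟩ | j | u
  · have := i.isLt
    match c with
    | 0 => exact this
    | 1 => exact Nat.zero_le _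
    | 2 => exact this
  · exact j.isLt
  · exact Nat.zero_le _

theorem tour_good (h : FunOk M α β n) : GoodSys (tourSys M α β n) := by
  have h2 := h.two
  have hMpos : 0 < M := by omega
  have hN : (tourSys M α β n).N = (m + 1) * M := rfl
  refine ⟨?_, ?_, ?_, ?_, ?_, ?_, ?_, ?_⟩
  · intro y hy
    rw [hN] at hy
    have hL : y / M < m + 1 := by
      rw [Nat.div_lt_iff_lt_mul hMpos]; exact hy
    have hv := Nat.mod_lt y hMpos
    rcases Nat.lt_or_ge (y / M) m with hi | hi
    · rcases Nat.lt_or_ge (y % M) (β ⟨y / M, hi⟩) with h3 | h3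
      · exact ⟨.inl (⟨y / M, hi⟩, 0), (lo_iff h _ y).2 ⟨rfl, Nat.zero_le _, by
          simp only [loV, wid]; omega⟩⟩
      · rcases Nat.lt_or_ge (y % M) (β ⟨y / M, hi⟩ + n ⟨y / M, hi⟩) with h4 | h4
        · exact ⟨.inl (⟨y / M, hi⟩, 1), (lo_iff h _ y).2 ⟨rfl, h3, h4⟩⟩
        · exact ⟨.inl (⟨y / M, hi⟩, 2), (lo_iff h _ y).2 ⟨rfl, h4, by
            simp only [loV, wid]; omega⟩⟩
    · have hy' : y / M = m := by omega
      by_cases h1 : y % M = 1
      · exact ⟨.inr (.inr ()), (lo_iff h _ y).2 ⟨hy', by simp only [loV]; omega, by
          simp only [loV, wid]; omega⟩⟩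
      · obtain ⟨j, hj1, hj2⟩ := h.cov _ hv h1
        exact ⟨.inr (.inl j), (lo_iff h _ y).2 ⟨hy', hj1, hj2⟩⟩
  · intro y hy
    rw [hN] at hy
    have hL : y / M < m + 1 := by
      rw [Nat.div_lt_iff_lt_mul hMpos]; exact hy
    have hv := Nat.mod_lt y hMpos
    rcases Nat.eq_zero_or_pos (y / M) with h0 | h0
    · by_cases h1 : y % M = 1
      · exact ⟨.inr (.inr ()), (up_iff h _ y).2 ⟨h0, by simp only [upV]; omega, by
          simp only [upV, wid]; omega⟩⟩
      · obtain ⟨j, hj1, hj2⟩ := h.cov _ hv h1
        exact ⟨.inl (j, 1), (up_iff h _ y).2 ⟨h0, hj1, hj2⟩⟩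
    · have hi : y / M - 1 < m := by omega
      have hyi : y / M = (⟨y / M - 1, hi⟩ : Fin m).1 + 1 := by simp only; omega
      rcases Nat.lt_or_ge (y % M) (β ⟨y / M - 1, hi⟩) with h3 | h3
      · exact ⟨.inl (⟨y / M - 1, hi⟩, 0), (up_iff h _ y).2 ⟨hyi, Nat.zero_le _, by
          simp only [upV, wid]; omega⟩⟩
      · rcases Nat.lt_or_ge (y % M) (β ⟨y / M - 1, hi⟩ + n ⟨y / M - 1, hi⟩) with h4 | h4
        · exact ⟨.inr (.inl ⟨y / M - 1, hi⟩), (up_iff h _ y).2 ⟨hyi, h3, h4⟩⟩
        · exact ⟨.inl (⟨y / M - 1, hi⟩, 2), (up_iff h _ y).2 ⟨hyi, h4, by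
            simp only [upV, wid]; omega⟩⟩
  · intro k k' y a1 a2 a3 a4
    obtain ⟨b1, b2, b3⟩ := (lo_iff h k y).1 ⟨a1, a2⟩
    obtain ⟨c1, c2, c3⟩ := (lo_iff h k' y).1 ⟨a3, a4⟩
    have e : loL k = loL k' := by omega
    rcases k with ⟨i, c⟩ | j | u
    · rcases k' with ⟨i', c'⟩ | j' | u'
      · have hii : i = i' := Fin.ext e
        subst hii
        match c, c' with
        | 0, 0 => rfl
        | 1, 1 => rfl
        | 2, 2 => rfl
        | 0, 1 => simp only [loV, wid] at *; omega
        | 0, 2 => simp only [loV, wid] at *; omega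
        | 1, 0 => simp only [loV, wid] at *; omega
        | 1, 2 => simp only [loV, wid] at *; omega
        | 2, 0 => simp only [loV, wid] at *; omega
        | 2, 1 => simp only [loV, wid] at *; omega
      · have := i.isLt
        simp only [loL] at e
        omega
      · have := i.isLt
        simp only [loL] at e
        omega
    · rcases k' with ⟨i', c'⟩ | j' | u'
      · have := i'.isLt
        simp only [loL] at e
        omega
      · rw [h.dis j j' (y % M) b2 b3 c2 c3]
      · exfalso
        simp only [loV, wid] at *
        exact h.one j ⟨by omega, by omega⟩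
    · rcases k' with ⟨i', c'⟩ | j' | u'
      · have := i'.isLt
        simp only [loL] at e
        omega
      · exfalso
        simp only [loV, wid] at *
        exact h.one j' ⟨by omega, by omega⟩
      · rfl
  · intro k k' y a1 a2 a3 a4
    obtain ⟨b1, b2, b3⟩ := (up_iff h k y).1 ⟨a1, a2⟩
    obtain ⟨c1, c2, c3⟩ := (up_iff h k' y).1 ⟨a3, a4⟩
    have e : upL k = upL k' := by omega
    rcases k with ⟨i, c⟩ | j | u
    · rcases k' with ⟨i', c'⟩ | j' | u'
      · match c, c' with
        | 1, 1 =>
          simp only [upV, wid] at *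
          rw [h.dis i i' (y % M) b2 b3 c2 c3]
        | 0, 0 =>
          have hii : i = i' := Fin.ext (by simp only [upL] at e; omega)
          rw [hii]
        | 2, 2 =>
          have hii : i = i' := Fin.ext (by simp only [upL] at e; omega)
          rw [hii]
        | 0, 1 => simp only [upL] at e; omega
        | 1, 0 => simp only [upL] at e; omega
        | 2, 1 => simp only [upL] at e; omega
        | 1, 2 => simp only [upL] at e; omega
        | 0, 2 =>
          have hii : i = i' := Fin.ext (by simp only [upL] at e; omega)
          subst hii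
          simp only [upV, wid] at *
          omega
        | 2, 0 =>
          have hii : i = i' := Fin.ext (by simp only [upL] at e; omega)
          subst hii
          simp only [upV, wid] at *
          omega
      · match c with
        | 1 => simp only [upL] at e; omega
        | 0 =>
          have hii : i = j' := Fin.ext (by simp only [upL] at e; omega)
          subst hii
          simp only [upV, wid] at *
          omega
        | 2 =>
          have hii : i = j' := Fin.ext (by simp only [upL] at e; omega)
          subst hii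
          simp only [upV, wid] at *
          omega
      · match c with
        | 0 => simp only [upL] at e; omega
        | 2 => simp only [upL] at e; omega
        | 1 =>
          exfalso
          simp only [upV, wid] at *
          exact h.one i ⟨by omega, by omega⟩
    · rcases k' with ⟨i', c'⟩ | j' | u'
      · match c' with
        | 1 => simp only [upL] at e; omega
        | 0 =>
          have hii : j = i' := Fin.ext (by simp only [upL] at e; omega)
          subst hii
          simp only [upV, wid] at *
          omega
        | 2 =>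
          have hii : j = i' := Fin.ext (by simp only [upL] at e; omega)
          subst hii
          simp only [upV, wid] at *
          omega
      · have hii : j = j' := Fin.ext (by simp only [upL] at e; omega)
        rw [hii]
      · simp only [upL] at e; omega
    · rcases k' with ⟨i', c'⟩ | j' | u'
      · match c' with
        | 0 => simp only [upL] at e; omega
        | 2 => simp only [upL] at e; omega
        | 1 =>
          exfalso
          simp only [upV, wid] at *
          exact h.one i' ⟨by omega, by omega⟩
      · simp only [upL] at e; omega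
      · rfl
  · intro k _
    have h3 := lo_le h k
    have h4 := Nat.mul_le_mul_right M (loL_le k)
    show loL k * M + loV α β n k + wid M β n k ≤ (m + 1) * M
    rw [Nat.add_mul, one_mul]
    omega
  · intro k _
    have h3 := up_le h k
    have h4 := Nat.mul_le_mul_right M (upL_le k)
    show upL k * M + upV α β n k + wid M β n k ≤ (m + 1) * M
    rw [Nat.add_mul, one_mul]
    omega
  · intro k hk h1
    have h3 : loL k * M + loV α β n k ≤ 1 := h1
    have hk' : 0 < wid M β n k := hk
    show wid M β n k = 1
    have hpos := h.pos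
    have hL : loL k = 0 := by
      by_contra hne
      have : 1 * M ≤ loL k * M := Nat.mul_le_mul_right _ (by omega)
      omega
    rw [hL] at h3
    rcases k with ⟨i, c⟩ | j | u
    · have hf := h.first i hL
      match c with
      | 0 => simp only [wid]; omega
      | 1 => simp only [wid]; omega
      | 2 => simp only [loV] at h3; omega
    · simp only [loL] at hL; omega
    · rfl
  · intro k hk h1
    have h3 : upL k * M + upV α β n k ≤ 1 := h1
    have hk' : 0 < wid M β n k := hk
    show wid M β n k = 1
    have hL : upL k = 0 := by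
      by_contra hne
      have : 1 * M ≤ upL k * M := Nat.mul_le_mul_right _ (by omega)
      omega
    rw [hL] at h3
    rcases k with ⟨i, c⟩ | j | u
    · match c with
      | 0 => simp only [upL] at hL; omega
      | 2 => simp only [upL] at hL; omega
      | 1 =>
        simp only [upV, wid] at *
        have h5 := h.one i
        have h6 : α i = 0 := by
          by_contra hne
          exact h5 ⟨by omega, by omega⟩
        exact h.zero i hk' h6
    · simp only [upL] at hL; omega
    · rfl

/-! ### Depth -/

theorem rr_unique (h : FunOk M α β n) : ∀ k k' v, RR α β n k v → RR α β n k' v → k = k' := by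
  intro k
  induction k with
  | zero =>
    intro k' v h1 h2
    cases k' with
    | zero => rfl
    | succ k' =>
      exfalso
      obtain ⟨i, t, ht, hv, -⟩ := h2
      have h1' : v = 1 := h1
      exact h.one i ⟨by omega, by omega⟩
  | succ k ih =>
    intro k' v h1 h2
    cases k' with
    | zero =>
      exfalso
      obtain ⟨i, t, ht, hv, -⟩ := h1
      have h1' : v = 1 := h2
      exact h.one i ⟨by omega, by omega⟩
    | succ k' =>
      obtain ⟨i, t, ht, hv, h3⟩ := h1
      obtain ⟨j, s, hs, hw, h4⟩ := h2
      have hij : i = j := h.dis i j v (by omega) (by omega) (by omega) (by omega)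
      subst hij
      have hts : t = s := by omega
      subst hts
      rw [ih k' _ h3 h4]

theorem rr_lt (h : FunOk M α β n) {k v : ℕ} (hr : RR α β n k v) : v < M := by
  cases k with
  | zero =>
    have : v = 1 := hr
    have := h.two
    omega
  | succ k =>
    obtain ⟨i, t, ht, hv, -⟩ := hr
    have := h.ranα i
    omega

theorem rr_suffix (h : FunOk M α β n) : ∀ k v, RR α β n k v → ∀ j, j ≤ k → ∃ w, RR α β n j w := by
  intro k
  induction k with
  | zero =>
    intro v hv j hj
    have : j = 0 := by omega
    subst this
    exact ⟨v, hv⟩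
  | succ k ih =>
    intro v hv j hj
    rcases Nat.lt_or_ge k j with h1 | h1
    · have : j = k + 1 := by omega
      subst this
      exact ⟨v, hv⟩
    · obtain ⟨i, t, ht, hv, h3⟩ := hv
      exact ih _ h3 j h1

theorem rr_bound (h : FunOk M α β n) {k v : ℕ} (hr : RR α β n k v) : k < M := by
  have hex : ∀ j : Fin (k + 1), ∃ w : Fin M, RR α β n j w := by
    intro j
    obtain ⟨w, hw⟩ := rr_suffix h k v hr j (by have := j.isLt; omega)
    exact ⟨⟨w, rr_lt h hw⟩, hw⟩
  choose w hw using hex
  have hinj : Function.Injective w := by
    intro i j hij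
    have h1 := hw i
    have h2 := hw j
    rw [hij] at h1
    exact Fin.ext (rr_unique h _ _ _ h1 h2)
  have := Fintype.card_le_of_injective w hinj
  simp only [Fintype.card_fin] at this
  omega

/-! ### Labels -/

open scoped Classical in
/-- minus the depth -/
noncomputable def dep (α β n : Fin m → ℕ) (v : ℕ) : WithBot ℤ :=
  if h : ∃ k, RR α β n k v then (((-(h.choose : ℤ)) : ℤ) : WithBot ℤ) else ⊥

theorem dep_eq (h : FunOk M α β n) {k v : ℕ} (hr : RR α β n k v) :
    dep α β n v = ((-(k : ℤ) : ℤ) : WithBot ℤ) := by
  have hex : ∃ k, RR α β n k v := ⟨k, hr⟩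
  unfold dep
  rw [dif_pos hex, rr_unique h _ _ v hex.choose_spec hr]

theorem dep_bot {v : ℕ} (hr : ¬ ∃ k, RR α β n k v) : dep α β n v = ⊥ := by
  unfold dep
  rw [dif_neg hr]

theorem dep_step (h : FunOk M α β n) (i : Fin m) {t : ℕ} (ht : t < n i) :
    dep α β n (β i + t) = dep α β n (α i + t) + ((1 : ℤ) : WithBot ℤ) := by
  by_cases hex : ∃ k, RR α β n k (β i + t)
  · obtain ⟨k, hk⟩ := hex
    have h1 : RR α β n (k + 1) (α i + t) := ⟨i, t, ht, rfl, hk⟩
    rw [dep_eq h hk, dep_eq h h1, ← WithBot.coe_add]
    congr 1
    push_cast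
    ring
  · have hex' : ¬ ∃ k, RR α β n k (α i + t) := by
      rintro ⟨k, hk⟩
      cases k with
      | zero =>
        have : α i + t = 1 := hk
        exact h.one i ⟨by omega, by omega⟩
      | succ k =>
        obtain ⟨j, s, hs, he, h3⟩ := hk
        have hij : i = j := h.dis i j (α i + t) (by omega) (by omega) (by omega) (by omega)
        subst hij
        have : t = s := by omega
        subst this
        exact hex ⟨k, h3⟩
    rw [dep_bot hex, dep_bot hex', WithBot.bot_add]

theorem mod_layer {L v : ℕ} (hv : v < M) : (L * M + v) % M = v := by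
  rw [mul_comm, Nat.mul_add_mod]
  exact Nat.mod_eq_of_lt hv

theorem tour_lab (h : FunOk M α β n) : Lab (tourSys M α β n) (fun y => dep α β n (y % M)) := by
  intro k t ht
  have ht' : t < wid M β n k := ht
  have h1 := lo_le h k
  have h2 := up_le h k
  show dep α β n ((upL k * M + upV α β n k + t) % M) =
    dep α β n ((loL k * M + loV α β n k + t) % M) + (((wu k : ℤ) - wd k : ℤ) : WithBot ℤ)
  rw [Nat.add_assoc, Nat.add_assoc, mod_layer (by omega), mod_layer (by omega)]
  rcases k with ⟨i, c⟩ | j | u
  · match c with
    | 0 => simp [loV, upV, wu, wd]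
    | 2 => simp [loV, upV, wu, wd]
    | 1 =>
      simp only [loV, upV, wu, wd, wid] at *
      rw [dep_step h i ht', add_assoc, ← WithBot.coe_add]
      simp
  · simp only [loV, upV, wu, wd, wid] at *
    rw [dep_step h j ht']
    simp
  · simp [loV, upV, wu, wd]

theorem tour_layers (h : FunOk M α β n) {f : ℕ → Prop} (hf : Inv (tourSys M α β n) f) :
    ∀ (p k v : ℕ), M - k ≤ p → RR α β n k v → ∀ L, L ≤ m → (f (L * M + v) ↔ f v) := by
  intro p
  induction p with
  | zero =>
    intro k v hk hr
    have := rr_bound h hr
    omega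
  | succ p ih =>
    intro k v hk hr L
    have hvM := rr_lt h hr
    induction L with
    | zero => intro _; simp
    | succ L ihL =>
      intro hL
      have h1 := ihL (by omega)
      rw [← h1]
      have hLm : L < m := by omega
      set i : Fin m := ⟨L, hLm⟩ with hi
      rcases Nat.lt_or_ge v (β i) with h3 | h3
      · have := hf (.inl (i, 0)) v h3
        have e1 : (tourSys M α β n).a (.inl (i, 0)) + v = L * M + v := by
          show loL (.inl (i, 0)) * M + loV α β n (.inl (i, 0)) + v = _
          simp only [loL, loV, hi]; omega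
        have e2 : (tourSys M α β n).b (.inl (i, 0)) + v = (L + 1) * M + v := by
          show upL (.inl (i, 0)) * M + upV α β n (.inl (i, 0)) + v = _
          simp only [upL, upV, hi]; omega
        rw [e1, e2] at this
        exact this.symm
      · rcases Nat.lt_or_ge v (β i + n i) with h4 | h4
        · -- go down
          obtain ⟨t, ht⟩ : ∃ t, v = β i + t := ⟨v - β i, by omega⟩
          have htn : t < n i := by omega
          have hr' : RR α β n (k + 1) (α i + t) := ⟨i, t, htn, rfl, by rw [← ht]; exact hr⟩
          have hb := rr_bound h hr'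
          have h5 := ih (k + 1) (α i + t) (by omega) hr' m le_rfl
          have h6 := hf (.inl (i, 1)) t htn
          have e1 : (tourSys M α β n).a (.inl (i, 1)) + t = L * M + v := by
            show loL (.inl (i, 1)) * M + loV α β n (.inl (i, 1)) + t = _
            simp only [loL, loV, hi] at *; omega
          have e2 : (tourSys M α β n).b (.inl (i, 1)) + t = α i + t := by
            show upL (.inl (i, 1)) * M + upV α β n (.inl (i, 1)) + t = _
            simp only [upL, upV]; omega
          rw [e1, e2] at h6
          have h7 := hf (.inr (.inl i)) t htn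
          have e3 : (tourSys M α β n).a (.inr (.inl i)) + t = m * M + (α i + t) := by
            show loL (.inr (.inl i)) * M + loV α β n (.inr (.inl i)) + t = _
            simp only [loL, loV]; omega
          have e4 : (tourSys M α β n).b (.inr (.inl i)) + t = (L + 1) * M + v := by
            show upL (.inr (.inl i)) * M + upV α β n (.inr (.inl i)) + t = _
            simp only [upL, upV, hi] at *; omega
          rw [e3, e4] at h7
          rw [← h7, h5, h6]
        · have := hf (.inl (i, 2)) (v - (β i + n i)) (by
            show v - (β i + n i) < M - (β i + n i)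
            omega)
          have e1 : (tourSys M α β n).a (.inl (i, 2)) + (v - (β i + n i)) = L * M + v := by
            show loL (.inl (i, 2)) * M + loV α β n (.inl (i, 2)) + (v - (β i + n i)) = _
            simp only [loL, loV, hi] at *; omega
          have e2 : (tourSys M α β n).b (.inl (i, 2)) + (v - (β i + n i)) = (L + 1) * M + v := by
            show upL (.inl (i, 2)) * M + upV α β n (.inl (i, 2)) + (v - (β i + n i)) = _
            simp only [upL, upV, hi] at *; omega
          rw [e1, e2] at this
          exact this.symm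

theorem tour_root (h : FunOk M α β n) {f : ℕ → Prop} (hf : Inv (tourSys M α β n) f) :
    ∀ (k v : ℕ), RR α β n k v → (f v ↔ f 1) := by
  intro k
  induction k with
  | zero =>
    intro v hv
    have : v = 1 := hv
    rw [this]
  | succ k ih =>
    intro v hv
    have h1 := tour_layers h hf M (k + 1) v (by omega) hv m le_rfl
    obtain ⟨i, t, ht, he, h3⟩ := hv
    have h2 := tour_layers h hf M k (β i + t) (by omega) h3 (i + 1) i.isLt
    have h7 := hf (.inr (.inl i)) t ht
    have e3 : (tourSys M α β n).a (.inr (.inl i)) + t = m * M + v := by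
      show loL (.inr (.inl i)) * M + loV α β n (.inr (.inl i)) + t = _
      simp only [loL, loV]; omega
    have e4 : (tourSys M α β n).b (.inr (.inl i)) + t = (i + 1) * M + (β i + t) := by
      show upL (.inr (.inl i)) * M + upV α β n (.inr (.inl i)) + t = _
      simp only [upL, upV]; omega
    rw [e3, e4] at h7
    rw [← h1, h7, h2]
    exact ih _ h3

/-- **The depth of `0` is the weight of the connection.** -/
theorem connQ_tour (h : FunOk M α β n) (s : ℕ) :
    ConnQ (tourSys M α β n) s ↔ RR α β n s 0 := by
  have hG := tour_good h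
  have hL := tour_lab h
  have h2 := h.two
  have hone : dep α β n (1 % M) = ((0 : ℤ) : WithBot ℤ) := by
    rw [Nat.mod_eq_of_lt (by omega), dep_eq h (k := 0) rfl]
    simp
  constructor
  · intro hc
    have := connQ_sound hG hL hc
    simp only [Nat.zero_mod] at this
    rw [hone] at this
    by_cases hex : ∃ k, RR α β n k 0
    · obtain ⟨k, hk⟩ := hex
      rw [dep_eq h hk, ← WithBot.coe_add, WithBot.coe_inj] at this
      have : k = s := by omega
      rw [← this]
      exact hk
    · rw [dep_bot hex, WithBot.bot_add] at this
      exact absurd this (WithBot.coe_ne_bot)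
  · intro hr
    refine connQ_complete hG ?_ ?_ hL (z := -(s : ℤ)) ?_ ?_
    · show 2 ≤ (m + 1) * M
      have : 1 * M ≤ (m + 1) * M := Nat.mul_le_mul_right _ (by omega)
      omega
    · intro f hf
      exact tour_root h hf s 0 hr
    · simp only [Nat.zero_mod]
      exact dep_eq h hr
    · rw [hone]
      congr 1
      ring

end Pool.Agent.PTr
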