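import Mathlib
import Pool.Agent.PTr.Tour1

/-!
# Orbits of piecewise translations of an interval are definable by bounded formulas
-/

set_option autoImplicit false

namespace Pool.Agent.PTr

open Finset Filter Pool.Agent.Grz Pool.Agent.GAvg

/-! ### Decomposition into pieces -/

theorem exists_pieces (g : ℕ → ℕ) : ∀ (c : ℕ) (cut : Fin c → ℕ) (A B : ℕ),
    (∀ u, A ≤ u → u + 1 < B → (∀ j, cut j ≠ u + 1) → g (u + 1) = g u + 1) →
    ∃ (ι : Type) (_ : Fintype ι), Fintype.card ι = 2 ^ c ∧ ∃ α β n : ι → ℕ,
      (∀ i, α i ≤ B) ∧ (∀ i, 0 < n i → A ≤ α i) ∧ (∀ i, α i + n i ≤ B) ∧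
      (∀ v, A ≤ v → v < B → ∃ i, α i ≤ v ∧ v < α i + n i) ∧
      (∀ i j v, α i ≤ v → v < α i + n i → α j ≤ v → v < α j + n j → i = j) ∧
      (∀ i t, t < n i → g (α i + t) = β i + t) ∧ (∀ i, n i = 0 → β i = 0) := by
  intro c
  induction c with
  | zero =>
    intro cut A B h
    rcases Nat.lt_or_ge A B with hAB | hAB
    · refine ⟨Unit, inferInstance, by simp, fun _ => A, fun _ => g A, fun _ => B - A, ?_, ?_, ?_,
        ?_, ?_, ?_, ?_⟩
      · intro _; beta_reduce; omega
      · intro _ _; exact le_rfl
      · intro _; beta_reduce; omega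
      · intro v h1 h2; exact ⟨(), h1, by beta_reduce; omega⟩
      · intro _ _ _ _ _ _ _; rfl
      · intro _ t ht
        beta_reduce at ht ⊢
        induction t with
        | zero => rfl
        | succ t ih =>
          have h1 := ih (by omega)
          have h2 := h (A + t) (by omega) (by omega) (fun j => j.elim0)
          rw [show A + (t + 1) = A + t + 1 by ring, h2, h1]
          ring
      · intro _ h0; beta_reduce at *; omega
    · refine ⟨Unit, inferInstance, by simp, fun _ => 0, fun _ => 0, fun _ => 0, ?_, ?_, ?_,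
        ?_, ?_, ?_, ?_⟩
      · intro _; beta_reduce; omega
      · intro _ h0; beta_reduce at *; omega
      · intro _; beta_reduce; omega
      · intro v h1 h2; omega
      · intro _ _ _ _ _ _ _; rfl
      · intro _ t ht; beta_reduce at *; omega
      · intro _ _; rfl
  | succ c ih =>
    intro cut A B h
    -- cut at `cut 0`, restricted to `[A, B]`
    obtain ⟨C, hC, hAC, hCB⟩ : ∃ C, ((A < cut 0 ∧ cut 0 < B) → C = cut 0) ∧ (A ≤ C ∨ B < A) ∧
        C ≤ B := by
      by_cases h1 : A < cut 0 ∧ cut 0 < B
      · exact ⟨cut 0, fun _ => rfl, by omega, by omega⟩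
      · refine ⟨min A B, fun h2 => absurd h2 h1, by omega, by omega⟩
    have key : ∀ u, A ≤ u → u + 1 < B → (∀ j : Fin c, cut j.succ ≠ u + 1) → u + 1 ≠ C →
        g (u + 1) = g u + 1 := by
      intro u h1 h2 h3 h4
      refine h u h1 h2 fun j => ?_
      refine Fin.cases ?_ (fun j => h3 j) j
      intro h5
      exact h4 (by rw [hC ⟨by omega, by omega⟩, h5])
    obtain ⟨ι₁, f₁, hc₁, α₁, β₁, n₁, a1, a2, a3, a4, a5, a6, a7⟩ :=
      ih (fun j => cut j.succ) A C (fun u h1 h2 h3 => key u h1 (by omega) h3 (by omega))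
    obtain ⟨ι₂, f₂, hc₂, α₂, β₂, n₂, b1, b2, b3, b4, b5, b6, b7⟩ :=
      ih (fun j => cut j.succ) (max A C) B
        (fun u h1 h2 h3 => key u (by omega) h2 h3 (by omega))
    refine ⟨ι₁ ⊕ ι₂, inferInstance, ?_, Sum.elim α₁ α₂, Sum.elim β₁ β₂, Sum.elim n₁ n₂,
      ?_, ?_, ?_, ?_, ?_, ?_, ?_⟩
    · rw [Fintype.card_sum, hc₁, hc₂, pow_succ]; ring
    · rintro (i | i)
      · exact (a1 i).trans hCB
      · exact b1 i
    · rintro (i | i)
      · exact a2 i
      · intro h1; have := b2 i h1; simp only [Sum.elim_inr]; omega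
    · rintro (i | i)
      · exact (a3 i).trans hCB
      · exact b3 i
    · intro v h1 h2
      rcases Nat.lt_or_ge v C with h3 | h3
      · obtain ⟨i, hi⟩ := a4 v h1 h3
        exact ⟨.inl i, hi⟩
      · obtain ⟨i, hi⟩ := b4 v (by omega) h2
        exact ⟨.inr i, hi⟩
    · rintro (i | i) (j | j) v h1 h2 h3 h4
      · rw [a5 i j v h1 h2 h3 h4]
      · exfalso
        have := a3 i
        have := b2 j
        simp only [Sum.elim_inl, Sum.elim_inr] at *
        omega
      · exfalso
        have := a3 j
        have := b2 i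
        simp only [Sum.elim_inl, Sum.elim_inr] at *
        omega
      · rw [b5 i j v h1 h2 h3 h4]
    · rintro (i | i) t ht
      · exact a6 i t ht
      · exact b6 i t ht
    · rintro (i | i) h0
      · exact a7 i h0
      · exact b7 i h0

/-! ### The functional graph with the new vertices `0` and `1` -/

/-- pieces for the functional graph of `T` on `[0, N)`, cut at `z`, with start `x` -/
structure Val (N x z : ℕ) (T : ℕ → ℕ) {m : ℕ} (α β n : Fin (m + 2) → ℕ) : Prop where
  s0 : α 0 = z + 2 ∧ β 0 = 1 ∧ n 0 = 1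
  s1 : α 1 = 0 ∧ β 1 = x + 2 ∧ n 1 = 1
  ranα : ∀ i, α i + n i ≤ N + 2
  ranβ : ∀ i, β i + n i ≤ N + 2
  cov : ∀ v, v ≤ N + 1 → v ≠ 1 → ∃ i, α i ≤ v ∧ v < α i + n i
  dis : ∀ v, v ≤ N + 1 → ∀ i j, α i ≤ v → v < α i + n i → α j ≤ v → v < α j + n j → i = j
  one : ∀ i, ¬ (α i ≤ 1 ∧ 1 < α i + n i)
  val : ∀ v, v ≤ N + 1 → ∀ i : Fin m, α i.succ.succ ≤ v → v < α i.succ.succ + n i.succ.succ →
    β i.succ.succ + (v - α i.succ.succ) = T (v - 2) + 2

variable {N x z : ℕ} {T : ℕ → ℕ} {m : ℕ} {α β n : Fin (m + 2) → ℕ}

theorem Val.funOk (h : Val N x z T α β n) : FunOk (N + 2) α β n where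
  two := by omega
  ranα := h.ranα
  ranβ := h.ranβ
  cov := fun v hv h1 => h.cov v (by omega) h1
  dis := by
    intro i j v h1 h2 h3 h4
    have := h.ranα i
    exact h.dis v (by omega) i j h1 h2 h3 h4
  one := h.one
  zero := by
    intro i h1 h2
    have h3 := h.s1
    have : i = 1 := h.dis 0 (by omega) i 1 (by omega) (by omega) (by omega) (by omega)
    rw [this]
    exact h3.2.2
  first := by
    intro i hi
    have : i = 0 := Fin.ext hi
    subst this
    exact h.s0.2
  pos := by omega

theorem Val.rr_succ (h : Val N x z T α β n) (hz : z < N) {u : ℕ} (hu : u < N) (k : ℕ) :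
    RR α β n (k + 1) (u + 2) ↔ (u = z ∧ k = 0) ∨ (u ≠ z ∧ RR α β n k (T u + 2)) := by
  have hF := h.funOk
  constructor
  · rintro ⟨i, t, ht, he, hr⟩
    by_cases huz : u = z
    · left
      refine ⟨huz, ?_⟩
      have h0 := h.s0
      have hi : i = 0 := h.dis (u + 2) (by omega) i 0 (by omega) (by omega) (by omega) (by omega)
      subst hi
      have ht0 : t = 0 := by omega
      rw [ht0, h0.2.1] at hr
      exact rr_unique hF k 0 1 hr rfl
    · right
      refine ⟨huz, ?_⟩
      have h0 := h.s0
      have h1 := h.s1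
      revert ht he hr
      refine Fin.cases ?_ (fun i => ?_) i
      · intro ht he hr; omega
      · refine Fin.cases ?_ (fun i => ?_) i
        · intro ht he hr
          have e1 : (Fin.succ 0 : Fin (m + 2)) = 1 := rfl
          rw [e1] at ht he
          omega
        · intro ht he hr
          have h2 := h.val (u + 2) (by omega) i (by omega) (by omega)
          have h3 : u + 2 - α i.succ.succ = t := by omega
          rw [h3] at h2
          rw [h2] at hr
          exact hr
  · rintro (⟨huz, hk⟩ | ⟨huz, hr⟩)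
    · subst huz hk
      have h0 := h.s0
      exact ⟨0, 0, by omega, by omega, by rw [h0.2.1]; rfl⟩
    · obtain ⟨i, hi1, hi2⟩ := h.cov (u + 2) (by omega) (by omega)
      refine ⟨i, u + 2 - α i, by omega, by omega, ?_⟩
      have h0 := h.s0
      have h1 := h.s1
      revert hi1 hi2
      refine Fin.cases ?_ (fun i => ?_) i
      · intro hi1 hi2; omega
      · refine Fin.cases ?_ (fun i => ?_) i
        · intro hi1 hi2
          have e1 : (Fin.succ 0 : Fin (m + 2)) = 1 := rfl
          rw [e1] at hi1 hi2
          omega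
        · intro hi1 hi2
          have h2 := h.val (u + 2) (by omega) i hi1 hi2
          rw [h2]
          exact hr

theorem Val.rr_iter (h : Val N x z T α β n) (hz : z < N) (hT : ∀ u, u < N → T u < N) :
    ∀ (s u : ℕ), u < N → (RR α β n (s + 1) (u + 2) ↔ T^[s] u = z ∧ ∀ j, j < s → T^[j] u ≠ z) := by
  intro s
  induction s with
  | zero =>
    intro u hu
    rw [h.rr_succ hz hu 0]
    constructor
    · rintro (⟨h1, -⟩ | ⟨h1, h2⟩)
      · exact ⟨h1, fun j hj => absurd hj (Nat.not_lt_zero j)⟩
      · have : T u + 2 = 1 := h2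
        omega
    · rintro ⟨h1, -⟩
      left
      exact ⟨h1, rfl⟩
  | succ s ih =>
    intro u hu
    rw [h.rr_succ hz hu (s + 1), ih (T u) (hT u hu)]
    constructor
    · rintro (⟨-, h1⟩ | ⟨h1, h2, h3⟩)
      · omega
      · refine ⟨h2, fun j hj => ?_⟩
        cases j with
        | zero => exact h1
        | succ j => exact h3 j (by omega)
    · rintro ⟨h1, h2⟩
      right
      exact ⟨h2 0 (by omega), h1, fun j hj => h2 (j + 1) (by omega)⟩

theorem Val.hit (h : Val N x z T α β n) (hx : x < N) (hz : z < N) (hT : ∀ u, u < N → T u < N)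
    (s : ℕ) : RR α β n (s + 2) 0 ↔ T^[s] x = z ∧ ∀ j, j < s → T^[j] x ≠ z := by
  rw [← h.rr_iter hz hT s x hx]
  have h1 := h.s1
  constructor
  · rintro ⟨i, t, ht, he, hr⟩
    have : i = 1 := h.dis 0 (by omega) i 1 (by omega) (by omega) (by omega) (by omega)
    subst this
    have ht0 : t = 0 := by omega
    rw [ht0, h1.2.1] at hr
    exact hr
  · intro hr
    exact ⟨1, 0, by omega, by omega, by rw [h1.2.1]; exact hr⟩

theorem exists_val {c : ℕ} (cut : Fin c → ℕ) (hT : ∀ u, u < N → T u < N)
    (hcut : ∀ u, u + 1 < N → (∀ j, cut j ≠ u + 1) → T (u + 1) = T u + 1)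
    (hx : x < N) (hz : z < N) :
    ∃ α β n : Fin (2 ^ c + 2 ^ c + 2) → ℕ, Val N x z T α β n := by
  obtain ⟨ι₁, f₁, hc₁, α₁, β₁, n₁, a1, a2, a3, a4, a5, a6, a7⟩ :=
    exists_pieces (fun v => T (v - 2) + 2) c (fun j => cut j + 2) 2 (z + 2) (by
      intro u h1 h2 h3
      have := hcut (u - 2) (by omega) (fun j hj => h3 j (by omega))
      have e : u + 1 - 2 = u - 2 + 1 := by omega
      beta_reduce
      rw [e]
      omega)
  obtain ⟨ι₂, f₂, hc₂, α₂, β₂, n₂, b1, b2, b3, b4, b5, b6, b7⟩ :=
    exists_pieces (fun v => T (v - 2) + 2) c (fun j => cut j + 2) (z + 3) (N + 2) (by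
      intro u h1 h2 h3
      have := hcut (u - 2) (by omega) (fun j hj => h3 j (by omega))
      have e : u + 1 - 2 = u - 2 + 1 := by omega
      beta_reduce
      rw [e]
      omega)
  have e : Fin (2 ^ c + 2 ^ c) ≃ ι₁ ⊕ ι₂ := by
    refine (Fintype.equivFinOfCardEq ?_).symm
    rw [Fintype.card_sum, hc₁, hc₂]
  have hβ₁ : ∀ i, β₁ i + n₁ i ≤ N + 2 := by
    intro i
    rcases Nat.eq_zero_or_pos (n₁ i) with h0 | h0
    · rw [h0, a7 i h0]; omega
    · have h1 := a6 i (n₁ i - 1) (by omega)
      have h2 := a3 i
      have h3 := a2 i h0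
      have h4 := hT (α₁ i + (n₁ i - 1) - 2) (by omega)
      beta_reduce at h1
      omega
  have hβ₂ : ∀ i, β₂ i + n₂ i ≤ N + 2 := by
    intro i
    rcases Nat.eq_zero_or_pos (n₂ i) with h0 | h0
    · rw [h0, b7 i h0]; omega
    · have h1 := b6 i (n₂ i - 1) (by omega)
      have h2 := b3 i
      have h3 := b2 i h0
      have h4 := hT (α₂ i + (n₂ i - 1) - 2) (by omega)
      beta_reduce at h1
      omega
  refine ⟨Fin.cons (z + 2) (Fin.cons 0 fun i => Sum.elim α₁ α₂ (e i)),
    Fin.cons 1 (Fin.cons (x + 2) fun i => Sum.elim β₁ β₂ (e i)),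
    Fin.cons 1 (Fin.cons 1 fun i => Sum.elim n₁ n₂ (e i)), ?_⟩
  have hmem : ∀ (i : Fin (2 ^ c + 2 ^ c)) (v : ℕ), Sum.elim α₁ α₂ (e i) ≤ v →
      v < Sum.elim α₁ α₂ (e i) + Sum.elim n₁ n₂ (e i) → 2 ≤ v ∧ v ≠ z + 2 ∧ v < N + 2 := by
    intro i v
    generalize e i = p
    rcases p with j | j
    · intro h1 h2
      have := a2 j
      have := a3 j
      simp only [Sum.elim_inl] at h1 h2
      omega
    · intro h1 h2
      have := b2 j
      have := b3 j
      simp only [Sum.elim_inr] at h1 h2
      omega
  refine ⟨⟨rfl, rfl, rfl⟩, ⟨rfl, rfl, rfl⟩, ?_, ?_, ?_, ?_, ?_, ?_⟩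
  · intro i
    refine Fin.cases ?_ (fun i => ?_) i
    · simp only [Fin.cons_zero]; omega
    · refine Fin.cases ?_ (fun i => ?_) i
      · simp only [Fin.cons_succ, Fin.cons_zero]; omega
      · simp only [Fin.cons_succ]
        rcases e i with j | j
        · have := a3 j; simp only [Sum.elim_inl]; omega
        · exact b3 j
  · intro i
    refine Fin.cases ?_ (fun i => ?_) i
    · simp only [Fin.cons_zero]; omega
    · refine Fin.cases ?_ (fun i => ?_) i
      · simp only [Fin.cons_succ, Fin.cons_zero]; omega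
      · simp only [Fin.cons_succ]
        rcases e i with j | j
        · exact hβ₁ j
        · exact hβ₂ j
  · intro v hv h1
    by_cases h0 : v = 0
    · exact ⟨1, by show 0 ≤ v; omega, by show v < 0 + 1; omega⟩
    · by_cases h2 : v = z + 2
      · exact ⟨0, by show z + 2 ≤ v; omega, by show v < z + 2 + 1; omega⟩
      · rcases Nat.lt_or_ge v (z + 2) with h3 | h3
        · obtain ⟨i, hi⟩ := a4 v (by omega) h3
          refine ⟨(e.symm (.inl i)).succ.succ, ?_⟩
          simp only [Fin.cons_succ, Equiv.apply_symm_apply, Sum.elim_inl]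
          exact hi
        · obtain ⟨i, hi⟩ := b4 v (by omega) (by omega)
          refine ⟨(e.symm (.inr i)).succ.succ, ?_⟩
          simp only [Fin.cons_succ, Equiv.apply_symm_apply, Sum.elim_inr]
          exact hi
  · intro v hv i j
    refine Fin.cases ?_ (fun i => ?_) i
    · refine Fin.cases ?_ (fun j => ?_) j
      · intro _ _ _ _; rfl
      · refine Fin.cases ?_ (fun j => ?_) j
        · simp only [Fin.cons_zero, Fin.cons_succ]
          intro h1 h2 h3 h4; omega
        · simp only [Fin.cons_zero, Fin.cons_succ]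
          intro h1 h2 h3 h4
          have := hmem j v h3 h4
          omega
    · refine Fin.cases ?_ (fun i => ?_) i
      · refine Fin.cases ?_ (fun j => ?_) j
        · simp only [Fin.cons_zero, Fin.cons_succ]
          intro h1 h2 h3 h4; omega
        · refine Fin.cases ?_ (fun j => ?_) j
          · intro _ _ _ _; rfl
          · simp only [Fin.cons_zero, Fin.cons_succ]
            intro h1 h2 h3 h4
            have := hmem j v h3 h4
            omega
      · refine Fin.cases ?_ (fun j => ?_) j
        · simp only [Fin.cons_zero, Fin.cons_succ]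
          intro h1 h2 h3 h4
          have := hmem i v h1 h2
          omega
        · refine Fin.cases ?_ (fun j => ?_) j
          · simp only [Fin.cons_zero, Fin.cons_succ]
            intro h1 h2 h3 h4
            have := hmem i v h1 h2
            omega
          · simp only [Fin.cons_succ]
            intro h1 h2 h3 h4
            have : e i = e j := by
              revert h1 h2 h3 h4
              rcases e i with p | p <;> rcases e j with q | q
              · simp only [Sum.elim_inl]
                intro h1 h2 h3 h4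
                rw [a5 p q v h1 h2 h3 h4]
              · simp only [Sum.elim_inl, Sum.elim_inr]
                intro h1 h2 h3 h4
                exfalso
                have := a3 p
                have := b2 q
                omega
              · simp only [Sum.elim_inl, Sum.elim_inr]
                intro h1 h2 h3 h4
                exfalso
                have := a3 q
                have := b2 p
                omega
              · simp only [Sum.elim_inr]
                intro h1 h2 h3 h4
                rw [b5 p q v h1 h2 h3 h4]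
            rw [e.injective this]
  · intro i
    refine Fin.cases ?_ (fun i => ?_) i
    · simp only [Fin.cons_zero]
      rintro ⟨h1, h2⟩; omega
    · refine Fin.cases ?_ (fun i => ?_) i
      · simp only [Fin.cons_zero, Fin.cons_succ]
        rintro ⟨h1, h2⟩; omega
      · simp only [Fin.cons_succ]
        rintro ⟨h1, h2⟩
        have := hmem i 1 h1 h2
        omega
  · intro v hv i
    simp only [Fin.cons_succ]
    rcases e i with j | j
    · simp only [Sum.elim_inl]
      intro h1 h2
      have := a6 j (v - α₁ j) (by omega)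
      have e1 : α₁ j + (v - α₁ j) = v := by omega
      beta_reduce at this
      rw [e1] at this
      omega
    · simp only [Sum.elim_inr]
      intro h1 h2
      have := b6 j (v - α₂ j) (by omega)
      have e1 : α₂ j + (v - α₂ j) = v := by omega
      beta_reduce at this
      rw [e1] at this
      omega

end Pool.Agent.PTr
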