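import Mathlib
import Pool.Agent.PTr.Orbit1

/-!
# Orbits of piecewise translations of an interval are definable by bounded formulas (end)
-/

set_option autoImplicit false

namespace Pool.Agent.PTr

open Finset Filter Pool.Agent.Grz Pool.Agent.GAvg

/-- substitution into a family of functions -/
theorem DFun.app {n m : ℕ} {T : ℕ → (Fin n → ℕ) → ℕ}
    (hT : DFun (n + 1) (fun w => T (w 0) (fun i => w i.succ))) {u : (Fin m → ℕ) → ℕ}
    {v : Fin n → (Fin m → ℕ) → ℕ} (hu : DFun m u) (hv : ∀ i, DFun m (v i)) :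
    DFun m (fun w => T (u w) (fun i => v i w)) :=
  hT.comp (h := Fin.cons u v) (fun i => by
    refine Fin.cases ?_ (fun i => ?_) i
    · exact hu
    · exact hv i)

theorem val_delta0 {m n : ℕ} {N x z : (Fin n → ℕ) → ℕ} {T : ℕ → (Fin n → ℕ) → ℕ}
    {α β l : Fin (m + 2) → (Fin n → ℕ) → ℕ} (hN : DFun n N) (hx : DFun n x) (hz : DFun n z)
    (hT : DFun (n + 1) (fun w => T (w 0) (fun i => w i.succ)))
    (hα : ∀ i, DFun n (α i)) (hβ : ∀ i, DFun n (β i)) (hl : ∀ i, DFun n (l i)) :
    Delta0 n (fun v => Val (N v) (x v) (z v) (fun u => T u v) (fun i => α i v) (fun i => β i v)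
      (fun i => l i v)) := by
  have h1 : Delta0 n (fun v => α 0 v = z v + 2 ∧ β 0 v = 1 ∧ l 0 v = 1) :=
    (Delta0.eqFun (hα _) (hz.add (DFun.const 2))).and ((Delta0.eqFun (hβ _) (DFun.const 1)).and
      (Delta0.eqFun (hl _) (DFun.const 1)))
  have h2 : Delta0 n (fun v => α 1 v = 0 ∧ β 1 v = x v + 2 ∧ l 1 v = 1) :=
    (Delta0.eqFun (hα _) (DFun.const 0)).and ((Delta0.eqFun (hβ _) (hx.add (DFun.const 2))).and
      (Delta0.eqFun (hl _) (DFun.const 1)))
  have h3 : Delta0 n (fun v => ∀ i, α i v + l i v ≤ N v + 2) :=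
    Delta0.allOf fun i => Delta0.leFun ((hα i).add (hl i)) (hN.add (DFun.const 2))
  have h4 : Delta0 n (fun v => ∀ i, β i v + l i v ≤ N v + 2) :=
    Delta0.allOf fun i => Delta0.leFun ((hβ i).add (hl i)) (hN.add (DFun.const 2))
  have h5 : Delta0 n (fun v => ∀ u, u ≤ N v + 1 → (u ≠ 1 → ∃ i, α i v ≤ u ∧
      u < α i v + l i v)) := by
    refine Delta0.ballFun (hN.add (DFun.const 1)) (P := fun u v => u ≠ 1 → ∃ i, α i v ≤ u ∧
      u < α i v + l i v) ?_
    refine Delta0.imp (Delta0.eqFun (DFun.proj 0) (DFun.const 1)).not ?_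
    exact Delta0.exOf fun i => (Delta0.leFun (hα i).weak (DFun.proj 0)).and
      (Delta0.ltFun (DFun.proj 0) ((hα i).weak.add (hl i).weak))
  have h6 : Delta0 n (fun v => ∀ u, u ≤ N v + 1 → ∀ i j, α i v ≤ u → u < α i v + l i v →
      α j v ≤ u → u < α j v + l j v → i = j) := by
    refine Delta0.ballFun (hN.add (DFun.const 1)) (P := fun u v => ∀ i j, α i v ≤ u →
      u < α i v + l i v → α j v ≤ u → u < α j v + l j v → i = j) ?_
    refine Delta0.allOf fun i => Delta0.allOf fun j => ?_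
    refine Delta0.imp (Delta0.leFun (hα i).weak (DFun.proj 0)) ?_
    refine Delta0.imp (Delta0.ltFun (DFun.proj 0) ((hα i).weak.add (hl i).weak)) ?_
    refine Delta0.imp (Delta0.leFun (hα j).weak (DFun.proj 0)) ?_
    refine Delta0.imp (Delta0.ltFun (DFun.proj 0) ((hα j).weak.add (hl j).weak)) ?_
    by_cases hij : i = j
    · exact (Delta0.eqFun (DFun.const 0) (DFun.const 0)).of_iff fun v => by simp [hij]
    · exact (Delta0.eqFun (DFun.const 0) (DFun.const 1)).of_iff fun v => by simp [hij]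
  have h7 : Delta0 n (fun v => ∀ i, ¬ (α i v ≤ 1 ∧ 1 < α i v + l i v)) :=
    Delta0.allOf fun i => ((Delta0.leFun (hα i) (DFun.const 1)).and
      (Delta0.ltFun (DFun.const 1) ((hα i).add (hl i)))).not
  have h8 : Delta0 n (fun v => ∀ u, u ≤ N v + 1 → ∀ i : Fin m, α i.succ.succ v ≤ u →
      u < α i.succ.succ v + l i.succ.succ v →
      β i.succ.succ v + (u - α i.succ.succ v) = T (u - 2) v + 2) := by
    refine Delta0.ballFun (hN.add (DFun.const 1)) (P := fun u v => ∀ i : Fin m,
      α i.succ.succ v ≤ u → u < α i.succ.succ v + l i.succ.succ v →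
      β i.succ.succ v + (u - α i.succ.succ v) = T (u - 2) v + 2) ?_
    refine Delta0.allOf fun i => ?_
    refine Delta0.imp (Delta0.leFun (hα _).weak (DFun.proj 0)) ?_
    refine Delta0.imp (Delta0.ltFun (DFun.proj 0) ((hα _).weak.add (hl _).weak)) ?_
    refine Delta0.eqFun ((hβ _).weak.add ((DFun.proj 0).sub (hα _).weak)) ?_
    exact (DFun.app hT (u := fun w : Fin (n + 1) → ℕ => w 0 - 2) (v := fun i w => w i.succ)
      ((DFun.proj 0).sub (DFun.const 2)) (fun i => DFun.proj _)).add (DFun.const 2)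
  refine (h1.and (h2.and (h3.and (h4.and (h5.and (h6.and (h7.and h8))))))).of_iff fun v => ?_
  constructor
  · rintro ⟨a1, a2, a3, a4, a5, a6, a7, a8⟩
    exact ⟨a1, a2, a3, a4, a5, a6, a7, a8⟩
  · rintro ⟨a1, a2, a3, a4, a5, a6, a7, a8⟩
    exact ⟨a1, a2, a3, a4, a5, a6, a7, a8⟩

theorem tourQ_delta0 {m n : ℕ} {M s : (Fin n → ℕ) → ℕ} {α β l : Fin m → (Fin n → ℕ) → ℕ}
    (hM : DFun n M) (hs : DFun n s) (hα : ∀ i, DFun n (α i)) (hβ : ∀ i, DFun n (β i))
    (hl : ∀ i, DFun n (l i)) :
    Delta0 n (fun v => ConnQ (tourSys (M v) (fun i => α i v) (fun i => β i v)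
      (fun i => l i v)) (s v)) := by
  refine connQ_delta0 (H := TB m) (N := fun v => (m + 1) * M v) (s := s)
    (a := fun h v => loL h * M v + loV (fun i => α i v) (fun i => β i v) (fun i => l i v) h)
    (b := fun h v => upL h * M v + upV (fun i => α i v) (fun i => β i v) (fun i => l i v) h)
    (l := fun h v => wid (M v) (fun i => β i v) (fun i => l i v) h)
    (u := fun h _ => wu h) (d := fun h _ => wd h) ?_ hs ?_ ?_ ?_ ?_ ?_
  · exact (DFun.const _).mul hM
  · intro h
    refine ((DFun.const _).mul hM).add ?_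
    rcases h with ⟨i, c⟩ | j | u
    · match c with
      | 0 => exact DFun.const 0
      | 1 => exact hβ i
      | 2 => exact (hβ i).add (hl i)
    · exact hα j
    · exact DFun.const 1
  · intro h
    refine ((DFun.const _).mul hM).add ?_
    rcases h with ⟨i, c⟩ | j | u
    · match c with
      | 0 => exact DFun.const 0
      | 1 => exact hα i
      | 2 => exact (hβ i).add (hl i)
    · exact hβ j
    · exact DFun.const 1
  · intro h
    rcases h with ⟨i, c⟩ | j | u
    · match c with
      | 0 => exact hβ i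
      | 1 => exact hl i
      | 2 => exact hM.sub ((hβ i).add (hl i))
    · exact hl j
    · exact DFun.const 1
  · intro h; exact DFun.const _
  · intro h; exact DFun.const _

/-- first hits -/
def Hit (T : ℕ → ℕ) (x z s : ℕ) : Prop := T^[s] x = z ∧ ∀ j, j < s → T^[j] x ≠ z

theorem hit_delta0 (c : ℕ) {n : ℕ} {N x z s : (Fin n → ℕ) → ℕ} {T : ℕ → (Fin n → ℕ) → ℕ}
    (hN : DFun n N) (hx : DFun n x) (hz : DFun n z) (hs : DFun n s)
    (hT : DFun (n + 1) (fun w => T (w 0) (fun i => w i.succ)))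
    (hTN : ∀ v u, u < N v → T u v < N v)
    (hcut : ∀ v, ∃ cut : Fin c → ℕ, ∀ u, u + 1 < N v → (∀ j, cut j ≠ u + 1) →
      T (u + 1) v = T u v + 1) :
    Delta0 n (fun v => x v < N v ∧ z v < N v ∧ Hit (fun u => T u v) (x v) (z v) (s v)) := by
  set m := 2 ^ c + 2 ^ c with hm
  have h1 := Delta0.bexState (κ := Fin (m + 2) ⊕ (Fin (m + 2) ⊕ Fin (m + 2)))
    (hN.add (DFun.const 2)) (P := fun p v => Val (N v) (x v) (z v) (fun u => T u v)
      (fun i => p (.inl i)) (fun i => p (.inr (.inl i))) (fun i => p (.inr (.inr i))) ∧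
      ConnQ (tourSys (N v + 2) (fun i => p (.inl i)) (fun i => p (.inr (.inl i)))
        (fun i => p (.inr (.inr i)))) (s v + 2)) (by
      intro k p v hp hv
      refine Delta0.and ?_ ?_
      · exact val_delta0 (N := fun w => N (fun i => v i w)) (x := fun w => x (fun i => v i w))
          (z := fun w => z (fun i => v i w)) (T := fun u w => T u (fun i => v i w))
          (α := fun i w => p (.inl i) w) (β := fun i w => p (.inr (.inl i)) w)
          (l := fun i w => p (.inr (.inr i)) w) (hN.comp hv) (hx.comp hv) (hz.comp hv)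
          (DFun.app hT (u := fun w : Fin (k + 1) → ℕ => w 0)
            (v := fun i w => v i (fun j => w j.succ)) (DFun.proj 0) (fun i => (hv i).weak))
          (fun i => hp _) (fun i => hp _) (fun i => hp _)
      · exact tourQ_delta0 (M := fun w => N (fun i => v i w) + 2)
          (s := fun w => s (fun i => v i w) + 2)
          (α := fun i w => p (.inl i) w) (β := fun i w => p (.inr (.inl i)) w)
          (l := fun i w => p (.inr (.inr i)) w) ((hN.comp hv).add (DFun.const 2))
          ((hs.comp hv).add (DFun.const 2)) (fun i => hp _) (fun i => hp _) (fun i => hp _))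
  refine ((Delta0.ltFun hx hN).and ((Delta0.ltFun hz hN).and h1)).of_iff fun v => ?_
  constructor
  · rintro ⟨hxv, hzv, hh⟩
    refine ⟨hxv, hzv, ?_⟩
    obtain ⟨cut, hc⟩ := hcut v
    obtain ⟨α, β, l, hV⟩ := exists_val (T := fun u => T u v) cut (hTN v) hc hxv hzv
    refine ⟨Sum.elim α (Sum.elim β l), ?_, ?_, ?_⟩
    · rintro (i | i | i)
      · have := hV.ranα i; simp only [Sum.elim_inl]; omega
      · have := hV.ranβ i; simp only [Sum.elim_inl, Sum.elim_inr]; omega
      · have := hV.ranα i; simp only [Sum.elim_inr]; omega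
    · exact hV
    · exact (connQ_tour hV.funOk _).2 ((hV.hit hxv hzv (hTN v) _).2 hh)
  · rintro ⟨hxv, hzv, p, -, hV, hQ⟩
    refine ⟨hxv, hzv, ?_⟩
    exact (hV.hit hxv hzv (hTN v) _).1 ((connQ_tour hV.funOk _).1 hQ)

/-- the orbit relation by first hits -/
theorem iterate_iff_hit (T : ℕ → ℕ) (x y t : ℕ) :
    T^[t] x = y ↔ ∃ s, s ≤ t ∧ (Hit T x y s ∧ (t = s ∨ ∃ p, p ≤ t ∧ (Hit T (T y) y p ∧
      s < t ∧ ∃ q, q ≤ t ∧ t = s + (p + 1) * q))) := by
  constructor
  · intro h
    have hex : ∃ s, T^[s] x = y := ⟨t, h⟩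
    classical
    set s := Nat.find hex with hs
    have hsx : T^[s] x = y := Nat.find_spec hex
    have hst : s ≤ t := Nat.find_min' hex h
    refine ⟨s, hst, ⟨hsx, fun j hj => Nat.find_min hex hj⟩, ?_⟩
    by_cases hts : t = s
    · left; exact hts
    · right
      obtain ⟨r, hr⟩ : ∃ r, t = r + s := ⟨t - s, by omega⟩
      have hper : T^[r] y = y := by
        rw [← hsx, ← Function.iterate_add_apply, ← hr, h, hsx]
      have hperiodic : Function.IsPeriodicPt T r y := hper
      have hrpos : 0 < r := by omega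
      have hmpos : 0 < Function.minimalPeriod T y :=
        Function.IsPeriodicPt.minimalPeriod_pos hrpos hperiodic
      obtain ⟨p, hp⟩ : ∃ p, Function.minimalPeriod T y = p + 1 :=
        ⟨Function.minimalPeriod T y - 1, by omega⟩
      obtain ⟨q, hq⟩ := hperiodic.minimalPeriod_dvd
      rw [hp] at hq
      have hqpos : 0 < q := by
        rcases Nat.eq_zero_or_pos q with h0 | h0
        · subst h0; omega
        · exact h0
      have h5 : p + 1 ≤ (p + 1) * q := Nat.le_mul_of_pos_right _ hqpos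
      have h6 : q ≤ (p + 1) * q := Nat.le_mul_of_pos_left _ (by omega)
      refine ⟨p, by omega, ⟨?_, ?_⟩, by omega, q, by omega, by omega⟩
      · have := Function.isPeriodicPt_minimalPeriod T y
        rw [hp] at this
        rw [← Function.iterate_succ_apply]
        exact this
      · intro j hj hj'
        rw [← Function.iterate_succ_apply] at hj'
        have h7 : Function.minimalPeriod T y ≤ j + 1 :=
          Function.IsPeriodicPt.minimalPeriod_le (by omega) hj'
        omega
  · rintro ⟨s, hst, ⟨hsx, -⟩, h | ⟨p, -, ⟨hp, -⟩, -, q, -, hq⟩⟩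
    · rw [h]; exact hsx
    · have h1 : T^[p + 1] y = y := by
        rw [Function.iterate_succ_apply]; exact hp
      have h2 : ∀ q, T^[(p + 1) * q] y = y := by
        intro q
        induction q with
        | zero => rfl
        | succ q ih =>
          rw [Nat.mul_succ, Function.iterate_add_apply, h1, ih]
      rw [hq, add_comm, Function.iterate_add_apply, hsx, h2]

theorem orbit_delta0 (c : ℕ) {n : ℕ} {N x y t : (Fin n → ℕ) → ℕ} {T : ℕ → (Fin n → ℕ) → ℕ}
    (hN : DFun n N) (hx : DFun n x) (hy : DFun n y) (ht : DFun n t)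
    (hT : DFun (n + 1) (fun w => T (w 0) (fun i => w i.succ)))
    (hTN : ∀ v u, u < N v → T u v < N v)
    (hcut : ∀ v, ∃ cut : Fin c → ℕ, ∀ u, u + 1 < N v → (∀ j, cut j ≠ u + 1) →
      T (u + 1) v = T u v + 1) :
    Delta0 n (fun v => x v < N v ∧ (fun u => T u v)^[t v] (x v) = y v) := by
  -- the same hypotheses with more variables
  have hT1 : DFun (n + 1 + 1) (fun w => T (w 0) (fun i => w i.succ.succ)) :=
    DFun.app hT (u := fun w : Fin (n + 2) → ℕ => w 0) (v := fun i w => w i.succ.succ)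
      (DFun.proj 0) (fun i => DFun.proj _)
  have hT2 : DFun (n + 1 + 1 + 1) (fun w => T (w 0) (fun i => w i.succ.succ.succ)) :=
    DFun.app hT (u := fun w : Fin (n + 3) → ℕ => w 0) (v := fun i w => w i.succ.succ.succ)
      (DFun.proj 0) (fun i => DFun.proj _)
  have hTy : DFun n (fun v => T (y v) v) :=
    DFun.app hT (u := y) (v := fun i v => v i) hy (fun i => DFun.proj _)
  have hF : Delta0 n (fun v => ∃ s, s ≤ t v ∧ ((x v < N v ∧ y v < N v ∧
      Hit (fun u => T u v) (x v) (y v) s) ∧ (t v = s ∨ ∃ p, p ≤ t v ∧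
        ((T (y v) v < N v ∧ y v < N v ∧ Hit (fun u => T u v) (T (y v) v) (y v) p) ∧
        s < t v ∧ ∃ q, q ≤ t v ∧ t v = s + (p + 1) * q)))) := by
    refine Delta0.bexFun ht (P := fun s v => (x v < N v ∧ y v < N v ∧
      Hit (fun u => T u v) (x v) (y v) s) ∧ (t v = s ∨ ∃ p, p ≤ t v ∧
        ((T (y v) v < N v ∧ y v < N v ∧ Hit (fun u => T u v) (T (y v) v) (y v) p) ∧
        s < t v ∧ ∃ q, q ≤ t v ∧ t v = s + (p + 1) * q))) ?_
    refine Delta0.and ?_ (Delta0.or ?_ ?_)
    · exact hit_delta0 c (n := n + 1) (N := fun w => N (fun i => w i.succ))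
        (x := fun w => x (fun i => w i.succ)) (z := fun w => y (fun i => w i.succ))
        (s := fun w => w 0) (T := fun u w => T u (fun i => w i.succ)) hN.weak hx.weak hy.weak
        (DFun.proj 0) hT1 (fun v => hTN _) (fun v => hcut _)
    · exact Delta0.eqFun ht.weak (DFun.proj 0)
    · refine Delta0.bexFun (n := n + 1) (b := fun w => t (fun i => w i.succ)) ht.weak
        (P := fun p w =>
        ((T (y (fun i => w i.succ)) (fun i => w i.succ) < N (fun i => w i.succ) ∧
          y (fun i => w i.succ) < N (fun i => w i.succ) ∧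
          Hit (fun u => T u (fun i => w i.succ)) (T (y (fun i => w i.succ)) (fun i => w i.succ))
            (y (fun i => w i.succ)) p) ∧
        w 0 < t (fun i => w i.succ) ∧ ∃ q, q ≤ t (fun i => w i.succ) ∧
          t (fun i => w i.succ) = w 0 + (p + 1) * q)) ?_
      refine Delta0.and ?_ (Delta0.and ?_ ?_)
      · exact hit_delta0 c (n := n + 1 + 1) (N := fun w => N (fun i => w i.succ.succ))
          (x := fun w => T (y (fun i => w i.succ.succ)) (fun i => w i.succ.succ))
          (z := fun w => y (fun i => w i.succ.succ))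
          (s := fun w => w 0) (T := fun u w => T u (fun i => w i.succ.succ)) hN.weak.weak
          hTy.weak.weak hy.weak.weak
          (DFun.proj 0) hT2 (fun v => hTN _) (fun v => hcut _)
      · exact Delta0.ltFun (DFun.proj 1) ht.weak.weak
      · refine Delta0.bexFun (n := n + 2) (b := fun w => t (fun i => w i.succ.succ)) ht.weak.weak
          (P := fun q w => t (fun i => w i.succ.succ) = w 1 + (w 0 + 1) * q) ?_
        exact Delta0.eqFun ht.weak.weak.weak ((DFun.proj 2).add
          (((DFun.proj 1).add (DFun.const 1)).mul (DFun.proj 0)))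
  refine hF.of_iff fun v => ?_
  constructor
  · rintro ⟨hxN, h⟩
    have hiter : ∀ j, (fun u => T u v)^[j] (x v) < N v := by
      intro j
      induction j with
      | zero => exact hxN
      | succ j ih => rw [Function.iterate_succ_apply']; exact hTN v _ ih
    have hyN : y v < N v := by rw [← h]; exact hiter _
    obtain ⟨s, hst, hs, h2⟩ := (iterate_iff_hit (fun u => T u v) (x v) (y v) (t v)).1 h
    refine ⟨s, hst, ⟨hxN, hyN, hs⟩, ?_⟩
    rcases h2 with h2 | ⟨p, hp, h3, h4, h5⟩
    · left; exact h2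
    · right; exact ⟨p, hp, ⟨hTN v _ hyN, hyN, h3⟩, h4, h5⟩
  · rintro ⟨s, hst, ⟨hxN, hyN, hs⟩, h2⟩
    refine ⟨hxN, (iterate_iff_hit (fun u => T u v) (x v) (y v) (t v)).2 ⟨s, hst, hs, ?_⟩⟩
    rcases h2 with h2 | ⟨p, hp, ⟨-, -, h3⟩, h4, h5⟩
    · left; exact h2
    · right; exact ⟨p, hp, h3, h4, h5⟩

/-! ### The maps `u ↦ u + ∑ c i mod N` -/

/-- the piecewise translation of an interval -/
def tm {k : ℕ} (N : ℕ) (a b c : Fin k → ℕ) (u : ℕ) : ℕ :=
  (u + ∑ i : Fin k, if a i ≤ u ∧ u < b i then c i else 0) % N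

theorem tm_cut {k : ℕ} (N : ℕ) (a b c : Fin k → ℕ) :
    ∃ cut : Fin (k + (k + 2 ^ k)) → ℕ, ∀ u, u + 1 < N → (∀ j, cut j ≠ u + 1) →
      tm N a b c (u + 1) = tm N a b c u + 1 := by
  classical
  have e : Fin (k + (k + 2 ^ k)) ≃ Fin k ⊕ (Fin k ⊕ Finset (Fin k)) := by
    refine (Fintype.equivFinOfCardEq ?_).symm
    simp
  refine ⟨fun j => Sum.elim a (Sum.elim b fun I => N - (∑ i ∈ I, c i) % N) (e j), ?_⟩
  intro u hu hj
  have ha : ∀ i, a i ≠ u + 1 := fun i => by
    have := hj (e.symm (.inl i))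
    simpa using this
  have hb : ∀ i, b i ≠ u + 1 := fun i => by
    have := hj (e.symm (.inr (.inl i)))
    simpa using this
  have hI : ∀ I : Finset (Fin k), N - (∑ i ∈ I, c i) % N ≠ u + 1 := fun I => by
    have := hj (e.symm (.inr (.inr I)))
    simpa using this
  have hsum : (∑ i : Fin k, if a i ≤ u + 1 ∧ u + 1 < b i then c i else 0) =
      ∑ i : Fin k, if a i ≤ u ∧ u < b i then c i else 0 := by
    refine Finset.sum_congr rfl fun i _ => ?_
    have h1 := ha i
    have h2 := hb i
    have h3 : (a i ≤ u + 1 ∧ u + 1 < b i) ↔ (a i ≤ u ∧ u < b i) := by omega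
    simp only [h3]
  unfold tm
  rw [hsum]
  set S := ∑ i : Fin k, if a i ≤ u ∧ u < b i then c i else 0 with hS
  have hS' : S = ∑ i ∈ Finset.univ.filter (fun i => a i ≤ u ∧ u < b i), c i := by
    rw [hS, Finset.sum_filter]
  have h4 := hI (Finset.univ.filter (fun i => a i ≤ u ∧ u < b i))
  rw [← hS'] at h4
  have hNpos : 0 < N := by omega
  have h5 := Nat.mod_lt S hNpos
  have h6 := Nat.mod_lt (u + S) hNpos
  have h7 : (u + 1 + S) % N = ((u + S) % N + 1) % N := by
    rw [Nat.mod_add_mod]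
    congr 1
    ring
  rw [h7]
  refine Nat.mod_eq_of_lt ?_
  by_contra h8
  have h9 : (u + S) % N = N - 1 := by omega
  have h10 : (u + S) % N = (u + S % N) % N := by rw [Nat.add_mod_mod]
  rw [h10] at h9
  rcases Nat.lt_or_ge (u + S % N) N with h11 | h11
  · rw [Nat.mod_eq_of_lt h11] at h9
    omega
  · rw [Nat.mod_eq_sub_mod h11, Nat.mod_eq_of_lt (by omega)] at h9
    omega

theorem DFun.modAny {n : ℕ} {f g : (Fin n → ℕ) → ℕ} (hf : DFun n f) (hg : DFun n g) :
    DFun n (fun v => f v % g v) := by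
  have h := DFun.ite (Delta0.eqFun hg (DFun.const 0)) hf (hf.mod (hg.sub (DFun.const 1)))
  refine (show (fun v => f v % g v) = _ from ?_) ▸ h
  funext v
  by_cases h0 : g v = 0
  · rw [if_pos h0, h0, Nat.mod_zero]
  · rw [if_neg h0, Nat.sub_add_cancel (by omega)]

theorem DFun.tm {k n : ℕ} {N u : (Fin n → ℕ) → ℕ} {a b c : Fin k → (Fin n → ℕ) → ℕ}
    (hN : DFun n N) (ha : ∀ i, DFun n (a i)) (hb : ∀ i, DFun n (b i)) (hc : ∀ i, DFun n (c i))
    (hu : DFun n u) :
    DFun n (fun v => tm (N v) (fun i => a i v) (fun i => b i v) (fun i => c i v) (u v)) := by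
  unfold PTr.tm
  refine DFun.modAny (hu.add (DFun.finSum _ fun i => ?_)) hN
  exact DFun.ite ((Delta0.leFun (ha i) hu).and (Delta0.ltFun hu (hb i))) (hc i) (DFun.const 0)

/-- **Part (A).** Orbits of piecewise translations of `[0, N)` with a fixed number of pieces are
definable by bounded formulas. -/
theorem tm_orbit_delta0 {k n : ℕ} {N x y t : (Fin n → ℕ) → ℕ} {a b c : Fin k → (Fin n → ℕ) → ℕ}
    (hN : DFun n N) (hx : DFun n x) (hy : DFun n y) (ht : DFun n t)
    (ha : ∀ i, DFun n (a i)) (hb : ∀ i, DFun n (b i)) (hc : ∀ i, DFun n (c i)) :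
    Delta0 n (fun v => 0 < N v ∧
      (tm (N v) (fun i => a i v) (fun i => b i v) (fun i => c i v))^[t v] (x v) = y v) := by
  have hTD : DFun (n + 1) (fun w => (fun u v => tm (N v) (fun i => a i v) (fun i => b i v)
      (fun i => c i v) u) (w 0) (fun i => w i.succ)) :=
    DFun.tm (n := n + 1) (N := fun w => N (fun i => w i.succ)) (u := fun w => w 0)
      (a := fun i w => a i (fun i => w i.succ)) (b := fun i w => b i (fun i => w i.succ))
      (c := fun i w => c i (fun i => w i.succ)) hN.weak (fun i => (ha i).weak)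
      (fun i => (hb i).weak) (fun i => (hc i).weak) (DFun.proj 0)
  have hTx : DFun n (fun v => tm (N v) (fun i => a i v) (fun i => b i v) (fun i => c i v) (x v)) :=
    DFun.tm hN ha hb hc hx
  have h1 := orbit_delta0 (k + (k + 2 ^ k)) (N := N)
    (x := fun v => tm (N v) (fun i => a i v) (fun i => b i v) (fun i => c i v) (x v)) (y := y)
    (t := fun v => t v - 1) (T := fun u v => tm (N v) (fun i => a i v) (fun i => b i v)
      (fun i => c i v) u) hN hTx hy (ht.sub (DFun.const 1)) hTD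
    (fun v u hu => Nat.mod_lt _ (by omega)) (fun v => tm_cut _ _ _ _)
  refine ((Delta0.ltFun (DFun.const 0) hN).and (((Delta0.eqFun ht (DFun.const 0)).and
    (Delta0.eqFun hx hy)).or ((Delta0.ltFun (DFun.const 0) ht).and h1))).of_iff fun v => ?_
  constructor
  · rintro ⟨hNv, h⟩
    refine ⟨hNv, ?_⟩
    rcases Nat.eq_zero_or_pos (t v) with h0 | h0
    · left
      rw [h0] at h
      exact ⟨h0, h⟩
    · right
      refine ⟨h0, Nat.mod_lt _ hNv, ?_⟩
      obtain ⟨r, hr⟩ : ∃ r, t v = r + 1 := ⟨t v - 1, by omega⟩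
      rw [hr, Function.iterate_succ_apply] at h
      rw [hr, Nat.add_sub_cancel]
      exact h
  · rintro ⟨hNv, h⟩
    refine ⟨hNv, ?_⟩
    rcases h with ⟨h0, h1⟩ | ⟨h0, -, h1⟩
    · rw [h0]; exact h1
    · obtain ⟨r, hr⟩ : ∃ r, t v = r + 1 := ⟨t v - 1, by omega⟩
      rw [hr, Nat.add_sub_cancel] at h1
      rw [hr, Function.iterate_succ_apply]
      exact h1

end Pool.Agent.PTr
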