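import Mathlib
import Pool.Agent.PTr.Orbit2

/-!
# Birkhoff sums of piecewise translations, and piecewise isometries, of an interval
-/

set_option autoImplicit false

namespace Pool.Agent.PTr

open Finset Function Pool.Agent.Grz Pool.Agent.GAvg

/-- `T` maps neighbours to neighbours, in the same order, off at most `c` places. -/
def CutT (c N : ℕ) (T : ℕ → ℕ) : Prop :=
  ∃ cut : Fin c → ℕ, ∀ u, u + 1 < N → (∀ j, cut j ≠ u + 1) → T (u + 1) = T u + 1

/-- `w` has at most `c` jumps. -/
def CutW (c N : ℕ) (w : ℕ → ℕ) : Prop :=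
  ∃ cut : Fin c → ℕ, ∀ u, u + 1 < N → (∀ j, cut j ≠ u + 1) → w (u + 1) = w u

/-- The Birkhoff sum. -/
def bsum (w T : ℕ → ℕ) (x t : ℕ) : ℕ := ∑ j ∈ range t, w (T^[j] x)

theorem bsum_succ (w T : ℕ → ℕ) (x t : ℕ) : bsum w T x (t + 1) = bsum w T (T x) t + w x := by
  unfold bsum
  rw [sum_range_succ']
  rfl

theorem bsum_mono (w T : ℕ → ℕ) (x : ℕ) {s t : ℕ} (h : s ≤ t) : bsum w T x s ≤ bsum w T x t :=
  sum_le_sum_of_subset (range_subset_range.mpr h)

theorem bsum_mul (m : ℕ) (w T : ℕ → ℕ) (x t : ℕ) :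
    bsum (fun u => m * w u) T x t = m * bsum w T x t := by
  unfold bsum
  rw [mul_sum]

/-! ### Towers -/

/-- The tower over `T` with heights `w`. -/
def tower (N : ℕ) (w T : ℕ → ℕ) (z : ℕ) : ℕ :=
  if z < N then (if w z = 0 then T z else z + w z * N)
  else if z < 2 * N then T (z - N) else z - N

theorem tower_lt {N W : ℕ} {w T : ℕ → ℕ} (hT : ∀ u, u < N → T u < N) (hw : ∀ u, u < N → w u ≤ W)
    (z : ℕ) (hz : z < N * (W + 1)) : tower N w T z < N * (W + 1) := by
  have hN : N ≤ N * (W + 1) := Nat.le_mul_of_pos_right _ (Nat.succ_pos _)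
  unfold tower
  split_ifs with h1 h2 h3
  · exact (hT z h1).trans_le hN
  · have h4 := Nat.mul_le_mul_right N (hw z h1)
    have h5 : N * (W + 1) = W * N + N := by ring
    omega
  · exact (hT _ (by omega)).trans_le hN
  · omega

theorem tower_cut {c d N W : ℕ} {w T : ℕ → ℕ} (hT : CutT c N T) (hw : CutW d N w) :
    CutT (c + c + d + 2) (N * (W + 1)) (tower N w T) := by
  obtain ⟨p, hp⟩ := hT
  obtain ⟨q, hq⟩ := hw
  refine ⟨Fin.append (Fin.append (Fin.append p (fun j => p j + N)) q) ![N, 2 * N],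
    fun u _ hu => ?_⟩
  have h1 : ∀ j, p j ≠ u + 1 := fun j => by
    have h := hu (Fin.castAdd 2 (Fin.castAdd d (Fin.castAdd c j)))
    rwa [Fin.append_left, Fin.append_left, Fin.append_left] at h
  have h2 : ∀ j, p j + N ≠ u + 1 := fun j => by
    have h := hu (Fin.castAdd 2 (Fin.castAdd d (Fin.natAdd c j)))
    rwa [Fin.append_left, Fin.append_left, Fin.append_right] at h
  have h3 : ∀ j, q j ≠ u + 1 := fun j => by
    have h := hu (Fin.castAdd 2 (Fin.natAdd (c + c) j))
    rwa [Fin.append_left, Fin.append_right] at h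
  have h4 : N ≠ u + 1 := by
    have h := hu (Fin.natAdd (c + c + d) 0)
    rwa [Fin.append_right] at h
  have h5 : 2 * N ≠ u + 1 := by
    have h := hu (Fin.natAdd (c + c + d) 1)
    rwa [Fin.append_right] at h
  unfold tower
  rcases Nat.lt_or_ge (u + 1) N with h6 | h6
  · rw [if_pos h6, if_pos (show u < N by omega), hq u h6 h3]
    by_cases h7 : w u = 0
    · rw [if_pos h7, if_pos h7, hp u h6 h1]
    · rw [if_neg h7, if_neg h7]
      omega
  · rw [if_neg (show ¬ u + 1 < N by omega), if_neg (show ¬ u < N by omega)]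
    rcases Nat.lt_or_ge (u + 1) (2 * N) with h7 | h7
    · rw [if_pos h7, if_pos (show u < 2 * N by omega), show u + 1 - N = (u - N) + 1 from by omega]
      exact hp (u - N) (by omega) fun j hj => h2 j (by omega)
    · rw [if_neg (show ¬ u + 1 < 2 * N by omega), if_neg (show ¬ u < 2 * N by omega)]
      omega

theorem tower_down {N : ℕ} {w T : ℕ → ℕ} {x : ℕ} (hx : x < N) :
    ∀ j, (tower N w T)^[j + 1] (x + (j + 1) * N) = T x := by
  intro j
  induction j with
  | zero =>
    rw [Nat.zero_add, iterate_one, Nat.one_mul]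
    unfold tower
    rw [if_neg (by omega), if_pos (by omega), Nat.add_sub_cancel]
  | succ j ih =>
    rw [iterate_succ_apply]
    have h1 : tower N w T (x + (j + 1 + 1) * N) = x + (j + 1) * N := by
      have h2 : (j + 1 + 1) * N = (j + 1) * N + N := by ring
      have h3 : (j + 1) * N = j * N + N := by ring
      unfold tower
      rw [if_neg (by omega), if_neg (by omega)]
      omega
    rw [h1]
    exact ih

theorem tower_ret {N : ℕ} {w T : ℕ → ℕ} {x : ℕ} (hx : x < N) :
    (tower N w T)^[w x + 1] x = T x := by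
  rcases Nat.eq_zero_or_pos (w x) with h | h
  · rw [h, Nat.zero_add, iterate_one]
    unfold tower
    rw [if_pos hx, if_pos h]
  · obtain ⟨j, hj⟩ : ∃ j, w x = j + 1 := ⟨w x - 1, by omega⟩
    rw [iterate_succ_apply]
    have h1 : tower N w T x = x + (j + 1) * N := by
      unfold tower
      rw [if_pos hx, if_neg (by omega), hj]
    rw [h1, hj]
    exact tower_down hx j

theorem tower_mid {N : ℕ} {w T : ℕ → ℕ} {x : ℕ} (hx : x < N) :
    ∀ i j, i ≤ j → (tower N w T)^[i] (x + (j + 1) * N) = x + (j - i + 1) * N := by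
  intro i
  induction i with
  | zero => intro j _; rfl
  | succ i ih =>
    intro j hij
    rw [iterate_succ_apply]
    obtain ⟨j, rfl⟩ : ∃ k, j = k + 1 := ⟨j - 1, by omega⟩
    have h1 : tower N w T (x + (j + 1 + 1) * N) = x + (j + 1) * N := by
      have h2 : (j + 1 + 1) * N = (j + 1) * N + N := by ring
      have h3 : (j + 1) * N = j * N + N := by ring
      unfold tower
      rw [if_neg (by omega), if_neg (by omega)]
      omega
    rw [h1, ih j (by omega), show j + 1 - (i + 1) = j - i from by omega]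

theorem tower_up {N : ℕ} {w T : ℕ → ℕ} {x : ℕ} (hx : x < N) {i : ℕ} (hi : i + 1 ≤ w x) :
    N ≤ (tower N w T)^[i + 1] x := by
  obtain ⟨j, hj⟩ : ∃ j, w x = j + 1 := ⟨w x - 1, by omega⟩
  rw [iterate_succ_apply]
  have h1 : tower N w T x = x + (j + 1) * N := by
    unfold tower
    rw [if_pos hx, if_neg (by omega), hj]
  rw [h1, tower_mid hx i j (by omega)]
  have h3 : (j - i + 1) * N = (j - i) * N + N := by ring
  omega

theorem tower_time {N : ℕ} {w T : ℕ → ℕ} (hT : ∀ u, u < N → T u < N) :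
    ∀ t x, x < N → (tower N w T)^[t + bsum w T x t] x = T^[t] x := by
  intro t
  induction t with
  | zero => intro x _; rfl
  | succ t ih =>
    intro x hx
    rw [bsum_succ, show t + 1 + (bsum w T (T x) t + w x) =
      t + bsum w T (T x) t + (w x + 1) from by omega, iterate_add_apply, tower_ret hx,
      ih _ (hT x hx), iterate_succ_apply]

theorem tower_base {N : ℕ} {w T : ℕ → ℕ} (hT : ∀ u, u < N → T u < N) :
    ∀ s x, x < N → (tower N w T)^[s] x < N → ∃ t, s = t + bsum w T x t := by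
  intro s
  induction s using Nat.strong_induction_on with
  | _ s ih =>
    intro x hx hs
    rcases Nat.eq_zero_or_pos s with h0 | h0
    · exact ⟨0, by rw [h0]; rfl⟩
    rcases Nat.lt_or_ge (w x) s with h1 | h1
    · obtain ⟨r, hr⟩ : ∃ r, s = r + (w x + 1) := ⟨s - (w x + 1), by omega⟩
      rw [hr, iterate_add_apply, tower_ret hx] at hs
      obtain ⟨t, ht⟩ := ih r (by omega) (T x) (hT x hx) hs
      refine ⟨t + 1, ?_⟩
      rw [bsum_succ, hr, ht]
      omega
    · obtain ⟨i, rfl⟩ : ∃ i, s = i + 1 := ⟨s - 1, by omega⟩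
      have := tower_up (w := w) (T := T) hx h1
      omega

theorem bsum_iff {N : ℕ} {w T : ℕ → ℕ} (hT : ∀ u, u < N → T u < N) {x : ℕ} (hx : x < N)
    (t S : ℕ) : bsum w T x t = S ↔
      (tower N (fun u => (t + 1) * w u) T)^[t + (t + 1) * S] x < N ∧
      ∀ S₁, S₁ ≤ S → S₁ < S → ¬ (tower N (fun u => (t + 1) * w u) T)^[t + (t + 1) * S₁] x < N := by
  have hit : ∀ k, T^[k] x < N := by
    intro k
    induction k with
    | zero => exact hx
    | succ k ih => rw [iterate_succ_apply']; exact hT _ ih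
  have key : (tower N (fun u => (t + 1) * w u) T)^[t + (t + 1) * bsum w T x t] x < N := by
    have h := tower_time (w := fun u => (t + 1) * w u) hT t x hx
    rw [bsum_mul] at h
    rw [h]
    exact hit t
  have low : ∀ S₁, (tower N (fun u => (t + 1) * w u) T)^[t + (t + 1) * S₁] x < N →
      bsum w T x t ≤ S₁ := by
    intro S₁ h
    obtain ⟨t', ht'⟩ := tower_base (w := fun u => (t + 1) * w u) hT _ x hx h
    rw [bsum_mul] at ht'
    rcases Nat.lt_or_ge t t' with h1 | h1
    · have h2 := bsum_mono w T x h1.le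
      by_contra h3
      rw [not_le] at h3
      have h4 : (t + 1) * S₁ ≤ (t + 1) * bsum w T x t' :=
        Nat.mul_le_mul_left _ (by omega)
      omega
    · have h2 : (t + (t + 1) * S₁) % (t + 1) = (t' + (t + 1) * bsum w T x t') % (t + 1) := by
        rw [ht']
      rw [Nat.add_mul_mod_self_left, Nat.add_mul_mod_self_left, Nat.mod_eq_of_lt (by omega),
        Nat.mod_eq_of_lt (by omega)] at h2
      subst h2
      have h3 : (t + 1) * S₁ = (t + 1) * bsum w T x t := by omega
      exact (Nat.eq_of_mul_eq_mul_left (Nat.succ_pos t) h3).ge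
  constructor
  · rintro rfl
    exact ⟨key, fun S₁ _ h1 h2 => absurd (low S₁ h2) (by omega)⟩
  · rintro ⟨h1, h2⟩
    have h3 := low S h1
    by_contra h4
    exact h2 _ h3 (by omega) key

/-! ### Birkhoff sums are definable -/

theorem base_delta0 (c : ℕ) {n : ℕ} {N N' x s : (Fin n → ℕ) → ℕ} {F : ℕ → (Fin n → ℕ) → ℕ}
    (hN : DFun n N) (hN' : DFun n N') (hx : DFun n x) (hs : DFun n s)
    (hF : DFun (n + 1) (fun w => F (w 0) (fun i => w i.succ)))
    (hFN : ∀ v u, u < N' v → F u v < N' v) (hcut : ∀ v, CutT c (N' v) (fun u => F u v)) :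
    Delta0 n (fun v => x v < N' v ∧ (fun u => F u v)^[s v] (x v) < N v) := by
  have hF1 : DFun (n + 1 + 1) (fun w => F (w 0) (fun i => w i.succ.succ)) :=
    DFun.app hF (u := fun w : Fin (n + 2) → ℕ => w 0) (v := fun i w => w i.succ.succ)
      (DFun.proj 0) (fun i => DFun.proj _)
  have h1 := orbit_delta0 c (n := n + 1) (N := fun w => N' (fun i => w i.succ))
    (x := fun w => x (fun i => w i.succ)) (y := fun w => w 0)
    (t := fun w => s (fun i => w i.succ)) (T := fun u w => F u (fun i => w i.succ))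
    hN'.weak hx.weak (DFun.proj 0) hs.weak hF1 (fun v => hFN _) (fun v => hcut _)
  have h2 := Delta0.bexFun hN (P := fun y v => (x v < N' v ∧
    (fun u => F u v)^[s v] (x v) = y) ∧ y < N v)
    (h1.and (Delta0.ltFun (DFun.proj 0) hN.weak))
  refine h2.of_iff fun v => ?_
  constructor
  · rintro ⟨h3, h4⟩
    exact ⟨_, h4.le, ⟨h3, rfl⟩, h4⟩
  · rintro ⟨y, -, ⟨h3, h4⟩, h5⟩
    refine ⟨h3, ?_⟩
    rw [h4]
    exact h5

theorem DFun.tower {n : ℕ} {N z : (Fin n → ℕ) → ℕ} {w T : ℕ → (Fin n → ℕ) → ℕ}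
    (hN : DFun n N) (hz : DFun n z)
    (hT : DFun (n + 1) (fun w => T (w 0) (fun i => w i.succ)))
    (hw : DFun (n + 1) (fun v => w (v 0) (fun i => v i.succ))) :
    DFun n (fun v => tower (N v) (fun u => w u v) (fun u => T u v) (z v)) := by
  have h1 : DFun n (fun v => w (z v) v) := DFun.app hw hz fun i => DFun.proj i
  have h2 : DFun n (fun v => T (z v) v) := DFun.app hT hz fun i => DFun.proj i
  have h3 : DFun n (fun v => T (z v - N v) v) := DFun.app hT (hz.sub hN) fun i => DFun.proj i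
  exact DFun.ite (Delta0.ltFun hz hN) (DFun.ite (Delta0.eqFun h1 (DFun.const 0)) h2
    (hz.add (h1.mul hN))) (DFun.ite (Delta0.ltFun hz ((DFun.const 2).mul hN)) h3 (hz.sub hN))

/-- Orbits and Birkhoff sums of piecewise translations of an interval are definable by bounded
formulas. -/
theorem birk_delta0 (c d : ℕ) {n : ℕ} {N x y t S : (Fin n → ℕ) → ℕ}
    {T w : ℕ → (Fin n → ℕ) → ℕ}
    (hN : DFun n N) (hx : DFun n x) (hy : DFun n y) (ht : DFun n t) (hS : DFun n S)
    (hT : DFun (n + 1) (fun v => T (v 0) (fun i => v i.succ)))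
    (hw : DFun (n + 1) (fun v => w (v 0) (fun i => v i.succ)))
    (hTN : ∀ v u, u < N v → T u v < N v)
    (hcut : ∀ v, CutT c (N v) (fun u => T u v)) (hcutw : ∀ v, CutW d (N v) (fun u => w u v)) :
    Delta0 n (fun v => x v < N v ∧ (fun u => T u v)^[t v] (x v) = y v ∧
      bsum (fun u => w u v) (fun u => T u v) (x v) (t v) = S v) := by
  obtain ⟨p, hp⟩ := hw.bound
  set W : (Fin n → ℕ) → ℕ := fun v => (t v + 1) *
    MvPolynomial.eval (fun i => (Fin.cons N (fun i v => v i) : Fin (n + 1) →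
      (Fin n → ℕ) → ℕ) i v) p with hWdef
  have hW : DFun n W := (ht.add (DFun.const 1)).mul (DFun.evalPoly p (fun i => by
    refine Fin.cases ?_ (fun i => ?_) i
    · exact hN
    · exact DFun.proj i))
  have hwW : ∀ v u, u < N v → (t v + 1) * w u v ≤ W v := by
    intro v u hu
    refine Nat.mul_le_mul_left _ ?_
    have h1 := hp (Fin.cons u v)
    refine h1.trans (eval_mono p fun i => ?_)
    refine Fin.cases ?_ (fun i => ?_) i
    · exact hu.le
    · exact le_rfl
  have hN' : DFun n (fun v => N v * (W v + 1)) := hN.mul (hW.add (DFun.const 1))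
  -- the relation with the time as an extra variable
  have hbase : ∀ {s : (Fin (n + 1) → ℕ) → ℕ}, DFun (n + 1) s →
      Delta0 (n + 1) (fun v => x (fun i => v i.succ) <
          N (fun i => v i.succ) * (W (fun i => v i.succ) + 1) ∧
        (tower (N (fun i => v i.succ)) (fun u => (t (fun i => v i.succ) + 1) *
          w u (fun i => v i.succ)) (fun u => T u (fun i => v i.succ)))^[s v]
            (x (fun i => v i.succ)) < N (fun i => v i.succ)) := by
    intro s hs
    have hT2 : DFun (n + 1 + 1 + 1) (fun v => T (v 0) (fun i => v i.succ.succ.succ)) :=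
      DFun.app hT (u := fun v : Fin (n + 3) → ℕ => v 0) (v := fun i v => v i.succ.succ.succ)
        (DFun.proj 0) (fun i => DFun.proj _)
    have hw2 : DFun (n + 1 + 1 + 1) (fun v => (t (fun i => v i.succ.succ.succ) + 1) *
        w (v 0) (fun i => v i.succ.succ.succ)) :=
      ((ht.weak.weak.weak).add (DFun.const 1)).mul
        (DFun.app hw (u := fun v : Fin (n + 3) → ℕ => v 0) (v := fun i v => v i.succ.succ.succ)
          (DFun.proj 0) (fun i => DFun.proj _))
    refine base_delta0 (c + c + d + 2) (n := n + 1) (N := fun v => N (fun i => v i.succ))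
      (N' := fun v => N (fun i => v i.succ) * (W (fun i => v i.succ) + 1))
      (x := fun v => x (fun i => v i.succ)) (s := s)
      (F := fun u v => tower (N (fun i => v i.succ)) (fun u => (t (fun i => v i.succ) + 1) *
          w u (fun i => v i.succ)) (fun u => T u (fun i => v i.succ)) u)
      hN.weak hN'.weak hx.weak hs ?_ (fun v u hu => ?_) (fun v => ?_)
    · exact DFun.tower (N := fun v => N (fun i => v i.succ.succ)) (z := fun v => v 0)
        (w := fun u v => (t (fun i => v i.succ.succ) + 1) * w u (fun i => v i.succ.succ))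
        (T := fun u v => T u (fun i => v i.succ.succ)) hN.weak.weak (DFun.proj 0) hT2 hw2
    · exact tower_lt (hTN _) (hwW _) u hu
    · refine tower_cut (hcut _) ?_
      obtain ⟨q, hq⟩ := hcutw (fun i => v i.succ)
      refine ⟨q, fun u hu hj => ?_⟩
      show (t _ + 1) * w (u + 1) _ = (t _ + 1) * w u _
      have h1 : w (u + 1) (fun i => v i.succ) = w u (fun i => v i.succ) := hq u hu hj
      rw [h1]
  have hall : Delta0 n (fun v => ∀ S₁, S₁ ≤ S v → (S₁ < S v →
      ¬ (x v < N v * (W v + 1) ∧ (tower (N v) (fun u => (t v + 1) * w u v)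
        (fun u => T u v))^[t v + (t v + 1) * S₁] (x v) < N v))) :=
    Delta0.ballFun hS (P := fun S₁ v => S₁ < S v →
      ¬ (x v < N v * (W v + 1) ∧ (tower (N v) (fun u => (t v + 1) * w u v)
        (fun u => T u v))^[t v + (t v + 1) * S₁] (x v) < N v))
      (Delta0.imp (Delta0.ltFun (DFun.proj 0) hS.weak)
        (hbase (ht.weak.add ((ht.weak.add (DFun.const 1)).mul (DFun.proj 0)))).not)
  have hex : Delta0 n (fun v => ∃ S₁, S₁ ≤ S v ∧ (S₁ = S v ∧
      (x v < N v * (W v + 1) ∧ (tower (N v) (fun u => (t v + 1) * w u v)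
        (fun u => T u v))^[t v + (t v + 1) * S₁] (x v) < N v))) :=
    Delta0.bexFun hS (P := fun S₁ v => S₁ = S v ∧
      (x v < N v * (W v + 1) ∧ (tower (N v) (fun u => (t v + 1) * w u v)
        (fun u => T u v))^[t v + (t v + 1) * S₁] (x v) < N v))
      ((Delta0.eqFun (DFun.proj 0) hS.weak).and
        (hbase (ht.weak.add ((ht.weak.add (DFun.const 1)).mul (DFun.proj 0)))))
  refine ((orbit_delta0 c hN hx hy ht hT hTN hcut).and (hex.and hall)).of_iff fun v => ?_
  have hle : N v ≤ N v * (W v + 1) := Nat.le_mul_of_pos_right _ (Nat.succ_pos _)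
  constructor
  · rintro ⟨h1, h2, h3⟩
    rw [bsum_iff (hTN v) h1] at h3
    exact ⟨⟨h1, h2⟩, ⟨S v, le_rfl, rfl, by omega, h3.1⟩, fun S₁ h4 h5 h6 => h3.2 S₁ h4 h5 h6.2⟩
  · rintro ⟨⟨h1, h2⟩, ⟨S₁, -, rfl, h4⟩, h5⟩
    refine ⟨h1, h2, (bsum_iff (hTN v) h1 _ _).mpr ⟨h4.2, fun S₁ h6 h7 h8 =>
      h5 S₁ h6 h7 ⟨by omega, h8⟩⟩⟩

end Pool.Agent.PTr
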