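import Mathlib
import Pool.Agent.PTr.Birk

/-!
# Orbits and Birkhoff sums of piecewise affine maps with slopes `-1`, `0`, `1` of an interval
-/

set_option autoImplicit false

namespace Pool.Agent.PTr

open Finset Function Pool.Agent.Grz Pool.Agent.GAvg

/-- `T` is affine with slope `1` or `-1` on all but `c` triples of neighbours. -/
def CutI (c N : ℕ) (T : ℕ → ℕ) : Prop :=
  ∃ cut : Fin c → ℕ, ∀ u, u + 2 < N → (∀ j, cut j ≠ u) →
    (T (u + 1) = T u + 1 ∧ T (u + 2) = T u + 2) ∨ (T u = T (u + 1) + 1 ∧ T u = T (u + 2) + 2)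

/-- `T` is affine with slope `1`, `-1` or `0` on all but `c` triples of neighbours. -/
def CutA (c N : ℕ) (T : ℕ → ℕ) : Prop :=
  ∃ cut : Fin c → ℕ, ∀ u, u + 2 < N → (∀ j, cut j ≠ u) →
    (T (u + 1) = T u + 1 ∧ T (u + 2) = T u + 2) ∨
    (T u = T (u + 1) + 1 ∧ T u = T (u + 2) + 2) ∨ (T (u + 1) = T u ∧ T (u + 2) = T u)

/-! ### The double cover -/

/-- The projection of the double cover. -/
def fld (N z : ℕ) : ℕ := if z < N then z else 2 * N - 1 - z

/-- The lift of `T` to the double cover. -/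
def dbl (N : ℕ) (T : ℕ → ℕ) (z : ℕ) : ℕ :=
  if z < N then (if T z = T (z + 1) + 1 then 2 * N - 1 - T z else T z)
  else (if T (2 * N - 1 - z) = T (2 * N - 1 - z + 1) + 1 then T (2 * N - 1 - z)
    else 2 * N - 1 - T (2 * N - 1 - z))

theorem dbl_lt {N : ℕ} {T : ℕ → ℕ} (hT : ∀ u, u < N → T u < N) (z : ℕ) (hz : z < 2 * N) :
    dbl N T z < 2 * N := by
  unfold dbl
  split_ifs with h1 h2 h3
  · omega
  · have := hT z h1
    omega
  · have := hT (2 * N - 1 - z) (by omega)
    omega
  · omega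

theorem fld_dbl {N : ℕ} {T : ℕ → ℕ} (hT : ∀ u, u < N → T u < N) (z : ℕ) (hz : z < 2 * N) :
    fld N (dbl N T z) = T (fld N z) := by
  unfold dbl fld
  by_cases h1 : z < N
  · have h2 := hT z h1
    rw [if_pos h1, if_pos h1]
    by_cases h3 : T z = T (z + 1) + 1
    · rw [if_pos h3, if_neg (by omega)]
      omega
    · rw [if_neg h3, if_pos h2]
  · have h2 := hT (2 * N - 1 - z) (by omega)
    rw [if_neg h1, if_neg h1]
    by_cases h3 : T (2 * N - 1 - z) = T (2 * N - 1 - z + 1) + 1
    · rw [if_pos h3, if_pos h2]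
    · rw [if_neg h3, if_neg (by omega)]
      omega

theorem dbl_cut {c N : ℕ} {T : ℕ → ℕ} (hTN : ∀ u, u < N → T u < N) (hT : CutI c N T) :
    CutT (c + c + 3) (2 * N) (dbl N T) := by
  obtain ⟨p, hp⟩ := hT
  refine ⟨Fin.append (Fin.append (fun j => p j + 1) (fun j => 2 * N - 1 - p j))
    ![N - 1, N, N + 1], fun u hu hcut => ?_⟩
  have h1 : ∀ j, p j ≠ u := fun j => by
    have h := hcut (Fin.castAdd 3 (Fin.castAdd c j))
    rw [Fin.append_left, Fin.append_left] at h
    omega
  have h2 : ∀ j, 2 * N - 1 - p j ≠ u + 1 := fun j => by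
    have h := hcut (Fin.castAdd 3 (Fin.natAdd c j))
    rwa [Fin.append_left, Fin.append_right] at h
  have h3 : N - 1 ≠ u + 1 := by
    have h := hcut (Fin.natAdd (c + c) 0)
    rwa [Fin.append_right] at h
  have h4 : N ≠ u + 1 := by
    have h := hcut (Fin.natAdd (c + c) 1)
    rwa [Fin.append_right] at h
  have h5 : N + 1 ≠ u + 1 := by
    have h := hcut (Fin.natAdd (c + c) 2)
    rwa [Fin.append_right] at h
  unfold dbl
  rcases Nat.lt_or_ge (u + 1) N with h6 | h6
  · have h7 := hTN u (by omega)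
    rw [if_pos h6, if_pos (show u < N by omega)]
    rcases hp u (by omega) h1 with h8 | h8
    · rw [if_neg (show ¬ T (u + 1) = T (u + 2) + 1 by omega),
        if_neg (show ¬ T u = T (u + 1) + 1 by omega)]
      exact h8.1
    · rw [if_pos (show T (u + 1) = T (u + 2) + 1 by omega), if_pos h8.1]
      omega
  · rw [if_neg (show ¬ u + 1 < N by omega), if_neg (show ¬ u < N by omega)]
    obtain ⟨q, hq⟩ : ∃ q, 2 * N - 1 - (u + 1) = q := ⟨_, rfl⟩
    have hq' : 2 * N - 1 - u = q + 1 := by omega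
    have h7 := hTN q (by omega)
    rw [hq, hq']
    rcases hp q (by omega) fun j hj => h2 j (by omega) with h8 | h8
    · have h9 : ¬ T q = T (q + 1) + 1 := by omega
      have h10 : ¬ T (q + 1) = T (q + 1 + 1) + 1 := by
        have : T (q + 1 + 1) = T q + 2 := h8.2
        omega
      rw [if_neg h9, if_neg h10]
      have h11 := hTN (q + 1) (by omega)
      omega
    · have h10 : T (q + 1) = T (q + 1 + 1) + 1 := by
        have : T q = T (q + 1 + 1) + 2 := h8.2
        omega
      rw [if_pos h8.1, if_pos h10]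
      exact h8.1

theorem fld_cut {d N : ℕ} {w : ℕ → ℕ} (hw : CutW d N w) :
    CutW (d + d + 1) (2 * N) (fun z => w (fld N z)) := by
  obtain ⟨q, hq⟩ := hw
  refine ⟨Fin.append (Fin.append q (fun j => 2 * N - q j)) ![N], fun u hu hcut => ?_⟩
  have h1 : ∀ j, q j ≠ u + 1 := fun j => by
    have h := hcut (Fin.castAdd 1 (Fin.castAdd d j))
    rwa [Fin.append_left, Fin.append_left] at h
  have h2 : ∀ j, 2 * N - q j ≠ u + 1 := fun j => by
    have h := hcut (Fin.castAdd 1 (Fin.natAdd d j))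
    rwa [Fin.append_left, Fin.append_right] at h
  have h4 : N ≠ u + 1 := by
    have h := hcut (Fin.natAdd (d + d) 0)
    rwa [Fin.append_right] at h
  show w (fld N (u + 1)) = w (fld N u)
  unfold fld
  rcases Nat.lt_or_ge (u + 1) N with h6 | h6
  · rw [if_pos h6, if_pos (show u < N by omega)]
    exact hq u h6 h1
  · rw [if_neg (show ¬ u + 1 < N by omega), if_neg (show ¬ u < N by omega)]
    have h7 : 2 * N - 1 - u = 2 * N - 1 - (u + 1) + 1 := by omega
    rw [h7]
    exact (hq _ (by omega) fun j hj => h2 j (by omega)).symm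

theorem fld_iter {N : ℕ} {T : ℕ → ℕ} (hT : ∀ u, u < N → T u < N) (x : ℕ) (hx : x < N) :
    ∀ t, (dbl N T)^[t] x < 2 * N ∧ fld N ((dbl N T)^[t] x) = T^[t] x := by
  intro t
  induction t with
  | zero =>
    refine ⟨show x < 2 * N by omega, ?_⟩
    show fld N x = x
    rw [fld, if_pos hx]
  | succ t ih =>
    rw [iterate_succ_apply', iterate_succ_apply']
    exact ⟨dbl_lt hT _ ih.1, by rw [fld_dbl hT _ ih.1, ih.2]⟩

theorem fld_bsum {N : ℕ} {w T : ℕ → ℕ} (hT : ∀ u, u < N → T u < N) (x : ℕ) (hx : x < N) (t : ℕ) :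
    bsum (fun z => w (fld N z)) (dbl N T) x t = bsum w T x t := by
  unfold bsum
  refine sum_congr rfl fun j _ => ?_
  show w (fld N ((dbl N T)^[j] x)) = _
  rw [(fld_iter hT x hx j).2]

theorem iter_lt {N : ℕ} {T : ℕ → ℕ} (hT : ∀ u, u < N → T u < N) (x : ℕ) (hx : x < N) :
    ∀ t, T^[t] x < N := by
  intro t
  induction t with
  | zero => exact hx
  | succ t ih => rw [iterate_succ_apply']; exact hT _ ih

theorem DFun.fld {n : ℕ} {N z : (Fin n → ℕ) → ℕ} (hN : DFun n N) (hz : DFun n z) :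
    DFun n (fun v => fld (N v) (z v)) :=
  DFun.ite (Delta0.ltFun hz hN) hz ((((DFun.const 2).mul hN).sub (DFun.const 1)).sub hz)

theorem DFun.dbl {n : ℕ} {N z : (Fin n → ℕ) → ℕ} {T : ℕ → (Fin n → ℕ) → ℕ}
    (hN : DFun n N) (hz : DFun n z)
    (hT : DFun (n + 1) (fun w => T (w 0) (fun i => w i.succ))) :
    DFun n (fun v => dbl (N v) (fun u => T u v) (z v)) := by
  have h0 : DFun n (fun v => 2 * N v - 1 - z v) :=
    (((DFun.const 2).mul hN).sub (DFun.const 1)).sub hz
  have h1 : DFun n (fun v => T (z v) v) := DFun.app hT hz fun i => DFun.proj i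
  have h2 : DFun n (fun v => T (z v + 1) v) :=
    DFun.app hT (hz.add (DFun.const 1)) fun i => DFun.proj i
  have h3 : DFun n (fun v => T (2 * N v - 1 - z v) v) := DFun.app hT h0 fun i => DFun.proj i
  have h4 : DFun n (fun v => T (2 * N v - 1 - z v + 1) v) :=
    DFun.app hT (h0.add (DFun.const 1)) fun i => DFun.proj i
  exact DFun.ite (Delta0.ltFun hz hN)
    (DFun.ite (Delta0.eqFun h1 (h2.add (DFun.const 1)))
      ((((DFun.const 2).mul hN).sub (DFun.const 1)).sub h1) h1)
    (DFun.ite (Delta0.eqFun h3 (h4.add (DFun.const 1))) h3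
      ((((DFun.const 2).mul hN).sub (DFun.const 1)).sub h3))

/-- Orbits and Birkhoff sums of piecewise isometries of an interval are definable by bounded
formulas. -/
theorem isom_delta0 (c d : ℕ) {n : ℕ} {N x y t S : (Fin n → ℕ) → ℕ}
    {T w : ℕ → (Fin n → ℕ) → ℕ}
    (hN : DFun n N) (hx : DFun n x) (hy : DFun n y) (ht : DFun n t) (hS : DFun n S)
    (hT : DFun (n + 1) (fun v => T (v 0) (fun i => v i.succ)))
    (hw : DFun (n + 1) (fun v => w (v 0) (fun i => v i.succ)))
    (hTN : ∀ v u, u < N v → T u v < N v)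
    (hcut : ∀ v, CutI c (N v) (fun u => T u v)) (hcutw : ∀ v, CutW d (N v) (fun u => w u v)) :
    Delta0 n (fun v => x v < N v ∧ (fun u => T u v)^[t v] (x v) = y v ∧
      bsum (fun u => w u v) (fun u => T u v) (x v) (t v) = S v) := by
  have hN' : DFun n (fun v => 2 * N v) := (DFun.const 2).mul hN
  have hT1 : DFun (n + 1 + 1) (fun v => T (v 0) (fun i => v i.succ.succ)) :=
    DFun.app hT (u := fun w : Fin (n + 2) → ℕ => w 0) (v := fun i w => w i.succ.succ)
      (DFun.proj 0) (fun i => DFun.proj _)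
  have hD : DFun (n + 1) (fun v => dbl (N (fun i => v i.succ))
      (fun u => T u (fun i => v i.succ)) (v 0)) :=
    DFun.dbl (N := fun v => N (fun i => v i.succ)) (z := fun v => v 0)
      (T := fun u v => T u (fun i => v i.succ)) hN.weak (DFun.proj 0) hT1
  have hW : DFun (n + 1) (fun v => w (fld (N (fun i => v i.succ)) (v 0))
      (fun i => v i.succ)) :=
    DFun.app hw (DFun.fld hN.weak (DFun.proj 0)) fun i => DFun.proj _
  have main : ∀ {z : (Fin n → ℕ) → ℕ}, DFun n z → Delta0 n (fun v => x v < 2 * N v ∧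
      (dbl (N v) (fun u => T u v))^[t v] (x v) = z v ∧
      bsum (fun z => w (fld (N v) z) v) (dbl (N v) (fun u => T u v)) (x v) (t v) = S v) :=
    fun hz => birk_delta0 (c + c + 3) (d + d + 1) (T := fun u v => dbl (N v) (fun u => T u v) u)
      (w := fun u v => w (fld (N v) u) v) hN' hx hz ht hS hD hW
      (fun v u hu => dbl_lt (hTN v) u hu) (fun v => dbl_cut (hTN v) (hcut v))
      (fun v => fld_cut (hcutw v))
  refine (((Delta0.ltFun hx hN).and (Delta0.ltFun hy hN)).and ((main hy).or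
    (main ((hN'.sub (DFun.const 1)).sub hy)))).of_iff fun v => ?_
  have hb : ∀ (h : x v < N v), bsum (fun z => w (fld (N v) z) v)
      (dbl (N v) (fun u => T u v)) (x v) (t v) =
      bsum (fun u => w u v) (fun u => T u v) (x v) (t v) := fun h =>
    fld_bsum (w := fun u => w u v) (hTN v) (x v) h (t v)
  constructor
  · rintro ⟨h1, h2, h3⟩
    obtain ⟨h4, h5⟩ := fld_iter (hTN v) (x v) h1 (t v)
    have h6 : y v < N v := by
      rw [← h2]
      exact iter_lt (hTN v) (x v) h1 (t v)
    refine ⟨⟨h1, h6⟩, ?_⟩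
    rw [hb h1]
    rw [h2] at h5
    unfold fld at h5
    by_cases h7 : (dbl (N v) (fun u => T u v))^[t v] (x v) < N v
    · rw [if_pos h7] at h5
      exact Or.inl ⟨by omega, h5, h3⟩
    · rw [if_neg h7] at h5
      exact Or.inr ⟨by omega, by omega, h3⟩
  · rintro ⟨⟨h1, h6⟩, h2⟩
    obtain ⟨h4, h5⟩ := fld_iter (hTN v) (x v) h1 (t v)
    rw [hb h1] at h2
    refine ⟨h1, ?_⟩
    rcases h2 with ⟨-, h7, h8⟩ | ⟨-, h7, h8⟩
    · refine ⟨?_, h8⟩
      rw [← h5, h7, fld, if_pos h6]
    · refine ⟨?_, h8⟩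
      rw [← h5, h7, fld, if_neg (by omega)]
      omega

/-! ### Constant pieces -/

/-- The slide: on level `1` (numbers `≥ N`) one moves down while the value of `T` is the same. -/
def sld (N : ℕ) (T : ℕ → ℕ) (z : ℕ) : ℕ :=
  if z < N then (if T (z + 1) = T z then z + N else T z)
  else (if N < z ∧ T (z - N - 1) = T (z - N) then z - 1 else T (z - N))

theorem sld_lt {N : ℕ} {T : ℕ → ℕ} (hT : ∀ u, u < N → T u < N) (z : ℕ) (hz : z < 2 * N) :
    sld N T z < 2 * N := by
  unfold sld
  split_ifs with h1 h2 h3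
  · omega
  · have := hT z h1
    omega
  · omega
  · have := hT (z - N) (by omega)
    omega

theorem sld_cut {c N : ℕ} {T : ℕ → ℕ} (hT : CutA c N T) :
    CutI (c + c + (c + c) + 4) (2 * N) (sld N T) := by
  obtain ⟨p, hp⟩ := hT
  refine ⟨Fin.append (Fin.append (Fin.append p (fun j => p j - 1))
    (Fin.append (fun j => p j + N) (fun j => p j + 1 + N)))
    ![N - 3, N - 2, N - 1, N], fun u hu hcut => ?_⟩
  have h1 : ∀ j, p j ≠ u := fun j => by
    have h := hcut (Fin.castAdd 4 (Fin.castAdd (c + c) (Fin.castAdd c j)))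
    rwa [Fin.append_left, Fin.append_left, Fin.append_left] at h
  have h2 : ∀ j, p j ≠ u + 1 := fun j => by
    have h := hcut (Fin.castAdd 4 (Fin.castAdd (c + c) (Fin.natAdd c j)))
    rw [Fin.append_left, Fin.append_left, Fin.append_right] at h
    omega
  have h3 : ∀ j, p j + N ≠ u := fun j => by
    have h := hcut (Fin.castAdd 4 (Fin.natAdd (c + c) (Fin.castAdd c j)))
    rwa [Fin.append_left, Fin.append_right, Fin.append_left] at h
  have h4 : ∀ j, p j + 1 + N ≠ u := fun j => by
    have h := hcut (Fin.castAdd 4 (Fin.natAdd (c + c) (Fin.natAdd c j)))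
    rwa [Fin.append_left, Fin.append_right, Fin.append_right] at h
  have h5 : N - 3 ≠ u := by
    have h := hcut (Fin.natAdd (c + c + (c + c)) 0)
    rwa [Fin.append_right] at h
  have h6 : N - 2 ≠ u := by
    have h := hcut (Fin.natAdd (c + c + (c + c)) 1)
    rwa [Fin.append_right] at h
  have h7 : N - 1 ≠ u := by
    have h := hcut (Fin.natAdd (c + c + (c + c)) 2)
    rwa [Fin.append_right] at h
  have h8 : N ≠ u := by
    have h := hcut (Fin.natAdd (c + c + (c + c)) 3)
    rwa [Fin.append_right] at h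
  rcases Nat.lt_or_ge u N with h9 | h9
  · have a1 := hp u (by omega) h1
    have a2 : (T (u + 2) = T (u + 1) + 1 ∧ T (u + 3) = T (u + 1) + 2) ∨
        (T (u + 1) = T (u + 2) + 1 ∧ T (u + 1) = T (u + 3) + 2) ∨
        (T (u + 2) = T (u + 1) ∧ T (u + 3) = T (u + 1)) := hp (u + 1) (by omega) h2
    have e0 : sld N T u = if T (u + 1) = T u then u + N else T u := by
      unfold sld
      rw [if_pos h9]
    have e1 : sld N T (u + 1) = if T (u + 2) = T (u + 1) then u + 1 + N else T (u + 1) := by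
      unfold sld
      rw [if_pos (by omega)]
    have e2 : sld N T (u + 2) = if T (u + 3) = T (u + 2) then u + 2 + N else T (u + 2) := by
      unfold sld
      rw [if_pos (by omega)]
    rw [e0, e1, e2]
    split_ifs <;> omega
  · obtain ⟨q, rfl⟩ : ∃ q, u = q + 1 + N := ⟨u - N - 1, by omega⟩
    have a1 : (T (q + 1) = T q + 1 ∧ T (q + 2) = T q + 2) ∨
        (T q = T (q + 1) + 1 ∧ T q = T (q + 2) + 2) ∨ (T (q + 1) = T q ∧ T (q + 2) = T q) :=
      hp q (by omega) fun j hj => h4 j (by omega)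
    have a2 : (T (q + 2) = T (q + 1) + 1 ∧ T (q + 3) = T (q + 1) + 2) ∨
        (T (q + 1) = T (q + 2) + 1 ∧ T (q + 1) = T (q + 3) + 2) ∨
        (T (q + 2) = T (q + 1) ∧ T (q + 3) = T (q + 1)) :=
      hp (q + 1) (by omega) fun j hj => h3 j (by omega)
    have e0 : sld N T (q + 1 + N) = if T q = T (q + 1) then q + N else T (q + 1) := by
      unfold sld
      rw [if_neg (by omega), show q + 1 + N - N = q + 1 from by omega,
        show q + 1 - 1 = q from rfl, show q + 1 + N - 1 = q + N from by omega]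
      by_cases h : T q = T (q + 1)
      · rw [if_pos ⟨by omega, h⟩, if_pos h]
      · rw [if_neg (fun h' => h h'.2), if_neg h]
    have e1 : sld N T (q + 1 + N + 1) =
        if T (q + 1) = T (q + 2) then q + 1 + N else T (q + 2) := by
      unfold sld
      rw [if_neg (by omega), show q + 1 + N + 1 - N = q + 2 from by omega,
        show q + 2 - 1 = q + 1 from rfl, show q + 1 + N + 1 - 1 = q + 1 + N from by omega]
      by_cases h : T (q + 1) = T (q + 2)
      · rw [if_pos ⟨by omega, h⟩, if_pos h]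
      · rw [if_neg (fun h' => h h'.2), if_neg h]
    have e2 : sld N T (q + 1 + N + 2) =
        if T (q + 2) = T (q + 3) then q + 2 + N else T (q + 3) := by
      unfold sld
      rw [if_neg (by omega), show q + 1 + N + 2 - N = q + 3 from by omega,
        show q + 3 - 1 = q + 2 from rfl, show q + 1 + N + 2 - 1 = q + 2 + N from by omega]
      by_cases h : T (q + 2) = T (q + 3)
      · rw [if_pos ⟨by omega, h⟩, if_pos h]
      · rw [if_neg (fun h' => h h'.2), if_neg h]
    rw [e0, e1, e2]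
    split_ifs <;> omega

/-- The extension of a weight by `0` on level `1`. -/
def ext1 (N : ℕ) (w : ℕ → ℕ) (z : ℕ) : ℕ := if z < N then w z else 0

theorem ext1_cut {d N : ℕ} {w : ℕ → ℕ} (hw : CutW d N w) :
    CutW (d + 1) (2 * N) (ext1 N w) := by
  obtain ⟨q, hq⟩ := hw
  refine ⟨Fin.append q ![N], fun u hu hcut => ?_⟩
  have h1 : ∀ j, q j ≠ u + 1 := fun j => by
    have h := hcut (Fin.castAdd 1 j)
    rwa [Fin.append_left] at h
  have h4 : N ≠ u + 1 := by
    have h := hcut (Fin.natAdd d 0)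
    rwa [Fin.append_right] at h
  unfold ext1
  rcases Nat.lt_or_ge (u + 1) N with h6 | h6
  · rw [if_pos h6, if_pos (show u < N by omega)]
    exact hq u h6 h1
  · rw [if_neg (show ¬ u + 1 < N by omega), if_neg (show ¬ u < N by omega)]

theorem sld_level {N : ℕ} {T : ℕ → ℕ} : ∀ u, u < N → ∃ k, k ≤ u ∧
    (sld N T)^[k + 1] (u + N) = T u ∧
    ∀ w : ℕ → ℕ, bsum (ext1 N w) (sld N T) (u + N) (k + 1) = 0 := by
  intro u
  induction u with
  | zero =>
    intro _
    have e : sld N T (0 + N) = T 0 := by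
      unfold sld
      rw [if_neg (by omega), if_neg (by omega), Nat.zero_add, Nat.sub_self]
    refine ⟨0, le_rfl, e, fun w => ?_⟩
    rw [bsum_succ, ext1, if_neg (by omega)]
    rfl
  | succ u ih =>
    intro hu
    have hext : ∀ w : ℕ → ℕ, ext1 N w (u + 1 + N) = 0 := fun w => by
      rw [ext1, if_neg (by omega)]
    by_cases h : T u = T (u + 1)
    · obtain ⟨k, hk, h1, h2⟩ := ih (by omega)
      have e : sld N T (u + 1 + N) = u + N := by
        unfold sld
        rw [if_neg (by omega), show u + 1 + N - N = u + 1 from by omega,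
          show u + 1 - 1 = u from rfl, if_pos ⟨by omega, h⟩]
        omega
      refine ⟨k + 1, by omega, ?_, fun w => ?_⟩
      · rw [iterate_succ_apply, e, h1, h]
      · rw [bsum_succ, e, h2, hext]
    · have e : sld N T (u + 1 + N) = T (u + 1) := by
        unfold sld
        rw [if_neg (by omega), show u + 1 + N - N = u + 1 from by omega,
          show u + 1 - 1 = u from rfl, if_neg (fun h' => h h'.2)]
      refine ⟨0, Nat.zero_le _, e, fun w => ?_⟩
      rw [bsum_succ, hext]
      rfl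

theorem bsum_add (w T : ℕ → ℕ) (x s t : ℕ) :
    bsum w T x (s + t) = bsum w T (T^[s] x) t + bsum w T x s := by
  induction s generalizing x with
  | zero =>
    rw [Nat.zero_add]
    rfl
  | succ s ih =>
    rw [show s + 1 + t = s + t + 1 from by omega, bsum_succ, bsum_succ, ih, iterate_succ_apply]
    omega

theorem sld_ret {N : ℕ} {T : ℕ → ℕ} {x : ℕ} (hx : x < N) : ∃ r, r ≤ N ∧
    (sld N T)^[r + 1] x = T x ∧
    ∀ w : ℕ → ℕ, bsum (ext1 N w) (sld N T) x (r + 1) = w x := by
  have hext : ∀ w : ℕ → ℕ, ext1 N w x = w x := fun w => by rw [ext1, if_pos hx]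
  by_cases h : T (x + 1) = T x
  · obtain ⟨k, hk, h1, h2⟩ := sld_level (T := T) x hx
    have e : sld N T x = x + N := by
      unfold sld
      rw [if_pos hx, if_pos h]
    refine ⟨k + 1, by omega, ?_, fun w => ?_⟩
    · rw [iterate_succ_apply, e, h1]
    · rw [bsum_succ, e, h2, hext, Nat.zero_add]
  · have e : sld N T x = T x := by
      unfold sld
      rw [if_pos hx, if_neg h]
    refine ⟨0, Nat.zero_le _, e, fun w => ?_⟩
    rw [bsum_succ, hext]
    exact Nat.zero_add _

theorem sld_time {N : ℕ} {T : ℕ → ℕ} (hT : ∀ u, u < N → T u < N) :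
    ∀ t x, x < N → ∃ s, s ≤ (N + 1) * t ∧ (sld N T)^[s] x = T^[t] x ∧
      ∀ w : ℕ → ℕ, bsum (ext1 N w) (sld N T) x s = bsum w T x t := by
  intro t
  induction t with
  | zero => intro x _; exact ⟨0, Nat.zero_le _, rfl, fun _ => rfl⟩
  | succ t ih =>
    intro x hx
    obtain ⟨s, hs, h1, h2⟩ := ih (T x) (hT x hx)
    obtain ⟨r, hr, h4, h5⟩ := sld_ret (T := T) hx
    refine ⟨r + 1 + s, ?_, ?_, fun w => ?_⟩
    · rw [Nat.mul_succ]
      omega
    · rw [Nat.add_comm, iterate_add_apply, h4, h1, iterate_succ_apply]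
    · rw [bsum_add, h4, h2, h5, bsum_succ]

/-- the number of visits to level `0` determines the time of a visit to level `0` -/
theorem sld_inj {N : ℕ} {T : ℕ → ℕ} {x s s' : ℕ} (h : (sld N T)^[s] x < N)
    (h' : (sld N T)^[s'] x < N)
    (he : bsum (ext1 N fun _ => 1) (sld N T) x s = bsum (ext1 N fun _ => 1) (sld N T) x s') :
    s = s' := by
  have key : ∀ {a b : ℕ}, (sld N T)^[a] x < N → a < b →
      bsum (ext1 N fun _ => 1) (sld N T) x a < bsum (ext1 N fun _ => 1) (sld N T) x b := by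
    intro a b ha hab
    refine lt_of_lt_of_le ?_ (bsum_mono _ _ _ (Nat.succ_le_of_lt hab))
    show bsum _ _ _ a < ∑ j ∈ range (a + 1), _
    rw [sum_range_succ, ext1, if_pos ha]
    exact Nat.lt_succ_self _
  rcases Nat.lt_trichotomy s s' with h1 | h1 | h1
  · exact absurd he (key h h1).ne
  · exact h1
  · exact absurd he (key h' h1).ne'

theorem sld_iff {N : ℕ} {T w : ℕ → ℕ} (hT : ∀ u, u < N → T u < N) {x : ℕ} (hx : x < N)
    (y t S : ℕ) : (T^[t] x = y ∧ bsum w T x t = S) ↔ ∃ s, s ≤ (N + 1) * t ∧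
      (y < N ∧ (sld N T)^[s] x = y ∧ bsum (ext1 N fun _ => 1) (sld N T) x s = t ∧
        bsum (ext1 N w) (sld N T) x s = S) := by
  obtain ⟨s, hs, h1, h2⟩ := sld_time hT t x hx
  have h3 : bsum (fun _ => 1) T x t = t := by
    unfold bsum
    rw [sum_const, card_range, smul_eq_mul, Nat.mul_one]
  constructor
  · rintro ⟨h4, h5⟩
    refine ⟨s, hs, ?_, by rw [h1, h4], by rw [h2, h3], by rw [h2, h5]⟩
    rw [← h4]
    exact iter_lt hT x hx t
  · rintro ⟨s', -, h4, h5, h6, h7⟩
    have h8 : s' = s := by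
      refine sld_inj (N := N) (T := T) (x := x) (by rw [h5]; exact h4)
        (by rw [h1]; exact iter_lt hT x hx t) ?_
      rw [h6, h2, h3]
    subst h8
    exact ⟨by rw [← h1, h5], by rw [← h2, h7]⟩

theorem DFun.sld {n : ℕ} {N z : (Fin n → ℕ) → ℕ} {T : ℕ → (Fin n → ℕ) → ℕ}
    (hN : DFun n N) (hz : DFun n z)
    (hT : DFun (n + 1) (fun w => T (w 0) (fun i => w i.succ))) :
    DFun n (fun v => sld (N v) (fun u => T u v) (z v)) := by
  have h1 : DFun n (fun v => T (z v) v) := DFun.app hT hz fun i => DFun.proj i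
  have h2 : DFun n (fun v => T (z v + 1) v) :=
    DFun.app hT (hz.add (DFun.const 1)) fun i => DFun.proj i
  have h3 : DFun n (fun v => T (z v - N v) v) := DFun.app hT (hz.sub hN) fun i => DFun.proj i
  have h4 : DFun n (fun v => T (z v - N v - 1) v) :=
    DFun.app hT ((hz.sub hN).sub (DFun.const 1)) fun i => DFun.proj i
  exact DFun.ite (Delta0.ltFun hz hN)
    (DFun.ite (Delta0.eqFun h2 h1) (hz.add hN) h1)
    (DFun.ite ((Delta0.ltFun hN hz).and (Delta0.eqFun h4 h3)) (hz.sub (DFun.const 1)) h3)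

/-- Orbits and Birkhoff sums of piecewise affine maps with slopes `-1`, `0`, `1` of an interval are
definable by bounded formulas. -/
theorem aff_delta0 (c d : ℕ) {n : ℕ} {N x y t S : (Fin n → ℕ) → ℕ}
    {T w : ℕ → (Fin n → ℕ) → ℕ}
    (hN : DFun n N) (hx : DFun n x) (hy : DFun n y) (ht : DFun n t) (hS : DFun n S)
    (hT : DFun (n + 1) (fun v => T (v 0) (fun i => v i.succ)))
    (hw : DFun (n + 1) (fun v => w (v 0) (fun i => v i.succ)))
    (hTN : ∀ v u, u < N v → T u v < N v)
    (hcut : ∀ v, CutA c (N v) (fun u => T u v)) (hcutw : ∀ v, CutW d (N v) (fun u => w u v)) :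
    Delta0 n (fun v => x v < N v ∧ (fun u => T u v)^[t v] (x v) = y v ∧
      bsum (fun u => w u v) (fun u => T u v) (x v) (t v) = S v) := by
  have hN' : DFun (n + 1) (fun v => 2 * N (fun i => v i.succ)) :=
    (DFun.const 2).mul hN.weak
  have hT1 : DFun (n + 1 + 1 + 1) (fun v => T (v 0) (fun i => v i.succ.succ.succ)) :=
    DFun.app hT (u := fun w : Fin (n + 3) → ℕ => w 0) (v := fun i w => w i.succ.succ.succ)
      (DFun.proj 0) (fun i => DFun.proj _)
  have hD : DFun (n + 1 + 1) (fun v => sld (N (fun i => v i.succ.succ))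
      (fun u => T u (fun i => v i.succ.succ)) (v 0)) :=
    DFun.sld (N := fun v => N (fun i => v i.succ.succ)) (z := fun v => v 0)
      (T := fun u v => T u (fun i => v i.succ.succ)) hN.weak.weak (DFun.proj 0) hT1
  have hW1 : DFun (n + 1 + 1) (fun v => ext1 (N (fun i => v i.succ.succ)) (fun _ => 1) (v 0)) :=
    DFun.ite (Delta0.ltFun (DFun.proj 0) hN.weak.weak) (DFun.const 1) (DFun.const 0)
  have hW : DFun (n + 1 + 1) (fun v => ext1 (N (fun i => v i.succ.succ))
      (fun u => w u (fun i => v i.succ.succ)) (v 0)) :=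
    DFun.ite (Delta0.ltFun (DFun.proj 0) hN.weak.weak)
      (DFun.app hw (u := fun v : Fin (n + 2) → ℕ => v 0) (v := fun i v => v i.succ.succ)
        (DFun.proj 0) fun i => DFun.proj _) (DFun.const 0)
  have m1 : Delta0 (n + 1) (fun v => x (fun i => v i.succ) < 2 * N (fun i => v i.succ) ∧
      (sld (N (fun i => v i.succ)) (fun u => T u (fun i => v i.succ)))^[v 0]
        (x (fun i => v i.succ)) = y (fun i => v i.succ) ∧
      bsum (ext1 (N (fun i => v i.succ)) (fun _ => 1)) (sld (N (fun i => v i.succ))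
        (fun u => T u (fun i => v i.succ))) (x (fun i => v i.succ)) (v 0) =
          t (fun i => v i.succ)) :=
    isom_delta0 (c + c + (c + c) + 4) (0 + 1)
      (T := fun u v => sld (N (fun i => v i.succ)) (fun u => T u (fun i => v i.succ)) u)
      (w := fun u v => ext1 (N (fun i => v i.succ)) (fun _ => 1) u)
      hN' hx.weak hy.weak (DFun.proj 0) ht.weak hD hW1
      (fun v u hu => sld_lt (hTN _) u hu) (fun v => sld_cut (hcut _))
      (fun v => ext1_cut ⟨fun j => 0, fun _ _ _ => rfl⟩)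
  have m2 : Delta0 (n + 1) (fun v => x (fun i => v i.succ) < 2 * N (fun i => v i.succ) ∧
      (sld (N (fun i => v i.succ)) (fun u => T u (fun i => v i.succ)))^[v 0]
        (x (fun i => v i.succ)) = y (fun i => v i.succ) ∧
      bsum (ext1 (N (fun i => v i.succ)) (fun u => w u (fun i => v i.succ)))
        (sld (N (fun i => v i.succ)) (fun u => T u (fun i => v i.succ)))
          (x (fun i => v i.succ)) (v 0) = S (fun i => v i.succ)) :=
    isom_delta0 (c + c + (c + c) + 4) (d + 1)
      (T := fun u v => sld (N (fun i => v i.succ)) (fun u => T u (fun i => v i.succ)) u)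
      (w := fun u v => ext1 (N (fun i => v i.succ)) (fun u => w u (fun i => v i.succ)) u)
      hN' hx.weak hy.weak (DFun.proj 0) hS.weak hD hW
      (fun v u hu => sld_lt (hTN _) u hu) (fun v => sld_cut (hcut _))
      (fun v => ext1_cut (hcutw _))
  have hex := Delta0.bexFun ((hN.add (DFun.const 1)).mul ht) (P := fun s v =>
    (x v < 2 * N v ∧ (sld (N v) (fun u => T u v))^[s] (x v) = y v ∧
      bsum (ext1 (N v) (fun _ => 1)) (sld (N v) (fun u => T u v)) (x v) s = t v) ∧
    (x v < 2 * N v ∧ (sld (N v) (fun u => T u v))^[s] (x v) = y v ∧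
      bsum (ext1 (N v) (fun u => w u v)) (sld (N v) (fun u => T u v)) (x v) s = S v))
    (m1.and m2)
  refine (((Delta0.ltFun hx hN).and (Delta0.ltFun hy hN)).and hex).of_iff fun v => ?_
  constructor
  · rintro ⟨h1, h2⟩
    rw [sld_iff (hTN v) h1] at h2
    obtain ⟨s, h3, h4, h5, h6, h7⟩ := h2
    exact ⟨⟨h1, h4⟩, s, h3, ⟨by omega, h5, h6⟩, by omega, h5, h7⟩
  · rintro ⟨⟨h1, h4⟩, s, h3, ⟨-, h5, h6⟩, -, -, h7⟩
    exact ⟨h1, (sld_iff (hTN v) h1 _ _ _).mpr ⟨s, h3, h4, h5, h6, h7⟩⟩

end Pool.Agent.PTr
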