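import Mathlib

/-!
# Piecewise translations, and piecewise affine maps of slope `s`, of a grid box
-/

set_option autoImplicit false

namespace Pool.Agent.PTr

/-- The map `u ↦ s u + (sum of the `c i` over the boxes `[a i, b i)` containing `u`), modulo `N`,
on `[0, N) ^ r`. -/
def tmap {r k : ℕ} (s N : ℕ) (a b c : Fin k → Fin r → ℕ) (u : Fin r → ℕ) : Fin r → ℕ :=
  fun j => (s * u j + ∑ i : Fin k, if (∀ l, a i l ≤ u l ∧ u l < b i l) then c i j else 0) % N

end Pool.Agent.PTr
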