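import Mathlib
import Pool.Agent.PTr.TMap
import Pool.Agent.PTr.Orbit2
import Pool.Agent.Grz.Matrices
import Pool.Agent.Grz.Iter
import Pool.Agent.Grz.Regressive

/-!
# Orbits of the maps `tmap` are computed in `E2`
-/

set_option autoImplicit false

namespace Pool.Agent.PTr

open Pool.Agent.Grz Finset

theorem DFun.tmap {r k n : ℕ} (s : ℕ) {N : (Fin n → ℕ) → ℕ} {a b c : Fin k → Fin r → (Fin n → ℕ) → ℕ}
    {u : Fin r → (Fin n → ℕ) → ℕ} (hN : DFun n N) (ha : ∀ i l, DFun n (a i l))
    (hb : ∀ i l, DFun n (b i l)) (hc : ∀ i l, DFun n (c i l)) (hu : ∀ l, DFun n (u l)) (j : Fin r) :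
    DFun n (fun v => PTr.tmap s (N v) (fun i l => a i l v) (fun i l => b i l v) (fun i l => c i l v)
      (fun l => u l v) j) := by
  unfold PTr.tmap
  refine DFun.modAny (((DFun.const s).mul (hu j)).add (DFun.finSum _ fun i => ?_)) hN
  exact DFun.ite (Delta0.allOf fun l => (Delta0.leFun (ha i l) (hu l)).and
    (Delta0.ltFun (hu l) (hb i l))) (hc i j) (DFun.const 0)

private theorem pair_mono {a b c d : ℕ} (h1 : a ≤ b) (h2 : c ≤ d) : Nat.pair a c ≤ Nat.pair b d := by
  have e1 : Nat.pair a c ≤ Nat.pair b c := by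
    rcases h1.lt_or_eq with h | h
    · exact (Nat.pair_lt_pair_left c h).le
    · rw [h]
  have e2 : Nat.pair b c ≤ Nat.pair b d := by
    rcases h2.lt_or_eq with h | h
    · exact (Nat.pair_lt_pair_right b h).le
    · rw [h]
  exact e1.trans e2

private theorem enc_mono : ∀ (n : ℕ) {u v : Fin n → ℕ}, (∀ i, u i ≤ v i) → enc n u ≤ enc n v
  | 0, _, _, _ => le_refl _
  | n + 1, _, _, h => pair_mono (h 0) (enc_mono n fun i => h i.succ)

private theorem iterate_bdd (f : ℕ → ℕ) (b : ℕ) (hf : ∀ x, f x ≤ b) (x : ℕ) :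
    ∀ t, ∃ t', t' ≤ b + 1 ∧ f^[t] x = f^[t'] x := by
  have hle : ∀ t, f^[t + 1] x ≤ b := by
    intro t
    rw [Function.iterate_succ_apply']
    exact hf _
  obtain ⟨i, hi, j, hj, hij, he⟩ : ∃ i, 1 ≤ i ∧ ∃ j, j ≤ b + 2 ∧ i < j ∧ f^[i] x = f^[j] x := by
    have hcard : (Finset.range (b + 1)).card < (Finset.range (b + 2)).card := by simp
    obtain ⟨a, ha, c, hc, hac, heq⟩ := Finset.exists_ne_map_eq_of_card_lt_of_maps_to hcard
      (f := fun t => f^[t + 1] x) (fun t _ => by
        have := hle t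
        simp only [Finset.coe_range, Set.mem_Iio]
        omega)
    simp only [Finset.mem_range] at ha hc
    rcases Nat.lt_or_gt_of_ne hac with h | h
    · exact ⟨a + 1, by omega, c + 1, by omega, by omega, heq⟩
    · exact ⟨c + 1, by omega, a + 1, by omega, by omega, heq.symm⟩
  intro t
  induction t using Nat.strong_induction_on with
  | _ t ih =>
    by_cases ht : t ≤ b + 1
    · exact ⟨t, ht, rfl⟩
    · obtain ⟨t', ht', he'⟩ := ih (t - (j - i)) (by omega)
      refine ⟨t', ht', ?_⟩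
      rw [← he']
      have e1 : t = (t - j) + j := by omega
      have e2 : t - (j - i) = (t - j) + i := by omega
      rw [e2, Function.iterate_add_apply, he, ← Function.iterate_add_apply, ← e1]

/-- the step on codes -/
private def stp {r k n : ℕ} (s : ℕ) (N : (Fin n → ℕ) → ℕ)
    (a b c : Fin k → Fin r → (Fin n → ℕ) → ℕ) (z : ℕ) (v : Fin n → ℕ) : ℕ :=
  if N v = 0 then 0 else enc r (tmap s (N v) (fun i l => a i l v) (fun i l => b i l v)
    (fun i l => c i l v) (dec r z))

private theorem stp_le {r k n : ℕ} (s : ℕ) (N : (Fin n → ℕ) → ℕ)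
    (a b c : Fin k → Fin r → (Fin n → ℕ) → ℕ) (z : ℕ) (v : Fin n → ℕ) :
    stp s N a b c z v ≤ enc r (fun _ => N v) := by
  unfold stp
  split_ifs with h
  · exact Nat.zero_le _
  · exact enc_mono _ fun i => (Nat.mod_lt _ (Nat.pos_of_ne_zero h)).le

private theorem dfun_stp {r k n : ℕ} (s : ℕ) {N : (Fin n → ℕ) → ℕ}
    {a b c : Fin k → Fin r → (Fin n → ℕ) → ℕ} (hN : DFun n N) (ha : ∀ i l, DFun n (a i l))
    (hb : ∀ i l, DFun n (b i l)) (hc : ∀ i l, DFun n (c i l)) :
    DFun (n + 1) (fun w => stp s N a b c (w 0) (fun i => w i.succ)) := by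
  unfold stp
  have hz : DFun (n + 1) (fun w => w 0) := DFun.proj 0
  refine DFun.ite (Delta0.eqFun hN.weak (DFun.const 0)) (DFun.const 0) (DFun.enc fun j => ?_)
  exact DFun.tmap s (N := fun w : Fin (n + 1) → ℕ => N (fun i => w i.succ))
    (a := fun i l w => a i l (fun i => w i.succ)) (b := fun i l w => b i l (fun i => w i.succ))
    (c := fun i l w => c i l (fun i => w i.succ)) (u := fun l w => dec r (w 0) l)
    hN.weak (fun i l => (ha i l).weak) (fun i l => (hb i l).weak) (fun i l => (hc i l).weak)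
    (fun l => DFun.dec hz l) j

private theorem stp_iter {r k n : ℕ} (s : ℕ) {N : (Fin n → ℕ) → ℕ}
    {a b c : Fin k → Fin r → (Fin n → ℕ) → ℕ} {x : Fin r → (Fin n → ℕ) → ℕ} {v : Fin n → ℕ}
    (hv : 0 < N v) (t : ℕ) :
    (fun z => stp s N a b c z v)^[t] (enc r (fun l => x l v)) =
      enc r ((tmap s (N v) (fun i l => a i l v) (fun i l => b i l v)
        (fun i l => c i l v))^[t] (fun l => x l v)) := by
  induction t with
  | zero => rfl
  | succ t ih =>
    rw [Function.iterate_succ_apply', Function.iterate_succ_apply', ih]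
    show stp s N a b c _ v = _
    unfold stp
    rw [if_neg (by omega), dec_enc]

private theorem enc_inj {r : ℕ} {u v : Fin r → ℕ} : enc r u = enc r v ↔ u = v := by
  constructor
  · intro h
    have := congrArg (dec r) h
    rwa [dec_enc, dec_enc] at this
  · intro h
    rw [h]

private theorem code_e2 {r k n : ℕ} (s : ℕ) {N : (Fin n → ℕ) → ℕ}
    {a b c : Fin k → Fin r → (Fin n → ℕ) → ℕ} {x : Fin r → (Fin n → ℕ) → ℕ}
    (hN : DFun n N) (ha : ∀ i l, DFun n (a i l))
    (hb : ∀ i l, DFun n (b i l)) (hc : ∀ i l, DFun n (c i l)) (hx : ∀ l, DFun n (x l)) :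
    E2 (n + 1) (fun w => (fun z => stp s N a b c z (fun i => w i.succ))^[w 0]
      ((fun v : Fin n → ℕ => enc r (fun l => x l v)) (fun i => w i.succ))) := by
  have hS : DFun n (fun v => enc r (fun l => x l v)) := DFun.enc hx
  have hb' : DFun n (fun v => enc r (fun _ => N v)) := DFun.enc fun _ => hN
  refine E2.iterate (n := n) (P := fun z v => stp s N a b c z v)
    (S := fun v => enc r (fun l => x l v))
    (B := fun v => enc r (fun l => x l v) + enc r (fun _ => N v))
    (DFun.e2 (dfun_stp s hN ha hb hc)) (DFun.e2 hS) (DFun.e2 (hS.add hb')) ?_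
  intro t v
  cases t with
  | zero => exact Nat.le_add_right _ _
  | succ t =>
    rw [Function.iterate_succ_apply']
    exact (stp_le s N a b c _ v).trans (Nat.le_add_left _ _)

/-- The orbits of the maps `tmap` are computed in `E2`. -/
theorem tmap_iter_e2Star {r k n : ℕ} (s : ℕ) {N t : (Fin n → ℕ) → ℕ}
    {a b c : Fin k → Fin r → (Fin n → ℕ) → ℕ} {x y : Fin r → (Fin n → ℕ) → ℕ}
    (hN : DFun n N) (ht : DFun n t) (ha : ∀ i l, DFun n (a i l))
    (hb : ∀ i l, DFun n (b i l)) (hc : ∀ i l, DFun n (c i l)) (hx : ∀ l, DFun n (x l))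
    (hy : ∀ l, DFun n (y l)) :
    E2Star n (fun v => 0 < N v ∧ (tmap s (N v) (fun i l => a i l v) (fun i l => b i l v)
        (fun i l => c i l v))^[t v] (fun l => x l v) = fun l => y l v) := by
  have h1 := code_e2 s hN ha hb hc hx
  have h2 : E2 n (fun v => (fun z => stp s N a b c z v)^[t v] (enc r (fun l => x l v))) := by
    have := h1.comp (n := n) (hs := Fin.cons t (fun i v => v i)) (by
      intro i
      refine Fin.cases ?_ (fun j => ?_) i
      · exact ht.e2
      · exact E2.proj j)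
    refine this.congr ?_
    intro v
    simp
  have h3 := E2Star.eqFun h2 (DFun.e2 (DFun.enc (n := r) hy))
  have h4 : Delta0 n (fun v => 0 < N v) := Delta0.ltFun (DFun.const 0) hN
  refine (h4.e2Star.and h3).of_iff ?_
  intro v
  refine and_congr_right fun hv => ?_
  rw [stp_iter s hv, enc_inj]

/-- Membership in the orbits of the maps `tmap` is decided in `E2`. -/
theorem tmap_orbit_e2Star {r k n : ℕ} (s : ℕ) {N : (Fin n → ℕ) → ℕ}
    {a b c : Fin k → Fin r → (Fin n → ℕ) → ℕ} {x y : Fin r → (Fin n → ℕ) → ℕ}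
    (hN : DFun n N) (ha : ∀ i l, DFun n (a i l))
    (hb : ∀ i l, DFun n (b i l)) (hc : ∀ i l, DFun n (c i l)) (hx : ∀ l, DFun n (x l))
    (hy : ∀ l, DFun n (y l)) :
    E2Star n (fun v => 0 < N v ∧ ∃ t, (tmap s (N v) (fun i l => a i l v) (fun i l => b i l v)
        (fun i l => c i l v))^[t] (fun l => x l v) = fun l => y l v) := by
  have h1 := code_e2 s hN ha hb hc hx
  have hb' : DFun n (fun v => enc r (fun _ => N v)) := DFun.enc fun _ => hN
  have h3 : E2Star (n + 1) (fun w => (fun z => stp s N a b c z (fun i => w i.succ))^[w 0]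
      (enc r (fun l => x l (fun i => w i.succ))) = enc r (fun l => y l (fun i => w i.succ))) :=
    E2Star.eqFun h1 (DFun.e2 (DFun.enc fun l => (hy l).weak))
  have h5 := E2Star.bex (n := n) (b := fun v => enc r (fun _ => N v) + 1)
    (P := fun t v => (fun z => stp s N a b c z v)^[t] (enc r (fun l => x l v)) =
      enc r (fun l => y l v)) ((DFun.e2 hb').add (E2.const 1)) h3
  have h4 : Delta0 n (fun v => 0 < N v) := Delta0.ltFun (DFun.const 0) hN
  refine (h4.e2Star.and h5).of_iff ?_
  intro v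
  refine and_congr_right fun hv => ?_
  constructor
  · rintro ⟨t, ht⟩
    obtain ⟨t', ht', he⟩ := iterate_bdd (fun z => stp s N a b c z v) (enc r (fun _ => N v))
      (fun z => stp_le s N a b c z v) (enc r (fun l => x l v)) t
    refine ⟨t', ht', ?_⟩
    rw [← he, stp_iter s hv, enc_inj]
    exact ht
  · rintro ⟨t, -, ht⟩
    refine ⟨t, ?_⟩
    rwa [stp_iter s hv, enc_inj] at ht

/-- The orbit of a point is visited in boundedly many steps. -/
theorem tmap_iter_bdd {r k : ℕ} (s : ℕ) {N : ℕ} (hN : 0 < N) (a b c : Fin k → Fin r → ℕ)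
    (x : Fin r → ℕ) (t : ℕ) : ∃ t', t' ≤ enc r (fun _ => N) + 1 ∧
      (tmap s N a b c)^[t] x = (tmap s N a b c)^[t'] x := by
  obtain ⟨t', ht', he⟩ := iterate_bdd
    (fun z => stp (n := 0) s (fun _ => N) (fun i l _ => a i l) (fun i l _ => b i l)
      (fun i l _ => c i l) z ![]) (enc r (fun _ => N))
    (fun z => stp_le s (fun _ => N) _ _ _ z ![]) (enc r x) t
  refine ⟨t', ht', ?_⟩
  have h := fun t => stp_iter (n := 0) s (N := fun _ => N) (a := fun i l _ => a i l)
    (b := fun i l _ => b i l) (c := fun i l _ => c i l) (x := fun l _ => x l) (v := ![]) hN t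
  rw [h, h, enc_inj] at he
  exact he

end Pool.Agent.PTr
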