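import Mathlib
import Pool.Agent.PTr.Upper

/-!
# Iterates of definable maps of `[0, N)^r` are computed in `E2`
-/

set_option autoImplicit false

namespace Pool.Agent.PTr

open Pool.Agent.Grz Finset

private theorem pair_mono {a b c d : ℕ} (h1 : a ≤ b) (h2 : c ≤ d) : Nat.pair a c ≤ Nat.pair b d := by
  have e1 : Nat.pair a c ≤ Nat.pair b c := by
    rcases h1.lt_or_eq with h | h
    · exact (Nat.pair_lt_pair_left c h).le
    · rw [h]
  have e2 : Nat.pair b c ≤ Nat.pair b d := by
    rcases h2.lt_or_eq with h | h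
    · exact (Nat.pair_lt_pair_right b h).le
    · rw [h]
  exact e1.trans e2

private theorem enc_mono : ∀ (n : ℕ) {u v : Fin n → ℕ}, (∀ i, u i ≤ v i) → enc n u ≤ enc n v
  | 0, _, _, _ => le_refl _
  | n + 1, _, _, h => pair_mono (h 0) (enc_mono n fun i => h i.succ)

private theorem iterate_bdd (f : ℕ → ℕ) (b : ℕ) (hf : ∀ x, f x ≤ b) (x : ℕ) :
    ∀ t, ∃ t', t' ≤ b + 1 ∧ f^[t] x = f^[t'] x := by
  have hle : ∀ t, f^[t + 1] x ≤ b := by
    intro t
    rw [Function.iterate_succ_apply']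
    exact hf _
  obtain ⟨i, hi, j, hj, hij, he⟩ : ∃ i, 1 ≤ i ∧ ∃ j, j ≤ b + 2 ∧ i < j ∧ f^[i] x = f^[j] x := by
    have hcard : (Finset.range (b + 1)).card < (Finset.range (b + 2)).card := by simp
    obtain ⟨a, ha, c, hc, hac, heq⟩ := Finset.exists_ne_map_eq_of_card_lt_of_maps_to hcard
      (f := fun t => f^[t + 1] x) (fun t _ => by
        have := hle t
        simp only [Finset.coe_range, Set.mem_Iio]
        omega)
    simp only [Finset.mem_range] at ha hc
    rcases Nat.lt_or_gt_of_ne hac with h | h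
    · exact ⟨a + 1, by omega, c + 1, by omega, by omega, heq⟩
    · exact ⟨c + 1, by omega, a + 1, by omega, by omega, heq.symm⟩
  intro t
  induction t using Nat.strong_induction_on with
  | _ t ih =>
    by_cases ht : t ≤ b + 1
    · exact ⟨t, ht, rfl⟩
    · obtain ⟨t', ht', he'⟩ := ih (t - (j - i)) (by omega)
      refine ⟨t', ht', ?_⟩
      rw [← he']
      have e1 : t = (t - j) + j := by omega
      have e2 : t - (j - i) = (t - j) + i := by omega
      rw [e2, Function.iterate_add_apply, he, ← Function.iterate_add_apply, ← e1]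

/-- a family of maps of `[0, N)^r` with a definable graph -/
structure DMap (n r : ℕ) (N : (Fin n → ℕ) → ℕ) (f : (Fin n → ℕ) → (Fin r → ℕ) → Fin r → ℕ) :
    Prop where
  dN : DFun n N
  step : ∀ j, DFun (n + 1) (fun w => if N (fun i => w i.succ) = 0 then 0 else
    f (fun i => w i.succ) (dec r (w 0)) j)
  lt : ∀ v u j, 0 < N v → f v u j < N v

variable {n r : ℕ} {N : (Fin n → ℕ) → ℕ} {f : (Fin n → ℕ) → (Fin r → ℕ) → Fin r → ℕ}

private def stp (N : (Fin n → ℕ) → ℕ) (f : (Fin n → ℕ) → (Fin r → ℕ) → Fin r → ℕ) (z : ℕ)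
    (v : Fin n → ℕ) : ℕ :=
  enc r (fun j => if N v = 0 then 0 else f v (dec r z) j)

private theorem DMap.stp_le (h : DMap n r N f) (z : ℕ) (v : Fin n → ℕ) :
    stp N f z v ≤ enc r (fun _ => N v) := by
  refine enc_mono _ fun i => ?_
  split_ifs with h0
  · exact Nat.zero_le _
  · exact (h.lt v _ i (Nat.pos_of_ne_zero h0)).le

private theorem DMap.dfun_stp (h : DMap n r N f) :
    DFun (n + 1) (fun w => stp N f (w 0) (fun i => w i.succ)) :=
  DFun.enc h.step

private theorem stp_iter {v : Fin n → ℕ} (hv : 0 < N v) (x : Fin r → ℕ) (t : ℕ) :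
    (fun z => stp N f z v)^[t] (enc r x) = enc r ((f v)^[t] x) := by
  induction t with
  | zero => rfl
  | succ t ih =>
    rw [Function.iterate_succ_apply', Function.iterate_succ_apply', ih]
    show stp N f _ v = _
    unfold stp
    simp only [if_neg (show N v ≠ 0 by omega), dec_enc]

private theorem enc_inj {r : ℕ} {u v : Fin r → ℕ} : enc r u = enc r v ↔ u = v := by
  constructor
  · intro h
    have := congrArg (dec r) h
    rwa [dec_enc, dec_enc] at this
  · intro h
    rw [h]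

private theorem DMap.code_e2 (h : DMap n r N f) {x : Fin r → (Fin n → ℕ) → ℕ}
    (hx : ∀ l, DFun n (x l)) :
    E2 (n + 1) (fun w => (fun z => stp N f z (fun i => w i.succ))^[w 0]
      ((fun v : Fin n → ℕ => enc r (fun l => x l v)) (fun i => w i.succ))) := by
  have hS : DFun n (fun v => enc r (fun l => x l v)) := DFun.enc hx
  have hb' : DFun n (fun v => enc r (fun _ => N v)) := DFun.enc fun _ => h.dN
  refine E2.iterate (n := n) (P := fun z v => stp N f z v)
    (S := fun v => enc r (fun l => x l v))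
    (B := fun v => enc r (fun l => x l v) + enc r (fun _ => N v))
    (DFun.e2 h.dfun_stp) (DFun.e2 hS) (DFun.e2 (hS.add hb')) ?_
  intro t v
  cases t with
  | zero => exact Nat.le_add_right _ _
  | succ t =>
    rw [Function.iterate_succ_apply']
    exact (h.stp_le _ v).trans (Nat.le_add_left _ _)

theorem DMap.iter_e2Star (h : DMap n r N f) {t : (Fin n → ℕ) → ℕ}
    {x y : Fin r → (Fin n → ℕ) → ℕ} (ht : DFun n t) (hx : ∀ l, DFun n (x l))
    (hy : ∀ l, DFun n (y l)) :
    E2Star n (fun v => 0 < N v ∧ (f v)^[t v] (fun l => x l v) = fun l => y l v) := by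
  have h1 := h.code_e2 hx
  have h2 : E2 n (fun v => (fun z => stp N f z v)^[t v] (enc r (fun l => x l v))) := by
    have := h1.comp (n := n) (hs := Fin.cons t (fun i v => v i)) (by
      intro i
      refine Fin.cases ?_ (fun j => ?_) i
      · exact ht.e2
      · exact E2.proj j)
    refine this.congr ?_
    intro v
    simp
  have h3 := E2Star.eqFun h2 (DFun.e2 (DFun.enc (n := r) hy))
  have h4 : Delta0 n (fun v => 0 < N v) := Delta0.ltFun (DFun.const 0) h.dN
  refine (h4.e2Star.and h3).of_iff ?_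
  intro v
  refine and_congr_right fun hv => ?_
  rw [stp_iter hv, enc_inj]

theorem DMap.iter_bdd (h : DMap n r N f) {v : Fin n → ℕ} (hv : 0 < N v) (x : Fin r → ℕ) (t : ℕ) :
    ∃ t', t' ≤ enc r (fun _ => N v) + 1 ∧ (f v)^[t] x = (f v)^[t'] x := by
  obtain ⟨t', ht', he⟩ := iterate_bdd (fun z => stp N f z v) (enc r (fun _ => N v))
    (fun z => h.stp_le z v) (enc r x) t
  refine ⟨t', ht', ?_⟩
  rw [stp_iter hv, stp_iter hv, enc_inj] at he
  exact he

theorem DMap.orbit_e2Star (h : DMap n r N f) {x y : Fin r → (Fin n → ℕ) → ℕ}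
    (hx : ∀ l, DFun n (x l)) (hy : ∀ l, DFun n (y l)) :
    E2Star n (fun v => 0 < N v ∧ ∃ t, (f v)^[t] (fun l => x l v) = fun l => y l v) := by
  have h1 := h.code_e2 hx
  have hb' : DFun n (fun v => enc r (fun _ => N v)) := DFun.enc fun _ => h.dN
  have h3 : E2Star (n + 1) (fun w => (fun z => stp N f z (fun i => w i.succ))^[w 0]
      (enc r (fun l => x l (fun i => w i.succ))) = enc r (fun l => y l (fun i => w i.succ))) :=
    E2Star.eqFun h1 (DFun.e2 (DFun.enc fun l => (hy l).weak))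
  have h5 := E2Star.bex (n := n) (b := fun v => enc r (fun _ => N v) + 1)
    (P := fun t v => (fun z => stp N f z v)^[t] (enc r (fun l => x l v)) =
      enc r (fun l => y l v)) ((DFun.e2 hb').add (E2.const 1)) h3
  have h4 : Delta0 n (fun v => 0 < N v) := Delta0.ltFun (DFun.const 0) h.dN
  refine (h4.e2Star.and h5).of_iff ?_
  intro v
  refine and_congr_right fun hv => ?_
  constructor
  · rintro ⟨t, ht⟩
    obtain ⟨t', ht', he⟩ := h.iter_bdd hv (fun l => x l v) t
    refine ⟨t', ht', ?_⟩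
    rw [stp_iter hv, enc_inj, ← he]
    exact ht
  · rintro ⟨t, -, ht⟩
    refine ⟨t, ?_⟩
    rwa [stp_iter hv, enc_inj] at ht

/-! ### Maps with an integer slope -/

/-- The map `u ↦ s u + (sum of the `c i` over the boxes `[a i, b i)` containing `u`), modulo `N`,
where `s` is an integer. -/
def zmap {r k : ℕ} (s : ℤ) (N : ℕ) (a b c : Fin k → Fin r → ℕ) (u : Fin r → ℕ) : Fin r → ℕ :=
  fun j => ((s * (u j : ℤ) + ∑ i : Fin k,
    if (∀ l, a i l ≤ u l ∧ u l < b i l) then (c i j : ℤ) else 0) % (N : ℤ)).toNat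

theorem zmap_natCast {r k : ℕ} (s N : ℕ) (a b c : Fin k → Fin r → ℕ) :
    zmap (s : ℤ) N a b c = tmap s N a b c := by
  funext u j
  unfold zmap tmap
  have h : ((s : ℤ) * (u j : ℤ) + ∑ i : Fin k,
      if (∀ l, a i l ≤ u l ∧ u l < b i l) then (c i j : ℤ) else 0) =
      (((s * u j + ∑ i : Fin k, if (∀ l, a i l ≤ u l ∧ u l < b i l) then c i j else 0 : ℕ)) : ℤ) := by
    push_cast
    rfl
  rw [h, ← Int.natCast_mod, Int.toNat_natCast]

theorem zmap_cast {r k : ℕ} {s : ℤ} {N : ℕ} (hN : 0 < N) (a b c : Fin k → Fin r → ℕ)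
    (u : Fin r → ℕ) (j : Fin r) :
    ((zmap s N a b c u j : ℕ) : ℤ) = (s * (u j : ℤ) + ∑ i : Fin k,
      if (∀ l, a i l ≤ u l ∧ u l < b i l) then (c i j : ℤ) else 0) % (N : ℤ) := by
  unfold zmap
  rw [Int.toNat_of_nonneg (Int.emod_nonneg _ (by omega))]

theorem zmap_lt {r k : ℕ} {s : ℤ} {N : ℕ} (hN : 0 < N) (a b c : Fin k → Fin r → ℕ)
    (u : Fin r → ℕ) (j : Fin r) : zmap s N a b c u j < N := by
  have h := zmap_cast (s := s) hN a b c u j
  have h2 := Int.emod_lt_of_pos (s * (u j : ℤ) + ∑ i : Fin k,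
      if (∀ l, a i l ≤ u l ∧ u l < b i l) then (c i j : ℤ) else 0) (show (0 : ℤ) < N by omega)
  omega

/-- a formula in natural numbers for negative slopes -/
theorem zmap_neg {r k : ℕ} {m N : ℕ} (hN : 0 < N) (a b c : Fin k → Fin r → ℕ)
    (u : Fin r → ℕ) (j : Fin r) :
    zmap (-(m : ℤ)) N a b c u j = (m * (N - u j % N) + ∑ i : Fin k,
      if (∀ l, a i l ≤ u l ∧ u l < b i l) then c i j else 0) % N := by
  have h := zmap_cast (s := -(m : ℤ)) hN a b c u j
  have h1 := Nat.mod_lt (u j) hN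
  have h2 : (((m * (N - u j % N) + ∑ i : Fin k,
      if (∀ l, a i l ≤ u l ∧ u l < b i l) then c i j else 0 : ℕ)) : ℤ) =
      (-(m : ℤ) * (u j : ℤ) + ∑ i : Fin k,
      if (∀ l, a i l ≤ u l ∧ u l < b i l) then (c i j : ℤ) else 0) +
        (N : ℤ) * ((m : ℤ) * (1 + (u j : ℤ) / (N : ℤ))) := by
    have h3 : ((N - u j % N : ℕ) : ℤ) = (N : ℤ) - (u j : ℤ) % (N : ℤ) := by
      rw [Nat.cast_sub h1.le, Int.natCast_mod]
    push_cast
    rw [h3]
    have h4 := Int.mul_ediv_add_emod (u j : ℤ) (N : ℤ)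
    have h5 : (u j : ℤ) % (N : ℤ) = (u j : ℤ) - (N : ℤ) * ((u j : ℤ) / (N : ℤ)) := by linarith
    rw [h5]
    ring
  have h6 : (((m * (N - u j % N) + ∑ i : Fin k,
      if (∀ l, a i l ≤ u l ∧ u l < b i l) then c i j else 0) % N : ℕ) : ℤ) =
      ((zmap (-(m : ℤ)) N a b c u j : ℕ) : ℤ) := by
    rw [Int.natCast_mod, h2, Int.add_mul_emod_self_left, h]
  exact_mod_cast h6.symm

theorem DFun.zmap {r k n : ℕ} (s : ℤ) {N : (Fin n → ℕ) → ℕ} {a b c : Fin k → Fin r → (Fin n → ℕ) → ℕ}
    {u : Fin r → (Fin n → ℕ) → ℕ} (hN : DFun n N) (ha : ∀ i l, DFun n (a i l))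
    (hb : ∀ i l, DFun n (b i l)) (hc : ∀ i l, DFun n (c i l)) (hu : ∀ l, DFun n (u l)) (j : Fin r) :
    DFun n (fun v => if N v = 0 then 0 else
      PTr.zmap s (N v) (fun i l => a i l v) (fun i l => b i l v) (fun i l => c i l v)
      (fun l => u l v) j) := by
  obtain ⟨m, rfl | rfl⟩ := Int.eq_nat_or_neg s
  · simp only [zmap_natCast]
    exact DFun.ite (Delta0.eqFun hN (DFun.const 0)) (DFun.const 0) (DFun.tmap m hN ha hb hc hu j)
  · have h1 : DFun n (fun v => (m * (N v - u j v % N v) + ∑ i : Fin k,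
        if (∀ l, a i l v ≤ u l v ∧ u l v < b i l v) then c i j v else 0) % N v) :=
      DFun.modAny (((DFun.const m).mul (hN.sub (DFun.modAny (hu j) hN))).add
        (DFun.finSum _ fun i => DFun.ite (Delta0.allOf fun l => (Delta0.leFun (ha i l) (hu l)).and
          (Delta0.ltFun (hu l) (hb i l))) (hc i j) (DFun.const 0))) hN
    have h2 := DFun.ite (Delta0.eqFun hN (DFun.const 0)) (DFun.const 0) h1
    have h3 : (fun v => if N v = 0 then 0 else
      PTr.zmap (-(m : ℤ)) (N v) (fun i l => a i l v) (fun i l => b i l v) (fun i l => c i l v)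
      (fun l => u l v) j) = fun v => if N v = 0 then 0 else (m * (N v - u j v % N v) + ∑ i : Fin k,
        if (∀ l, a i l v ≤ u l v ∧ u l v < b i l v) then c i j v else 0) % N v := by
      funext v
      by_cases h0 : N v = 0
      · rw [if_pos h0, if_pos h0]
      · rw [if_neg h0, if_neg h0, zmap_neg (Nat.pos_of_ne_zero h0)]
    rw [h3]
    exact h2

theorem zmap_dmap {r k n : ℕ} (s : ℤ) {N : (Fin n → ℕ) → ℕ}
    {a b c : Fin k → Fin r → (Fin n → ℕ) → ℕ} (hN : DFun n N) (ha : ∀ i l, DFun n (a i l))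
    (hb : ∀ i l, DFun n (b i l)) (hc : ∀ i l, DFun n (c i l)) :
    DMap n r N (fun v => PTr.zmap s (N v) (fun i l => a i l v) (fun i l => b i l v)
      (fun i l => c i l v)) where
  dN := hN
  step := fun j => DFun.zmap s (N := fun w : Fin (n + 1) → ℕ => N (fun i => w i.succ))
    (a := fun i l w => a i l (fun i => w i.succ)) (b := fun i l w => b i l (fun i => w i.succ))
    (c := fun i l w => c i l (fun i => w i.succ)) (u := fun l w => dec r (w 0) l)
    hN.weak (fun i l => (ha i l).weak) (fun i l => (hb i l).weak) (fun i l => (hc i l).weak)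
    (fun l => DFun.dec (DFun.proj 0) l) j
  lt := fun v u j hv => zmap_lt hv _ _ _ u j

end Pool.Agent.PTr
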