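import Mathlib
import Pool.Agent.PTr.Upper

/-!
# The ring of box functions

Families of functions on `[0, M)^r` which are congruent modulo `M` to sums of boundedly many
constants on boxes.
-/

set_option autoImplicit false

namespace Pool.Agent.PTr

open Finset Pool.Agent.Grz

/-- families of box functions modulo `M` -/
def BF (n r : ℕ) (M : (Fin n → ℕ) → ℕ) (G : (Fin n → ℕ) → (Fin r → ℕ) → ℤ) : Prop :=
  ∃ (ι : Type) (_ : Fintype ι) (a b : ι → Fin r → (Fin n → ℕ) → ℕ) (c : ι → (Fin n → ℕ) → ℕ),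
    (∀ i l, DFun n (a i l)) ∧ (∀ i l, DFun n (b i l)) ∧ (∀ i, DFun n (c i)) ∧
    ∀ v u, 0 < M v → (∀ l, u l < M v) →
      G v u ≡ ∑ i, (if ∀ l, a i l v ≤ u l ∧ u l < b i l v then (c i v : ℤ) else 0)
        [ZMOD (M v : ℤ)]

private theorem modEq_of_eq {a b m : ℤ} (h : a = b) : a ≡ b [ZMOD m] := by rw [h]

private theorem dfun_congr {n : ℕ} {f g : (Fin n → ℕ) → ℕ} (hf : DFun n f) (h : ∀ v, g v = f v) :
    DFun n g := by
  rw [show g = f from funext h]
  exact hf

variable {n r : ℕ} {M : (Fin n → ℕ) → ℕ} {G H : (Fin n → ℕ) → (Fin r → ℕ) → ℤ}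

theorem BF.congr (hG : BF n r M G)
    (h : ∀ v u, 0 < M v → (∀ l, u l < M v) → H v u ≡ G v u [ZMOD (M v : ℤ)]) : BF n r M H := by
  obtain ⟨ι, hι, a, b, c, h1, h2, h3, h4⟩ := hG
  exact ⟨ι, hι, a, b, c, h1, h2, h3, fun v u hv hu => (h v u hv hu).trans (h4 v u hv hu)⟩

theorem BF.box {a b : Fin r → (Fin n → ℕ) → ℕ} {c : (Fin n → ℕ) → ℕ} (ha : ∀ l, DFun n (a l))
    (hb : ∀ l, DFun n (b l)) (hc : DFun n c) :
    BF n r M (fun v u => if ∀ l, a l v ≤ u l ∧ u l < b l v then (c v : ℤ) else 0) := by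
  refine ⟨Unit, inferInstance, fun _ => a, fun _ => b, fun _ => c, fun _ => ha, fun _ => hb,
    fun _ => hc, fun v u _ _ => ?_⟩
  rw [Fintype.sum_unique]

theorem BF.const {c : (Fin n → ℕ) → ℕ} (hM : DFun n M) (hc : DFun n c) :
    BF n r M (fun v _ => (c v : ℤ)) := by
  refine (BF.box (a := fun _ _ => 0) (b := fun _ => M) (fun _ => DFun.const 0) (fun _ => hM)
    hc).congr fun v u _ hu => ?_
  rw [if_pos fun l => ⟨Nat.zero_le _, hu l⟩]

theorem BF.add (hG : BF n r M G) (hH : BF n r M H) : BF n r M (fun v u => G v u + H v u) := by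
  obtain ⟨ι, hι, a, b, c, h1, h2, h3, h4⟩ := hG
  obtain ⟨ι', hι', a', b', c', g1, g2, g3, g4⟩ := hH
  refine ⟨ι ⊕ ι', inferInstance, Sum.elim a a', Sum.elim b b', Sum.elim c c', ?_, ?_, ?_, ?_⟩
  · rintro (i | i) l
    · exact h1 i l
    · exact g1 i l
  · rintro (i | i) l
    · exact h2 i l
    · exact g2 i l
  · rintro (i | i)
    · exact h3 i
    · exact g3 i
  · intro v u hv hu
    rw [Fintype.sum_sum_type]
    exact (h4 v u hv hu).add (g4 v u hv hu)

theorem BF.mul (hG : BF n r M G) (hH : BF n r M H) : BF n r M (fun v u => G v u * H v u) := by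
  obtain ⟨ι, hι, a, b, c, h1, h2, h3, h4⟩ := hG
  obtain ⟨ι', hι', a', b', c', g1, g2, g3, g4⟩ := hH
  refine ⟨ι × ι', inferInstance, fun p l v => max (a p.1 l v) (a' p.2 l v),
    fun p l v => min (b p.1 l v) (b' p.2 l v), fun p v => c p.1 v * c' p.2 v, ?_, ?_, ?_, ?_⟩
  · intro p l
    exact dfun_congr (DFun.ite (Delta0.leFun (h1 p.1 l) (g1 p.2 l)) (g1 p.2 l) (h1 p.1 l))
      fun v => max_def _ _
  · intro p l
    exact dfun_congr (DFun.ite (Delta0.leFun (h2 p.1 l) (g2 p.2 l)) (h2 p.1 l) (g2 p.2 l))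
      fun v => min_def _ _
  · intro p
    exact (h3 p.1).mul (g3 p.2)
  · intro v u hv hu
    refine ((h4 v u hv hu).mul (g4 v u hv hu)).trans ?_
    rw [Fintype.sum_mul_sum, Fintype.sum_prod_type]
    refine modEq_of_eq ?_
    refine Finset.sum_congr rfl fun i _ => Finset.sum_congr rfl fun j _ => ?_
    by_cases p : ∀ l, a i l v ≤ u l ∧ u l < b i l v
    · by_cases q : ∀ l, a' j l v ≤ u l ∧ u l < b' j l v
      · rw [if_pos p, if_pos q, if_pos fun l => ⟨max_le (p l).1 (q l).1, lt_min (p l).2 (q l).2⟩]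
        push_cast
        rfl
      · rw [if_pos p, if_neg q, mul_zero, if_neg]
        intro h
        exact q fun l => ⟨(le_max_right _ _).trans (h l).1, (h l).2.trans_le (min_le_right _ _)⟩
    · rw [if_neg p, zero_mul, if_neg]
      intro h
      exact p fun l => ⟨(le_max_left _ _).trans (h l).1, (h l).2.trans_le (min_le_left _ _)⟩

theorem BF.neg (hM : DFun n M) (hG : BF n r M G) : BF n r M (fun v u => - G v u) := by
  have h1 := (BF.const (r := r) hM (hM.sub (DFun.const 1))).mul hG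
  refine h1.congr fun v u hv _ => ?_
  have h2 : (((M v - 1 : ℕ)) : ℤ) = (M v : ℤ) - 1 := by
    rw [Nat.cast_sub hv]; simp
  rw [h2]
  have h3 : ((M v : ℤ) - 1) * G v u = - G v u + (M v : ℤ) * G v u := by ring
  rw [h3]
  exact (Int.add_mul_emod_self_left _ _ _).symm

theorem BF.sub (hM : DFun n M) (hG : BF n r M G) (hH : BF n r M H) :
    BF n r M (fun v u => G v u - H v u) := by
  refine (hG.add (hH.neg hM)).congr fun v u _ _ => ?_
  rw [sub_eq_add_neg]

theorem BF.sum (hM : DFun n M) {α : Type} (s : Finset α)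
    {F : α → (Fin n → ℕ) → (Fin r → ℕ) → ℤ} (hF : ∀ i, BF n r M (F i)) :
    BF n r M (fun v u => ∑ i ∈ s, F i v u) := by
  classical
  induction s using Finset.induction_on with
  | empty =>
    refine (BF.const hM (DFun.const 0)).congr fun v u _ _ => ?_
    simp
  | insert a s ha ih =>
    refine ((hF a).add ih).congr fun v u _ _ => ?_
    rw [Finset.sum_insert ha]

theorem BF.prod (hM : DFun n M) {α : Type} (s : Finset α)
    {F : α → (Fin n → ℕ) → (Fin r → ℕ) → ℤ} (hF : ∀ i, BF n r M (F i)) :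
    BF n r M (fun v u => ∏ i ∈ s, F i v u) := by
  classical
  induction s using Finset.induction_on with
  | empty =>
    refine (BF.const hM (DFun.const 1)).congr fun v u _ _ => ?_
    simp
  | insert a s ha ih =>
    refine ((hF a).mul ih).congr fun v u _ _ => ?_
    rw [Finset.prod_insert ha]

/-- reflection of the cube -/
theorem BF.reflect (hM : DFun n M) (hG : BF n r M G) :
    BF n r M (fun v u => G v (fun l => M v - 1 - u l)) := by
  obtain ⟨ι, hι, a, b, c, h1, h2, h3, h4⟩ := hG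
  refine ⟨ι, hι, fun i l v => M v - b i l v, fun i l v => M v - a i l v, c,
    fun i l => hM.sub (h2 i l), fun i l => hM.sub (h1 i l), h3, fun v u hv hu => ?_⟩
  refine (h4 v _ hv fun l => by omega).trans (modEq_of_eq ?_)
  refine Finset.sum_congr rfl fun i _ => ?_
  have : (∀ l, M v - b i l v ≤ u l ∧ u l < M v - a i l v) ↔
      (∀ l, a i l v ≤ M v - 1 - u l ∧ M v - 1 - u l < b i l v) := by
    refine forall_congr' fun l => ?_
    have := hu l
    omega
  simp only [this]

/-- box functions in all coordinates give the translations of a map -/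
theorem BF.assemble {G : Fin r → (Fin n → ℕ) → (Fin r → ℕ) → ℤ}
    (hG : ∀ l, BF n r M (G l)) :
    ∃ (k : ℕ) (a b c : Fin k → Fin r → (Fin n → ℕ) → ℕ), (∀ i l, DFun n (a i l)) ∧
      (∀ i l, DFun n (b i l)) ∧ (∀ i l, DFun n (c i l)) ∧
      ∀ v u, 0 < M v → (∀ l, u l < M v) → ∀ j,
        G j v u ≡ ∑ i, (if ∀ l, a i l v ≤ u l ∧ u l < b i l v then (c i j v : ℤ) else 0)
          [ZMOD (M v : ℤ)] := by
  classical
  choose ι hι a b c h1 h2 h3 h4 using hG
  let e := Fintype.equivFin (Σ l, ι l)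
  refine ⟨Fintype.card (Σ l, ι l), fun i => a (e.symm i).1 (e.symm i).2,
    fun i => b (e.symm i).1 (e.symm i).2,
    fun i j v => if (e.symm i).1 = j then c (e.symm i).1 (e.symm i).2 v else 0,
    fun i l => h1 _ _ l, fun i l => h2 _ _ l, fun i l => ?_, fun v u hv hu j => ?_⟩
  · by_cases h : (e.symm i).1 = l
    · simp only [if_pos h]
      exact h3 _ _
    · simp only [if_neg h]
      exact DFun.const 0
  · refine (h4 j v u hv hu).trans (modEq_of_eq ?_)
    rw [Equiv.sum_comp e.symm (fun p : Σ l, ι l => if ∀ l, a p.1 p.2 l v ≤ u l ∧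
      u l < b p.1 p.2 l v then (((if p.1 = j then c p.1 p.2 v else 0 : ℕ)) : ℤ) else 0)]
    rw [Fintype.sum_sigma, Finset.sum_eq_single j]
    · simp
    · intro l _ hl
      refine Finset.sum_eq_zero fun i _ => ?_
      simp [hl]
    · intro h
      exact absurd (Finset.mem_univ _) h

end Pool.Agent.PTr
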