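import Mathlib
import Pool.Agent.Grz.E2

/-!
A counter language whose registers stay below a bound; functions in `E2` are computed by
commands.
-/

set_option autoImplicit false

namespace Pool.Agent.PTr

open Function Pool.Agent.Grz MvPolynomial

/-- Commands on registers: nothing; `r := r + 1`; sequences; `while r > 0 do (r := r - 1; c)`. -/
inductive Cmd : Type
  | skip : Cmd
  | inc (r : ℕ) : Cmd
  | seq (c d : Cmd) : Cmd
  | loop (r : ℕ) (c : Cmd) : Cmd

/-- Execution of commands, where no increment leads to a value `≥ M`. -/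
inductive Exec (M : ℕ) : Cmd → (ℕ → ℕ) → (ℕ → ℕ) → Prop
  | skip (σ : ℕ → ℕ) : Exec M .skip σ σ
  | inc (r : ℕ) (σ : ℕ → ℕ) : σ r + 1 < M → Exec M (.inc r) σ (update σ r (σ r + 1))
  | seq {c d : Cmd} {σ σ' σ'' : ℕ → ℕ} :
      Exec M c σ σ' → Exec M d σ' σ'' → Exec M (.seq c d) σ σ''
  | done {r : ℕ} {c : Cmd} {σ : ℕ → ℕ} : σ r = 0 → Exec M (.loop r c) σ σ
  | step {r : ℕ} {c : Cmd} {σ σ' σ'' : ℕ → ℕ} : σ r ≠ 0 →
      Exec M c (update σ r (σ r - 1)) σ' → Exec M (.loop r c) σ' σ'' → Exec M (.loop r c) σ σ''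

/-- All registers of the command are `< s`. -/
def Cmd.lt (s : ℕ) : Cmd → Prop
  | .skip => True
  | .inc r => r < s
  | .seq c d => c.lt s ∧ d.lt s
  | .loop r c => r < s ∧ c.lt s

theorem Cmd.lt_mono {s t : ℕ} (h : s ≤ t) (c : Cmd) (hc : c.lt s) : c.lt t := by
  induction c with
  | skip => trivial
  | inc r => exact lt_of_lt_of_le hc h
  | seq c d h1 h2 => exact ⟨h1 hc.1, h2 hc.2⟩
  | loop r c h1 => exact ⟨lt_of_lt_of_le hc.1 h, h1 hc.2⟩

theorem Cmd.exists_lt (c : Cmd) : ∃ s, c.lt s := by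
  induction c with
  | skip => exact ⟨0, trivial⟩
  | inc r => exact ⟨r + 1, Nat.lt_succ_self r⟩
  | seq c d h1 h2 =>
    obtain ⟨s, hs⟩ := h1
    obtain ⟨t, ht⟩ := h2
    exact ⟨max s t, Cmd.lt_mono (le_max_left _ _) c hs, Cmd.lt_mono (le_max_right _ _) d ht⟩
  | loop r c h1 =>
    obtain ⟨s, hs⟩ := h1
    exact ⟨max s (r + 1), lt_of_lt_of_le (Nat.lt_succ_self r) (le_max_right _ _),
      Cmd.lt_mono (le_max_left _ _) c hs⟩

/-- The values stay below the bound. -/
theorem Exec.bound {M : ℕ} {c : Cmd} {σ σ' : ℕ → ℕ} (h : Exec M c σ σ') (s : ℕ)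
    (hσ : ∀ i, i < s → σ i < M) : ∀ i, i < s → σ' i < M := by
  induction h with
  | skip σ => exact hσ
  | inc r σ hr =>
    intro i hi
    by_cases h : i = r
    · subst h
      rw [update_self]
      exact hr
    · rw [update_of_ne h]
      exact hσ i hi
  | seq _ _ h1 h2 => exact h2 (h1 hσ)
  | done _ => exact hσ
  | @step r c σ σ' σ'' hr _ _ h1 h2 =>
    refine h2 (h1 ?_)
    intro i hi
    by_cases h : i = r
    · subst h
      rw [update_self]
      have := hσ i hi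
      omega
    · rw [update_of_ne h]
      exact hσ i hi

/-- Loops with an invariant. -/
theorem exec_loop {M r : ℕ} {c : Cmd} (I : ℕ → (ℕ → ℕ) → Prop)
    (h : ∀ j σ, I j σ → σ r ≠ 0 → ∃ σ', Exec M c (update σ r (σ r - 1)) σ' ∧ I (j + 1) σ' ∧
      σ' r = σ r - 1) :
    ∀ (k j : ℕ) (σ : ℕ → ℕ), σ r = k → I j σ →
      ∃ σ', Exec M (.loop r c) σ σ' ∧ I (j + k) σ' ∧ σ' r = 0 := by
  intro k
  induction k with
  | zero =>
    intro j σ hk hI
    exact ⟨σ, Exec.done hk, hI, hk⟩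
  | succ k ih =>
    intro j σ hk hI
    obtain ⟨σ1, h1, h2, h3⟩ := h j σ hI (by omega)
    obtain ⟨σ2, h4, h5, h6⟩ := ih (j + 1) σ1 (by omega) h2
    refine ⟨σ2, Exec.step (by omega) h1 h4, ?_, h6⟩
    rw [show j + (k + 1) = j + 1 + k by omega]
    exact h5

/-- `r := 0`. -/
def clearC (r : ℕ) : Cmd := .loop r .skip

theorem exec_clear (M r : ℕ) (σ : ℕ → ℕ) :
    ∃ σ', Exec M (clearC r) σ σ' ∧ σ' r = 0 ∧ ∀ i, i ≠ r → σ' i = σ i := by
  obtain ⟨σ', h1, h2, h3⟩ := exec_loop (M := M) (r := r) (c := .skip)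
    (fun _ τ => ∀ i, i ≠ r → τ i = σ i) (by
      intro _ τ hτ _
      refine ⟨_, Exec.skip _, ?_, update_self _ _ _⟩
      intro i hi
      rw [update_of_ne hi]
      exact hτ i hi) (σ r) 0 σ rfl (fun _ _ => rfl)
  exact ⟨σ', h1, h3, h2⟩

/-- `o := o + x; x := 0`. -/
def addC (x o : ℕ) : Cmd := .loop x (.inc o)

theorem exec_add {M x o : ℕ} (hxo : x ≠ o) (σ : ℕ → ℕ) (hM : σ o + σ x < M) :
    ∃ σ', Exec M (addC x o) σ σ' ∧ σ' o = σ o + σ x ∧ σ' x = 0 ∧
      ∀ i, i ≠ o → i ≠ x → σ' i = σ i := by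
  obtain ⟨σ', h1, h2, h3⟩ := exec_loop (M := M) (r := x) (c := .inc o)
    (fun j τ => j + τ x = σ x ∧ τ o = σ o + j ∧ ∀ i, i ≠ o → i ≠ x → τ i = σ i) (by
      intro j τ hτ hx
      have e : update τ x (τ x - 1) o = τ o := update_of_ne (Ne.symm hxo) _ _
      refine ⟨_, Exec.inc _ _ ?_, ⟨?_, ?_, ?_⟩, ?_⟩
      · rw [e]
        omega
      · rw [update_of_ne hxo, update_self]
        omega
      · rw [update_self, e]
        omega
      · intro i hi hi'
        rw [update_of_ne hi, update_of_ne hi']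
        exact hτ.2.2 i hi hi'
      · rw [update_of_ne hxo, update_self]) (σ x) 0 σ rfl ⟨by omega, by omega, fun _ _ _ => rfl⟩
  rw [Nat.zero_add] at h2
  exact ⟨σ', h1, h2.2.1, h3, h2.2.2⟩

/-- `x := x + a; y := y + a; a := 0`. -/
def add2C (a x y : ℕ) : Cmd := .loop a (.seq (.inc x) (.inc y))

theorem exec_add2 {M a x y : ℕ} (hax : a ≠ x) (hay : a ≠ y) (hxy : x ≠ y) (σ : ℕ → ℕ)
    (hM : σ x + σ a < M) (hM' : σ y + σ a < M) :
    ∃ σ', Exec M (add2C a x y) σ σ' ∧ σ' x = σ x + σ a ∧ σ' y = σ y + σ a ∧ σ' a = 0 ∧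
      ∀ i, i ≠ a → i ≠ x → i ≠ y → σ' i = σ i := by
  obtain ⟨σ', h1, h2, h3⟩ := exec_loop (M := M) (r := a) (c := .seq (.inc x) (.inc y))
    (fun j τ => j + τ a = σ a ∧ τ x = σ x + j ∧ τ y = σ y + j ∧
      ∀ i, i ≠ a → i ≠ x → i ≠ y → τ i = σ i) (by
      intro j τ hτ hx
      have e : update τ a (τ a - 1) x = τ x := update_of_ne (Ne.symm hax) _ _
      have e' : update (update τ a (τ a - 1)) x (update τ a (τ a - 1) x + 1) y = τ y := by
        rw [update_of_ne (Ne.symm hxy), update_of_ne (Ne.symm hay)]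
      refine ⟨_, Exec.seq (Exec.inc _ _ ?_) (Exec.inc _ _ ?_), ⟨?_, ?_, ?_, ?_⟩, ?_⟩
      · rw [e]
        omega
      · rw [e']
        omega
      · rw [update_of_ne hay, update_of_ne hax, update_self]
        omega
      · rw [update_of_ne hxy, update_self, e]
        omega
      · rw [update_self, e']
        omega
      · intro i hi hi' hi''
        rw [update_of_ne hi'', update_of_ne hi', update_of_ne hi]
        exact hτ.2.2.2 i hi hi' hi''
      · rw [update_of_ne hay, update_of_ne hax, update_self]) (σ a) 0 σ rfl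
      ⟨by omega, by omega, by omega, fun _ _ _ _ => rfl⟩
  rw [Nat.zero_add] at h2
  exact ⟨σ', h1, h2.2.1, h2.2.2.1, h3, h2.2.2.2⟩

/-- `x := a; y := 0`. -/
def copyC (a x y : ℕ) : Cmd :=
  .seq (clearC x) (.seq (clearC y) (.seq (add2C a x y) (addC y a)))

theorem exec_copy {M a x y : ℕ} (hax : a ≠ x) (hay : a ≠ y) (hxy : x ≠ y) (σ : ℕ → ℕ)
    (hM : σ a < M) :
    ∃ σ', Exec M (copyC a x y) σ σ' ∧ σ' x = σ a ∧ σ' y = 0 ∧
      ∀ i, i ≠ x → i ≠ y → σ' i = σ i := by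
  obtain ⟨σ1, h1, h1x, h1r⟩ := exec_clear M x σ
  obtain ⟨σ2, h2, h2y, h2r⟩ := exec_clear M y σ1
  have e1 : σ2 x = 0 := by rw [h2r x hxy, h1x]
  have e2 : σ2 a = σ a := by rw [h2r a hay, h1r a hax]
  obtain ⟨σ3, h3, h3x, h3y, h3a, h3r⟩ := exec_add2 (M := M) hax hay hxy σ2 (by omega) (by omega)
  obtain ⟨σ4, h4, h4a, h4y, h4r⟩ := exec_add (M := M) (x := y) (o := a) (Ne.symm hay) σ3
    (by omega)
  refine ⟨σ4, Exec.seq h1 (Exec.seq h2 (Exec.seq h3 h4)), ?_, h4y, ?_⟩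
  · rw [h4r x (Ne.symm hax) hxy]
    omega
  · intro i hx hy
    by_cases hi : i = a
    · subst hi
      omega
    · rw [h4r i hi hy, h3r i hi hx hy, h2r i hy, h1r i hx]

/-- `o := a`, with the auxiliary registers `w`, `w + 1`. -/
def asgC (a o w : ℕ) : Cmd := .seq (copyC a w (w + 1)) (.seq (clearC o) (addC w o))

theorem exec_asg {M a o w : ℕ} (ha : a < w) (ho : o < w) (σ : ℕ → ℕ) (hM : σ a < M) :
    ∃ σ', Exec M (asgC a o w) σ σ' ∧ σ' o = σ a ∧ ∀ i, i < w → i ≠ o → σ' i = σ i := by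
  obtain ⟨σ1, h1, h1x, h1y, h1r⟩ := exec_copy (M := M) (a := a) (x := w) (y := w + 1)
    (by omega) (by omega) (by omega) σ hM
  obtain ⟨σ2, h2, h2y, h2r⟩ := exec_clear M o σ1
  have e1 : σ2 w = σ a := by rw [h2r w (by omega), h1x]
  obtain ⟨σ3, h3, h3x, h3y, h3r⟩ := exec_add (M := M) (x := w) (o := o) (by omega) σ2
    (by omega)
  refine ⟨σ3, Exec.seq h1 (Exec.seq h2 h3), by omega, ?_⟩
  intro i hi hio
  rw [h3r i hio (by omega), h2r i hio, h1r i (by omega) (by omega)]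

/-- The commands computing a function: the polynomial bound and the specification. -/
def CompBy {n : ℕ} (f : (Fin n → ℕ) → ℕ) (Q : MvPolynomial (Fin n) ℕ) : Prop :=
  ∀ (a : Fin n → ℕ) (o w : ℕ), (∀ i, a i < w) → o < w →
      ∃ c : Cmd, ∀ (M : ℕ) (v : Fin n → ℕ), MvPolynomial.eval v Q < M →
        ∀ σ : ℕ → ℕ, (∀ i, σ (a i) = v i) →
          ∃ σ' : ℕ → ℕ, Exec M c σ σ' ∧ σ' o = f v ∧ ∀ r, r < w → r ≠ o → σ' r = σ r

private theorem compBy_zero (n : ℕ) : CompBy (n := n) (fun _ => 0) 0 := by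
  intro a o w _ _
  refine ⟨clearC o, fun M v _ σ _ => ?_⟩
  obtain ⟨σ', h1, h2, h3⟩ := exec_clear M o σ
  exact ⟨σ', h1, h2, fun r _ hr => h3 r hr⟩

private theorem compBy_proj {n : ℕ} (i : Fin n) : CompBy (fun v => v i) (X i) := by
  intro a o w ha ho
  refine ⟨asgC (a i) o w, fun M v hv σ hσ => ?_⟩
  rw [eval_X] at hv
  obtain ⟨σ', h1, h2, h3⟩ := exec_asg (M := M) (ha i) ho σ (by rw [hσ i]; exact hv)
  exact ⟨σ', h1, by rw [h2, hσ i], h3⟩

private theorem compBy_succ : CompBy (n := 1) (fun v => v 0 + 1) (X 0 + 1) := by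
  intro a o w ha ho
  refine ⟨.seq (asgC (a 0) o w) (.inc o), fun M v hv σ hσ => ?_⟩
  rw [map_add, eval_X, map_one] at hv
  obtain ⟨σ', h1, h2, h3⟩ := exec_asg (M := M) (ha 0) ho σ (by rw [hσ 0]; omega)
  refine ⟨_, Exec.seq h1 (Exec.inc o σ' (by rw [h2, hσ 0]; exact hv)), ?_, ?_⟩
  · rw [update_self, h2, hσ 0]
  · intro r hr hro
    rw [update_of_ne hro]
    exact h3 r hr hro

private theorem compBy_prod :
    CompBy (n := 2) (fun v => (v 0 + 1) * (v 1 + 1)) ((X 0 + 1) * (X 1 + 1)) := by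
  intro a o w ha ho
  have ha0 := ha 0
  have ha1 := ha 1
  refine ⟨.seq (copyC (a 0) w (w + 4)) (.seq (.inc w) (.seq (copyC (a 1) (w + 1) (w + 4))
    (.seq (.inc (w + 1)) (.seq (clearC (w + 2)) (.seq
      (.loop w (.seq (copyC (w + 1) (w + 3) (w + 4)) (addC (w + 3) (w + 2))))
      (.seq (clearC o) (addC (w + 2) o))))))), fun M v hv σ hσ => ?_⟩
  simp only [map_mul, map_add, eval_X, map_one] at hv
  have hx : v 0 + 1 < M := by nlinarith
  have hy : v 1 + 1 < M := by nlinarith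
  obtain ⟨σ1, h1, h1x, h1y, h1r⟩ := exec_copy (M := M) (a := a 0) (x := w) (y := w + 4)
    (by omega) (by omega) (by omega) σ (by rw [hσ 0]; omega)
  have h2 := Exec.inc (M := M) w σ1 (by rw [h1x, hσ 0]; exact hx)
  set σ2 := update σ1 w (σ1 w + 1) with hσ2
  have e2 : σ2 w = v 0 + 1 := by rw [hσ2, update_self, h1x, hσ 0]
  have e2' : ∀ i, i ≠ w → σ2 i = σ1 i := fun i hi => by rw [hσ2, update_of_ne hi]
  have e2a : σ2 (a 1) = v 1 := by
    rw [e2' _ (by omega), h1r _ (by omega) (by omega), hσ 1]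
  obtain ⟨σ3, h3, h3x, h3y, h3r⟩ := exec_copy (M := M) (a := a 1) (x := w + 1) (y := w + 4)
    (by omega) (by omega) (by omega) σ2 (by rw [e2a]; omega)
  have h4 := Exec.inc (M := M) (w + 1) σ3 (by rw [h3x, e2a]; exact hy)
  set σ4 := update σ3 (w + 1) (σ3 (w + 1) + 1) with hσ4
  have e4 : σ4 (w + 1) = v 1 + 1 := by rw [hσ4, update_self, h3x, e2a]
  have e4' : ∀ i, i ≠ w + 1 → σ4 i = σ3 i := fun i hi => by rw [hσ4, update_of_ne hi]
  have e4w : σ4 w = v 0 + 1 := by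
    rw [e4' _ (by omega), h3r _ (by omega) (by omega), e2]
  obtain ⟨σ5, h5, h5x, h5r⟩ := exec_clear M (w + 2) σ4
  have e5w : σ5 w = v 0 + 1 := by rw [h5r _ (by omega), e4w]
  have e5y : σ5 (w + 1) = v 1 + 1 := by rw [h5r _ (by omega), e4]
  have e5r : ∀ i, i < w → σ5 i = σ i := by
    intro i hi
    rw [h5r _ (by omega), e4' _ (by omega), h3r _ (by omega) (by omega), e2' _ (by omega),
      h1r _ (by omega) (by omega)]
  obtain ⟨σ6, h6, ⟨-, h6t, -, h6r⟩, -⟩ := exec_loop (M := M) (r := w)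
    (c := .seq (copyC (w + 1) (w + 3) (w + 4)) (addC (w + 3) (w + 2)))
    (fun j τ => j + τ w = v 0 + 1 ∧ τ (w + 2) = j * (v 1 + 1) ∧ τ (w + 1) = v 1 + 1 ∧
      ∀ i, i < w → τ i = σ i) (by
      intro j τ ⟨t1, t2, t3, t4⟩ tw
      set τ0 := update τ w (τ w - 1) with hτ0
      have f0 : ∀ i, i ≠ w → τ0 i = τ i := fun i hi => by rw [hτ0, update_of_ne hi]
      have f0w : τ0 w = τ w - 1 := by rw [hτ0, update_self]
      obtain ⟨τ1, g1, g1x, g1y, g1r⟩ := exec_copy (M := M) (a := w + 1) (x := w + 3)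
        (y := w + 4) (by omega) (by omega) (by omega) τ0 (by rw [f0 _ (by omega), t3]; exact hy)
      have f1 : τ1 (w + 2) = j * (v 1 + 1) := by
        rw [g1r _ (by omega) (by omega), f0 _ (by omega), t2]
      have f2 : τ1 (w + 3) = v 1 + 1 := by rw [g1x, f0 _ (by omega), t3]
      obtain ⟨τ2, g2, g2x, g2y, g2r⟩ := exec_add (M := M) (x := w + 3) (o := w + 2)
        (by omega) τ1 (by
          rw [f1, f2]
          have : (j + 1) * (v 1 + 1) ≤ (v 0 + 1) * (v 1 + 1) :=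
            Nat.mul_le_mul_right _ (by omega)
          rw [Nat.add_mul, Nat.one_mul] at this
          omega)
      refine ⟨τ2, Exec.seq g1 g2, ⟨?_, ?_, ?_, ?_⟩, ?_⟩
      · rw [g2r _ (by omega) (by omega), g1r _ (by omega) (by omega), f0w]
        omega
      · rw [g2x, f1, f2]
        ring
      · rw [g2r _ (by omega) (by omega), g1r _ (by omega) (by omega), f0 _ (by omega), t3]
      · intro i hi
        rw [g2r _ (by omega) (by omega), g1r _ (by omega) (by omega), f0 _ (by omega), t4 i hi]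
      · rw [g2r _ (by omega) (by omega), g1r _ (by omega) (by omega), f0w])
    (v 0 + 1) 0 σ5 e5w ⟨by omega, by rw [h5x]; omega, e5y, e5r⟩
  rw [Nat.zero_add] at h6t
  obtain ⟨σ7, h7, h7x, h7r⟩ := exec_clear M o σ6
  have e7 : σ7 (w + 2) = (v 0 + 1) * (v 1 + 1) := by rw [h7r _ (by omega), h6t]
  obtain ⟨σ8, h8, h8x, h8y, h8r⟩ := exec_add (M := M) (x := w + 2) (o := o) (by omega) σ7
    (by rw [h7x, e7]; omega)
  refine ⟨σ8, Exec.seq h1 (Exec.seq h2 (Exec.seq h3 (Exec.seq h4 (Exec.seq h5 (Exec.seq h6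
    (Exec.seq h7 h8)))))), ?_, ?_⟩
  · rw [h8x, h7x, e7, Nat.zero_add]
  · intro r hr hro
    rw [h8r _ hro (by omega), h7r _ hro, h6r _ hr]

private theorem compBy_comp {n m : ℕ} {g : (Fin m → ℕ) → ℕ} {hs : Fin m → (Fin n → ℕ) → ℕ}
    {Qg : MvPolynomial (Fin m) ℕ} {Qh q : Fin m → MvPolynomial (Fin n) ℕ}
    (hg : CompBy g Qg) (hh : ∀ i, CompBy (hs i) (Qh i))
    (hq : ∀ i v, hs i v ≤ MvPolynomial.eval v (q i)) :
    CompBy (fun v => g (fun i => hs i v)) (∑ i, Qh i + bind₁ q Qg) := by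
  intro a o w ha ho
  have hc : ∀ i : Fin m, ∃ c : Cmd, ∀ (M : ℕ) (v : Fin n → ℕ),
      MvPolynomial.eval v (Qh i) < M →
        ∀ σ : ℕ → ℕ, (∀ i, σ (a i) = v i) →
          ∃ σ' : ℕ → ℕ, Exec M c σ σ' ∧ σ' (w + i) = hs i v ∧
            ∀ r, r < w + m → r ≠ w + i → σ' r = σ r := fun i =>
    hh i a (w + i) (w + m) (fun j => (ha j).trans_le (Nat.le_add_right w m))
      (by have := i.isLt; omega)
  have haux : ∀ j : ℕ, j ≤ m → ∃ c : Cmd, ∀ (M : ℕ) (v : Fin n → ℕ),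
      (∀ i, MvPolynomial.eval v (Qh i) < M) →
        ∀ σ : ℕ → ℕ, (∀ i, σ (a i) = v i) →
          ∃ σ' : ℕ → ℕ, Exec M c σ σ' ∧
            (∀ i : Fin m, (i : ℕ) < j → σ' (w + i) = hs i v) ∧
            ∀ r, r < w → σ' r = σ r := by
    intro j
    induction j with
    | zero =>
      intro _
      refine ⟨.skip, fun M v _ σ _ => ⟨_, Exec.skip σ, ?_, fun _ _ => rfl⟩⟩
      intro i hi
      exact absurd hi (Nat.not_lt_zero _)
    | succ j ih =>
      intro hj
      obtain ⟨c, hc1⟩ := ih (by omega)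
      obtain ⟨d, hd1⟩ := hc ⟨j, by omega⟩
      refine ⟨.seq c d, fun M v hv σ hσ => ?_⟩
      obtain ⟨σ1, hE1, hval1, hr1⟩ := hc1 M v hv σ hσ
      obtain ⟨σ2, hE2, hval2, hr2⟩ := hd1 M v (hv _) σ1
        (fun i => by rw [hr1 _ (ha i)]; exact hσ i)
      refine ⟨σ2, Exec.seq hE1 hE2, ?_, ?_⟩
      · intro i hi
        rcases Nat.lt_or_ge (i : ℕ) j with h | h
        · rw [hr2 _ (by have := i.isLt; omega) (by simp only; omega)]
          exact hval1 i h
        · have : i = ⟨j, by omega⟩ := Fin.ext (by simp only; omega)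
          rw [this]
          exact hval2
      · intro r hr
        rw [hr2 r (by omega) (by simp only; omega)]
        exact hr1 r hr
  obtain ⟨c, hc1⟩ := haux m le_rfl
  obtain ⟨d, hd1⟩ := hg (fun i => w + i) o (w + m) (fun i => by have := i.isLt; omega) (by omega)
  refine ⟨.seq c d, fun M v hv σ hσ => ?_⟩
  rw [map_add, map_sum, eval_bind] at hv
  obtain ⟨σ1, hE1, hval1, hr1⟩ := hc1 M v (fun i => lt_of_le_of_lt (le_trans
    (Finset.single_le_sum (f := fun i => MvPolynomial.eval v (Qh i))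
      (fun _ _ => Nat.zero_le _) (Finset.mem_univ i)) (Nat.le_add_right _ _)) hv) σ hσ
  obtain ⟨σ2, hE2, hval2, hr2⟩ := hd1 M (fun i => hs i v)
    (lt_of_le_of_lt (le_trans (eval_mono Qg fun i => hq i v) (Nat.le_add_left _ _)) hv) σ1
    (fun i => hval1 i i.isLt)
  refine ⟨σ2, Exec.seq hE1 hE2, hval2, ?_⟩
  intro r hr hro
  rw [hr2 r (by omega) hro]
  exact hr1 r hr

private theorem compBy_limrec {n : ℕ} {g : (Fin n → ℕ) → ℕ} {h : (Fin (n + 2) → ℕ) → ℕ}
    {F : (Fin (n + 1) → ℕ) → ℕ}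
    {Qg : MvPolynomial (Fin n) ℕ} {Qh : MvPolynomial (Fin (n + 2)) ℕ}
    {B : MvPolynomial (Fin (n + 1)) ℕ}
    (hg : CompBy g Qg) (hh : CompBy h Qh) (hB : ∀ v, F v ≤ MvPolynomial.eval v B)
    (h0 : ∀ v : Fin n → ℕ, F (Matrix.vecCons 0 v) = g v)
    (hs : ∀ (v : Fin n → ℕ) (y : ℕ), F (Matrix.vecCons (y + 1) v) =
        h (Matrix.vecCons (F (Matrix.vecCons y v)) (Matrix.vecCons y v))) :
    CompBy F (X 0 + 1 + B + bind₁ (fun i : Fin n => X i.succ) Qg +
      bind₁ (Fin.cons B (fun i : Fin (n + 1) => X i)) Qh) := by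
  intro a o w ha ho
  obtain ⟨cg, hcg⟩ := hg (fun i => a i.succ) w (w + 4) (fun i => (ha _).trans (by omega))
    (by omega)
  obtain ⟨ch, hch⟩ := hh (Fin.cons w (Fin.cons (w + 2) (fun i : Fin n => a i.succ))) (w + 3)
    (w + 4) (by
      intro i
      refine Fin.cases ?_ (fun i => ?_) i
      · simp only [Fin.cons_zero]; omega
      · simp only [Fin.cons_succ]
        refine Fin.cases ?_ (fun i => ?_) i
        · simp only [Fin.cons_zero]; omega
        · simp only [Fin.cons_succ]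
          exact (ha _).trans (by omega)) (by omega)
  let body : Cmd := .seq ch (.seq (clearC w) (.seq (addC (w + 3) w) (.inc (w + 2))))
  have ha0 := ha 0
  refine ⟨.seq cg (.seq (copyC (a 0) (w + 1) (w + 4)) (.seq (clearC (w + 2))
    (.seq (.loop (w + 1) body) (.seq (clearC o) (addC w o))))), fun M v hv σ hσ => ?_⟩
  rw [map_add, map_add, map_add, map_add, eval_X, map_one, eval_bind, eval_bind] at hv
  have hy : v 0 + 1 < M := by omega
  have hBM : MvPolynomial.eval v B < M := by omega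
  have hvv : Matrix.vecCons (v 0) (fun i : Fin n => v i.succ) = v := by
    funext i
    refine Fin.cases ?_ (fun j => ?_) i <;> simp
  have hFM : ∀ j : ℕ, j ≤ v 0 →
      F (Matrix.vecCons j fun i : Fin n => v i.succ) < M := by
    intro j hj
    refine lt_of_le_of_lt ((hB _).trans (eval_mono B fun i => ?_)) hBM
    refine Fin.cases ?_ (fun i => ?_) i
    · simp only [Matrix.cons_val_zero]; exact hj
    · simp only [Matrix.cons_val_succ]; exact le_rfl
  -- one round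
  have hbody : ∀ j : ℕ, j < v 0 → ∀ τ : ℕ → ℕ,
      τ w = F (Matrix.vecCons j fun i : Fin n => v i.succ) →
      τ (w + 2) = j → (∀ i : Fin n, τ (a i.succ) = v i.succ) →
      ∃ τ' : ℕ → ℕ, Exec M body τ τ' ∧
        τ' w = F (Matrix.vecCons (j + 1) fun i : Fin n => v i.succ) ∧
        τ' (w + 2) = j + 1 ∧ τ' (w + 1) = τ (w + 1) ∧
        ∀ r, r < w → τ' r = τ r := by
    intro j hj τ hτ1 hτ2 hτ3
    obtain ⟨τ1, hE, hval, hr⟩ := hch M
      (Matrix.vecCons (F (Matrix.vecCons j fun i : Fin n => v i.succ))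
        (Matrix.vecCons j fun i : Fin n => v i.succ))
      (by
        refine lt_of_le_of_lt (le_trans (eval_mono Qh fun i => ?_) (Nat.le_add_left _ _)) hv
        refine Fin.cases ?_ (fun i => ?_) i
        · simp only [Matrix.cons_val_zero, Fin.cons_zero]
          refine (hB _).trans (eval_mono B fun i => ?_)
          refine Fin.cases ?_ (fun i => ?_) i
          · simp only [Matrix.cons_val_zero]; omega
          · simp only [Matrix.cons_val_succ]; exact le_rfl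
        · simp only [Matrix.cons_val_succ, Fin.cons_succ, eval_X]
          refine Fin.cases ?_ (fun i => ?_) i
          · simp only [Matrix.cons_val_zero]; omega
          · simp only [Matrix.cons_val_succ]; exact le_rfl) τ
      (by
        intro i
        refine Fin.cases ?_ (fun i => ?_) i
        · simp only [Matrix.cons_val_zero, Fin.cons_zero]; exact hτ1
        · simp only [Matrix.cons_val_succ, Fin.cons_succ]
          refine Fin.cases ?_ (fun i => ?_) i
          · simp only [Matrix.cons_val_zero, Fin.cons_zero]; exact hτ2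
          · simp only [Matrix.cons_val_succ, Fin.cons_succ]; exact hτ3 i)
    rw [← hs] at hval
    obtain ⟨τ2, g2, g2x, g2r⟩ := exec_clear M w τ1
    have e2 : τ2 (w + 3) = F (Matrix.vecCons (j + 1) fun i : Fin n => v i.succ) := by
      rw [g2r _ (by omega), hval]
    obtain ⟨τ3, g3, g3x, g3y, g3r⟩ := exec_add (M := M) (x := w + 3) (o := w) (by omega) τ2
      (by rw [g2x, e2]; have := hFM (j + 1) (by omega); omega)
    have e3 : τ3 (w + 2) = j := by
      rw [g3r _ (by omega) (by omega), g2r _ (by omega), hr _ (by omega) (by omega), hτ2]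
    refine ⟨_, Exec.seq hE (Exec.seq g2 (Exec.seq g3 (Exec.inc (w + 2) τ3 (by omega)))),
      ?_, ?_, ?_, ?_⟩
    · rw [update_of_ne (by omega), g3x, g2x, e2, Nat.zero_add]
    · rw [update_self, e3]
    · rw [update_of_ne (by omega), g3r _ (by omega) (by omega), g2r _ (by omega),
        hr _ (by omega) (by omega)]
    · intro r hrw
      rw [update_of_ne (by omega), g3r _ (by omega) (by omega), g2r _ (by omega),
        hr _ (by omega) (by omega)]
  obtain ⟨σ1, hE1, hval1, hr1⟩ := hcg M (fun i => v i.succ)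
    (by simp only [eval_X] at hv; omega) σ (fun i => hσ _)
  have e1 : σ1 (a 0) = v 0 := by rw [hr1 _ (by omega) (by omega), hσ 0]
  obtain ⟨σ2, h2, h2x, h2y, h2r⟩ := exec_copy (M := M) (a := a 0) (x := w + 1) (y := w + 4)
    (by omega) (by omega) (by omega) σ1 (by omega)
  obtain ⟨σ3, h3, h3x, h3r⟩ := exec_clear M (w + 2) σ2
  have hlow : ∀ r, r < w → σ3 r = σ r := by
    intro r hr
    rw [h3r _ (by omega), h2r _ (by omega) (by omega), hr1 r (by omega) (by omega)]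
  have e3w : σ3 w = F (Matrix.vecCons 0 fun i : Fin n => v i.succ) := by
    rw [h3r _ (by omega), h2r _ (by omega) (by omega), hval1, h0]
  have e3c : σ3 (w + 1) = v 0 := by rw [h3r _ (by omega), h2x, e1]
  obtain ⟨σ4, h4, ⟨-, h4w, -, h4r⟩, -⟩ := exec_loop (M := M) (r := w + 1) (c := body)
    (fun j τ => j + τ (w + 1) = v 0 ∧
      τ w = F (Matrix.vecCons j fun i : Fin n => v i.succ) ∧ τ (w + 2) = j ∧
      ∀ i, i < w → τ i = σ i) (by
      intro j τ ⟨t1, t2, t3, t4⟩ tw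
      set τ0 := update τ (w + 1) (τ (w + 1) - 1) with hτ0
      have f0 : ∀ i, i ≠ w + 1 → τ0 i = τ i := fun i hi => by rw [hτ0, update_of_ne hi]
      have f0w : τ0 (w + 1) = τ (w + 1) - 1 := by rw [hτ0, update_self]
      obtain ⟨τ1, g1, g2, g3, g4, g5⟩ := hbody j (by omega) τ0
        (by rw [f0 _ (by omega), t2]) (by rw [f0 _ (by omega), t3])
        (fun i => by
          have := ha i.succ
          rw [f0 _ (by omega), t4 _ this, hσ])
      refine ⟨τ1, g1, ⟨?_, g2, g3, ?_⟩, ?_⟩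
      · rw [g4, f0w]
        omega
      · intro i hi
        rw [g5 i hi, f0 _ (by omega), t4 i hi]
      · rw [g4, f0w]) (v 0) 0 σ3 e3c ⟨by omega, e3w, h3x, hlow⟩
  rw [Nat.zero_add, hvv] at h4w
  obtain ⟨σ5, h5, h5x, h5r⟩ := exec_clear M o σ4
  have e5 : σ5 w = F v := by rw [h5r _ (by omega), h4w]
  have hFv : F v < M := lt_of_le_of_lt (hB v) hBM
  obtain ⟨σ6, h6, h6x, h6y, h6r⟩ := exec_add (M := M) (x := w) (o := o) (by omega) σ5
    (by rw [h5x, e5]; omega)
  refine ⟨σ6, Exec.seq hE1 (Exec.seq h2 (Exec.seq h3 (Exec.seq h4 (Exec.seq h5 h6)))), ?_, ?_⟩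
  · rw [h6x, h5x, e5, Nat.zero_add]
  · intro r hr hro
    rw [h6r _ hro (by omega), h5r _ hro, h4r _ hr]

/-- Functions in `E2` are computed by commands. -/
theorem comp_e2 {n : ℕ} {f : (Fin n → ℕ) → ℕ} (hf : E2 n f) :
    ∃ Q : MvPolynomial (Fin n) ℕ, CompBy f Q := by
  induction hf with
  | zero n => exact ⟨0, compBy_zero n⟩
  | succ => exact ⟨_, compBy_succ⟩
  | proj i => exact ⟨_, compBy_proj i⟩
  | prod => exact ⟨_, compBy_prod⟩
  | @comp n m g hs _ hh ih1 ih2 =>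
    obtain ⟨Qg, hQg⟩ := ih1
    choose Qh hQh using ih2
    choose q hq using fun i => (hh i).bounded
    exact ⟨_, compBy_comp hQg hQh hq⟩
  | limrec _ _ hb hFb h0 hs ih1 ih2 _ =>
    obtain ⟨Qg, hQg⟩ := ih1
    obtain ⟨Qh, hQh⟩ := ih2
    obtain ⟨B, hB⟩ := hb.bounded
    exact ⟨_, compBy_limrec hQg hQh (fun v => (hFb v).trans (hB v)) h0 hs⟩

/-- The registers `v, 0, 0, ..`. -/
def regs {n : ℕ} (v : Fin n → ℕ) : ℕ → ℕ := fun i => if h : i < n then v ⟨i, h⟩ else 0

/-- Clears the registers `0, .., s - 1` except `o`. -/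
def cleanC (o : ℕ) : ℕ → Cmd
  | 0 => .skip
  | s + 1 => .seq (cleanC o s) (if s = o then .skip else clearC s)

theorem cleanC_lt (o s : ℕ) : (cleanC o s).lt s := by
  induction s with
  | zero => trivial
  | succ s ih =>
    refine ⟨Cmd.lt_mono (Nat.le_succ s) _ ih, ?_⟩
    split_ifs
    · trivial
    · exact ⟨Nat.lt_succ_self s, trivial⟩

theorem exec_clean (M o s : ℕ) (σ : ℕ → ℕ) :
    ∃ σ', Exec M (cleanC o s) σ σ' ∧ σ' o = σ o ∧ (∀ i, i < s → i ≠ o → σ' i = 0) := by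
  induction s with
  | zero => exact ⟨σ, Exec.skip σ, rfl, fun i hi => absurd hi (Nat.not_lt_zero i)⟩
  | succ s ih =>
    obtain ⟨σ1, h1, h2, h3⟩ := ih
    by_cases hs : s = o
    · refine ⟨σ1, Exec.seq h1 ?_, h2, ?_⟩
      · rw [if_pos hs]
        exact Exec.skip σ1
      · intro i hi hio
        exact h3 i (by omega) hio
    · obtain ⟨σ2, g1, g2, g3⟩ := exec_clear M s σ1
      refine ⟨σ2, Exec.seq h1 ?_, by rw [g3 _ (Ne.symm hs), h2], ?_⟩
      · rw [if_neg hs]
        exact g1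
      · intro i hi hio
        by_cases his : i = s
        · rw [his, g2]
        · rw [g3 i his]
          exact h3 i (by omega) hio

/-- For every function in `E2` there is a command which, started with the registers `v, 0, 0, ..`,
stops with `f v` in register `n` and zero in all the other registers. -/
theorem main_cmd {n : ℕ} {f : (Fin n → ℕ) → ℕ} (hf : E2 n f) :
    ∃ (Q : MvPolynomial (Fin n) ℕ) (s : ℕ) (c : Cmd), n < s ∧ c.lt s ∧
      ∀ (M : ℕ) (v : Fin n → ℕ), MvPolynomial.eval v Q < M →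
        (∀ i, regs v i < M) ∧ ∃ σ' : ℕ → ℕ, Exec M c (regs v) σ' ∧ σ' n = f v ∧
          ∀ i, i < s → i ≠ n → σ' i = 0 := by
  obtain ⟨Q, hQ⟩ := comp_e2 hf
  obtain ⟨c, hc⟩ := hQ (fun i => i) n (n + 1) (fun i => by omega) (by omega)
  obtain ⟨s₀, hs₀⟩ := c.exists_lt
  refine ⟨Q + ∑ i, X i, max s₀ (n + 1), .seq c (cleanC n (max s₀ (n + 1))), by omega,
    ⟨Cmd.lt_mono (le_max_left _ _) c hs₀, cleanC_lt _ _⟩, fun M v hv => ⟨?_, ?_⟩⟩
  · intro i
    rw [map_add, map_sum] at hv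
    unfold regs
    split_ifs with h
    · have h1 : v ⟨i, h⟩ ≤ ∑ i, MvPolynomial.eval v (X i : MvPolynomial (Fin n) ℕ) := by
        simp only [eval_X]
        exact Finset.single_le_sum (f := fun i => v i) (fun _ _ => Nat.zero_le _)
          (Finset.mem_univ _)
      omega
    · omega
  · rw [map_add] at hv
    obtain ⟨σ1, h1, h2, -⟩ := hc M v (by omega) (regs v) (fun i => by simp [regs])
    obtain ⟨σ2, g1, g2, g3⟩ := exec_clean M n (max s₀ (n + 1)) σ1
    exact ⟨σ2, Exec.seq h1 g1, by rw [g2, h2], g3⟩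

end Pool.Agent.PTr
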