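import Mathlib
import Pool.Agent.PTr.BCnt

/-!
Commands on two numbers which only add constants and compare a coordinate with a constant. They
simulate the commands on `m + 1` registers `< M`: the registers are the digits in base `M` of the
first number, the second number is used for the rotation of the digits.
-/

set_option autoImplicit false

namespace Pool.Agent.PTr

open Function

/-- Commands on two numbers: nothing; add `(s0, s1)`; sequences; while the coordinate `al` is
`≥ tau` subtract `tau` from it, add `(s0, s1)` and execute `c`. -/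
inductive VCmd (P : Type) : Type
  | skip : VCmd P
  | add (s0 s1 : P) : VCmd P
  | seq (c d : VCmd P) : VCmd P
  | loop (al : Bool) (tau s0 s1 : P) (c : VCmd P) : VCmd P

/-- The coordinate `al`. -/
def co (al : Bool) (u : ℕ × ℕ) : ℕ := if al then u.2 else u.1

/-- Subtract `tau` from the coordinate `al`. -/
def subc (al : Bool) (tau : ℕ) (u : ℕ × ℕ) : ℕ × ℕ :=
  (u.1 - (if al then 0 else tau), u.2 - (if al then tau else 0))

/-- Execution; at every step both numbers are `< W`. -/
inductive VExec (W : ℕ) : VCmd ℕ → ℕ × ℕ → ℕ × ℕ → Prop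
  | skip (u : ℕ × ℕ) : VExec W .skip u u
  | add (s0 s1 : ℕ) (u : ℕ × ℕ) : u.1 < W → u.2 < W →
      VExec W (.add s0 s1) u (u.1 + s0, u.2 + s1)
  | seq {c d : VCmd ℕ} {u u' u'' : ℕ × ℕ} :
      VExec W c u u' → VExec W d u' u'' → VExec W (.seq c d) u u''
  | done {al : Bool} {tau s0 s1 : ℕ} {c : VCmd ℕ} {u : ℕ × ℕ} : u.1 < W → u.2 < W →
      co al u < tau → VExec W (.loop al tau s0 s1 c) u u
  | step {al : Bool} {tau s0 s1 : ℕ} {c : VCmd ℕ} {u u' u'' : ℕ × ℕ} : u.1 < W → u.2 < W →
      tau ≤ co al u → VExec W c ((subc al tau u).1 + s0, (subc al tau u).2 + s1) u' →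
      VExec W (.loop al tau s0 s1 c) u' u'' → VExec W (.loop al tau s0 s1 c) u u''

/-- Rotation of the digits. -/
def rotC {P : Type} [CommSemiring P] (M : P) (m : ℕ) : VCmd P :=
  .seq (.loop false M 0 1 .skip) (.seq (.loop false 1 0 (M ^ m) .skip)
    (.loop true 1 1 0 .skip))

/-- Iterated rotation of the digits. -/
def rots {P : Type} [CommSemiring P] (M : P) (m : ℕ) : ℕ → VCmd P
  | 0 => .skip
  | j + 1 => .seq (rots M m j) (rotC M m)

/-- The translation of the commands on `m + 1` registers. -/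
def pack {P : Type} [CommSemiring P] (M : P) (m : ℕ) : Cmd → VCmd P
  | .skip => .skip
  | .inc r => .seq (rots M m (r + 1)) (.seq (.add (M ^ m) 0) (rots M m (m - r)))
  | .seq c d => .seq (pack M m c) (pack M m d)
  | .loop r c => .seq (rots M m (r + 1)) (.seq (.loop false (M ^ m) 0 0
      (.seq (rots M m (m - r)) (.seq (pack M m c) (rots M m (r + 1))))) (rots M m (m - r)))

/-- The number with the digits `d 0, .., d m` in base `M`. -/
def val (M m : ℕ) (d : ℕ → ℕ) : ℕ := ∑ j ∈ Finset.range (m + 1), d j * M ^ j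

theorem sum_lt {M : ℕ} (m : ℕ) {d : ℕ → ℕ} (hd : ∀ j, j < m → d j < M) :
    ∑ j ∈ Finset.range m, d j * M ^ j < M ^ m := by
  induction m with
  | zero => simp
  | succ m ih =>
    rw [Finset.sum_range_succ, pow_succ]
    have h1 := ih (fun j hj => hd j (by omega))
    have h2 : (d m + 1) * M ^ m ≤ M * M ^ m := Nat.mul_le_mul_right _ (hd m (by omega))
    rw [Nat.add_mul, Nat.one_mul] at h2
    rw [Nat.mul_comm (M ^ m) M]
    omega

theorem val_lt {M m : ℕ} {d : ℕ → ℕ} (hd : ∀ j, j ≤ m → d j < M) : val M m d < M ^ (m + 1) :=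
  sum_lt (m + 1) (fun j hj => hd j (by omega))

theorem val_eq (M m : ℕ) (d : ℕ → ℕ) :
    val M m d = ∑ j ∈ Finset.range m, d j * M ^ j + d m * M ^ m :=
  Finset.sum_range_succ _ _

theorem val_eq' (M m : ℕ) (d : ℕ → ℕ) :
    val M m d = M * ∑ j ∈ Finset.range m, d (j + 1) * M ^ j + d 0 := by
  unfold val
  rw [Finset.sum_range_succ', Finset.mul_sum]
  congr 1
  · exact Finset.sum_congr rfl fun j _ => by ring
  · ring

theorem exec_div {W M : ℕ} (hM : 0 < M) : ∀ (q x y : ℕ), x / M = q → x < W → y + q < W →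
    VExec W (.loop false M 0 1 .skip) (x, y) (x % M, y + q) := by
  intro q
  induction q with
  | zero =>
    intro x y hq hx hy
    have h1 : x < M := by
      by_contra h
      have := Nat.div_pos (not_lt.1 h) hM
      omega
    rw [Nat.mod_eq_of_lt h1]
    exact VExec.done hx hy h1
  | succ q ih =>
    intro x y hq hx hy
    have h1 : M ≤ x := by
      by_contra h
      rw [Nat.div_eq_of_lt (not_le.1 h)] at hq
      omega
    have h2 : (x - M) / M = q := by
      have := Nat.div_eq_sub_div hM h1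
      omega
    have h3 := ih (x - M) (y + 1) h2 (by omega) (by omega)
    have h4 : (x - M) % M = x % M := (Nat.mod_eq_sub_mod h1).symm
    rw [h4, show y + 1 + q = y + (q + 1) by omega] at h3
    exact VExec.step (u := (x, y)) hx (by dsimp only; omega) h1 (VExec.skip _) h3

theorem exec_mul {W K : ℕ} : ∀ (x y : ℕ), x < W → y + x * K < W →
    VExec W (.loop false 1 0 K .skip) (x, y) (0, y + x * K) := by
  intro x
  induction x with
  | zero =>
    intro y hx hy
    rw [Nat.zero_mul, Nat.add_zero] at hy ⊢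
    exact VExec.done hx hy Nat.zero_lt_one
  | succ x ih =>
    intro y hx hy
    have e : y + (x + 1) * K = y + K + x * K := by ring
    rw [e] at hy ⊢
    have h3 := ih (y + K) (by omega) hy
    exact VExec.step (u := (x + 1, y)) hx (by dsimp only; omega) (Nat.le_add_left 1 x)
      (VExec.skip _) h3

theorem exec_mov {W : ℕ} : ∀ (y x : ℕ), x + y < W →
    VExec W (.loop true 1 1 0 .skip) (x, y) (x + y, 0) := by
  intro y
  induction y with
  | zero =>
    intro x hx
    exact VExec.done hx (by dsimp only; omega) Nat.zero_lt_one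
  | succ y ih =>
    intro x hx
    have h3 := ih (x + 1) (by omega)
    rw [show x + 1 + y = x + (y + 1) by omega] at h3
    exact VExec.step (u := (x, y + 1)) (by dsimp only; omega) (by dsimp only; omega)
      (Nat.le_add_left 1 y) (VExec.skip _) h3

theorem exec_rot {M m : ℕ} (d : ℕ → ℕ) (hd : ∀ j, j ≤ m + 1 → d j < M)
    (h0 : d (m + 1) = d 0) :
    VExec (M ^ (m + 1)) (rotC M m) (val M m d, 0) (val M m (fun j => d (j + 1)), 0) := by
  have hM : 0 < M := lt_of_le_of_lt (Nat.zero_le _) (hd 0 (by omega))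
  have hd0 := hd 0 (by omega)
  set A := ∑ j ∈ Finset.range m, d (j + 1) * M ^ j with hA
  have e1 : val M m d = M * A + d 0 := val_eq' M m d
  have e2 : val M m (fun j => d (j + 1)) = A + d 0 * M ^ m := by
    rw [val_eq, h0]
  have h1 : val M m d < M ^ (m + 1) := val_lt fun j hj => hd j (by omega)
  have h2 : val M m (fun j => d (j + 1)) < M ^ (m + 1) := val_lt fun j hj => hd (j + 1) (by omega)
  have e3 : val M m d / M = A := by
    rw [e1, Nat.mul_add_div hM, Nat.div_eq_of_lt hd0, Nat.add_zero]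
  have e4 : val M m d % M = d 0 := by
    rw [e1, Nat.mul_add_mod, Nat.mod_eq_of_lt hd0]
  have hAW : A < M ^ (m + 1) := by omega
  have s1 := exec_div (W := M ^ (m + 1)) hM A (val M m d) 0 e3 h1 (by omega)
  rw [e4, Nat.zero_add] at s1
  have hdW : d 0 < M ^ (m + 1) := lt_of_lt_of_le hd0 (Nat.le_self_pow (by omega) M)
  have s2 := exec_mul (W := M ^ (m + 1)) (K := M ^ m) (d 0) A hdW (by omega)
  have s3 := exec_mov (W := M ^ (m + 1)) (A + d 0 * M ^ m) 0 (by omega)
  rw [Nat.zero_add, ← e2] at s3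
  rw [← e2] at s2
  exact VExec.seq s1 (VExec.seq s2 s3)

/-- The state after `r` rotations. -/
def stt (M m r : ℕ) (σ : ℕ → ℕ) : ℕ := val M m (fun j => σ ((j + r) % (m + 1)))

theorem exec_rots {M m : ℕ} (σ : ℕ → ℕ) (hσ : ∀ i, i < m + 1 → σ i < M) (a : ℕ) : ∀ r : ℕ,
    VExec (M ^ (m + 1)) (rots M m r) (stt M m a σ, 0) (stt M m (a + r) σ, 0) := by
  intro r
  induction r with
  | zero => exact VExec.skip _
  | succ r ih =>
    refine VExec.seq ih ?_
    have h := exec_rot (M := M) (m := m) (fun j => σ ((j + (a + r)) % (m + 1)))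
      (fun j _ => hσ _ (Nat.mod_lt _ (Nat.succ_pos m))) (by
        have e : m + 1 + (a + r) = (0 + (a + r)) + (m + 1) := by omega
        rw [e, Nat.add_mod_right])
    have e : stt M m (a + (r + 1)) σ =
        val M m (fun j => σ ((j + 1 + (a + r)) % (m + 1))) := by
      unfold stt
      congr 1
      funext j
      rw [show j + (a + (r + 1)) = j + 1 + (a + r) by omega]
    rw [e]
    exact h

theorem stt_cycle (M m : ℕ) (σ : ℕ → ℕ) : stt M m (m + 1) σ = stt M m 0 σ := by
  unfold stt
  congr 1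
  funext j
  rw [Nat.add_mod_right, show j + 0 = j from rfl]

theorem stt_lt {M m r : ℕ} {σ : ℕ → ℕ} (hσ : ∀ i, i < m + 1 → σ i < M) :
    stt M m r σ < M ^ (m + 1) :=
  val_lt fun _ _ => hσ _ (Nat.mod_lt _ (Nat.succ_pos m))

/-- The register `r` is the leading digit after `r + 1` rotations. -/
theorem stt_top {M m r : ℕ} (hr : r < m + 1) (σ : ℕ → ℕ) :
    stt M m (r + 1) σ = stt M m (r + 1) (update σ r 0) + σ r * M ^ m := by
  have e : (m + (r + 1)) % (m + 1) = r := by
    rw [show m + (r + 1) = r + (m + 1) by omega, Nat.add_mod_right, Nat.mod_eq_of_lt hr]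
  unfold stt
  rw [val_eq, val_eq, e, update_self, Nat.zero_mul, Nat.add_zero]
  congr 1
  refine Finset.sum_congr rfl fun j hj => ?_
  rw [Finset.mem_range] at hj
  have h : (j + (r + 1)) % (m + 1) ≠ r := by
    by_cases h : j + (r + 1) < m + 1
    · rw [Nat.mod_eq_of_lt h]
      omega
    · rw [show j + (r + 1) = (j + r - m) + (m + 1) by omega, Nat.add_mod_right,
        Nat.mod_eq_of_lt (by omega)]
      omega
  rw [update_of_ne h]

theorem stt_top_lt {M m r : ℕ} (hr : r < m + 1) {σ : ℕ → ℕ} (hσ : ∀ i, i < m + 1 → σ i < M) :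
    stt M m (r + 1) (update σ r 0) < M ^ m := by
  have e : (m + (r + 1)) % (m + 1) = r := by
    rw [show m + (r + 1) = r + (m + 1) by omega, Nat.add_mod_right, Nat.mod_eq_of_lt hr]
  unfold stt
  rw [val_eq, e, update_self, Nat.zero_mul, Nat.add_zero]
  refine sum_lt m fun j _ => ?_
  have hM := hσ r hr
  by_cases h : (j + (r + 1)) % (m + 1) = r
  · rw [h, update_self]
    omega
  · rw [update_of_ne h]
    exact hσ _ (Nat.mod_lt _ (Nat.succ_pos m))

theorem stt_update {M m r : ℕ} (hr : r < m + 1) (σ : ℕ → ℕ) (x : ℕ) :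
    stt M m (r + 1) (update σ r x) = stt M m (r + 1) (update σ r 0) + x * M ^ m := by
  rw [stt_top hr (update σ r x), update_idem, update_self]

/-- The specification of the translation. -/
def PSpec (M m : ℕ) (c : Cmd) (σ σ' : ℕ → ℕ) : Prop :=
  match c with
  | .loop r c => VExec (M ^ (m + 1)) (.loop false (M ^ m) 0 0
      (.seq (rots M m (m - r)) (.seq (pack M m c) (rots M m (r + 1)))))
      (stt M m (r + 1) σ, 0) (stt M m (r + 1) σ', 0)
  | c => VExec (M ^ (m + 1)) (pack M m c) (stt M m 0 σ, 0) (stt M m 0 σ', 0)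

theorem PSpec.exec {M m : ℕ} {c : Cmd} {σ σ' : ℕ → ℕ} (h : PSpec M m c σ σ')
    (hc : c.lt (m + 1)) (hσ : ∀ i, i < m + 1 → σ i < M) (hσ' : ∀ i, i < m + 1 → σ' i < M) :
    VExec (M ^ (m + 1)) (pack M m c) (stt M m 0 σ, 0) (stt M m 0 σ', 0) := by
  cases c with
  | skip => exact h
  | inc r => exact h
  | seq c d => exact h
  | loop r c =>
    have hr : r < m + 1 := hc.1
    have h1 := exec_rots σ hσ 0 (r + 1)
    rw [Nat.zero_add] at h1
    have h3 := exec_rots σ' hσ' (r + 1) (m - r)
    rw [show r + 1 + (m - r) = m + 1 by omega, stt_cycle] at h3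
    exact VExec.seq h1 (VExec.seq h h3)

theorem pspec {M m : ℕ} {c : Cmd} {σ σ' : ℕ → ℕ} (h : Exec M c σ σ') (hc : c.lt (m + 1))
    (hσ : ∀ i, i < m + 1 → σ i < M) : PSpec M m c σ σ' := by
  induction h with
  | skip σ => exact VExec.skip _
  | inc r σ hr =>
    have hr' : r < m + 1 := hc
    have hσ' := (Exec.inc r σ hr).bound (m + 1) hσ
    have hM : 0 < M := by omega
    have hW : 0 < M ^ (m + 1) := pow_pos hM _
    have h1 := exec_rots σ hσ 0 (r + 1)
    rw [Nat.zero_add] at h1
    have h2 : VExec (M ^ (m + 1)) (.add (M ^ m) 0) (stt M m (r + 1) σ, 0)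
        (stt M m (r + 1) (update σ r (σ r + 1)), 0) := by
      have e : stt M m (r + 1) (update σ r (σ r + 1)) = stt M m (r + 1) σ + M ^ m := by
        rw [stt_update hr', stt_top hr' σ]
        ring
      rw [e]
      exact VExec.add (M ^ m) 0 (stt M m (r + 1) σ, 0) (stt_lt hσ) hW
    have h3 := exec_rots (update σ r (σ r + 1)) hσ' (r + 1) (m - r)
    rw [show r + 1 + (m - r) = m + 1 by omega, stt_cycle] at h3
    exact VExec.seq h1 (VExec.seq h2 h3)
  | @seq c d σ σ' σ'' e1 e2 h1 h2 =>
    have b1 := e1.bound (m + 1) hσ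
    have b2 := e2.bound (m + 1) b1
    exact VExec.seq ((h1 hc.1 hσ).exec hc.1 hσ b1) ((h2 hc.2 b1).exec hc.2 b1 b2)
  | @done r c σ hr0 =>
    have hr : r < m + 1 := hc.1
    have hM : 0 < M := lt_of_le_of_lt (Nat.zero_le _) (hσ r hr)
    have hW : 0 < M ^ (m + 1) := pow_pos hM _
    refine VExec.done (stt_lt hσ) hW ?_
    change stt M m (r + 1) σ < M ^ m
    have := stt_top_lt hr hσ
    rw [stt_top hr σ, hr0, Nat.zero_mul, Nat.add_zero]
    exact this
  | @step r c σ σ' σ'' hr0 e1 e2 h1 h2 =>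
    have hr : r < m + 1 := hc.1
    have hM : 0 < M := lt_of_le_of_lt (Nat.zero_le _) (hσ r hr)
    have hW : 0 < M ^ (m + 1) := pow_pos hM _
    have b0 : ∀ i, i < m + 1 → update σ r (σ r - 1) i < M := by
      intro i hi
      by_cases h : i = r
      · subst h
        rw [update_self]
        have := hσ i hi
        omega
      · rw [update_of_ne h]
        exact hσ i hi
    have b1 := e1.bound (m + 1) b0
    have b2 := e2.bound (m + 1) b1
    have k1 := (h1 hc.2 b0).exec hc.2 b0 b1
    have k2 : PSpec M m (.loop r c) σ' σ'' := h2 hc b1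
    have e : stt M m (r + 1) σ = stt M m (r + 1) (update σ r (σ r - 1)) + M ^ m := by
      rw [stt_update hr, stt_top hr σ]
      have : σ r * M ^ m = (σ r - 1) * M ^ m + M ^ m := by
        obtain ⟨y, hy⟩ : ∃ y, σ r = y + 1 := ⟨σ r - 1, by omega⟩
        rw [hy, Nat.add_sub_cancel]
        ring
      omega
    have h3 := exec_rots (update σ r (σ r - 1)) b0 (r + 1) (m - r)
    rw [show r + 1 + (m - r) = m + 1 by omega, stt_cycle] at h3
    have h5 := exec_rots σ' b1 0 (r + 1)
    rw [Nat.zero_add] at h5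
    refine VExec.step (u := (stt M m (r + 1) σ, 0)) (stt_lt hσ) hW ?_
      (VExec.seq (c := rots M m (m - r)) ?_ (VExec.seq k1 h5)) k2
    · change M ^ m ≤ stt M m (r + 1) σ
      omega
    · have e2 : ((subc false (M ^ m) (stt M m (r + 1) σ, 0)).1 + 0,
          (subc false (M ^ m) (stt M m (r + 1) σ, 0)).2 + 0) =
          ((stt M m (r + 1) (update σ r (σ r - 1)), 0) : ℕ × ℕ) := by
        unfold subc
        simp only [Bool.false_eq_true, if_false, Nat.sub_zero, Nat.add_zero]
        rw [e, Nat.add_sub_cancel]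
      rw [e2]
      exact h3

/-- The translation is correct. -/
theorem pack_exec {M m : ℕ} {c : Cmd} {σ σ' : ℕ → ℕ} (h : Exec M c σ σ') (hc : c.lt (m + 1))
    (hσ : ∀ i, i < m + 1 → σ i < M) :
    VExec (M ^ (m + 1)) (pack M m c) (stt M m 0 σ, 0) (stt M m 0 σ', 0) :=
  (pspec h hc hσ).exec hc hσ (h.bound (m + 1) hσ)

theorem stt_zero (M m : ℕ) (σ : ℕ → ℕ) : stt M m 0 σ = val M m σ := by
  unfold stt val
  refine Finset.sum_congr rfl fun j hj => ?_
  rw [Finset.mem_range] at hj
  change σ ((j + 0) % (m + 1)) * M ^ j = _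
  rw [Nat.add_zero, Nat.mod_eq_of_lt hj]

end Pool.Agent.PTr
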