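import Mathlib
import Pool.Agent.PTr.BVcmd

/-!
Flat programs: lists of branches. A branch moves the box with lower corner `lo` and size `sz` of
the layer `src` by a translation to the box with lower corner `im` of the layer `tgt`.
-/

set_option autoImplicit false

namespace Pool.Agent.PTr

/-- A branch. -/
structure Br (P : Type) where
  src : ℕ
  tgt : ℕ
  lo0 : P
  lo1 : P
  sz0 : P
  sz1 : P
  im0 : P
  im1 : P

/-- Transport along a map of the parameters. -/
def Br.map {P Q : Type} (f : P → Q) (β : Br P) : Br Q :=
  ⟨β.src, β.tgt, f β.lo0, f β.lo1, f β.sz0, f β.sz1, f β.im0, f β.im1⟩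

/-- The point `(q, x, y)` is in the domain of the branch. -/
def Br.dom (β : Br ℕ) (p : ℕ × ℕ × ℕ) : Prop :=
  p.1 = β.src ∧ (β.lo0 ≤ p.2.1 ∧ p.2.1 < β.lo0 + β.sz0) ∧
    (β.lo1 ≤ p.2.2 ∧ p.2.2 < β.lo1 + β.sz1)

instance (β : Br ℕ) (p : ℕ × ℕ × ℕ) : Decidable (β.dom p) := by
  unfold Br.dom
  infer_instance

/-- The image of a point. -/
def Br.app (β : Br ℕ) (p : ℕ × ℕ × ℕ) : ℕ × ℕ × ℕ :=
  (β.tgt, p.2.1 - β.lo0 + β.im0, p.2.2 - β.lo1 + β.im1)

/-- The domains of two branches are disjoint. -/
def Br.Disj (β β' : Br ℕ) : Prop := ∀ p, ¬ (β.dom p ∧ β'.dom p)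

/-- One step of a flat program. -/
def BStep (B : List (Br ℕ)) (p p' : ℕ × ℕ × ℕ) : Prop := ∃ β ∈ B, β.dom p ∧ p' = β.app p

/-- The number of layers of the translation. -/
def VCmd.len {P : Type} : VCmd P → ℕ
  | .skip => 0
  | .add _ _ => 1
  | .seq c d => c.len + d.len
  | .loop _ _ _ _ c => c.len + 2

/-- The translation of a command, starting with the layer `q`. -/
def VCmd.code {P : Type} [Zero P] (W : P) : VCmd P → ℕ → List (Br P)
  | .skip, _ => []
  | .add s0 s1, q => [⟨q, q + 1, 0, 0, W, W, s0, s1⟩]
  | .seq c d, q => c.code W q ++ d.code W (q + c.len)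
  | .loop al tau s0 s1 c, q =>
      ⟨q, q + 1, if al then 0 else tau, if al then tau else 0, W, W, s0, s1⟩ ::
      ⟨q, q + c.len + 2, 0, 0, if al then W else tau, if al then tau else W, 0, 0⟩ ::
      (c.code W (q + 1) ++ [⟨q + c.len + 1, q, 0, 0, W, W, 0, 0⟩])

theorem code_src {P : Type} [Zero P] (W : P) (c : VCmd P) : ∀ (q : ℕ) (β : Br P),
    β ∈ c.code W q → q ≤ β.src ∧ β.src < q + c.len ∧ β.tgt ≤ q + c.len := by
  induction c with
  | skip => intro q β hβ; simp [VCmd.code] at hβ
  | add s0 s1 =>
    intro q β hβ
    simp only [VCmd.code, List.mem_singleton] at hβ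
    subst hβ
    simp only [VCmd.len]
    omega
  | seq c d hc hd =>
    intro q β hβ
    simp only [VCmd.code, List.mem_append] at hβ
    simp only [VCmd.len]
    rcases hβ with h | h
    · have := hc q β h
      omega
    · have := hd _ β h
      omega
  | loop al tau s0 s1 c hc =>
    intro q β hβ
    simp only [VCmd.code, List.mem_cons, List.mem_append] at hβ
    simp only [VCmd.len]
    rcases hβ with h | h | h | h | h
    · subst h
      dsimp only
      omega
    · subst h
      dsimp only
      omega
    · have := hc _ β h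
      omega
    · subst h
      dsimp only
      omega
    · simp at h

theorem disj_src {β β' : Br ℕ} (h : β.src ≠ β'.src) : β.Disj β' := by
  rintro p ⟨h1, h2⟩
  exact h (h1.1.symm.trans h2.1)

theorem code_disj (W : ℕ) (c : VCmd ℕ) : ∀ q : ℕ, (c.code W q).Pairwise Br.Disj := by
  induction c with
  | skip => intro q; simp [VCmd.code]
  | add s0 s1 => intro q; simp [VCmd.code]
  | seq c d hc hd =>
    intro q
    simp only [VCmd.code]
    rw [List.pairwise_append]
    refine ⟨hc q, hd _, fun β hβ β' hβ' => disj_src ?_⟩
    have h1 := code_src W c q β hβ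
    have h2 := code_src W d _ β' hβ'
    omega
  | loop al tau s0 s1 c hc =>
    intro q
    simp only [VCmd.code]
    rw [List.pairwise_cons, List.pairwise_cons, List.pairwise_append]
    refine ⟨?_, ?_, hc _, List.pairwise_singleton _ _, ?_⟩
    · intro β hβ
      simp only [List.mem_cons, List.mem_append] at hβ
      rcases hβ with h | h | h | h
      · subst h
        rintro p ⟨⟨-, h1, h2⟩, ⟨-, h3, h4⟩⟩
        dsimp only at h1 h2 h3 h4
        cases al
        · simp only [Bool.false_eq_true, if_false] at h1 h2 h3 h4
          omega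
        · simp only [if_true] at h1 h2 h3 h4
          omega
      · refine disj_src ?_
        have := code_src W c _ β h
        dsimp only
        omega
      · subst h
        refine disj_src ?_
        dsimp only
        omega
      · simp at h
    · intro β hβ
      simp only [List.mem_append, List.mem_cons] at hβ
      rcases hβ with h | h | h
      · refine disj_src ?_
        have := code_src W c _ β h
        dsimp only
        omega
      · subst h
        refine disj_src ?_
        dsimp only
        omega
      · simp at h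
    · intro β hβ β' hβ'
      simp only [List.mem_singleton] at hβ'
      subst hβ'
      refine disj_src ?_
      have := code_src W c _ β hβ
      dsimp only
      omega

theorem VExec.start {W : ℕ} {al : Bool} {tau s0 s1 : ℕ} {c : VCmd ℕ} {u u' : ℕ × ℕ}
    (h : VExec W (.loop al tau s0 s1 c) u u') : u.1 < W ∧ u.2 < W := by
  cases h with
  | done h1 h2 _ => exact ⟨h1, h2⟩
  | step h1 h2 _ _ _ => exact ⟨h1, h2⟩

open Relation in
/-- The flat program simulates the command. -/
theorem code_exec {W : ℕ} {c : VCmd ℕ} {u u' : ℕ × ℕ} (h : VExec W c u u') :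
    ∀ (q : ℕ) (B : List (Br ℕ)), (∀ β, β ∈ c.code W q → β ∈ B) →
      ReflTransGen (BStep B) (q, u) (q + c.len, u') := by
  induction h with
  | skip u => intro q B _; exact ReflTransGen.refl
  | add s0 s1 u h1 h2 =>
    intro q B hB
    refine ReflTransGen.single ⟨⟨q, q + 1, 0, 0, W, W, s0, s1⟩,
      hB _ (by simp only [VCmd.code, List.mem_singleton]),
      ⟨rfl, ⟨Nat.zero_le _, ?_⟩, ⟨Nat.zero_le _, ?_⟩⟩, ?_⟩
    · dsimp only
      omega
    · dsimp only
      omega
    · simp only [Br.app, Nat.sub_zero, VCmd.len]
  | seq _ _ ih1 ih2 =>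
    intro q B hB
    simp only [VCmd.code, List.mem_append] at hB
    simp only [VCmd.len]
    rw [← Nat.add_assoc]
    exact (ih1 q B fun β hβ => hB β (Or.inl hβ)).trans
      (ih2 _ B fun β hβ => hB β (Or.inr hβ))
  | @done al tau s0 s1 c u h1 h2 h3 =>
    intro q B hB
    simp only [VCmd.code, List.mem_cons] at hB
    refine ReflTransGen.single ⟨_, hB _ (Or.inr (Or.inl rfl)), ⟨rfl, ⟨Nat.zero_le _, ?_⟩,
      ⟨Nat.zero_le _, ?_⟩⟩, ?_⟩
    · cases al
      · simp only [co, Bool.false_eq_true, if_false] at h3 ⊢
        omega
      · simp only [co, if_true] at h3 ⊢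
        omega
    · cases al
      · simp only [co, Bool.false_eq_true, if_false] at h3 ⊢
        omega
      · simp only [co, if_true] at h3 ⊢
        omega
    · simp only [Br.app, Nat.sub_zero, Nat.add_zero, VCmd.len]
      rfl
  | @step al tau s0 s1 c u u' u'' h1 h2 h3 _ hl ih1 ih2 =>
    intro q B hB
    have hB' := hB
    simp only [VCmd.code, List.mem_cons, List.mem_append] at hB
    have r1 : ReflTransGen (BStep B) (q, u)
        (q + 1, ((subc al tau u).1 + s0, (subc al tau u).2 + s1)) := by
      refine ReflTransGen.single ⟨_, hB _ (Or.inl rfl), ⟨rfl, ⟨?_, ?_⟩, ⟨?_, ?_⟩⟩, ?_⟩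
      · cases al
        · simp only [co, Bool.false_eq_true, if_false] at h3 ⊢
          exact h3
        · simp only [if_true]
          exact Nat.zero_le _
      · cases al
        · simp only [Bool.false_eq_true, if_false]
          omega
        · simp only [if_true]
          omega
      · cases al
        · simp only [Bool.false_eq_true, if_false]
          exact Nat.zero_le _
        · simp only [co, if_true] at h3 ⊢
          exact h3
      · cases al
        · simp only [Bool.false_eq_true, if_false]
          omega
        · simp only [if_true]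
          omega
      · simp only [Br.app, subc]
    have r2 := ih1 (q + 1) B fun β hβ => hB β (Or.inr (Or.inr (Or.inl hβ)))
    have r3 : ReflTransGen (BStep B) (q + 1 + c.len, u') (q, u') := by
      refine ReflTransGen.single ⟨_, hB _ (Or.inr (Or.inr (Or.inr (Or.inl rfl)))),
        ⟨?_, ⟨Nat.zero_le _, ?_⟩, ⟨Nat.zero_le _, ?_⟩⟩, ?_⟩
      · dsimp only
        omega
      · have := hl.start.1
        dsimp only
        omega
      · have := hl.start.2
        dsimp only
        omega
      · simp only [Br.app, Nat.sub_zero, Nat.add_zero]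
    exact r1.trans (r2.trans (r3.trans (ih2 q B hB')))

end Pool.Agent.PTr
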