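import Mathlib
import Pool.Agent.PTr.BFlat

/-!
The Euler tour of a flat program with `k` branches on `L` layers, as a piecewise translation with
boundedly many boxes of `[0, N)^2`, `N = L * (k + 1) * V`. The points `(q, i, x, y)`, `q < L`,
`i ≤ k`, `x, y < V`, are placed at `((q * (k + 1) + i) * V + x, y)`.
-/

set_option autoImplicit false

namespace Pool.Agent.PTr

/-- Indices of the boxes. -/
abbrev BIx (L k : ℕ) : Type := (Fin L × Fin (k + 1)) ⊕ (Fin k ⊕ Fin k)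

/-- Lower corners of the boxes. -/
def bA {P : Type} [CommSemiring P] {L k : ℕ} (V : P) (β : Fin k → Br P) : BIx L k → P × P
  | .inl (q, i) => (((q * (k + 1) + i : ℕ) : P) * V, 0)
  | .inr (.inl j) => ((((β j).tgt * (k + 1) + j : ℕ) : P) * V + (β j).im0, (β j).im1)
  | .inr (.inr j) => ((((β j).src * (k + 1) + k : ℕ) : P) * V + (β j).lo0, (β j).lo1)

/-- Upper corners of the boxes. -/
def bB {P : Type} [CommSemiring P] {L k : ℕ} (V : P) (β : Fin k → Br P) : BIx L k → P × P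
  | .inl (q, i) => (((q * (k + 1) + i + 1 : ℕ) : P) * V, V)
  | .inr (.inl j) => ((((β j).tgt * (k + 1) + j : ℕ) : P) * V + ((β j).im0 + (β j).sz0),
      (β j).im1 + (β j).sz1)
  | .inr (.inr j) => ((((β j).src * (k + 1) + k : ℕ) : P) * V + ((β j).lo0 + (β j).sz0),
      (β j).lo1 + (β j).sz1)

/-- Translations of the boxes; `N1 = N - 1`. -/
def bC {P : Type} [CommSemiring P] {L k : ℕ} (V N1 : P) (β : Fin k → Br P) : BIx L k → P × P
  | .inl (_, i) => (if (i : ℕ) < k then V else ((L * (k + 1) - k : ℕ) : P) * V, 0)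
  | .inr (.inl j) => ((((β j).src * (k + 1) : ℕ) : P) * V + (β j).lo0 +
      N1 * ((β j).im0 + (((β j).tgt * (k + 1) + j + 1 : ℕ) : P) * V),
      (β j).lo1 + N1 * (β j).im1)
  | .inr (.inr j) => ((((β j).tgt * (k + 1) + j + 1 : ℕ) : P) * V + (β j).im0 +
      N1 * ((β j).lo0 + (((β j).src * (k + 1) + k : ℕ) : P) * V) + (k : P) * V,
      (β j).im1 + N1 * (β j).lo1)

/-- Membership in a box. -/
def inb (a b u : ℕ × ℕ) : Prop := a.1 ≤ u.1 ∧ u.1 < b.1 ∧ a.2 ≤ u.2 ∧ u.2 < b.2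

instance (a b u : ℕ × ℕ) : Decidable (inb a b u) := by
  unfold inb
  infer_instance

/-- The sum of the translations of the boxes containing `u`, modulo `N`. -/
def pmap {ι : Type} [Fintype ι] (N : ℕ) (a b c : ι → ℕ × ℕ) (u : ℕ × ℕ) : ℕ × ℕ :=
  ((u.1 + ∑ i, if inb (a i) (b i) u then (c i).1 else 0) % N,
    (u.2 + ∑ i, if inb (a i) (b i) u then (c i).2 else 0) % N)

/-- The conditions on the branches. -/
structure Good (L V k : ℕ) (β : Fin k → Br ℕ) : Prop where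
  src : ∀ j, (β j).src < L
  tgt : ∀ j, (β j).tgt < L
  lo0 : ∀ j, (β j).lo0 + (β j).sz0 ≤ V
  lo1 : ∀ j, (β j).lo1 + (β j).sz1 ≤ V
  im0 : ∀ j, (β j).im0 + (β j).sz0 ≤ V
  im1 : ∀ j, (β j).im1 + (β j).sz1 ≤ V
  disj : ∀ i j, i ≠ j → (β i).Disj (β j)

/-- The image box. -/
def Br.img (β : Br ℕ) (p : ℕ × ℕ × ℕ) : Prop :=
  p.1 = β.tgt ∧ (β.im0 ≤ p.2.1 ∧ p.2.1 < β.im0 + β.sz0) ∧
    (β.im1 ≤ p.2.2 ∧ p.2.2 < β.im1 + β.sz1)

instance (β : Br ℕ) (p : ℕ × ℕ × ℕ) : Decidable (β.img p) := by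
  unfold Br.img
  infer_instance

/-- The inverse translation. -/
def Br.inv (β : Br ℕ) (p : ℕ × ℕ × ℕ) : ℕ × ℕ × ℕ :=
  (β.src, p.2.1 - β.im0 + β.lo0, p.2.2 - β.im1 + β.lo1)

/-- The place of the point `(p, i)`. -/
def plc (k V i : ℕ) (p : ℕ × ℕ × ℕ) : ℕ × ℕ := ((p.1 * (k + 1) + i) * V + p.2.1, p.2.2)

theorem layer_iff {V l l' A S x : ℕ} (hA : A + S ≤ V) (hx : x < V) :
    (l' * V + A ≤ l * V + x ∧ l * V + x < l' * V + (A + S)) ↔ l' = l ∧ A ≤ x ∧ x < A + S := by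
  constructor
  · rintro ⟨h1, h2⟩
    have h : l' = l := by
      rcases lt_trichotomy l' l with h | h | h
      · have : (l' + 1) * V ≤ l * V := Nat.mul_le_mul_right _ h
        rw [Nat.add_mul, Nat.one_mul] at this
        omega
      · exact h
      · have : (l + 1) * V ≤ l' * V := Nat.mul_le_mul_right _ h
        rw [Nat.add_mul, Nat.one_mul] at this
        omega
    subst h
    omega
  · rintro ⟨rfl, h1, h2⟩
    omega

theorem lay_inj {k q q' i i' : ℕ} (hi : i ≤ k) (hi' : i' ≤ k)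
    (h : q * (k + 1) + i = q' * (k + 1) + i') : q = q' ∧ i = i' := by
  have h1 : q = q' := by
    rcases lt_trichotomy q q' with h' | h' | h'
    · have : (q + 1) * (k + 1) ≤ q' * (k + 1) := Nat.mul_le_mul_right _ h'
      rw [Nat.add_mul, Nat.one_mul] at this
      omega
    · exact h'
    · have : (q' + 1) * (k + 1) ≤ q * (k + 1) := Nat.mul_le_mul_right _ h'
      rw [Nat.add_mul, Nat.one_mul] at this
      omega
  subst h1
  omega

section

variable {L V k : ℕ} {β : Fin k → Br ℕ}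

theorem in_inl {p : ℕ × ℕ × ℕ} {i : ℕ} (hi : i ≤ k) (hx : p.2.1 < V) (hy : p.2.2 < V)
    (a : Fin L × Fin (k + 1)) :
    inb (bA (L := L) V β (.inl a)) (bB (L := L) V β (.inl a)) (plc k V i p) ↔
      (a.1 : ℕ) = p.1 ∧ (a.2 : ℕ) = i := by
  obtain ⟨q, i'⟩ := a
  have h := layer_iff (V := V) (l := p.1 * (k + 1) + i) (l' := (q : ℕ) * (k + 1) + i') (A := 0)
    (S := V) (x := p.2.1) (by omega) hx
  simp only [inb, bA, bB, plc, Nat.cast_id]
  have e : ((q : ℕ) * (k + 1) + i' + 1) * V = ((q : ℕ) * (k + 1) + i') * V + (0 + V) := by ring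
  rw [Nat.add_zero] at h
  constructor
  · rintro ⟨h1, h2, -, -⟩
    rw [e] at h2
    have h3 := (h.1 ⟨h1, h2⟩).1
    exact lay_inj (by omega) hi h3
  · rintro ⟨h1, h2⟩
    rw [e]
    have h3 := h.2 ⟨by rw [h1, h2], Nat.zero_le _, by omega⟩
    exact ⟨h3.1, h3.2, Nat.zero_le _, hy⟩

theorem in_down (G : Good L V k β) {p : ℕ × ℕ × ℕ} {i : ℕ} (hi : i ≤ k) (hx : p.2.1 < V)
    (j : Fin k) :
    inb (bA (L := L) V β (.inr (.inl j))) (bB (L := L) V β (.inr (.inl j))) (plc k V i p) ↔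
      (j : ℕ) = i ∧ (β j).img p := by
  have h := layer_iff (V := V) (l := p.1 * (k + 1) + i) (l' := (β j).tgt * (k + 1) + j)
    (A := (β j).im0) (S := (β j).sz0) (x := p.2.1) (G.im0 j) hx
  simp only [inb, bA, bB, plc, Nat.cast_id, Br.img]
  constructor
  · rintro ⟨h1, h2, h3, h4⟩
    obtain ⟨h5, h6⟩ := h.1 ⟨h1, h2⟩
    obtain ⟨h7, h8⟩ := lay_inj (by omega) hi h5
    exact ⟨h8, h7.symm, h6, h3, h4⟩
  · rintro ⟨h1, h2, h3, h4, h5⟩
    have h6 := h.2 ⟨by rw [h1, h2], h3⟩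
    exact ⟨h6.1, h6.2, h4, h5⟩

theorem in_up (G : Good L V k β) {p : ℕ × ℕ × ℕ} {i : ℕ} (hi : i ≤ k) (hx : p.2.1 < V)
    (j : Fin k) :
    inb (bA (L := L) V β (.inr (.inr j))) (bB (L := L) V β (.inr (.inr j))) (plc k V i p) ↔
      i = k ∧ (β j).dom p := by
  have h := layer_iff (V := V) (l := p.1 * (k + 1) + i) (l' := (β j).src * (k + 1) + k)
    (A := (β j).lo0) (S := (β j).sz0) (x := p.2.1) (G.lo0 j) hx
  simp only [inb, bA, bB, plc, Nat.cast_id, Br.dom]
  constructor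
  · rintro ⟨h1, h2, h3, h4⟩
    obtain ⟨h5, h6⟩ := h.1 ⟨h1, h2⟩
    obtain ⟨h7, h8⟩ := lay_inj le_rfl hi h5
    exact ⟨h8.symm, h7.symm, h6, h3, h4⟩
  · rintro ⟨h1, h2, h3, h4, h5⟩
    have h6 := h.2 ⟨by rw [h1, h2], h3⟩
    exact ⟨h6.1, h6.2, h4, h5⟩

/-- The map. -/
def tau (L V k : ℕ) (β : Fin k → Br ℕ) : ℕ × ℕ → ℕ × ℕ :=
  pmap (L * (k + 1) * V) (bA (L := L) V β) (bB (L := L) V β)
    (bC (L := L) V (L * (k + 1) * V - 1) β)

theorem tau_eq {p : ℕ × ℕ × ℕ} {i : ℕ} (G : Good L V k β) (hp : p.1 < L) (hi : i ≤ k)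
    (hx : p.2.1 < V) (hy : p.2.2 < V) (c : BIx L k → ℕ × ℕ)
    (hc : c = bC (L := L) V (L * (k + 1) * V - 1) β) :
    tau L V k β (plc k V i p) =
      (((plc k V i p).1 + ((c (.inl (⟨p.1, hp⟩, ⟨i, Nat.lt_succ_of_le hi⟩))).1 +
        ((∑ j : Fin k, if (j : ℕ) = i ∧ (β j).img p then (c (.inr (.inl j))).1 else 0) +
          ∑ j : Fin k, if i = k ∧ (β j).dom p then (c (.inr (.inr j))).1 else 0))) %
          (L * (k + 1) * V),
        ((plc k V i p).2 + ((c (.inl (⟨p.1, hp⟩, ⟨i, Nat.lt_succ_of_le hi⟩))).2 +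
        ((∑ j : Fin k, if (j : ℕ) = i ∧ (β j).img p then (c (.inr (.inl j))).2 else 0) +
          ∑ j : Fin k, if i = k ∧ (β j).dom p then (c (.inr (.inr j))).2 else 0))) %
          (L * (k + 1) * V)) := by
  subst hc
  have key : ∀ f : BIx L k → ℕ, (∑ a, if inb (bA (L := L) V β a) (bB (L := L) V β a)
      (plc k V i p) then f a else 0) = f (.inl (⟨p.1, hp⟩, ⟨i, Nat.lt_succ_of_le hi⟩)) +
        ((∑ j : Fin k, if (j : ℕ) = i ∧ (β j).img p then f (.inr (.inl j)) else 0) +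
          ∑ j : Fin k, if i = k ∧ (β j).dom p then f (.inr (.inr j)) else 0) := by
    intro f
    rw [Fintype.sum_sum_type, Fintype.sum_sum_type]
    congr 1
    · rw [Finset.sum_eq_single (⟨p.1, hp⟩, ⟨i, Nat.lt_succ_of_le hi⟩)]
      · rw [if_pos ((in_inl hi hx hy _).2 ⟨rfl, rfl⟩)]
      · intro a _ ha
        rw [if_neg]
        intro h
        obtain ⟨h1, h2⟩ := (in_inl hi hx hy a).1 h
        exact ha (Prod.ext (Fin.ext h1) (Fin.ext h2))
      · intro h
        exact absurd (Finset.mem_univ _) h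
    · congr 1
      · refine Finset.sum_congr rfl fun j _ => ?_
        by_cases h : (j : ℕ) = i ∧ (β j).img p
        · rw [if_pos h, if_pos ((in_down G hi hx j).2 h)]
        · rw [if_neg h, if_neg fun h' => h ((in_down G hi hx j).1 h')]
      · refine Finset.sum_congr rfl fun j _ => ?_
        by_cases h : i = k ∧ (β j).dom p
        · rw [if_pos h, if_pos ((in_up G hi hx j).2 h)]
        · rw [if_neg h, if_neg fun h' => h ((in_up G hi hx j).1 h')]
  unfold tau pmap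
  rw [key, key]

theorem mod_eq {a N t c : ℕ} (h : a = t + N * c) (ht : t < N) : a % N = t := by
  rw [h, Nat.add_mul_mod_self_left, Nat.mod_eq_of_lt ht]

theorem place_lt {q i x : ℕ} (hq : q < L) (hi : i ≤ k) (hx : x < V) :
    (q * (k + 1) + i) * V + x < L * (k + 1) * V := by
  have h1 : (q + 1) * (k + 1) ≤ L * (k + 1) := Nat.mul_le_mul_right _ hq
  have h2 : q * (k + 1) + i + 1 ≤ L * (k + 1) := by
    rw [Nat.add_mul, Nat.one_mul] at h1
    omega
  have h3 := Nat.mul_le_mul_right V h2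
  rw [Nat.add_mul, Nat.one_mul] at h3
  omega

theorem V_le (hL : 0 < L) : V ≤ L * (k + 1) * V :=
  Nat.le_mul_of_pos_left V (Nat.mul_pos hL (Nat.succ_pos k))

/-- Down. -/
theorem tau_down (G : Good L V k β) (j : Fin k) {p : ℕ × ℕ × ℕ} (hp : (β j).img p) :
    tau L V k β (plc k V j p) = plc k V 0 ((β j).inv p) := by
  obtain ⟨hq, ⟨hx1, hx2⟩, ⟨hy1, hy2⟩⟩ := hp
  have hj := j.isLt
  have g1 := G.im0 j
  have g2 := G.im1 j
  have g3 := G.lo0 j
  have g4 := G.lo1 j
  have g5 := G.src j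
  have g6 := G.tgt j
  have hV : 0 < V := by omega
  have hL : 0 < L := by omega
  have hN : 0 < L * (k + 1) * V := Nat.mul_pos (Nat.mul_pos hL (Nat.succ_pos k)) hV
  rw [tau_eq G (by omega) (by omega) (by omega) (by omega) _ rfl]
  obtain ⟨q, x, y⟩ := p
  dsimp only at hq hx1 hx2 hy1 hy2
  subst hq
  have s1 : ∀ f : Fin k → ℕ, (∑ j' : Fin k, if (j' : ℕ) = j ∧
      (β j').img ((β j).tgt, x, y) then f j' else 0) = f j := by
    intro f
    rw [Finset.sum_eq_single j, if_pos]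
    · exact ⟨rfl, rfl, ⟨hx1, hx2⟩, ⟨hy1, hy2⟩⟩
    · intro j' _ hj'
      rw [if_neg]
      exact fun h => hj' (Fin.ext h.1)
    · intro h
      exact absurd (Finset.mem_univ _) h
  have s2 : ∀ f : Fin k → ℕ, (∑ j' : Fin k, if (j : ℕ) = k ∧
      (β j').dom ((β j).tgt, x, y) then f j' else 0) = 0 := by
    intro f
    refine Finset.sum_eq_zero fun j' _ => ?_
    rw [if_neg]
    intro h
    omega
  rw [s1, s1, s2, s2]
  unfold plc Br.inv
  dsimp only [bC]
  rw [if_pos hj]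
  simp only [Nat.cast_id]
  generalize hNN : L * (k + 1) * V = N at *
  obtain ⟨N1, rfl⟩ : ∃ N1, N = N1 + 1 := ⟨N - 1, by omega⟩
  obtain ⟨dx, rfl⟩ : ∃ d, x = (β j).im0 + d := ⟨x - (β j).im0, by omega⟩
  obtain ⟨dy, rfl⟩ : ∃ d, y = (β j).im1 + d := ⟨y - (β j).im1, by omega⟩
  rw [Nat.add_sub_cancel, Nat.add_sub_cancel_left, Nat.add_sub_cancel_left]
  refine Prod.ext ?_ ?_
  · dsimp only
    refine mod_eq (c := (β j).im0 + ((β j).tgt * (k + 1) + j + 1) * V) ?_ ?_
    · ring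
    · have := place_lt (V := V) (L := L) (k := k) (i := 0) (x := dx + (β j).lo0) g5 (by omega)
        (by omega)
      rw [hNN] at this
      exact this
  · dsimp only
    refine mod_eq (c := (β j).im1) ?_ ?_
    · ring
    · have := V_le (V := V) (k := k) hL
      omega

/-- Nothing at the branch `i`. -/
theorem tau_next (G : Good L V k β) {i : ℕ} (hi : i < k) {p : ℕ × ℕ × ℕ} (hq : p.1 < L)
    (hx : p.2.1 < V) (hy : p.2.2 < V) (hn : ∀ j : Fin k, (j : ℕ) = i → ¬ (β j).img p) :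
    tau L V k β (plc k V i p) = plc k V (i + 1) p := by
  have hL : 0 < L := by omega
  rw [tau_eq G hq (by omega) hx hy _ rfl]
  have s1 : ∀ f : Fin k → ℕ, (∑ j' : Fin k, if (j' : ℕ) = i ∧
      (β j').img p then f j' else 0) = 0 := by
    intro f
    refine Finset.sum_eq_zero fun j' _ => ?_
    rw [if_neg]
    exact fun h => hn j' h.1 h.2
  have s2 : ∀ f : Fin k → ℕ, (∑ j' : Fin k, if i = k ∧
      (β j').dom p then f j' else 0) = 0 := by
    intro f
    refine Finset.sum_eq_zero fun j' _ => ?_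
    rw [if_neg]
    intro h
    omega
  rw [s1, s1, s2, s2]
  unfold plc
  dsimp only [bC]
  rw [if_pos hi]
  refine Prod.ext ?_ ?_
  · dsimp only
    refine mod_eq (c := 0) ?_ (place_lt hq (by omega) hx)
    ring
  · dsimp only
    refine mod_eq (c := 0) ?_ ?_
    · ring
    · have := V_le (V := V) (k := k) hL
      omega

/-- Up. -/
theorem tau_up (G : Good L V k β) (j : Fin k) {p : ℕ × ℕ × ℕ} (hp : (β j).dom p) :
    tau L V k β (plc k V k p) = plc k V (j + 1) ((β j).app p) := by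
  have hp' := hp
  obtain ⟨hq, ⟨hx1, hx2⟩, ⟨hy1, hy2⟩⟩ := hp
  have hj := j.isLt
  have g1 := G.im0 j
  have g2 := G.im1 j
  have g3 := G.lo0 j
  have g4 := G.lo1 j
  have g5 := G.src j
  have g6 := G.tgt j
  have hV : 0 < V := by omega
  have hL : 0 < L := by omega
  have hN : 0 < L * (k + 1) * V := Nat.mul_pos (Nat.mul_pos hL (Nat.succ_pos k)) hV
  rw [tau_eq G (by omega) le_rfl (by omega) (by omega) _ rfl]
  obtain ⟨q, x, y⟩ := p
  dsimp only at hq hx1 hx2 hy1 hy2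
  subst hq
  have s1 : ∀ f : Fin k → ℕ, (∑ j' : Fin k, if (j' : ℕ) = k ∧
      (β j').img ((β j).src, x, y) then f j' else 0) = 0 := by
    intro f
    refine Finset.sum_eq_zero fun j' _ => ?_
    rw [if_neg]
    intro h
    have := j'.isLt
    omega
  have s2 : ∀ f : Fin k → ℕ, (∑ j' : Fin k, if k = k ∧
      (β j').dom ((β j).src, x, y) then f j' else 0) = f j := by
    intro f
    rw [Finset.sum_eq_single j, if_pos]
    · exact ⟨rfl, hp'⟩
    · intro j' _ hj'
      rw [if_neg]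
      exact fun h => G.disj j' j hj' _ ⟨h.2, hp'⟩
    · intro h
      exact absurd (Finset.mem_univ _) h
  rw [s1, s1, s2, s2]
  unfold plc Br.app
  dsimp only [bC]
  rw [if_neg (lt_irrefl k)]
  simp only [Nat.cast_id]
  have hkL : k ≤ L * (k + 1) := by nlinarith
  obtain ⟨z, hz⟩ : ∃ z, L * (k + 1) = k + z := ⟨L * (k + 1) - k, by omega⟩
  have hNN : L * (k + 1) * V = k * V + z * V := by rw [hz]; ring
  have e1 : L * (k + 1) - k = z := by omega
  rw [e1]
  obtain ⟨N1, hN1⟩ : ∃ N1, L * (k + 1) * V = N1 + 1 := ⟨L * (k + 1) * V - 1, by omega⟩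
  have e2 : k * V + z * V = N1 + 1 := by rw [← hNN, hN1]
  obtain ⟨dx, rfl⟩ : ∃ d, x = (β j).lo0 + d := ⟨x - (β j).lo0, by omega⟩
  obtain ⟨dy, rfl⟩ : ∃ d, y = (β j).lo1 + d := ⟨y - (β j).lo1, by omega⟩
  rw [Nat.add_sub_cancel_left, Nat.add_sub_cancel_left]
  refine Prod.ext ?_ ?_
  · dsimp only
    refine mod_eq (c := (β j).lo0 + ((β j).src * (k + 1) + k) * V + 1) ?_
      (place_lt g6 (by omega) (by omega))
    rw [hN1, Nat.add_sub_cancel]
    have e3 : z * V = N1 + 1 - k * V := by omega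
    have e4 : k * V ≤ N1 + 1 := by omega
    calc ((β j).src * (k + 1) + k) * V + ((β j).lo0 + dx) +
          (z * V + (0 + (((β j).tgt * (k + 1) + ↑j + 1) * V + (β j).im0 +
            N1 * ((β j).lo0 + ((β j).src * (k + 1) + k) * V) + k * V)))
        = (((β j).tgt * (k + 1) + ↑j + 1) * V + (dx + (β j).im0)) +
          (N1 + 1) * ((β j).lo0 + ((β j).src * (k + 1) + k) * V) + (k * V + z * V) := by ring
      _ = _ := by rw [e2]; ring
  · dsimp only
    refine mod_eq (c := (β j).lo1) ?_ ?_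
    · rw [hN1, Nat.add_sub_cancel]
      ring
    · have := V_le (V := V) (k := k) hL
      omega

/-- The end of a computation. -/
theorem tau_stop (G : Good L V k β) {p : ℕ × ℕ × ℕ} (hq : p.1 < L)
    (hx : p.2.1 < V) (hy : p.2.2 < V) (hn : ∀ j : Fin k, ¬ (β j).dom p) :
    tau L V k β (plc k V k p) = plc k V 0 p := by
  have hL : 0 < L := by omega
  rw [tau_eq G hq le_rfl hx hy _ rfl]
  have s1 : ∀ f : Fin k → ℕ, (∑ j' : Fin k, if (j' : ℕ) = k ∧
      (β j').img p then f j' else 0) = 0 := by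
    intro f
    refine Finset.sum_eq_zero fun j' _ => ?_
    rw [if_neg]
    intro h
    have := j'.isLt
    omega
  have s2 : ∀ f : Fin k → ℕ, (∑ j' : Fin k, if k = k ∧
      (β j').dom p then f j' else 0) = 0 := by
    intro f
    refine Finset.sum_eq_zero fun j' _ => ?_
    rw [if_neg]
    exact fun h => hn j' h.2
  rw [s1, s1, s2, s2]
  unfold plc
  dsimp only [bC]
  rw [if_neg (lt_irrefl k)]
  have hkL : k ≤ L * (k + 1) := by nlinarith
  obtain ⟨z, hz⟩ : ∃ z, L * (k + 1) = k + z := ⟨L * (k + 1) - k, by omega⟩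
  have hNN : L * (k + 1) * V = k * V + z * V := by rw [hz]; ring
  have e1 : L * (k + 1) - k = z := by omega
  rw [e1]
  refine Prod.ext ?_ ?_
  · dsimp only
    refine mod_eq (c := 1) ?_ (place_lt hq (by omega) hx)
    rw [hNN]
    simp only [Nat.cast_id]
    ring
  · dsimp only
    refine mod_eq (c := 0) ?_ ?_
    · ring
    · have := V_le (V := V) (k := k) hL
      omega

/-- Above the strip. -/
theorem tau_above (G : Good L V k β) {u : ℕ × ℕ} (h1 : u.1 < L * (k + 1) * V)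
    (h2 : u.2 < L * (k + 1) * V) (h : V ≤ u.2) : tau L V k β u = u := by
  have hn : ∀ a : BIx L k, ¬ inb (bA (L := L) V β a) (bB (L := L) V β a) u := by
    intro a ha
    have h3 : (bB (L := L) V β a).2 ≤ V := by
      rcases a with a | a | a
      · exact le_rfl
      · exact G.im1 a
      · exact G.lo1 a
    have := ha.2.2.2
    omega
  unfold tau pmap
  refine Prod.ext ?_ ?_
  · dsimp only
    rw [Finset.sum_eq_zero fun a _ => if_neg (hn a), Nat.add_zero, Nat.mod_eq_of_lt h1]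
  · dsimp only
    rw [Finset.sum_eq_zero fun a _ => if_neg (hn a), Nat.add_zero, Nat.mod_eq_of_lt h2]

end

end Pool.Agent.PTr
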