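import Mathlib
import Pool.Agent.PTr.BBox

/-!
The Euler tour of a flat program is a permutation of `[0, N)^2`, and two points with the same
cycle are related to the reachability of a halting point.
-/

set_option autoImplicit false

namespace Pool.Agent.PTr

open Relation

/-- A map which is a permutation of a finite set is periodic there. -/
theorem exists_period {α : Type*} {f : α → α} {S : Set α} (hS : S.Finite) (hf : Set.BijOn f S S)
    {x : α} (hx : x ∈ S) : ∃ n, 0 < n ∧ f^[n] x = x := by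
  have hfin : Finite S := hS
  set g : S → S := hf.mapsTo.restrict f S S with hg
  have hinj : Function.Injective g := by
    intro a b hab
    have h1 : f a = f b := congrArg Subtype.val hab
    exact Subtype.ext (hf.injOn a.2 b.2 h1)
  have h1 := hinj.mem_periodicPts ⟨x, hx⟩
  obtain ⟨n, hn, hp⟩ := Function.mem_periodicPts.1 h1
  refine ⟨n, hn, ?_⟩
  have h2 : ∀ (n : ℕ) (y : S), ((g^[n] y : S) : α) = f^[n] (y : α) := by
    intro n
    induction n with
    | zero => intro y; rfl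
    | succ n ih =>
      intro y
      rw [Function.iterate_succ_apply, Function.iterate_succ_apply, ih]
      rfl
  have h3 := congrArg Subtype.val hp
  rw [h2] at h3
  exact h3

theorem orbit_symm {α : Type*} {f : α → α} {S : Set α} (hS : S.Finite) (hf : Set.BijOn f S S)
    {x y : α} (hx : x ∈ S) (h : ∃ t, f^[t] x = y) : ∃ t, f^[t] y = x := by
  obtain ⟨t, rfl⟩ := h
  obtain ⟨n, hn, hp⟩ := exists_period hS hf hx
  refine ⟨n * t - t + 0, ?_⟩
  rw [Nat.add_zero, ← Function.iterate_add_apply]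
  have h1 : n * t - t + t = n * t := by
    have : t ≤ n * t := Nat.le_mul_of_pos_left t hn
    omega
  rw [h1, Function.iterate_mul]
  exact Function.iterate_fixed hp t

section

variable {L V k : ℕ} {β : Fin k → Br ℕ}

/-- The points of the layers. -/
def inR (L V : ℕ) (p : ℕ × ℕ × ℕ) : Prop := p.1 < L ∧ p.2.1 < V ∧ p.2.2 < V

/-- One step of the flat program. -/
def FStep (β : Fin k → Br ℕ) (p p' : ℕ × ℕ × ℕ) : Prop := ∃ j, (β j).dom p ∧ p' = (β j).app p

theorem dom_inR (G : Good L V k β) {j : Fin k} {p : ℕ × ℕ × ℕ} (h : (β j).dom p) :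
    inR L V p := by
  obtain ⟨h1, ⟨h2, h3⟩, h4, h5⟩ := h
  have := G.src j
  have := G.lo0 j
  have := G.lo1 j
  exact ⟨by omega, by omega, by omega⟩

theorem img_inR (G : Good L V k β) {j : Fin k} {p : ℕ × ℕ × ℕ} (h : (β j).img p) :
    inR L V p := by
  obtain ⟨h1, ⟨h2, h3⟩, h4, h5⟩ := h
  have := G.tgt j
  have := G.im0 j
  have := G.im1 j
  exact ⟨by omega, by omega, by omega⟩

theorem app_img {b : Br ℕ} {p : ℕ × ℕ × ℕ} (h : b.dom p) : b.img (b.app p) := by
  obtain ⟨h1, ⟨h2, h3⟩, h4, h5⟩ := h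
  refine ⟨rfl, ⟨?_, ?_⟩, ?_, ?_⟩ <;> simp only [Br.app] <;> omega

theorem inv_dom {b : Br ℕ} {p : ℕ × ℕ × ℕ} (h : b.img p) : b.dom (b.inv p) := by
  obtain ⟨h1, ⟨h2, h3⟩, h4, h5⟩ := h
  refine ⟨rfl, ⟨?_, ?_⟩, ?_, ?_⟩ <;> simp only [Br.inv] <;> omega

theorem inv_app {b : Br ℕ} {p : ℕ × ℕ × ℕ} (h : b.dom p) : b.inv (b.app p) = p := by
  obtain ⟨h1, ⟨h2, h3⟩, h4, h5⟩ := h
  obtain ⟨q, x, y⟩ := p
  dsimp only at h1 h2 h3 h4 h5
  simp only [Br.inv, Br.app, Prod.mk.injEq]
  refine ⟨h1.symm, ?_, ?_⟩ <;> omega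

theorem app_inv {b : Br ℕ} {p : ℕ × ℕ × ℕ} (h : b.img p) : b.app (b.inv p) = p := by
  obtain ⟨h1, ⟨h2, h3⟩, h4, h5⟩ := h
  obtain ⟨q, x, y⟩ := p
  dsimp only at h1 h2 h3 h4 h5
  simp only [Br.inv, Br.app, Prod.mk.injEq]
  refine ⟨h1.symm, ?_, ?_⟩ <;> omega

theorem fstep_inR (G : Good L V k β) {p p' : ℕ × ℕ × ℕ} (h : FStep β p p') :
    inR L V p ∧ inR L V p' := by
  obtain ⟨j, h1, rfl⟩ := h
  exact ⟨dom_inR G h1, img_inR G (app_img h1)⟩

theorem fstep_det (G : Good L V k β) {p p' p'' : ℕ × ℕ × ℕ} (h : FStep β p p')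
    (h' : FStep β p p'') : p' = p'' := by
  obtain ⟨j, h1, rfl⟩ := h
  obtain ⟨j', h2, rfl⟩ := h'
  by_cases hj : j = j'
  · rw [hj]
  · exact absurd ⟨h1, h2⟩ (G.disj j j' hj p)

/-- The square. -/
def sq (N : ℕ) : Set (ℕ × ℕ) := {u | u.1 < N ∧ u.2 < N}

theorem sq_finite (N : ℕ) : (sq N).Finite := by
  have : sq N = ((Finset.range N ×ˢ Finset.range N : Finset (ℕ × ℕ)) : Set (ℕ × ℕ)) := by
    ext u
    simp [sq]
  rw [this]
  exact Finset.finite_toSet _

theorem plc_mem {p : ℕ × ℕ × ℕ} (hp : inR L V p) {i : ℕ} (hi : i ≤ k) :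
    plc k V i p ∈ sq (L * (k + 1) * V) :=
  ⟨place_lt hp.1 hi hp.2.1, hp.2.2.trans_le (V_le (by have := hp.1; omega))⟩

theorem exists_plc {u : ℕ × ℕ} (h1 : u.1 < L * (k + 1) * V) (h2 : u.2 < V) :
    ∃ p i, inR L V p ∧ i ≤ k ∧ u = plc k V i p := by
  have hV : 0 < V := by omega
  have h3 : u.1 / V < L * (k + 1) := Nat.div_lt_of_lt_mul (by rw [Nat.mul_comm]; exact h1)
  have h4 : u.1 / V / (k + 1) < L := Nat.div_lt_of_lt_mul (by rw [Nat.mul_comm]; exact h3)
  refine ⟨(u.1 / V / (k + 1), u.1 % V, u.2), u.1 / V % (k + 1), ⟨h4, Nat.mod_lt _ hV, h2⟩,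
    Nat.lt_succ_iff.1 (Nat.mod_lt _ (Nat.succ_pos k)), ?_⟩
  refine Prod.ext ?_ rfl
  change u.1 = (u.1 / V / (k + 1) * (k + 1) + u.1 / V % (k + 1)) * V + u.1 % V
  rw [Nat.div_add_mod', Nat.div_add_mod']

theorem plc_inj {p p' : ℕ × ℕ × ℕ} (hp : inR L V p) (hp' : inR L V p') {i i' : ℕ} (hi : i ≤ k)
    (hi' : i' ≤ k) (h : plc k V i p = plc k V i' p') : p = p' ∧ i = i' := by
  have h1 := congrArg Prod.fst h
  have h2 := congrArg Prod.snd h
  simp only [plc] at h1 h2
  have hV : 0 < V := by have := hp.2.1; omega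
  have h3 : p.1 * (k + 1) + i = p'.1 * (k + 1) + i' := by
    have e1 : ((p.1 * (k + 1) + i) * V + p.2.1) / V = p.1 * (k + 1) + i := by
      rw [Nat.mul_comm, Nat.mul_add_div hV, Nat.div_eq_of_lt hp.2.1, Nat.add_zero]
    have e2 : ((p'.1 * (k + 1) + i') * V + p'.2.1) / V = p'.1 * (k + 1) + i' := by
      rw [Nat.mul_comm, Nat.mul_add_div hV, Nat.div_eq_of_lt hp'.2.1, Nat.add_zero]
    rw [← e1, ← e2, h1]
  obtain ⟨h4, h5⟩ := lay_inj hi hi' h3
  rw [h3] at h1
  refine ⟨Prod.ext h4 (Prod.ext ?_ h2), h5⟩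
  omega

theorem tau_mapsTo (hN : 0 < L * (k + 1) * V) :
    Set.MapsTo (tau L V k β) (sq (L * (k + 1) * V)) (sq (L * (k + 1) * V)) := by
  intro u _
  exact ⟨Nat.mod_lt _ hN, Nat.mod_lt _ hN⟩

theorem tau_surjOn (G : Good L V k β) :
    Set.SurjOn (tau L V k β) (sq (L * (k + 1) * V)) (sq (L * (k + 1) * V)) := by
  intro u hu
  by_cases hV : V ≤ u.2
  · exact ⟨u, hu, tau_above G hu.1 hu.2 hV⟩
  obtain ⟨p, i, hp, hi, rfl⟩ := exists_plc hu.1 (not_le.1 hV)
  rcases i with _ | i
  · by_cases hd : ∃ j, (β j).dom p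
    · obtain ⟨j, hj⟩ := hd
      refine ⟨plc k V j ((β j).app p), plc_mem (img_inR G (app_img hj)) (by omega), ?_⟩
      rw [tau_down G j (app_img hj), inv_app hj]
    · exact ⟨plc k V k p, plc_mem hp le_rfl, tau_stop G hp.1 hp.2.1 hp.2.2
        fun j hj => hd ⟨j, hj⟩⟩
  · by_cases hd : (β ⟨i, by omega⟩).img p
    · refine ⟨plc k V k ((β ⟨i, by omega⟩).inv p), plc_mem (dom_inR G (inv_dom hd)) le_rfl, ?_⟩
      rw [tau_up G ⟨i, by omega⟩ (inv_dom hd), app_inv hd]
    · refine ⟨plc k V i p, plc_mem hp (by omega), tau_next G (by omega) hp.1 hp.2.1 hp.2.2 ?_⟩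
      intro j hj
      have : j = ⟨i, by omega⟩ := Fin.ext hj
      rw [this]
      exact hd

/-- The tour is a permutation of the square. -/
theorem tau_bijOn (G : Good L V k β) (hN : 0 < L * (k + 1) * V) :
    Set.BijOn (tau L V k β) (sq (L * (k + 1) * V)) (sq (L * (k + 1) * V)) := by
  set N := L * (k + 1) * V with hNd
  have hs : sq N = ((Finset.range N ×ˢ Finset.range N : Finset (ℕ × ℕ)) : Set (ℕ × ℕ)) := by
    ext u
    simp [sq]
  have h1 : Set.MapsTo (tau L V k β) (sq N) (sq N) := tau_mapsTo hN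
  have h2 : Set.SurjOn (tau L V k β) (sq N) (sq N) := tau_surjOn G
  refine ⟨h1, ?_, h2⟩
  rw [hs] at h1 h2 ⊢
  exact Finset.injOn_of_surjOn_of_card_le _ h1 h2 le_rfl

/-- The relation between the points which reach `z`. -/
theorem acyclic (G : Good L V k β) {z : ℕ × ℕ × ℕ} (hz : ∀ j, ¬ (β j).dom z)
    {p : ℕ × ℕ × ℕ} (h : ReflTransGen (FStep β) p z) : ¬ TransGen (FStep β) p p := by
  induction h using ReflTransGen.head_induction_on with
  | refl =>
    intro h
    obtain ⟨p', ⟨j, hj, -⟩, -⟩ := TransGen.head'_iff.1 h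
    exact hz j hj
  | head h1 _ ih =>
    intro h
    obtain ⟨p', h2, h3⟩ := TransGen.head'_iff.1 h
    have h4 := fstep_det G h1 h2
    subst h4
    exact ih (TransGen.tail' h3 h1)

/-- Points which reach the halting point `z` are in its cycle, for every invariant predicate. -/
theorem tour_inv (G : Good L V k β) {z : ℕ × ℕ × ℕ} (hz : ∀ j, ¬ (β j).dom z)
    (F : ℕ × ℕ → Prop) (hF : ∀ u ∈ sq (L * (k + 1) * V), (F (tau L V k β u) ↔ F u))
    {p : ℕ × ℕ × ℕ} (hp : inR L V p) (h : ReflTransGen (FStep β) p z) :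
    ∀ i, i ≤ k → (F (plc k V 0 p) ↔ F (plc k V i p)) := by
  set T := {p : ℕ × ℕ × ℕ // inR L V p ∧ ReflTransGen (FStep β) p z} with hT
  have hfin : Finite T := by
    have h1 : {p : ℕ × ℕ × ℕ | inR L V p ∧ ReflTransGen (FStep β) p z}.Finite := by
      refine Set.Finite.subset (Finset.finite_toSet
        (Finset.range L ×ˢ (Finset.range V ×ˢ Finset.range V))) ?_
      rintro ⟨q, x, y⟩ ⟨⟨h1, h2, h3⟩, -⟩
      simp only [Finset.coe_product, Finset.coe_range, Set.mem_prod, Set.mem_Iio]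
      exact ⟨h1, h2, h3⟩
    exact h1
  set r : T → T → Prop := fun a b => TransGen (FStep β) a.1 b.1 with hr
  have htr : IsTrans T r := ⟨fun a b c h1 h2 => TransGen.trans h1 h2⟩
  have hir : Std.Irrefl r := ⟨fun a h => acyclic G hz a.2.2 h⟩
  have hwf : WellFounded r := Finite.wellFounded_of_trans_of_irrefl r
  have key : ∀ a : T, ∀ i, i ≤ k → (F (plc k V 0 a.1) ↔ F (plc k V i a.1)) := by
    intro a
    induction a using hwf.induction with
    | _ a ih =>
      intro i
      induction i with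
      | zero => intro _; exact Iff.rfl
      | succ i ihi =>
        intro hi
        rw [ihi (by omega)]
        by_cases hd : (β ⟨i, by omega⟩).img a.1
        · set c := (β ⟨i, by omega⟩).inv a.1 with hc
          have hcd := inv_dom hd
          have hst : FStep β c a.1 := ⟨⟨i, by omega⟩, hcd, (app_inv hd).symm⟩
          have h1 := ih ⟨c, dom_inR G hcd, ReflTransGen.head hst a.2.2⟩ (TransGen.single hst) k
            le_rfl
          have h2 := hF _ (plc_mem (k := k) a.2.1 (i := i) (by omega))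
          have h3 : tau L V k β (plc k V i a.1) = plc k V 0 c :=
            tau_down G ⟨i, by omega⟩ hd
          rw [h3] at h2
          have h4 := hF _ (plc_mem (k := k) (dom_inR G hcd) (i := k) le_rfl)
          rw [tau_up G ⟨i, by omega⟩ hcd, app_inv hd] at h4
          exact h2.symm.trans (h1.trans h4.symm)
        · have h2 := hF _ (plc_mem (k := k) a.2.1 (i := i) (by omega))
          rw [tau_next G (by omega) a.2.1.1 a.2.1.2.1 a.2.1.2.2 (by
            intro j hj
            have : j = ⟨i, by omega⟩ := Fin.ext hj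
            rw [this]
            exact hd)] at h2
          exact h2.symm
  exact key ⟨p, hp, h⟩

theorem tour_reach (G : Good L V k β) {z : ℕ × ℕ × ℕ} (hz : ∀ j, ¬ (β j).dom z)
    (F : ℕ × ℕ → Prop) (hF : ∀ u ∈ sq (L * (k + 1) * V), (F (tau L V k β u) ↔ F u))
    {p : ℕ × ℕ × ℕ} (hp : inR L V p) (h : ReflTransGen (FStep β) p z) :
    F (plc k V 0 p) ↔ F (plc k V 0 z) := by
  induction h using ReflTransGen.head_induction_on with
  | refl => exact Iff.rfl
  | head h1 h2 ih =>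
    have h3 := (fstep_inR G h1).2
    rw [← ih h3]
    obtain ⟨j, hj, rfl⟩ := h1
    have h4 := tour_inv G hz F hF h3 h2 j (by omega)
    have h5 := hF _ (plc_mem (k := k) h3 (i := j) (by omega))
    rw [tau_down G j (app_img hj), inv_app hj] at h5
    exact h5.trans h4.symm

/-- A halting point `z` is reached from `p` if and only if both are in the same cycle. -/
theorem reach_iff (G : Good L V k β) {z : ℕ × ℕ × ℕ} (hzR : inR L V z)
    (hz : ∀ j, ¬ (β j).dom z) {p : ℕ × ℕ × ℕ} (hp : inR L V p) :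
    ReflTransGen (FStep β) p z ↔ ∃ t, (tau L V k β)^[t] (plc k V 0 p) = plc k V 0 z := by
  have hN : 0 < L * (k + 1) * V := Nat.mul_pos (Nat.mul_pos (by have := hp.1; omega)
    (Nat.succ_pos k)) (by have := hp.2.1; omega)
  have hb := tau_bijOn G hN
  constructor
  · intro h
    have h1 := tour_reach G hz (fun u => u ∈ sq (L * (k + 1) * V) ∧
      ∃ t, (tau L V k β)^[t] (plc k V 0 p) = u) (by
      intro u hu
      constructor
      · rintro ⟨h1, t, ht⟩
        refine ⟨hu, ?_⟩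
        obtain ⟨s, hs⟩ := orbit_symm (sq_finite _) hb hu ⟨1, rfl⟩
        refine ⟨s + t, ?_⟩
        rw [Function.iterate_add_apply, ht]
        exact hs
      · rintro ⟨h1, t, ht⟩
        refine ⟨hb.mapsTo hu, t + 1, ?_⟩
        rw [Function.iterate_succ_apply', ht]) hp h
    exact (h1.1 ⟨plc_mem hp (Nat.zero_le k), 0, rfl⟩).2
  · intro h
    obtain ⟨t, ht⟩ := orbit_symm (sq_finite _) hb (plc_mem hp (Nat.zero_le k)) h
    have key : ∀ t, ∃ (p' : ℕ × ℕ × ℕ) (i : ℕ), inR L V p' ∧ i ≤ k ∧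
        ReflTransGen (FStep β) p' z ∧ (tau L V k β)^[t] (plc k V 0 z) = plc k V i p' := by
      intro t
      induction t with
      | zero => exact ⟨z, 0, hzR, Nat.zero_le k, ReflTransGen.refl, rfl⟩
      | succ t ih =>
        obtain ⟨p', i, h1, h2, h3, h4⟩ := ih
        rw [Function.iterate_succ_apply', h4]
        by_cases hi : i = k
        · subst hi
          by_cases hd : ∃ j, (β j).dom p'
          · obtain ⟨j, hj⟩ := hd
            refine ⟨(β j).app p', j + 1, img_inR G (app_img hj), by omega, ?_,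
              tau_up G j hj⟩
            rcases ReflTransGen.cases_head h3 with h5 | ⟨p'', h5, h6⟩
            · subst h5
              exact absurd hj (hz j)
            · rw [fstep_det G ⟨j, hj, rfl⟩ h5]
              exact h6
          · exact ⟨p', 0, h1, Nat.zero_le _, h3, tau_stop G h1.1 h1.2.1 h1.2.2
              fun j hj => hd ⟨j, hj⟩⟩
        · by_cases hd : (β ⟨i, by omega⟩).img p'
          · exact ⟨(β ⟨i, by omega⟩).inv p', 0, dom_inR G (inv_dom hd), Nat.zero_le _,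
              ReflTransGen.head ⟨⟨i, by omega⟩, inv_dom hd, (app_inv hd).symm⟩ h3,
              tau_down G ⟨i, by omega⟩ hd⟩
          · refine ⟨p', i + 1, h1, by omega, h3, tau_next G (by omega) h1.1 h1.2.1 h1.2.2 ?_⟩
            intro j hj
            have : j = ⟨i, by omega⟩ := Fin.ext hj
            rw [this]
            exact hd
    obtain ⟨p', i, h1, h2, h3, h4⟩ := key t
    rw [ht] at h4
    obtain ⟨h5, -⟩ := plc_inj hp h1 (Nat.zero_le k) h2 h4
    rw [h5]
    exact h3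

end

end Pool.Agent.PTr
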