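import Mathlib
import Pool.Agent.PTr.BTour
import Pool.Agent.PTr.TMap

/-!
Every predicate in `E2Star` is the orbit membership for a permutation of `[0, N)^2` which is a
translation on boundedly many boxes; all parameters are polynomials.
-/

set_option autoImplicit false

namespace Pool.Agent.PTr

open Relation Pool.Agent.Grz MvPolynomial

/-! ### Transport along homomorphisms -/

/-- Transport of commands. -/
def VCmd.map {P Q : Type} (f : P → Q) : VCmd P → VCmd Q
  | .skip => .skip
  | .add s0 s1 => .add (f s0) (f s1)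
  | .seq c d => .seq (c.map f) (d.map f)
  | .loop al tau s0 s1 c => .loop al (f tau) (f s0) (f s1) (c.map f)

theorem len_map {P Q : Type} (f : P → Q) (c : VCmd P) : (c.map f).len = c.len := by
  induction c with
  | skip => rfl
  | add s0 s1 => rfl
  | seq c d hc hd => simp only [VCmd.map, VCmd.len, hc, hd]
  | loop al tau s0 s1 c hc => simp only [VCmd.map, VCmd.len, hc]

theorem code_map {P Q : Type} [CommSemiring P] [CommSemiring Q] (f : P →+* Q) (W : P)
    (c : VCmd P) : ∀ q : ℕ, (c.code W q).map (Br.map f) = (c.map f).code (f W) q := by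
  induction c with
  | skip => intro q; rfl
  | add s0 s1 =>
    intro q
    simp only [VCmd.code, VCmd.map, List.map_cons, List.map_nil, Br.map, map_zero]
  | seq c d hc hd =>
    intro q
    simp only [VCmd.code, VCmd.map, List.map_append, hc, hd, len_map]
  | loop al tau s0 s1 c hc =>
    intro q
    simp only [VCmd.code, VCmd.map, List.map_append, List.map_cons, List.map_nil, hc, len_map,
      Br.map, map_zero]
    cases al
    · simp
    · simp

theorem rots_map {P Q : Type} [CommSemiring P] [CommSemiring Q] (f : P →+* Q) (M : P) (m : ℕ) :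
    ∀ j : ℕ, (rots M m j).map f = rots (f M) m j := by
  intro j
  induction j with
  | zero => rfl
  | succ j ih => simp only [rots, VCmd.map, ih, rotC, map_zero, map_one, map_pow]

theorem pack_map {P Q : Type} [CommSemiring P] [CommSemiring Q] (f : P →+* Q) (M : P) (m : ℕ)
    (c : Cmd) : (pack M m c).map f = pack (f M) m c := by
  induction c with
  | skip => rfl
  | inc r => simp only [pack, VCmd.map, rots_map, map_zero, map_pow]
  | seq c d hc hd => simp only [pack, VCmd.map, hc, hd]
  | loop r c hc => simp only [pack, VCmd.map, rots_map, map_zero, map_pow, hc]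

/-! ### Bounds -/

/-- All constants of the command are `≤ W`. -/
def VCmd.le (W : ℕ) : VCmd ℕ → Prop
  | .skip => True
  | .add s0 s1 => s0 ≤ W ∧ s1 ≤ W
  | .seq c d => c.le W ∧ d.le W
  | .loop _ tau s0 s1 c => tau ≤ W ∧ s0 ≤ W ∧ s1 ≤ W ∧ c.le W

theorem code_le {W : ℕ} {c : VCmd ℕ} (h : c.le W) : ∀ (q : ℕ) (β : Br ℕ), β ∈ c.code W q →
    β.lo0 ≤ W ∧ β.lo1 ≤ W ∧ β.sz0 ≤ W ∧ β.sz1 ≤ W ∧ β.im0 ≤ W ∧ β.im1 ≤ W := by
  induction c with
  | skip => intro q β hβ; simp [VCmd.code] at hβ
  | add s0 s1 =>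
    intro q β hβ
    simp only [VCmd.code, List.mem_singleton] at hβ
    subst hβ
    exact ⟨Nat.zero_le _, Nat.zero_le _, le_rfl, le_rfl, h.1, h.2⟩
  | seq c d hc hd =>
    intro q β hβ
    simp only [VCmd.code, List.mem_append] at hβ
    rcases hβ with h' | h'
    · exact hc h.1 q β h'
    · exact hd h.2 _ β h'
  | loop al tau s0 s1 c hc =>
    intro q β hβ
    simp only [VCmd.code, List.mem_cons, List.mem_append] at hβ
    obtain ⟨h1, h2, h3, h4⟩ := h
    rcases hβ with h' | h' | h' | h' | h'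
    · subst h'
      dsimp only
      refine ⟨?_, ?_, le_rfl, le_rfl, h2, h3⟩ <;> split_ifs <;> omega
    · subst h'
      dsimp only
      refine ⟨Nat.zero_le _, Nat.zero_le _, ?_, ?_, Nat.zero_le _, Nat.zero_le _⟩ <;>
        split_ifs <;> omega
    · exact hc h4 _ β h'
    · subst h'
      dsimp only
      exact ⟨Nat.zero_le _, Nat.zero_le _, le_rfl, le_rfl, Nat.zero_le _, Nat.zero_le _⟩
    · simp at h'

theorem rots_le {M m : ℕ} (hM : 1 ≤ M) : ∀ j : ℕ, (rots M m j).le (M ^ (m + 1)) := by
  have h1 : 1 ≤ M ^ (m + 1) := Nat.one_le_pow _ _ hM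
  have h2 : M ^ m ≤ M ^ (m + 1) := Nat.pow_le_pow_right hM (Nat.le_succ m)
  have h3 : M ≤ M ^ (m + 1) := Nat.le_self_pow (by omega) M
  intro j
  induction j with
  | zero => trivial
  | succ j ih =>
    exact ⟨ih, ⟨h3, Nat.zero_le _, h1, trivial⟩, ⟨h1, Nat.zero_le _, h2, trivial⟩,
      ⟨h1, h1, Nat.zero_le _, trivial⟩⟩

theorem pack_le {M m : ℕ} (hM : 1 ≤ M) (c : Cmd) : (pack M m c).le (M ^ (m + 1)) := by
  have h2 : M ^ m ≤ M ^ (m + 1) := Nat.pow_le_pow_right hM (Nat.le_succ m)
  induction c with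
  | skip => trivial
  | inc r => exact ⟨rots_le hM _, ⟨h2, Nat.zero_le _⟩, rots_le hM _⟩
  | seq c d hc hd => exact ⟨hc, hd⟩
  | loop r c hc =>
    exact ⟨rots_le hM _, ⟨h2, Nat.zero_le _, Nat.zero_le _, rots_le hM _, hc, rots_le hM _⟩,
      rots_le hM _⟩

theorem good_code {W : ℕ} {c : VCmd ℕ} (h : c.le W) :
    Good (c.len + 1) (2 * W + 1) (c.code W 0).length (fun j => (c.code W 0).get j) where
  src j := by
    have := code_src W c 0 _ (List.get_mem (c.code W 0) j)
    omega
  tgt j := by
    have := code_src W c 0 _ (List.get_mem (c.code W 0) j)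
    omega
  lo0 j := by
    have := code_le h 0 _ (List.get_mem (c.code W 0) j)
    omega
  lo1 j := by
    have := code_le h 0 _ (List.get_mem (c.code W 0) j)
    omega
  im0 j := by
    have := code_le h 0 _ (List.get_mem (c.code W 0) j)
    omega
  im1 j := by
    have := code_le h 0 _ (List.get_mem (c.code W 0) j)
    omega
  disj i j hij := by
    have h1 := code_disj W c 0
    rw [List.pairwise_iff_getElem] at h1
    rcases lt_or_gt_of_ne (fun h => hij (Fin.ext h) : (i : ℕ) ≠ j) with h2 | h2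
    · exact h1 i j i.2 j.2 h2
    · intro p hp
      exact h1 j i j.2 i.2 h2 p ⟨hp.2, hp.1⟩

/-! ### Determinism -/

theorem halt_unique {L V k : ℕ} {β : Fin k → Br ℕ} (G : Good L V k β) {p z z' : ℕ × ℕ × ℕ}
    (h : ReflTransGen (FStep β) p z) (hz : ∀ j, ¬ (β j).dom z)
    (h' : ReflTransGen (FStep β) p z') (hz' : ∀ j, ¬ (β j).dom z') : z = z' := by
  induction h using ReflTransGen.head_induction_on with
  | refl =>
    rcases ReflTransGen.cases_head h' with h | ⟨p', ⟨j, hj, -⟩, -⟩
    · exact h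
    · exact absurd hj (hz j)
  | head h1 _ ih =>
    rcases ReflTransGen.cases_head h' with h | ⟨p', h2, h3⟩
    · subst h
      obtain ⟨j, hj, -⟩ := h1
      exact absurd hj (hz' j)
    · rw [fstep_det G h1 h2] at ih
      exact ih h3

theorem bstep_fstep {l : List (Br ℕ)} {p p' : ℕ × ℕ × ℕ} (h : BStep l p p') :
    FStep (fun j : Fin l.length => l.get j) p p' := by
  obtain ⟨b, hb, h1, h2⟩ := h
  obtain ⟨j, rfl⟩ := List.get_of_mem hb
  exact ⟨j, h1, h2⟩

/-! ### The map on vectors -/

/-- Pairs as vectors. -/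
def pr {P : Type} (u : P × P) : Fin 2 → P := ![u.1, u.2]

theorem pr_inj {P : Type} {u v : P × P} (h : pr u = pr v) : u = v := by
  have h0 := congrFun h 0
  have h1 := congrFun h 1
  exact Prod.ext h0 h1

theorem pr_surj {P : Type} (u : Fin 2 → P) : ∃ v, pr v = u := by
  refine ⟨(u 0, u 1), ?_⟩
  funext l
  fin_cases l <;> rfl

theorem tmap_pr {ι : Type} [Fintype ι] {K : ℕ} (e : ι ≃ Fin K) (N : ℕ) (a b c : ι → ℕ × ℕ)
    (u : ℕ × ℕ) :
    tmap 1 N (fun i => pr (a (e.symm i))) (fun i => pr (b (e.symm i)))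
      (fun i => pr (c (e.symm i))) (pr u) = pr (pmap N a b c u) := by
  have hin : ∀ i : ι, (∀ l, pr (a i) l ≤ pr u l ∧ pr u l < pr (b i) l) ↔ inb (a i) (b i) u := by
    intro i
    rw [Fin.forall_fin_two]
    unfold inb
    constructor
    · rintro ⟨⟨h1, h2⟩, h3, h4⟩
      exact ⟨h1, h2, h3, h4⟩
    · rintro ⟨h1, h2, h3, h4⟩
      exact ⟨⟨h1, h2⟩, h3, h4⟩
  have hs : ∀ f : ι → ℕ, (∑ i : Fin K, if (∀ l, pr (a (e.symm i)) l ≤ pr u l ∧
      pr u l < pr (b (e.symm i)) l) then f (e.symm i) else 0) =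
      ∑ i, if inb (a i) (b i) u then f i else 0 := by
    intro f
    rw [← Equiv.sum_comp e.symm]
    refine Finset.sum_congr rfl fun i _ => ?_
    by_cases h : inb (a (e.symm i)) (b (e.symm i)) u
    · rw [if_pos h, if_pos ((hin _).2 h)]
    · rw [if_neg h, if_neg fun h' => h ((hin _).1 h')]
  funext l
  unfold tmap pmap
  rw [Nat.one_mul]
  fin_cases l
  · exact congrArg (fun s => (u.1 + s) % N) (hs fun i => (c i).1)
  · exact congrArg (fun s => (u.2 + s) % N) (hs fun i => (c i).2)

theorem iterate_pr {f : (Fin 2 → ℕ) → (Fin 2 → ℕ)} {g : ℕ × ℕ → ℕ × ℕ}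
    (h : ∀ u, f (pr u) = pr (g u)) (t : ℕ) (u : ℕ × ℕ) : f^[t] (pr u) = pr (g^[t] u) := by
  induction t generalizing u with
  | zero => rfl
  | succ t ih => rw [Function.iterate_succ_apply, Function.iterate_succ_apply, h, ih]

theorem bijOn_pr {f : (Fin 2 → ℕ) → (Fin 2 → ℕ)} {g : ℕ × ℕ → ℕ × ℕ}
    (h : ∀ u, f (pr u) = pr (g u)) {N : ℕ} (hg : Set.BijOn g (sq N) (sq N)) :
    Set.BijOn f {u | ∀ l, u l < N} {u | ∀ l, u l < N} := by
  have hm : ∀ u : ℕ × ℕ, pr u ∈ ({u | ∀ l, u l < N} : Set (Fin 2 → ℕ)) ↔ u ∈ sq N := by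
    intro u
    change (∀ l, pr u l < N) ↔ _
    rw [Fin.forall_fin_two]
    exact Iff.rfl
  refine ⟨?_, ?_, ?_⟩
  · intro u hu
    obtain ⟨w, rfl⟩ := pr_surj u
    rw [h, hm]
    exact hg.mapsTo ((hm w).1 hu)
  · intro u hu u' hu' he
    obtain ⟨w, rfl⟩ := pr_surj u
    obtain ⟨w', rfl⟩ := pr_surj u'
    rw [h, h] at he
    rw [hg.injOn ((hm w).1 hu) ((hm w').1 hu') (pr_inj he)]
  · intro u hu
    obtain ⟨w, rfl⟩ := pr_surj u
    obtain ⟨w', hw', rfl⟩ := hg.surjOn ((hm w).1 hu)
    exact ⟨pr w', (hm w').2 hw', h w'⟩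

/-! ### Evaluation of the boxes -/

/-- A ring homomorphism applied to a pair. -/
def prmap {P Q : Type} (f : P → Q) (u : P × P) : Q × Q := (f u.1, f u.2)

theorem bA_map {P : Type} [CommSemiring P] (f : P →+* ℕ) {L k : ℕ} (V : P) (β : Fin k → Br P)
    (a : BIx L k) : prmap f (bA V β a) = bA (f V) (fun j => (β j).map f) a := by
  rcases a with ⟨q, i⟩ | a | a
  · simp only [bA, prmap, map_mul, map_zero, map_natCast]
  · simp only [bA, prmap, map_mul, map_add, map_natCast, Br.map]
  · simp only [bA, prmap, map_mul, map_add, map_natCast, Br.map]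

theorem bB_map {P : Type} [CommSemiring P] (f : P →+* ℕ) {L k : ℕ} (V : P) (β : Fin k → Br P)
    (a : BIx L k) : prmap f (bB V β a) = bB (f V) (fun j => (β j).map f) a := by
  rcases a with ⟨q, i⟩ | a | a
  · simp only [bB, prmap, map_mul, map_natCast]
  · simp only [bB, prmap, map_mul, map_add, map_natCast, Br.map]
  · simp only [bB, prmap, map_mul, map_add, map_natCast, Br.map]

theorem bC_map {P : Type} [CommSemiring P] (f : P →+* ℕ) {L k : ℕ} (V N1 : P)
    (β : Fin k → Br P) (a : BIx L k) :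
    prmap f (bC V N1 β a) = bC (f V) (f N1) (fun j => (β j).map f) a := by
  rcases a with ⟨q, i⟩ | a | a
  · simp only [bC, prmap, map_zero]
    split_ifs
    · rfl
    · simp only [map_mul, map_natCast]
  · simp only [bC, prmap, map_mul, map_add, map_natCast, Br.map]
  · simp only [bC, prmap, map_mul, map_add, map_natCast, Br.map]

theorem pr_prmap {P Q : Type} (f : P → Q) (u : P × P) : (fun l => f (pr u l)) = pr (prmap f u) := by
  funext l
  fin_cases l <;> rfl

/-! ### The normal form -/

/-- The normal form: orbits of permutations of `[0, N)^2` which are translations on boundedly many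
boxes. -/
theorem form2 {n : ℕ} {R : (Fin n → ℕ) → Prop} (hR : E2Star n R) :
    ∃ (k : ℕ) (N : MvPolynomial (Fin n) ℕ)
      (a b c : Fin k → Fin 2 → MvPolynomial (Fin n) ℕ)
      (x y : Fin 2 → MvPolynomial (Fin n) ℕ), ∀ v : Fin n → ℕ,
        0 < MvPolynomial.eval v N ∧
        (∀ l, MvPolynomial.eval v (x l) < MvPolynomial.eval v N) ∧
        (∀ l, MvPolynomial.eval v (y l) < MvPolynomial.eval v N) ∧
        Set.BijOn (tmap 1 (MvPolynomial.eval v N) (fun i l => MvPolynomial.eval v (a i l))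
            (fun i l => MvPolynomial.eval v (b i l)) (fun i l => MvPolynomial.eval v (c i l)))
          {u | ∀ l, u l < MvPolynomial.eval v N} {u | ∀ l, u l < MvPolynomial.eval v N} ∧
        (R v ↔ ∃ t : ℕ, (tmap 1 (MvPolynomial.eval v N)
            (fun i l => MvPolynomial.eval v (a i l)) (fun i l => MvPolynomial.eval v (b i l))
            (fun i l => MvPolynomial.eval v (c i l)))^[t] (fun l => MvPolynomial.eval v (x l)) =
          fun l => MvPolynomial.eval v (y l)) := by
  obtain ⟨f, hf, hfR⟩ := hR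
  obtain ⟨Q, s, c, hns, hcs, hc⟩ := main_cmd hf
  obtain ⟨m, rfl⟩ : ∃ m, s = m + 1 := ⟨s - 1, by omega⟩
  set Mp : MvPolynomial (Fin n) ℕ := Q + 1 with hMp
  set Wp : MvPolynomial (Fin n) ℕ := Mp ^ (m + 1) with hWp
  set vc : VCmd (MvPolynomial (Fin n) ℕ) := pack Mp m c with hvc
  set cd := vc.code Wp 0 with hcd
  set L := vc.len + 1 with hL
  set k := cd.length with hk
  set Vp : MvPolynomial (Fin n) ℕ := 2 * Wp + 1 with hVp
  set Np : MvPolynomial (Fin n) ℕ := ((L * (k + 1) : ℕ) : MvPolynomial (Fin n) ℕ) * Vp with hNp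
  set N1p : MvPolynomial (Fin n) ℕ :=
    ((L * (k + 1) - 1 : ℕ) : MvPolynomial (Fin n) ℕ) * Vp + 2 * Wp with hN1p
  set βp : Fin k → Br (MvPolynomial (Fin n) ℕ) := fun j => cd.get j with hβp
  set e := Fintype.equivFin (BIx L k) with he
  set Xp : MvPolynomial (Fin n) ℕ := ∑ j ∈ Finset.range (m + 1),
    (if h : j < n then X ⟨j, h⟩ else 0) * Mp ^ j with hXp
  refine ⟨Fintype.card (BIx L k), Np, fun i => pr (bA Vp βp (e.symm i)),
    fun i => pr (bB Vp βp (e.symm i)), fun i => pr (bC Vp N1p βp (e.symm i)),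
    pr (Xp, 0), pr (((vc.len * (k + 1) : ℕ) : MvPolynomial (Fin n) ℕ) * Vp, 0), fun v => ?_⟩
  set M := MvPolynomial.eval v Mp with hM
  have hMQ : MvPolynomial.eval v Q < M := by
    rw [hM, hMp, map_add, map_one]
    omega
  have hM1 : 1 ≤ M := by omega
  set W := M ^ (m + 1) with hW
  have hWv : MvPolynomial.eval v Wp = W := by rw [hWp, map_pow]
  set V := 2 * W + 1 with hV
  have hVv : MvPolynomial.eval v Vp = V := by
    rw [hVp, map_add, map_mul, map_one, hWv, map_ofNat]
  have hvcM : vc.map (MvPolynomial.eval v) = pack M m c := pack_map _ _ _ _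
  have hlen : vc.len = (pack M m c).len := by rw [← hvcM, len_map]
  have hcode : cd.map (Br.map (MvPolynomial.eval v)) = (pack M m c).code W 0 := by
    rw [hcd, code_map, hvcM, hWv]
  have hklen : k = ((pack M m c).code W 0).length := by rw [← hcode, List.length_map]
  set β : Fin k → Br ℕ := fun j => (βp j).map (MvPolynomial.eval v) with hβ
  have hβget : ∀ j : Fin k, β j = ((pack M m c).code W 0).get (Fin.cast hklen j) := by
    intro j
    simp only [hβ, hβp, List.get_eq_getElem, Fin.val_cast, ← hcode, List.getElem_map]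
  have G0 := good_code (pack_le hM1 c (m := m))
  rw [← hW] at G0
  have G : Good L V k β := by
    refine ⟨fun j => ?_, fun j => ?_, fun j => ?_, fun j => ?_, fun j => ?_, fun j => ?_,
      fun i j hij => ?_⟩
    · rw [hβget, hL, hlen]; exact G0.src _
    · rw [hβget, hL, hlen]; exact G0.tgt _
    · rw [hβget]; exact G0.lo0 _
    · rw [hβget]; exact G0.lo1 _
    · rw [hβget]; exact G0.im0 _
    · rw [hβget]; exact G0.im1 _
    · rw [hβget, hβget]
      exact G0.disj _ _ fun h => hij (Fin.ext (by simpa using congrArg Fin.val h))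
  have hNv : MvPolynomial.eval v Np = L * (k + 1) * V := by
    rw [hNp, map_mul, map_natCast, hVv]
    rfl
  have hN1v : MvPolynomial.eval v N1p = L * (k + 1) * V - 1 := by
    rw [hN1p, map_add, map_mul, map_mul, map_natCast, hVv, hWv, map_ofNat]
    have hpos : 0 < L * (k + 1) := Nat.mul_pos (show 0 < L by omega) (Nat.succ_pos k)
    obtain ⟨z, hz⟩ : ∃ z, L * (k + 1) = z + 1 := ⟨L * (k + 1) - 1, by omega⟩
    rw [hz, Nat.add_sub_cancel, Nat.add_mul, Nat.one_mul]
    change z * V + 2 * W = _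
    omega
  have hmap : ∀ u : ℕ × ℕ, tmap 1 (MvPolynomial.eval v Np)
      (fun i l => MvPolynomial.eval v (pr (bA Vp βp (e.symm i)) l))
      (fun i l => MvPolynomial.eval v (pr (bB Vp βp (e.symm i)) l))
      (fun i l => MvPolynomial.eval v (pr (bC Vp N1p βp (e.symm i)) l)) (pr u) =
      pr (tau L V k β u) := by
    intro u
    have e1 : (fun (i : Fin (Fintype.card (BIx L k))) (l : Fin 2) =>
        MvPolynomial.eval v (pr (bA Vp βp (e.symm i)) l)) =
        fun i => pr (bA (L := L) V β (e.symm i)) := by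
      funext i
      rw [pr_prmap, bA_map, hVv]
    have e2 : (fun (i : Fin (Fintype.card (BIx L k))) (l : Fin 2) =>
        MvPolynomial.eval v (pr (bB Vp βp (e.symm i)) l)) =
        fun i => pr (bB (L := L) V β (e.symm i)) := by
      funext i
      rw [pr_prmap, bB_map, hVv]
    have e3 : (fun (i : Fin (Fintype.card (BIx L k))) (l : Fin 2) =>
        MvPolynomial.eval v (pr (bC Vp N1p βp (e.symm i)) l)) =
        fun i => pr (bC (L := L) V (L * (k + 1) * V - 1) β (e.symm i)) := by
      funext i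
      rw [pr_prmap, bC_map, hVv, hN1v]
    rw [e1, e2, e3, hNv]
    exact tmap_pr e _ _ _ _ u
  have hLpos : 0 < L := by omega
  have hVpos : 0 < V := by omega
  have hN : 0 < L * (k + 1) * V := Nat.mul_pos (Nat.mul_pos hLpos (Nat.succ_pos k)) hVpos
  obtain ⟨hreg, σ', hex, hn, hz⟩ := hc M v hMQ
  have hXv : MvPolynomial.eval v Xp = val M m (regs v) := by
    rw [hXp, map_sum]
    refine Finset.sum_congr rfl fun j _ => ?_
    rw [map_mul, map_pow]
    congr 1
    unfold regs
    split_ifs
    · rw [eval_X]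
    · rw [map_zero]
  have hXW : val M m (regs v) < W := val_lt fun j _ => hreg j
  have hσ' := hex.bound (m + 1) fun i _ => hreg i
  have hX'W : val M m σ' < W := val_lt fun j hj => hσ' j (by omega)
  have hWpos : 0 < W := by omega
  have hpx : (fun l => MvPolynomial.eval v (pr (Xp, (0 : MvPolynomial (Fin n) ℕ)) l)) =
      pr (plc k V 0 (0, val M m (regs v), 0)) := by
    rw [pr_prmap]
    congr 1
    refine Prod.ext ?_ ?_
    · change MvPolynomial.eval v Xp = (0 * (k + 1) + 0) * V + val M m (regs v)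
      rw [hXv]
      ring
    · exact map_zero _
  have hpy : (fun l => MvPolynomial.eval v
      (pr (((vc.len * (k + 1) : ℕ) : MvPolynomial (Fin n) ℕ) * Vp, 0) l)) =
      pr (plc k V 0 (vc.len, 0, 0)) := by
    rw [pr_prmap]
    congr 1
    refine Prod.ext ?_ ?_
    · change MvPolynomial.eval v (((vc.len * (k + 1) : ℕ) : MvPolynomial (Fin n) ℕ) * Vp) =
        (vc.len * (k + 1) + 0) * V + 0
      rw [map_mul, map_natCast, hVv]
      rfl
    · exact map_zero _
  have hRx : inR L V (0, val M m (regs v), 0) := ⟨hLpos, by dsimp only; omega, hVpos⟩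
  have hRz : inR L V (vc.len, 0, 0) := ⟨by dsimp only; omega, hVpos, hVpos⟩
  have hhalt : ∀ (x y : ℕ) (j : Fin k), ¬ (β j).dom (vc.len, x, y) := by
    intro x y j hj
    have h1 := hj.1
    dsimp only at h1
    rw [hβget] at h1
    have h2 := code_src W (pack M m c) 0 _ (List.get_mem ((pack M m c).code W 0) (Fin.cast hklen j))
    omega
  have hrun : ReflTransGen (FStep β) (0, val M m (regs v), 0) (vc.len, val M m σ', 0) := by
    have h1 := pack_exec hex hcs fun i _ => hreg i
    rw [stt_zero, stt_zero, ← hW] at h1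
    have h2 := code_exec h1 0 ((pack M m c).code W 0) fun β hβ => hβ
    rw [Nat.zero_add, ← hlen] at h2
    refine ReflTransGen.mono (r := BStep ((pack M m c).code W 0)) (p := FStep β) ?_ _ _ h2
    intro p p' hp
    obtain ⟨j, hj1, hj2⟩ := bstep_fstep hp
    refine ⟨Fin.cast hklen.symm j, ?_, ?_⟩
    · rw [hβget]
      exact hj1
    · rw [hβget]
      exact hj2
  have hR1 : R v ↔ ReflTransGen (FStep β) (0, val M m (regs v), 0) (vc.len, 0, 0) := by
    have hiff : R v ↔ f v = 0 := by
      constructor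
      · exact (hfR v).1
      · intro h
        by_contra hr
        have := (hfR v).2 hr
        omega
    rw [hiff, ← hn]
    constructor
    · intro h
      have h0 : val M m σ' = 0 := by
        refine Finset.sum_eq_zero fun j hj => ?_
        rw [Finset.mem_range] at hj
        by_cases hjn : j = n
        · rw [hjn, h, Nat.zero_mul]
        · rw [hz j hj hjn, Nat.zero_mul]
      rw [h0] at hrun
      exact hrun
    · intro h
      have h1 := halt_unique G hrun (hhalt _ _) h (hhalt _ _)
      have h2 : val M m σ' = 0 := by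
        have := congrArg (fun p : ℕ × ℕ × ℕ => p.2.1) h1
        exact this
      unfold val at h2
      rw [Finset.sum_eq_zero_iff] at h2
      have h3 := h2 n (Finset.mem_range.2 hns)
      rcases Nat.mul_eq_zero.1 h3 with h4 | h4
      · exact h4
      · exact absurd h4 (by positivity)
  refine ⟨?_, ?_, ?_, ?_, ?_⟩
  · rw [hNv]
    exact hN
  · intro l
    have h1 := congrFun hpx l
    rw [h1, hNv]
    have h2 := plc_mem (k := k) hRx (Nat.zero_le k)
    fin_cases l
    · exact h2.1
    · exact h2.2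
  · intro l
    have h1 := congrFun hpy l
    rw [h1, hNv]
    have h2 := plc_mem (k := k) hRz (Nat.zero_le k)
    fin_cases l
    · exact h2.1
    · exact h2.2
  · have h1 := bijOn_pr hmap (tau_bijOn G hN)
    rw [← hNv] at h1
    exact h1
  · rw [hR1, reach_iff G hRz (hhalt _ _) hRx, hpx, hpy]
    constructor
    · rintro ⟨t, ht⟩
      refine ⟨t, ?_⟩
      rw [iterate_pr hmap, ht]
    · rintro ⟨t, ht⟩
      refine ⟨t, ?_⟩
      rw [iterate_pr hmap] at ht
      exact pr_inj ht

end Pool.Agent.PTr
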