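import Mathlib
import Pool.Agent.PTr.BCnt

/-!
# Flat programs for the counter language
-/

set_option autoImplicit false

namespace Pool.Agent.PTr

open Function

/-- Instructions: `inc r a` (add one, go to `a`), `dec r a` (subtract one, go to `a`),
`test r a b` (go to `a` if register `r` is zero, to `b` otherwise), `nop a` (go to `a`). -/
inductive Instr : Type
  | inc (r a : ℕ) : Instr
  | dec (r a : ℕ) : Instr
  | test (r a b : ℕ) : Instr
  | nop (a : ℕ) : Instr

/-- One step of a flat program. -/
inductive PStep (M : ℕ) (P : List Instr) : ℕ × (ℕ → ℕ) → ℕ × (ℕ → ℕ) → Prop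
  | inc {p r a : ℕ} {σ : ℕ → ℕ} : P[p]? = some (.inc r a) → σ r + 1 < M →
      PStep M P (p, σ) (a, update σ r (σ r + 1))
  | dec {p r a : ℕ} {σ : ℕ → ℕ} : P[p]? = some (.dec r a) → σ r ≠ 0 →
      PStep M P (p, σ) (a, update σ r (σ r - 1))
  | testz {p r a b : ℕ} {σ : ℕ → ℕ} : P[p]? = some (.test r a b) → σ r = 0 →
      PStep M P (p, σ) (a, σ)
  | testn {p r a b : ℕ} {σ : ℕ → ℕ} : P[p]? = some (.test r a b) → σ r ≠ 0 →
      PStep M P (p, σ) (b, σ)
  | nop {p a : ℕ} {σ : ℕ → ℕ} : P[p]? = some (.nop a) → PStep M P (p, σ) (a, σ)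

/-- The registers are `< K` and the targets are `< L`. -/
def Instr.ok (K L : ℕ) : Instr → Prop
  | .inc r a => r < K ∧ a < L
  | .dec r a => r < K ∧ a < L
  | .test r a b => r < K ∧ a < L ∧ b < L
  | .nop a => a < L

/-- The number of instructions of a command. -/
def Cmd.size : Cmd → ℕ
  | .skip => 1
  | .inc _ => 1
  | .seq c d => c.size + d.size
  | .loop _ c => c.size + 2

theorem Cmd.size_pos (c : Cmd) : 0 < c.size := by
  induction c with
  | skip => exact Nat.one_pos
  | inc r => exact Nat.one_pos
  | seq c d hc hd => exact Nat.add_pos_left hc _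
  | loop r c hc => exact Nat.succ_pos _

/-- The instructions of a command at the addresses `p, p + 1, ...`, with exit `e`. -/
def Cmd.flat : Cmd → ℕ → ℕ → List Instr
  | .skip, _, e => [.nop e]
  | .inc r, _, e => [.inc r e]
  | .seq c d, p, e => c.flat p (p + c.size) ++ d.flat (p + c.size) e
  | .loop r c, p, e => .test r e (p + 1) :: .dec r (p + 2) :: c.flat (p + 2) p

theorem Cmd.flat_length (c : Cmd) : ∀ p e, (c.flat p e).length = c.size := by
  induction c with
  | skip => intro p e; rfl
  | inc r => intro p e; rfl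
  | seq c d hc hd => intro p e; rw [Cmd.flat, List.length_append, hc, hd, Cmd.size]
  | loop r c hc => intro p e; rw [Cmd.flat, List.length_cons, List.length_cons, hc, Cmd.size]

theorem Cmd.flat_ok {s L : ℕ} (c : Cmd) : c.lt s → ∀ p e, p + c.size ≤ L → e < L →
    ∀ i ∈ c.flat p e, i.ok s L := by
  induction c with
  | skip =>
    intro _ p e _ he i hi
    rw [Cmd.flat, List.mem_singleton] at hi
    rw [hi]
    exact he
  | inc r =>
    intro hc p e _ he i hi
    rw [Cmd.flat, List.mem_singleton] at hi
    rw [hi]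
    exact ⟨hc, he⟩
  | seq c d ihc ihd =>
    intro hc p e hp he i hi
    rw [Cmd.flat, List.mem_append] at hi
    rw [Cmd.size] at hp
    have h1 := d.size_pos
    rcases hi with hi | hi
    · exact ihc hc.1 p (p + c.size) (by omega) (by omega) i hi
    · exact ihd hc.2 (p + c.size) e (by omega) he i hi
  | loop r c ih =>
    intro hc p e hp he i hi
    rw [Cmd.size] at hp
    have h1 := c.size_pos
    rw [Cmd.flat, List.mem_cons, List.mem_cons] at hi
    rcases hi with hi | hi | hi
    · rw [hi]
      exact ⟨hc.1, he, by omega⟩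
    · rw [hi]
      exact ⟨hc.1, by omega⟩
    · exact ih hc.2 (p + 2) p (by omega) (by omega) i hi

theorem Exec.flat {M : ℕ} {P : List Instr} {c : Cmd} {σ σ' : ℕ → ℕ} (h : Exec M c σ σ') :
    ∀ p e, (∀ j, j < c.size → P[p + j]? = (c.flat p e)[j]?) →
      Relation.ReflTransGen (PStep M P) (p, σ) (e, σ') := by
  induction h with
  | skip σ =>
    intro p e hP
    exact Relation.ReflTransGen.single (.nop (hP 0 Nat.one_pos))
  | inc r σ hσ =>
    intro p e hP
    exact Relation.ReflTransGen.single (.inc (hP 0 Nat.one_pos) hσ)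
  | @seq c d σ σ' σ'' _ _ ihc ihd =>
    intro p e hP
    have hs : (Cmd.seq c d).size = c.size + d.size := rfl
    have hf : (Cmd.seq c d).flat p e = c.flat p (p + c.size) ++ d.flat (p + c.size) e := rfl
    refine (ihc p (p + c.size) fun j hj => ?_).trans (ihd (p + c.size) e fun j hj => ?_)
    · rw [hP j (by omega), hf, List.getElem?_append_left (by rw [Cmd.flat_length]; exact hj)]
    · rw [Nat.add_assoc, hP (c.size + j) (by omega), hf,
        List.getElem?_append_right (by rw [Cmd.flat_length]; omega), Cmd.flat_length,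
        Nat.add_sub_cancel_left]
  | @done r c σ hσ =>
    intro p e hP
    exact Relation.ReflTransGen.single (.testz (hP 0 (Nat.succ_pos _)) hσ)
  | @step r c σ σ' σ'' hσ _ _ ihc ihl =>
    intro p e hP
    have hs : (Cmd.loop r c).size = c.size + 2 := rfl
    have h0 : PStep M P (p, σ) (p + 1, σ) := .testn (hP 0 (Nat.succ_pos _)) hσ
    have h1 : PStep M P (p + 1, σ) (p + 2, update σ r (σ r - 1)) :=
      .dec (hP 1 (by omega)) hσ
    refine (Relation.ReflTransGen.head h0 (Relation.ReflTransGen.single h1)).trans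
      ((ihc (p + 2) p fun j hj => ?_).trans (ihl p e hP))
    have h2 := hP (j + 2) (by omega)
    rw [show p + (j + 2) = p + 2 + j from by omega] at h2
    exact h2

/-- Flat programs for commands; the last address loops. -/
theorem flat_prog (c : Cmd) (s : ℕ) (hc : c.lt s) : ∃ (P : List Instr) (h : ℕ),
    P[h]? = some (.nop h) ∧ 0 < P.length ∧ (∀ i ∈ P, i.ok s P.length) ∧
      ∀ M σ σ', Exec M c σ σ' → Relation.ReflTransGen (PStep M P) (0, σ) (h, σ') := by
  have hl : (c.flat 0 c.size ++ [Instr.nop c.size]).length = c.size + 1 := by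
    rw [List.length_append, Cmd.flat_length, List.length_singleton]
  refine ⟨c.flat 0 c.size ++ [.nop c.size], c.size, ?_, ?_, fun i hi => ?_, fun M σ σ' h => ?_⟩
  · rw [List.getElem?_append_right (by rw [Cmd.flat_length]), Cmd.flat_length, Nat.sub_self]
    rfl
  · rw [hl]
    exact Nat.succ_pos _
  · rw [hl]
    rw [List.mem_append, List.mem_singleton] at hi
    rcases hi with hi | hi
    · exact c.flat_ok hc 0 c.size (by omega) (by omega) i hi
    · rw [hi]
      exact Nat.lt_succ_self _
  · refine h.flat 0 c.size fun j hj => ?_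
    rw [Nat.zero_add, List.getElem?_append_left (by rw [Cmd.flat_length]; exact hj)]

end Pool.Agent.PTr
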