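import Mathlib
import Pool.Agent.PTr.TMap

/-!
# Queue automata as maps `u ↦ s u + c` of an interval

A word over the digits `0, .., s - 1` together with a state is a number below `Q s ^ n`; reading
the first digit, changing the state and writing a digit at the end of the word is a map
`u ↦ s u + c` modulo `Q s ^ n` on each of `Q s` intervals.
-/

set_option autoImplicit false

namespace Pool.Agent.PTr

open Finset

/-- The value of a word, most significant digit first. -/
def wval (s : ℕ) : List ℕ → ℕ
  | [] => 0
  | a :: l => a * s ^ l.length + wval s l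

theorem wval_append (s : ℕ) (l m : List ℕ) :
    wval s (l ++ m) = wval s l * s ^ m.length + wval s m := by
  induction l with
  | nil => simp [wval]
  | cons a l ih =>
    rw [List.cons_append, wval, wval, ih, List.length_append, pow_add]
    ring

theorem wval_lt {s : ℕ} : ∀ {l : List ℕ}, (∀ a ∈ l, a < s) → wval s l < s ^ l.length
  | [], _ => by simp [wval]
  | a :: l, h => by
    have h1 := wval_lt (s := s) (l := l) fun b hb => h b (List.mem_cons_of_mem _ hb)
    have h2 := h a List.mem_cons_self
    rw [wval, List.length_cons, pow_succ]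
    calc a * s ^ l.length + wval s l < a * s ^ l.length + s ^ l.length := by omega
      _ = (a + 1) * s ^ l.length := by ring
      _ ≤ s * s ^ l.length := Nat.mul_le_mul_right _ h2
      _ = s ^ l.length * s := by ring

theorem wval_inj {s : ℕ} : ∀ {l m : List ℕ}, l.length = m.length → (∀ a ∈ l, a < s) →
    (∀ a ∈ m, a < s) → wval s l = wval s m → l = m
  | [], [], _, _, _, _ => rfl
  | [], b :: m, h, _, _, _ => by simp at h
  | a :: l, [], h, _, _, _ => by simp at h
  | a :: l, b :: m, h, hl, hm, he => by
    have hlen : l.length = m.length := by simpa using h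
    have h1 := wval_lt (s := s) (l := l) fun c hc => hl c (List.mem_cons_of_mem _ hc)
    have h2 := wval_lt (s := s) (l := m) fun c hc => hm c (List.mem_cons_of_mem _ hc)
    rw [wval, wval, hlen] at he
    rw [hlen] at h1
    have hpos : 0 < s ^ m.length := by omega
    have hd : a = b := by
      have e1 : (a * s ^ m.length + wval s l) / s ^ m.length = a := by
        rw [mul_comm, Nat.mul_add_div hpos, Nat.div_eq_of_lt h1, add_zero]
      have e2 : (b * s ^ m.length + wval s m) / s ^ m.length = b := by
        rw [mul_comm, Nat.mul_add_div hpos, Nat.div_eq_of_lt h2, add_zero]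
      rw [← e1, he, e2]
    subst hd
    have := wval_inj hlen (fun c hc => hl c (List.mem_cons_of_mem _ hc))
      (fun c hc => hm c (List.mem_cons_of_mem _ hc)) (by omega)
    rw [this]

/-- The queue automaton with the transition function `δ` and `Q` states as a map of slope `s`;
`p'` is `s ^ (n - 1)`. -/
def qmap (s Q : ℕ) (δ : ℕ → ℕ → ℕ × ℕ) (p' : ℕ) : (Fin 1 → ℕ) → Fin 1 → ℕ :=
  tmap (k := Q * s) s (Q * (s * p')) (fun i _ => i * p') (fun i _ => (i + 1) * p')
    (fun i _ => ((δ (i / s) (i % s)).1 + (Q * s - i)) * (s * p') + (δ (i / s) (i % s)).2)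

theorem qmap_step {s Q : ℕ} {δ : ℕ → ℕ → ℕ × ℕ} {p' i w : ℕ} (hs : 0 < s) (hi : i < Q * s)
    (hw : w < p') (h1 : (δ (i / s) (i % s)).1 < Q) (h2 : (δ (i / s) (i % s)).2 < s) :
    qmap s Q δ p' (fun _ => i * p' + w) =
      fun _ => (δ (i / s) (i % s)).1 * (s * p') + (s * w + (δ (i / s) (i % s)).2) := by
  funext j
  unfold qmap tmap
  have hp : 0 < p' := by omega
  have hsum : (∑ j : Fin (Q * s), if (∀ _l : Fin 1, (j : ℕ) * p' ≤ i * p' + w ∧
      i * p' + w < ((j : ℕ) + 1) * p') then
      ((δ (j / s) (j % s)).1 + (Q * s - j)) * (s * p') + (δ (j / s) (j % s)).2 else 0) =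
      ((δ (i / s) (i % s)).1 + (Q * s - i)) * (s * p') + (δ (i / s) (i % s)).2 := by
    rw [Finset.sum_eq_single (⟨i, hi⟩ : Fin (Q * s))]
    · rw [if_pos]
      intro _
      refine ⟨by simp, ?_⟩
      show i * p' + w < (i + 1) * p'
      rw [Nat.add_mul]
      omega
    · intro b _ hb
      rw [if_neg]
      intro h
      obtain ⟨h3, h4⟩ := h 0
      apply hb
      refine Fin.ext ?_
      show (b : ℕ) = i
      have h5 : (b : ℕ) < i + 1 := by
        by_contra hc
        have := Nat.mul_le_mul_right p' (Nat.le_of_not_lt hc)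
        rw [Nat.add_mul] at this
        omega
      have h6 : i < (b : ℕ) + 1 := by
        by_contra hc
        have := Nat.mul_le_mul_right p' (Nat.le_of_not_lt hc)
        omega
      omega
    · intro h
      exact absurd (Finset.mem_univ _) h
  show (s * (i * p' + w) + _) % _ = _
  rw [hsum]
  set q' := (δ (i / s) (i % s)).1 with hq'
  set β := (δ (i / s) (i % s)).2 with hβ
  obtain ⟨e, he⟩ : ∃ e, Q * s = i + e := ⟨Q * s - i, by omega⟩
  have h3 : Q * s - i = e := by omega
  rw [h3]
  have h4 : s * (i * p' + w) + ((q' + e) * (s * p') + β) =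
      q' * (s * p') + (s * w + β) + s * (Q * (s * p')) := by
    have : (i + e) * (s * p') = s * (Q * (s * p')) := by rw [← he]; ring
    calc s * (i * p' + w) + ((q' + e) * (s * p') + β) =
        q' * (s * p') + (s * w + β) + (i + e) * (s * p') := by ring
      _ = _ := by rw [this]
  rw [h4, Nat.add_mul_mod_self_right, Nat.mod_eq_of_lt]
  have h5 : s * w + β < s * p' := by
    calc s * w + β < s * w + s := by omega
      _ = s * (w + 1) := by ring
      _ ≤ s * p' := Nat.mul_le_mul_left _ hw
  calc q' * (s * p') + (s * w + β) < q' * (s * p') + s * p' := by omega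
    _ = (q' + 1) * (s * p') := by ring
    _ ≤ Q * (s * p') := Nat.mul_le_mul_right _ h1

/-- The number of a configuration. -/
def num (s : ℕ) (q : ℕ) (l : List ℕ) : Fin 1 → ℕ := fun _ => q * s ^ l.length + wval s l

/-- The run of the automaton over a word. -/
def qrun {St : Type} (δ : St → ℕ → St × ℕ) : St → List ℕ → St × List ℕ
  | q, [] => (q, [])
  | q, a :: l => ((qrun δ (δ q a).1 l).1, (δ q a).2 :: (qrun δ (δ q a).1 l).2)

theorem qrun_append {St : Type} (δ : St → ℕ → St × ℕ) (q : St) (l m : List ℕ) :
    qrun δ q (l ++ m) = ((qrun δ (qrun δ q l).1 m).1,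
      (qrun δ q l).2 ++ (qrun δ (qrun δ q l).1 m).2) := by
  induction l generalizing q with
  | nil => rfl
  | cons a l ih => rw [List.cons_append, qrun, ih]; rfl

theorem qrun_length {St : Type} (δ : St → ℕ → St × ℕ) (q : St) (l : List ℕ) :
    (qrun δ q l).2.length = l.length := by
  induction l generalizing q with
  | nil => rfl
  | cons a l ih => rw [qrun, List.length_cons, List.length_cons, ih]

/-- An automaton on the states `St`, coded by numbers. -/
structure Coded {St : Type} (s Q : ℕ) (δ : St → ℕ → St × ℕ) (ok : St → Prop) (code : St → ℕ)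
    (δN : ℕ → ℕ → ℕ × ℕ) : Prop where
  pos : 0 < s
  lt : ∀ q, ok q → code q < Q
  okδ : ∀ q a, ok q → a < s → ok (δ q a).1 ∧ (δ q a).2 < s
  eq : ∀ q a, ok q → a < s → δN (code q) a = (code (δ q a).1, (δ q a).2)

variable {St : Type} {s Q : ℕ} {δ : St → ℕ → St × ℕ} {ok : St → Prop} {code : St → ℕ}
  {δN : ℕ → ℕ → ℕ × ℕ}

theorem Coded.step (h : Coded s Q δ ok code δN) {q : St} (hq : ok q) {a : ℕ} {l : List ℕ}
    (ha : a < s) (hl : ∀ b ∈ l, b < s) :
    qmap s Q δN (s ^ l.length) (num s (code q) (a :: l)) =
      num s (code (δ q a).1) (l ++ [(δ q a).2]) := by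
  have h1 := h.lt q hq
  obtain ⟨h2, h3⟩ := h.okδ q a hq ha
  have hi : code q * s + a < Q * s := by
    calc code q * s + a < code q * s + s := by omega
      _ = (code q + 1) * s := by ring
      _ ≤ Q * s := Nat.mul_le_mul_right _ h1
  have hd : (code q * s + a) / s = code q := by
    rw [mul_comm, Nat.mul_add_div h.pos, Nat.div_eq_of_lt ha, add_zero]
  have hm : (code q * s + a) % s = a := by
    rw [mul_comm, Nat.mul_add_mod, Nat.mod_eq_of_lt ha]
  have hw := wval_lt hl
  have hδ := h.eq q a hq ha
  have e := qmap_step (δ := δN) (Q := Q) (p' := s ^ l.length) (w := wval s l) h.pos hi hw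
    (by rw [hd, hm, hδ]; exact h.lt _ h2) (by rw [hd, hm, hδ]; exact h3)
  rw [hd, hm, hδ] at e
  have e1 : num s (code q) (a :: l) = fun _ => (code q * s + a) * s ^ l.length + wval s l := by
    funext _
    show code q * s ^ (a :: l).length + wval s (a :: l) = _
    rw [List.length_cons, wval, pow_succ]
    ring
  have e2 : num s (code (δ q a).1) (l ++ [(δ q a).2]) =
      fun _ => code (δ q a).1 * (s * s ^ l.length) + (s * wval s l + (δ q a).2) := by
    funext _
    show _ * s ^ (l ++ [(δ q a).2]).length + wval s (l ++ [(δ q a).2]) = _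
    rw [wval_append, List.length_append, List.length_singleton, pow_succ]
    simp only [wval, List.length_nil, pow_zero]
    ring
  rw [e1, e2]
  exact e

theorem Coded.run (h : Coded s Q δ ok code δN) {n : ℕ} : ∀ (l m : List ℕ) (q : St), ok q →
    (∀ b ∈ l, b < s) → (∀ b ∈ m, b < s) → l.length + m.length = n + 1 →
    (qmap s Q δN (s ^ n))^[l.length] (num s (code q) (l ++ m)) =
      num s (code (qrun δ q l).1) (m ++ (qrun δ q l).2) ∧ ok (qrun δ q l).1 ∧
      (∀ b ∈ (qrun δ q l).2, b < s) := by
  intro l
  induction l with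
  | nil =>
    intro m q hq _ _ _
    refine ⟨?_, hq, fun b hb => ?_⟩
    · simp [qrun]
    · simp [qrun] at hb
  | cons a l ih =>
    intro m q hq hl hm hn
    have ha := hl a List.mem_cons_self
    have hl' : ∀ b ∈ l, b < s := fun b hb => hl b (List.mem_cons_of_mem _ hb)
    obtain ⟨h2, h3⟩ := h.okδ q a hq ha
    rw [List.length_cons] at hn
    have hlm : ∀ b ∈ l ++ m, b < s := by
      intro b hb
      rcases List.mem_append.1 hb with h | h
      · exact hl' b h
      · exact hm b h
    have e := h.step hq ha hlm
    have hlen : (l ++ m).length = n := by rw [List.length_append]; omega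
    rw [hlen] at e
    obtain ⟨i1, i2, i3⟩ := ih (m ++ [(δ q a).2]) (δ q a).1 h2 hl' (by
      intro b hb
      rcases List.mem_append.1 hb with h | h
      · exact hm b h
      · rw [List.mem_singleton] at h
        rw [h]; exact h3) (by rw [List.length_append, List.length_singleton]; omega)
    refine ⟨?_, i2, ?_⟩
    · rw [List.length_cons, Function.iterate_succ_apply, List.cons_append, e,
        List.append_assoc, i1, qrun, List.append_assoc, List.singleton_append]
    · intro b hb
      rw [qrun] at hb
      rcases List.mem_cons.1 hb with h | h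
      · rw [h]; exact h3
      · exact i3 b h

/-- one tour of the queue -/
theorem Coded.pass (h : Coded s Q δ ok code δN) {n : ℕ} {l : List ℕ} {q : St} (hq : ok q)
    (hl : ∀ b ∈ l, b < s) (hn : l.length = n + 1) :
    (qmap s Q δN (s ^ n))^[n + 1] (num s (code q) l) =
      num s (code (qrun δ q l).1) (qrun δ q l).2 ∧ ok (qrun δ q l).1 ∧
      (∀ b ∈ (qrun δ q l).2, b < s) := by
  have := h.run (n := n) l [] q hq hl (by simp) (by simpa using hn)
  rw [List.append_nil, List.nil_append, hn] at this
  exact this

end Pool.Agent.PTr
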