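import Mathlib
import Pool.Agent.PTr.ClkNum
import Pool.Agent.PTr.ClkFlat

/-!
# Counter programs on a queue automaton

The registers `σ 0, .., σ (K - 1)` are written in base `s`, interleaved, least significant digits
first; the digits at the positions `K` modulo `K + 1` are tags, the last one is `1`, the others
are `0`.
-/

set_option autoImplicit false

namespace Pool.Agent.PTr

open Finset Function

/-- the operation of an instruction on the flag and a digit of its register -/
def Instr.op (s : ℕ) : Instr → ℕ → ℕ → ℕ × ℕ
  | .inc _ _, f, a => if f = 1 then (if a + 1 < s then (0, a + 1) else (1, 0)) else (f, a)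
  | .dec _ _, f, a => if f = 1 then (if a = 0 then (1, s - 1) else (0, a - 1)) else (f, a)
  | .test _ _ _, f, a => if a = 0 then (f, a) else (0, a)
  | .nop _, f, a => (f, a)

/-- the register of an instruction -/
def Instr.reg : Instr → ℕ
  | .inc r _ => r
  | .dec r _ => r
  | .test r _ _ => r
  | .nop _ => 0

/-- the next address -/
def Instr.nxt : Instr → ℕ → ℕ
  | .inc _ a, _ => a
  | .dec _ a, _ => a
  | .test _ a b, f => if f = 1 then a else b
  | .nop a, _ => a

/-- the instruction at the address `p` -/
def instrAt (P : List Instr) (p : ℕ) : Instr := (P[p]?).getD (.nop 0)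

/-- the queue automaton of the program `P` with `K` registers in base `s`; a state consists of the
address, the position in the block and the flag -/
def dlt (P : List Instr) (K s : ℕ) (q : ℕ × ℕ × ℕ) (a : ℕ) : (ℕ × ℕ × ℕ) × ℕ :=
  if q.2.1 < K then
    if q.2.1 = (instrAt P q.1).reg then
      ((q.1, q.2.1 + 1, ((instrAt P q.1).op s q.2.2 a).1), ((instrAt P q.1).op s q.2.2 a).2)
    else ((q.1, q.2.1 + 1, q.2.2), a)
  else if a = 0 then ((q.1, 0, q.2.2), 0) else (((instrAt P q.1).nxt q.2.2, 0, 1), a)

/-- a block: the digits of a row and a tag -/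
def blk (K : ℕ) (row : ℕ → ℕ) (tag : ℕ) : List ℕ := (List.range' 0 K).map row ++ [tag]

/-- the tape -/
def tape (K s : ℕ) : ℕ → (ℕ → ℕ) → List ℕ
  | 0, _ => blk K (fun _ => 0) 1
  | L + 1, σ => blk K (fun i => σ i % s) 0 ++ tape K s L (fun i => σ i / s)

variable {P : List Instr} {K s : ℕ}

theorem length_blk (row : ℕ → ℕ) (tag : ℕ) : (blk K row tag).length = K + 1 := by
  simp [blk]

theorem length_tape (L : ℕ) (σ : ℕ → ℕ) : (tape K s L σ).length = (K + 1) * (L + 1) := by
  induction L generalizing σ with
  | zero => rw [tape, length_blk]; ring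
  | succ L ih => rw [tape, List.length_append, length_blk, ih]; ring

theorem blk_lt {row : ℕ → ℕ} {tag : ℕ} (h1 : ∀ i, row i < s) (h2 : tag < s) :
    ∀ b ∈ blk K row tag, b < s := by
  intro b hb
  rw [blk, List.mem_append, List.mem_map, List.mem_singleton] at hb
  rcases hb with ⟨i, _, rfl⟩ | rfl
  · exact h1 i
  · exact h2

theorem tape_lt (hs : 2 ≤ s) (L : ℕ) (σ : ℕ → ℕ) : ∀ b ∈ tape K s L σ, b < s := by
  induction L generalizing σ with
  | zero => exact blk_lt (fun _ => by omega) (by omega)
  | succ L ih =>
    intro b hb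
    rw [tape, List.mem_append] at hb
    rcases hb with h | h
    · exact blk_lt (fun i => Nat.mod_lt _ (by omega)) (by omega) b h
    · exact ih _ b h

theorem tape_congr (L : ℕ) {σ τ : ℕ → ℕ} (h : ∀ i, i < K → σ i = τ i) :
    tape K s L σ = tape K s L τ := by
  induction L generalizing σ τ with
  | zero => rfl
  | succ L ih =>
    rw [tape, tape, ih (τ := fun i => τ i / s) fun i hi => by simp only [h i hi]]
    congr 1
    unfold blk
    congr 1
    refine List.map_congr_left fun i hi => ?_
    rw [List.mem_range'_1] at hi
    rw [h i (by omega)]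

theorem range_run (p : ℕ) (hr : (instrAt P p).reg < K) (row : ℕ → ℕ) : ∀ m i f, i + m = K →
    qrun (dlt P K s) (p, i, f) ((List.range' i m).map row) =
      ((p, K, if i ≤ (instrAt P p).reg then ((instrAt P p).op s f (row (instrAt P p).reg)).1 else f),
        (List.range' i m).map (update row (instrAt P p).reg
          (if i ≤ (instrAt P p).reg then ((instrAt P p).op s f (row (instrAt P p).reg)).2
            else row (instrAt P p).reg))) := by
  intro m
  induction m with
  | zero =>
    intro i f h
    have : ¬ i ≤ (instrAt P p).reg := by omega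
    rw [if_neg this, List.range'_zero, List.map_nil, List.map_nil, qrun]
    rw [show i = K by omega]
  | succ m ih =>
    intro i f h
    rw [List.range'_succ, List.map_cons, List.map_cons, qrun]
    have hi : i < K := by omega
    by_cases hir : i = (instrAt P p).reg
    · have hd : dlt P K s (p, i, f) (row i) = ((p, i + 1, ((instrAt P p).op s f (row i)).1),
          ((instrAt P p).op s f (row i)).2) := by
        unfold dlt
        rw [if_pos hi, if_pos hir]
      rw [hd, ih (i + 1) _ (by omega)]
      have h1 : ¬ (i + 1 ≤ (instrAt P p).reg) := by omega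
      have h2 : i ≤ (instrAt P p).reg := by omega
      rw [if_neg h1, if_neg h1, if_pos h2, if_pos h2]
      refine Prod.ext ?_ ?_
      · rw [← hir]
      · show _ :: _ = _ :: _
        congr 1
        · rw [← hir, update_self]
        · refine List.map_congr_left fun j hj => ?_
          rw [List.mem_range'_1] at hj
          have hj' : j ≠ (instrAt P p).reg := by omega
          rw [update_of_ne hj', update_of_ne hj']
    · have hd : dlt P K s (p, i, f) (row i) = ((p, i + 1, f), row i) := by
        unfold dlt
        rw [if_pos hi, if_neg hir]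
      rw [hd, ih (i + 1) _ (by omega)]
      have h1 : (i + 1 ≤ (instrAt P p).reg) ↔ i ≤ (instrAt P p).reg := by omega
      simp only [h1]
      refine Prod.ext rfl ?_
      show _ :: _ = _ :: _
      congr 1
      rw [update_of_ne hir]

theorem blk_run (p : ℕ) (hr : (instrAt P p).reg < K) (row : ℕ → ℕ) (f : ℕ) :
    qrun (dlt P K s) (p, 0, f) (blk K row 0) =
      ((p, 0, ((instrAt P p).op s f (row (instrAt P p).reg)).1),
        blk K (update row (instrAt P p).reg ((instrAt P p).op s f (row (instrAt P p).reg)).2) 0) ∧
    qrun (dlt P K s) (p, 0, f) (blk K row 1) =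
      (((instrAt P p).nxt ((instrAt P p).op s f (row (instrAt P p).reg)).1, 0, 1),
        blk K (update row (instrAt P p).reg ((instrAt P p).op s f (row (instrAt P p).reg)).2) 1) := by
  have h := range_run (s := s) p hr row K 0 f (by omega)
  rw [if_pos (Nat.zero_le _), if_pos (Nat.zero_le _)] at h
  constructor
  · unfold blk
    rw [qrun_append, h]
    simp only [qrun, dlt, lt_irrefl, if_false, if_true]
  · unfold blk
    rw [qrun_append, h]
    simp only [qrun, dlt, lt_irrefl, if_false, one_ne_zero]

/-- the run of one pass when the flag is `0` or the instruction is `nop`: the letter operation is trivial -/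
theorem tape_run_triv (p : ℕ) (hr : (instrAt P p).reg < K) (f : ℕ)
    (hf : ∀ a, (instrAt P p).op s f a = (f, a)) (L : ℕ) (σ : ℕ → ℕ) :
    qrun (dlt P K s) (p, 0, f) (tape K s L σ) =
      (((instrAt P p).nxt f, 0, 1), tape K s L σ) := by
  induction L generalizing σ with
  | zero =>
    rw [tape, (blk_run p hr _ f).2, hf]
    simp only [update_eq_self]
  | succ L ih =>
    rw [tape, qrun_append, (blk_run p hr _ f).1, hf, ih]
    simp only
    rw [show (update (fun i => σ i % s) (instrAt P p).reg (σ (instrAt P p).reg % s)) =
      fun i => σ i % s from update_eq_self _ _]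

theorem update_div (σ : ℕ → ℕ) (r x : ℕ) :
    (fun i => update σ r x i / s) = update (fun i => σ i / s) r (x / s) := by
  funext i
  by_cases h : i = r
  · subst h; simp
  · simp [update_of_ne h]

theorem update_mod (σ : ℕ → ℕ) (r x : ℕ) :
    (fun i => update σ r x i % s) = update (fun i => σ i % s) r (x % s) := by
  funext i
  by_cases h : i = r
  · subst h; simp
  · simp [update_of_ne h]

theorem tape_run_inc (hs : 2 ≤ s) {p r b : ℕ} (hP : instrAt P p = .inc r b) (hr : r < K) (L : ℕ)
    (σ : ℕ → ℕ) (hσ : σ r + 1 < s ^ L) :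
    qrun (dlt P K s) (p, 0, 1) (tape K s L σ) =
      ((b, 0, 1), tape K s L (update σ r (σ r + 1))) := by
  have hr' : (instrAt P p).reg < K := by rw [hP]; exact hr
  induction L generalizing σ with
  | zero => simp at hσ
  | succ L ih =>
    rw [tape, qrun_append, (blk_run p hr' _ 1).1, tape, update_div, update_mod]
    have hrr : (instrAt P p).reg = r := by rw [hP]; rfl
    by_cases hd : σ r % s + 1 < s
    · have hop : (instrAt P p).op s 1 (σ r % s) = (0, σ r % s + 1) := by
        rw [hP]; simp only [Instr.op, if_true]; rw [if_pos hd]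
      simp only [hrr, hop]
      have ht := tape_run_triv (s := s) p hr' 0 (fun a => by rw [hP]; simp [Instr.op]) L
        (fun i => σ i / s)
      rw [ht, hP]
      have h1 : (σ r + 1) % s = σ r % s + 1 := by
        rw [Nat.add_mod, Nat.mod_eq_of_lt (show (1 : ℕ) < s by omega), Nat.mod_eq_of_lt hd]
      have h2 : (σ r + 1) / s = σ r / s := by
        have e1 := Nat.div_add_mod (σ r) s
        have e2 := Nat.div_add_mod (σ r + 1) s
        have e3 : s * ((σ r + 1) / s) = s * (σ r / s) := by omega
        exact Nat.eq_of_mul_eq_mul_left (by omega) e3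
      rw [h1, h2]
      simp only [Instr.nxt]
      rw [show update (fun i => σ i / s) r (σ r / s) = fun i => σ i / s from update_eq_self _ _]
    · have hop : (instrAt P p).op s 1 (σ r % s) = (1, 0) := by
        rw [hP]; simp only [Instr.op, if_true]; rw [if_neg hd]
      simp only [hrr, hop]
      have hm := Nat.mod_lt (σ r) (show 0 < s by omega)
      have e1 := Nat.div_add_mod (σ r) s
      have h0 : σ r + 1 = s * (σ r / s + 1) := by rw [Nat.mul_add]; omega
      have h3 : σ r / s + 1 < s ^ L := by
        rw [h0, pow_succ, mul_comm] at hσ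
        exact lt_of_mul_lt_mul_right hσ (Nat.zero_le _)
      rw [ih (fun i => σ i / s) h3]
      have h1 : (σ r + 1) % s = 0 := by rw [h0]; exact Nat.mul_mod_right _ _
      have h2 : (σ r + 1) / s = σ r / s + 1 := by
        rw [h0]; exact Nat.mul_div_cancel_left _ (by omega)
      rw [h1, h2]

theorem tape_run_dec (hs : 2 ≤ s) {p r b : ℕ} (hP : instrAt P p = .dec r b) (hr : r < K) (L : ℕ)
    (σ : ℕ → ℕ) (hσ : σ r < s ^ L) (h0 : σ r ≠ 0) :
    qrun (dlt P K s) (p, 0, 1) (tape K s L σ) =
      ((b, 0, 1), tape K s L (update σ r (σ r - 1))) := by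
  have hr' : (instrAt P p).reg < K := by rw [hP]; exact hr
  induction L generalizing σ with
  | zero => simp at hσ; exact absurd hσ h0
  | succ L ih =>
    rw [tape, qrun_append, (blk_run p hr' _ 1).1, tape, update_div, update_mod]
    have hrr : (instrAt P p).reg = r := by rw [hP]; rfl
    have hm := Nat.mod_lt (σ r) (show 0 < s by omega)
    have e1 := Nat.div_add_mod (σ r) s
    by_cases hd : σ r % s = 0
    · have hop : (instrAt P p).op s 1 (σ r % s) = (1, s - 1) := by
        rw [hP]; simp only [Instr.op, if_true]; rw [if_pos hd]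
      simp only [hrr, hop]
      have h4 : σ r / s ≠ 0 := by
        intro h
        rw [h] at e1
        omega
      obtain ⟨z, hz⟩ : ∃ z, σ r / s = z + 1 := Nat.exists_eq_succ_of_ne_zero h4
      have h5 : σ r = s * z + s := by rw [← e1, hz, hd]; ring
      have h3 : σ r / s < s ^ L := by
        rw [Nat.div_lt_iff_lt_mul (by omega), ← pow_succ]
        exact hσ
      rw [ih (fun i => σ i / s) h3 h4]
      have h6 : σ r - 1 = s * z + (s - 1) := by omega
      have h1 : (σ r - 1) % s = s - 1 := by
        rw [h6, Nat.mul_add_mod, Nat.mod_eq_of_lt (by omega)]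
      have h2 : (σ r - 1) / s = σ r / s - 1 := by
        rw [h6, Nat.mul_add_div (by omega), Nat.div_eq_of_lt (by omega), hz]
        omega
      rw [h1, h2]
    · have hop : (instrAt P p).op s 1 (σ r % s) = (0, σ r % s - 1) := by
        rw [hP]; simp only [Instr.op, if_true]; rw [if_neg hd]
      simp only [hrr, hop]
      have ht := tape_run_triv (s := s) p hr' 0 (fun a => by rw [hP]; simp [Instr.op]) L
        (fun i => σ i / s)
      rw [ht, hP]
      have h6 : σ r - 1 = s * (σ r / s) + (σ r % s - 1) := by omega
      have h1 : (σ r - 1) % s = σ r % s - 1 := by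
        conv_lhs => rw [h6]
        rw [Nat.mul_add_mod, Nat.mod_eq_of_lt (by omega)]
      have h2 : (σ r - 1) / s = σ r / s := by
        conv_lhs => rw [h6]
        rw [Nat.mul_add_div (by omega), Nat.div_eq_of_lt (show σ r % s - 1 < s by omega), add_zero]
      rw [h1, h2]
      simp only [Instr.nxt]
      rw [show update (fun i => σ i / s) r (σ r / s) = fun i => σ i / s from update_eq_self _ _]

theorem tape_run_test (hs : 2 ≤ s) {p r a b : ℕ} (hP : instrAt P p = .test r a b) (hr : r < K)
    (L : ℕ) (σ : ℕ → ℕ) (f : ℕ) (hσ : σ r < s ^ L) :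
    qrun (dlt P K s) (p, 0, f) (tape K s L σ) =
      ((if (if σ r = 0 then f else 0) = 1 then a else b, 0, 1), tape K s L σ) := by
  have hr' : (instrAt P p).reg < K := by rw [hP]; exact hr
  have hrr : (instrAt P p).reg = r := by rw [hP]; rfl
  have hop : ∀ f d, (instrAt P p).op s f d = (if d = 0 then f else 0, d) := by
    intro f d
    rw [hP]
    simp only [Instr.op]
    split_ifs <;> rfl
  induction L generalizing σ f with
  | zero =>
    have h0 : σ r = 0 := by simpa using hσ
    rw [tape, (blk_run p hr' _ f).2, hop, h0]
    simp only [if_true, hP, Instr.nxt, update_eq_self]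
  | succ L ih =>
    rw [tape, qrun_append, (blk_run p hr' _ f).1]
    simp only [hrr, hop]
    have h3 : σ r / s < s ^ L := by
      rw [Nat.div_lt_iff_lt_mul (by omega), ← pow_succ]
      exact hσ
    rw [ih (fun i => σ i / s) _ h3]
    rw [show (update (fun i => σ i % s) r (σ r % s)) = fun i => σ i % s from update_eq_self _ _]
    have e1 := Nat.div_add_mod (σ r) s
    have h4 : (if σ r / s = 0 then (if σ r % s = 0 then f else 0) else 0) =
        if σ r = 0 then f else 0 := by
      by_cases h5 : σ r = 0
      · simp [h5]
      · by_cases h6 : σ r / s = 0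
        · have h7 : σ r % s ≠ 0 := by
            intro h7
            rw [h6, h7] at e1
            omega
          rw [if_pos h6, if_neg h7, if_neg h5]
        · rw [if_neg h6, if_neg h5]
    rw [h4]

/-- One step of the program is one pass over the tape. -/
theorem pstep_run (hs : 2 ≤ s) {M L : ℕ} (hM : M ≤ s ^ L) (hK : 0 < K)
    (hP : ∀ i ∈ P, i.ok K P.length) {p p' : ℕ} {σ σ' : ℕ → ℕ} (hσ : ∀ i, i < K → σ i < M)
    (h : PStep M P (p, σ) (p', σ')) :
    qrun (dlt P K s) (p, 0, 1) (tape K s L σ) = ((p', 0, 1), tape K s L σ') ∧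
      p < P.length ∧ p' < P.length ∧ ∀ i, i < K → σ' i < M := by
  cases h with
  | @inc _ r _ _ h1 h2 =>
    have hmem := List.mem_of_getElem? h1
    have hok := hP _ hmem
    have hlt : p < P.length := (List.getElem?_eq_some_iff.1 h1).1
    have hi : instrAt P p = .inc r p' := by rw [instrAt, h1]; rfl
    refine ⟨tape_run_inc hs hi hok.1 L σ (by omega), hlt, hok.2, fun i hi => ?_⟩
    by_cases hir : i = r
    · subst hir; rw [update_self]; exact h2
    · rw [update_of_ne hir]; exact hσ i hi
  | @dec _ r _ _ h1 h2 =>
    have hmem := List.mem_of_getElem? h1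
    have hok := hP _ hmem
    have hlt : p < P.length := (List.getElem?_eq_some_iff.1 h1).1
    have hi : instrAt P p = .dec r p' := by rw [instrAt, h1]; rfl
    have hr := hσ r hok.1
    refine ⟨tape_run_dec hs hi hok.1 L σ (by omega) h2, hlt, hok.2, fun i hi => ?_⟩
    by_cases hir : i = r
    · subst hir; rw [update_self]; omega
    · rw [update_of_ne hir]; exact hσ i hi
  | @testz _ r _ b _ h1 h2 =>
    have hmem := List.mem_of_getElem? h1
    have hok := hP _ hmem
    have hlt : p < P.length := (List.getElem?_eq_some_iff.1 h1).1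
    have hi : instrAt P p = .test r p' b := by rw [instrAt, h1]; rfl
    have hr := hσ r hok.1
    refine ⟨?_, hlt, hok.2.1, hσ⟩
    rw [tape_run_test hs hi hok.1 L σ 1 (by omega), h2]
    simp
  | @testn _ r a _ _ h1 h2 =>
    have hmem := List.mem_of_getElem? h1
    have hok := hP _ hmem
    have hlt : p < P.length := (List.getElem?_eq_some_iff.1 h1).1
    have hi : instrAt P p = .test r a p' := by rw [instrAt, h1]; rfl
    have hr := hσ r hok.1
    refine ⟨?_, hlt, hok.2.2, hσ⟩
    rw [tape_run_test hs hi hok.1 L σ 1 (by omega), if_neg h2]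
    simp
  | @nop _ _ _ h1 =>
    have hmem := List.mem_of_getElem? h1
    have hok := hP _ hmem
    have hlt : p < P.length := (List.getElem?_eq_some_iff.1 h1).1
    have hi : instrAt P p = .nop p' := by rw [instrAt, h1]; rfl
    refine ⟨?_, hlt, hok, hσ⟩
    have := tape_run_triv (s := s) p (by rw [hi]; exact hK) 1 (fun a => by rw [hi]; rfl) L σ
    rw [this, hi]
    rfl

end Pool.Agent.PTr
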