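import Mathlib
import Pool.Agent.PTr.ClkTape

/-!
# Counter programs as orbits of maps of slope `s`
-/

set_option autoImplicit false

namespace Pool.Agent.PTr

open Finset Function Relation

variable {P : List Instr} {K s : ℕ}

/-- admissible states -/
def okst (P : List Instr) (K : ℕ) (q : ℕ × ℕ × ℕ) : Prop := q.1 < P.length ∧ q.2.1 ≤ K ∧ q.2.2 ≤ 1

/-- the number of a state -/
def codest (K : ℕ) (q : ℕ × ℕ × ℕ) : ℕ := (q.1 * (K + 1) + q.2.1) * 2 + q.2.2

/-- the transition function on numbers -/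
def dltN (P : List Instr) (K s : ℕ) (q a : ℕ) : ℕ × ℕ :=
  (codest K (dlt P K s (q / 2 / (K + 1), q / 2 % (K + 1), q % 2) a).1,
    (dlt P K s (q / 2 / (K + 1), q / 2 % (K + 1), q % 2) a).2)

theorem instrAt_mem {p : ℕ} (hp : p < P.length) : instrAt P p ∈ P := by
  unfold instrAt
  rw [List.getElem?_eq_getElem hp]
  exact List.getElem_mem hp

theorem dlt_ok (hs : 2 ≤ s) (hP : ∀ i ∈ P, i.ok K P.length) (q : ℕ × ℕ × ℕ) (a : ℕ)
    (hq : okst P K q) (ha : a < s) :
    okst P K (dlt P K s q a).1 ∧ (dlt P K s q a).2 < s := by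
  obtain ⟨h1, h2, h3⟩ := hq
  have hi := hP _ (instrAt_mem h1)
  unfold dlt
  split_ifs with h4 h5 h6
  · refine ⟨⟨h1, h4, ?_⟩, ?_⟩
    · show ((instrAt P q.1).op s q.2.2 a).1 ≤ 1
      cases instrAt P q.1 <;> simp only [Instr.op] <;> (try split_ifs) <;> (try dsimp only) <;>
        omega
    · show ((instrAt P q.1).op s q.2.2 a).2 < s
      cases instrAt P q.1 <;> simp only [Instr.op] <;> (try split_ifs) <;> (try dsimp only) <;>
        omega
  · exact ⟨⟨h1, h4, h3⟩, ha⟩
  · exact ⟨⟨h1, Nat.zero_le _, h3⟩, by show 0 < s; omega⟩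
  · refine ⟨⟨?_, Nat.zero_le _, le_rfl⟩, ha⟩
    show (instrAt P q.1).nxt q.2.2 < P.length
    revert hi
    cases instrAt P q.1 <;> simp only [Instr.ok, Instr.nxt] <;> intro hi
    · exact hi.2
    · exact hi.2
    · split_ifs
      · exact hi.2.1
      · exact hi.2.2
    · exact hi

theorem coded (hs : 2 ≤ s) (hP : ∀ i ∈ P, i.ok K P.length) :
    Coded s (P.length * (K + 1) * 2) (dlt P K s) (okst P K) (codest K) (dltN P K s) where
  pos := by omega
  lt := by
    rintro ⟨p, i, f⟩ ⟨h1, h2, h3⟩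
    simp only at h1 h2 h3
    unfold codest
    simp only
    have : p * (K + 1) + (K + 1) ≤ P.length * (K + 1) := by
      calc p * (K + 1) + (K + 1) = (p + 1) * (K + 1) := by ring
        _ ≤ P.length * (K + 1) := Nat.mul_le_mul_right _ h1
    omega
  okδ := fun q a hq ha => dlt_ok hs hP q a hq ha
  eq := by
    rintro ⟨p, i, f⟩ a ⟨h1, h2, h3⟩ ha
    simp only at h1 h2 h3
    have e1 : codest K (p, i, f) % 2 = f := by
      unfold codest
      simp only
      omega
    have e2 : codest K (p, i, f) / 2 = p * (K + 1) + i := by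
      unfold codest
      simp only
      omega
    have e3 : (p * (K + 1) + i) / (K + 1) = p := by
      rw [mul_comm, Nat.mul_add_div (by omega), Nat.div_eq_of_lt (by omega), add_zero]
    have e4 : (p * (K + 1) + i) % (K + 1) = i := by
      rw [mul_comm, Nat.mul_add_mod, Nat.mod_eq_of_lt (by omega)]
    unfold dltN
    rw [e1, e2, e3, e4]

/-- the map of the program with words of length `n + 1` -/
def pmapK (P : List Instr) (K s n : ℕ) : (Fin 1 → ℕ) → Fin 1 → ℕ :=
  qmap s (P.length * (K + 1) * 2) (dltN P K s) (s ^ n)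

theorem sim (hs : 2 ≤ s) {M L n : ℕ} (hM : M ≤ s ^ L) (hK : 0 < K)
    (hn : (K + 1) * (L + 1) = n + 1)
    (hP : ∀ i ∈ P, i.ok K P.length) {p p' : ℕ} {σ σ' : ℕ → ℕ} (hσ : ∀ i, i < K → σ i < M)
    (h : ReflTransGen (PStep M P) (p, σ) (p', σ')) :
    (∃ t, (pmapK P K s n)^[t] (num s (codest K (p, 0, 1)) (tape K s L σ)) =
      num s (codest K (p', 0, 1)) (tape K s L σ')) ∧ ∀ i, i < K → σ' i < M := by
  obtain ⟨z, hz⟩ : ∃ z : ℕ × (ℕ → ℕ), z = (p', σ') := ⟨_, rfl⟩
  rw [← hz] at h
  have key : (∃ t, (pmapK P K s n)^[t] (num s (codest K (p, 0, 1)) (tape K s L σ)) =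
      num s (codest K (z.1, 0, 1)) (tape K s L z.2)) ∧ ∀ i, i < K → z.2 i < M := by
    clear hz
    induction h with
    | refl => exact ⟨⟨0, rfl⟩, hσ⟩
    | @tail b c _ hbc ih =>
      obtain ⟨⟨t, ht⟩, hb⟩ := ih
      obtain ⟨b1, b2⟩ := b
      obtain ⟨c1, c2⟩ := c
      obtain ⟨h1, h2, h3, h4⟩ := pstep_run hs hM hK hP hb hbc
      refine ⟨⟨n + 1 + t, ?_⟩, h4⟩
      rw [iterate_add_apply, ht]
      have h5 := ((coded hs hP).pass (n := n) (l := tape K s L b2) (q := (b1, 0, 1))
        ⟨h2, Nat.zero_le _, le_rfl⟩ (tape_lt hs L b2) (by rw [length_tape, hn])).1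
      rw [h1] at h5
      exact h5
  rw [hz] at key
  exact key

theorem halt_step {h : ℕ} (hh : instrAt P h = .nop h) {i : ℕ} (hi : i ≤ K) (a : ℕ) :
    ∃ i', i' ≤ K ∧ dlt P K s (h, i, 1) a = ((h, i', 1), a) := by
  unfold dlt
  simp only [hh]
  split_ifs with h1 h2 h3
  · exact ⟨i + 1, h1, rfl⟩
  · exact ⟨i + 1, h1, rfl⟩
  · exact ⟨0, Nat.zero_le _, by rw [h3]⟩
  · exact ⟨0, Nat.zero_le _, rfl⟩

theorem halt_iter (hs : 2 ≤ s) (hP : ∀ i ∈ P, i.ok K P.length) {h : ℕ} (hlt : h < P.length)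
    (hh : instrAt P h = .nop h) (n : ℕ) : ∀ (t i : ℕ) (l : List ℕ), i ≤ K → (∀ b ∈ l, b < s) →
      l.length = n + 1 → ∃ i' l', i' ≤ K ∧ (pmapK P K s n)^[t] (num s (codest K (h, i, 1)) l) =
        num s (codest K (h, i', 1)) l' ∧ l'.sum = l.sum ∧ l'.length = n + 1 ∧ ∀ b ∈ l', b < s := by
  intro t
  induction t with
  | zero => intro i l hi hl hn; exact ⟨i, l, hi, rfl, rfl, hn, hl⟩
  | succ t ih =>
    intro i l hi hl hn
    cases l with
    | nil => simp at hn
    | cons a l =>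
      have ha := hl a List.mem_cons_self
      have hl' : ∀ b ∈ l, b < s := fun b hb => hl b (List.mem_cons_of_mem _ hb)
      obtain ⟨i', hi', hd⟩ := halt_step (P := P) (K := K) (s := s) hh hi a
      have hln : l.length = n := by simpa using hn
      have h1 := (coded hs hP).step (q := (h, i, 1)) ⟨hlt, hi, le_rfl⟩ ha hl'
      rw [hd, hln] at h1
      obtain ⟨i'', l'', g1, g2, g3, g4, g5⟩ := ih i' (l ++ [a]) hi' (by
        intro b hb
        rcases List.mem_append.1 hb with h | h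
        · exact hl' b h
        · rw [List.mem_singleton] at h
          rw [h]; exact ha) (by rw [List.length_append, hln]; rfl)
      refine ⟨i'', l'', g1, ?_, ?_, g4, g5⟩
      · rw [iterate_succ_apply]
        rw [← g2]
        congr 1
      · rw [g3, List.sum_append, List.sum_cons, List.sum_cons, List.sum_nil]
        omega

theorem num_inj {q q' : ℕ} {l l' : List ℕ} (hlen : l.length = l'.length) (hl : ∀ b ∈ l, b < s)
    (hl' : ∀ b ∈ l', b < s) (h : num s q l = num s q' l') : l = l' := by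
  have h0 : q * s ^ l.length + wval s l = q' * s ^ l'.length + wval s l' := congrFun h 0
  have h1 := wval_lt hl
  have h2 := wval_lt hl'
  rw [← hlen] at h0 h2
  refine wval_inj hlen hl hl' ?_
  have e1 : (q * s ^ l.length + wval s l) % s ^ l.length = wval s l := by
    rw [mul_comm, Nat.mul_add_mod, Nat.mod_eq_of_lt h1]
  have e2 : (q' * s ^ l.length + wval s l') % s ^ l.length = wval s l' := by
    rw [mul_comm, Nat.mul_add_mod, Nat.mod_eq_of_lt h2]
  rw [← e1, h0, e2]

theorem sum_blk (row : ℕ → ℕ) (tag : ℕ) :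
    (blk K row tag).sum = ((List.range' 0 K).map row).sum + tag := by
  simp [blk]

theorem tape_sum_pos (L : ℕ) (σ : ℕ → ℕ) : 1 ≤ (tape K s L σ).sum := by
  induction L generalizing σ with
  | zero => rw [tape, sum_blk]; omega
  | succ L ih =>
    rw [tape, List.sum_append]
    have := ih (fun i => σ i / s)
    omega

theorem tape_sum_zero (L : ℕ) : (tape K s L (fun _ => 0)).sum = 1 := by
  have h0 : ((List.range' 0 K).map (fun _ : ℕ => (0 : ℕ))).sum = 0 := by simp
  induction L with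
  | zero => rw [tape, sum_blk, h0]
  | succ L ih =>
    rw [tape, List.sum_append, sum_blk]
    simp only [Nat.zero_mod, Nat.zero_div]
    rw [h0, ih]

theorem tape_sum_one (hs : 2 ≤ s) (L : ℕ) : ∀ σ : ℕ → ℕ, (∀ i, i < K → σ i < s ^ L) →
    (tape K s L σ).sum = 1 → ∀ i, i < K → σ i = 0 := by
  induction L with
  | zero =>
    intro σ h _ i hi
    have := h i hi
    simpa using this
  | succ L ih =>
    intro σ h h1 i hi
    rw [tape, List.sum_append, sum_blk] at h1
    have h2 := tape_sum_pos (K := K) (s := s) L (fun i => σ i / s)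
    have h3 : σ i % s ≤ ((List.range' 0 K).map (fun i => σ i % s)).sum := by
      apply List.single_le_sum (by simp)
      exact List.mem_map.2 ⟨i, by rw [List.mem_range'_1]; omega, rfl⟩
    have h4 := ih (fun i => σ i / s) (fun i hi => by
      have := h i hi
      rw [pow_succ] at this
      exact (Nat.div_lt_iff_lt_mul (by omega)).2 this) (by omega) i hi
    have h5 := Nat.div_add_mod (σ i) s
    have h6 : σ i / s = 0 := h4
    rw [h6] at h5
    omega

/-- The orbit of the start meets the clean halting configuration if and only if the program stops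
with zero registers. -/
theorem clk_orbit (hs : 2 ≤ s) {M L n : ℕ} (hM : M ≤ s ^ L) (hK : 0 < K)
    (hn : (K + 1) * (L + 1) = n + 1) (hP : ∀ i ∈ P, i.ok K P.length) {h : ℕ}
    (hh : P[h]? = some (.nop h)) {σ σ' : ℕ → ℕ} (hσ : ∀ i, i < K → σ i < M)
    (hex : ReflTransGen (PStep M P) (0, σ) (h, σ')) :
    (∃ t, (pmapK P K s n)^[t] (num s (codest K (0, 0, 1)) (tape K s L σ)) =
      num s (codest K (h, 0, 1)) (tape K s L (fun _ => 0))) ↔ ∀ i, i < K → σ' i = 0 := by
  have hlt : h < P.length := (List.getElem?_eq_some_iff.1 hh).1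
  have hh' : instrAt P h = .nop h := by rw [instrAt, hh]; rfl
  obtain ⟨⟨t₁, ht₁⟩, hσ'⟩ := sim hs hM hK hn hP hσ hex
  have hlen : ∀ τ, (tape K s L τ).length = n + 1 := fun τ => by rw [length_tape, hn]
  constructor
  · rintro ⟨t₂, ht₂⟩
    refine tape_sum_one hs L σ' (fun i hi => lt_of_lt_of_le (hσ' i hi) hM) ?_
    rcases Nat.le_total t₁ t₂ with h12 | h12
    · obtain ⟨d, rfl⟩ : ∃ d, t₂ = d + t₁ := ⟨t₂ - t₁, by omega⟩
      rw [iterate_add_apply, ht₁] at ht₂
      obtain ⟨i', l', _, g2, g3, g4, g5⟩ := halt_iter hs hP hlt hh' n d 0 (tape K s L σ')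
        (Nat.zero_le _) (tape_lt hs L σ') (hlen _)
      rw [ht₂] at g2
      have := num_inj (by rw [hlen, g4]) (tape_lt hs L _) g5 g2
      rw [← g3, ← this, tape_sum_zero]
    · obtain ⟨d, rfl⟩ : ∃ d, t₁ = d + t₂ := ⟨t₁ - t₂, by omega⟩
      rw [iterate_add_apply, ht₂] at ht₁
      obtain ⟨i', l', _, g2, g3, g4, g5⟩ := halt_iter hs hP hlt hh' n d 0
        (tape K s L (fun _ => 0)) (Nat.zero_le _) (tape_lt hs L _) (hlen _)
      rw [ht₁] at g2
      have := num_inj (by rw [hlen, g4]) (tape_lt hs L _) g5 g2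
      rw [this, g3, tape_sum_zero]
  · intro h0
    refine ⟨t₁, ?_⟩
    rw [ht₁, tape_congr L (τ := fun _ => 0) h0]

end Pool.Agent.PTr
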