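import Mathlib
import Pool.Agent.PTr.ClkSim
import Pool.Agent.PTr.Chain2
import Pool.Agent.PTr.Upper

/-!
# The start of the queue automaton is definable; hardness for slopes `s ≥ 2`
-/

set_option autoImplicit false

namespace Pool.Agent.PTr.Clk

open Finset Function Relation Pool.Agent.Grz Pool.Agent.GAvg

variable {K s : ℕ}

/-- the row of digits -/
def ext (d : Fin K → Fin s) : ℕ → ℕ := fun i => if h : i < K then (d ⟨i, h⟩ : ℕ) else 0

/-- the matrix of the letter `d` -/
def cA (d : Fin K → Fin s) : Fin 3 ⊕ Fin K → Fin 3 ⊕ Fin K → ℕ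
  | .inl 0, .inl 0 => 1
  | .inl 0, .inl 1 => wval s (blk K (ext d) 0)
  | .inl 1, .inl 1 => s ^ (K + 1)
  | .inl 2, .inl 2 => 1
  | .inr i, .inr j => if i = j then s else 0
  | .inr i, .inl 2 => d i
  | _, _ => 0

/-- the state -/
def cst (w p : ℕ) (σ : ℕ → ℕ) : Fin 3 ⊕ Fin K → ℕ
  | .inl 0 => w
  | .inl 1 => p
  | .inl 2 => 1
  | .inr i => σ i

theorem lin_iff (d : Fin K → Fin s) (w p : ℕ) (σ : ℕ → ℕ) (t : Fin 3 ⊕ Fin K → ℕ) :
    Lin (cA d) (fun _ _ => 0) (cst w p σ) t ↔
      t = cst (w + wval s (blk K (ext d) 0) * p) (s ^ (K + 1) * p)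
        (fun i => s * σ i + ext d i) := by
  have key : ∀ k, (∑ l, cA d k l * cst w p σ l) =
      cst (K := K) (w + wval s (blk K (ext d) 0) * p) (s ^ (K + 1) * p)
        (fun i => s * σ i + ext d i) k := by
    intro k
    rw [Fintype.sum_sum_type, Fin.sum_univ_three]
    match k with
    | .inl 0 => simp [cA, cst]
    | .inl 1 => simp [cA, cst]
    | .inl 2 => simp [cA, cst]
    | .inr i =>
      simp only [cA, cst, Nat.zero_mul, Nat.zero_add, ite_mul, mul_one]
      rw [Finset.sum_ite_eq, if_pos (Finset.mem_univ _)]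
      unfold ext
      rw [dif_pos i.2]
      ring
  unfold Lin
  simp only [Nat.zero_mul, Finset.sum_const_zero, Nat.add_zero, key]
  constructor
  · intro h
    funext k
    exact h k
  · intro h k
    rw [h]

theorem wval_zero (s K : ℕ) : wval s ((List.range' 0 K).map (fun _ => (0 : ℕ))) = 0 := by
  have : ∀ l : List ℕ, wval s (l.map (fun _ => (0 : ℕ))) = 0 := by
    intro l
    induction l with
    | nil => rfl
    | cons a l ih => rw [List.map_cons, wval, ih]; simp
  exact this _

theorem wval_tape_zero (L : ℕ) : wval s (tape K s L (fun _ => 0)) = 1 := by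
  induction L with
  | zero =>
    rw [tape, blk, wval_append, wval_zero]
    simp [wval]
  | succ L ih =>
    rw [tape, wval_append]
    simp only [Nat.zero_mod, Nat.zero_div]
    rw [ih, blk, wval_append, wval_zero]
    simp [wval]

theorem cst_congr {w p : ℕ} {σ τ : ℕ → ℕ} (h : ∀ i, i < K → σ i = τ i) :
    cst (K := K) w p σ = cst w p τ := by
  funext k
  match k with
  | .inl 0 => rfl
  | .inl 1 => rfl
  | .inl 2 => rfl
  | .inr i => exact h i i.2

theorem crun_sound (hs : 2 ≤ s) {G : (Fin K → Fin s) → (Fin 3 ⊕ Fin K → ℕ) → Prop} {L : ℕ}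
    {t : Fin 3 ⊕ Fin K → ℕ}
    (h : Run (fun d : Fin K → Fin s => cA d) (fun _ _ _ => 0) G L
      (cst 1 (s ^ (K + 1)) (fun _ => 0)) t) :
    ∃ σ : ℕ → ℕ, (∀ i, i < K → σ i < s ^ L) ∧
      t = cst (wval s (tape K s L σ)) (s ^ ((K + 1) * (L + 1))) σ := by
  generalize hs0 : (cst 1 (s ^ (K + 1)) (fun _ => 0) : Fin 3 ⊕ Fin K → ℕ) = s0 at h
  induction h with
  | refl =>
    subst hs0
    refine ⟨fun _ => 0, fun _ _ => by simp, ?_⟩
    rw [wval_tape_zero]
    congr 1
    ring
  | @step L _ t u d _ _ hlin ih =>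
    obtain ⟨σ, h1, h2⟩ := ih hs0
    rw [h2] at hlin
    rw [lin_iff] at hlin
    have hd : ∀ i, ext d i < s := by
      intro i
      unfold ext
      split_ifs with h
      · exact (d _).2
      · omega
    have e1 : (fun i => (s * σ i + ext d i) % s) = ext d := by
      funext i
      rw [Nat.mul_add_mod, Nat.mod_eq_of_lt (hd i)]
    have e2 : (fun i => (s * σ i + ext d i) / s) = σ := by
      funext i
      rw [Nat.mul_add_div (by omega), Nat.div_eq_of_lt (hd i), add_zero]
    refine ⟨fun i => s * σ i + ext d i, fun i hi => ?_, ?_⟩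
    · have h3 := h1 i hi
      have h4 := hd i
      calc s * σ i + ext d i < s * σ i + s := by omega
        _ = s * (σ i + 1) := by ring
        _ ≤ s * s ^ L := Nat.mul_le_mul_left _ h3
        _ = s ^ (L + 1) := by ring
    · rw [hlin, tape, e1, e2, wval_append, length_tape]
      congr 1
      · ring
      · rw [← pow_add]
        congr 1
        ring

theorem crun_complete (hs : 2 ≤ s) (L : ℕ) : ∀ σ : ℕ → ℕ, (∀ i, i < K → σ i < s ^ L) →
    Run (fun d : Fin K → Fin s => cA d) (fun _ _ _ => 0) (fun _ _ => True) L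
      (cst 1 (s ^ (K + 1)) (fun _ => 0))
      (cst (wval s (tape K s L σ)) (s ^ ((K + 1) * (L + 1))) σ) := by
  induction L with
  | zero =>
    intro σ h
    have e : (cst (wval s (tape K s 0 σ)) (s ^ ((K + 1) * (0 + 1))) σ : Fin 3 ⊕ Fin K → ℕ) =
        cst 1 (s ^ (K + 1)) (fun _ => 0) := by
      rw [tape_congr (s := s) 0 (τ := fun _ => 0) (fun i hi => by simpa using h i hi),
        wval_tape_zero, Nat.zero_add, Nat.mul_one]
      exact cst_congr fun i hi => by simpa using h i hi
    rw [e]
    exact Run.refl _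
  | succ L ih =>
    intro σ h
    have h1 : ∀ i, i < K → σ i / s < s ^ L := by
      intro i hi
      rw [Nat.div_lt_iff_lt_mul (by omega), ← pow_succ]
      exact h i hi
    refine Run.step (fun i => ⟨σ i % s, Nat.mod_lt _ (by omega)⟩) (ih _ h1) trivial ?_
    rw [lin_iff]
    have e3 : ∀ i, i < K → ext (K := K) (s := s) (fun i => ⟨σ i % s, Nat.mod_lt _ (by omega)⟩) i =
        σ i % s := by
      intro i hi
      unfold ext
      rw [dif_pos hi]
    have e4 : blk K (ext (K := K) (s := s) (fun i => ⟨σ i % s, Nat.mod_lt _ (by omega)⟩)) 0 =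
        blk K (fun i => σ i % s) 0 := by
      unfold blk
      congr 1
      refine List.map_congr_left fun i hi => ?_
      rw [List.mem_range'_1] at hi
      exact e3 i (by omega)
    rw [tape, wval_append, length_tape, e4]
    have e5 : (fun i => s * (σ i / s) + ext (K := K) (s := s)
        (fun i => ⟨σ i % s, Nat.mod_lt _ (by omega)⟩) i) =
        fun i => s * (σ i / s) + ext (K := K) (s := s)
        (fun i => ⟨σ i % s, Nat.mod_lt _ (by omega)⟩) i := rfl
    have e6 : (cst (wval s (blk K (fun i => σ i % s) 0) * s ^ ((K + 1) * (L + 1)) +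
          wval s (tape K s L fun i => σ i / s)) (s ^ ((K + 1) * (L + 1 + 1))) σ :
          Fin 3 ⊕ Fin K → ℕ) =
        cst (wval s (blk K (fun i => σ i % s) 0) * s ^ ((K + 1) * (L + 1)) +
          wval s (tape K s L fun i => σ i / s)) (s ^ ((K + 1) * (L + 1 + 1)))
          (fun i => s * (σ i / s) + ext (K := K) (s := s)
            (fun i => ⟨σ i % s, Nat.mod_lt _ (by omega)⟩) i) := by
      refine cst_congr fun i hi => ?_
      rw [e3 i hi]
      exact (Nat.div_add_mod _ _).symm
    rw [e6]
    congr 1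
    · ring
    · rw [← pow_add]
      congr 1
      ring

end Pool.Agent.PTr.Clk
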