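import Mathlib
import Pool.Agent.PTr.ClkInit

/-!
# The orbits of maps of slope `s ≥ 2` of an interval are as hard as `E2Star`
-/

set_option autoImplicit false

namespace Pool.Agent.PTr

open Finset Function Relation Pool.Agent.Grz Pool.Agent.GAvg Clk

/-- The orbits of the maps `tmap s` in dimension `r` with `k` boxes are definable by bounded
formulas. -/
def OrbK (r s k : ℕ) : Prop :=
  ∀ (n : ℕ) (N : (Fin n → ℕ) → ℕ) (a b c : Fin k → Fin r → (Fin n → ℕ) → ℕ)
    (x y : Fin r → (Fin n → ℕ) → ℕ), DFun n N → (∀ i l, DFun n (a i l)) →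
    (∀ i l, DFun n (b i l)) → (∀ i l, DFun n (c i l)) → (∀ l, DFun n (x l)) →
    (∀ l, DFun n (y l)) → Delta0 n (fun v => 0 < N v ∧
      ∃ t, (tmap s (N v) (fun i l => a i l v) (fun i l => b i l v) (fun i l => c i l v))^[t]
        (fun l => x l v) = fun l => y l v)

theorem div_of_pow {s n p : ℕ} (hs : 2 ≤ s) (hp : p = s ^ (n + 1)) : p / s = s ^ n ∧
    s * (p / s) = p := by
  have h1 : p / s = s ^ n := by
    rw [hp, pow_succ]
    exact Nat.mul_div_cancel _ (by omega)
  refine ⟨h1, ?_⟩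
  rw [h1, hp]
  ring

/-- Hardness for the slopes `s ≥ 2`. -/
theorem exists_orbK_one {s : ℕ} (hs : 2 ≤ s) {n : ℕ} {R : (Fin n → ℕ) → Prop}
    (hR : E2Star n R) : ∃ k, OrbK 1 s k → Delta0 n R := by
  obtain ⟨f, hf, hfR⟩ := hR
  obtain ⟨Qp, K, c, hnK, hcK, hc⟩ := main_cmd hf
  obtain ⟨P, h, hh, hPpos, hP, hflat⟩ := flat_prog c K hcK
  have hK : 0 < K := by omega
  have hlt : h < P.length := (List.getElem?_eq_some_iff.1 hh).1
  set M : (Fin n → ℕ) → ℕ := fun v => MvPolynomial.eval v Qp + 1 with hM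
  set Qs : ℕ := P.length * (K + 1) * 2 with hQs
  refine ⟨Qs * s, fun H => ?_⟩
  set x0 : ℕ := codest K (0, 0, 1) with hx0
  set y0 : ℕ := codest K (h, 0, 1) with hy0
  set Pb : (Fin n → ℕ) → ℕ := fun v => (4 * M v) ^ (s * (K + 1)) with hPb
  have hMD : DFun n M := (DFun.ofPoly Qp).add (DFun.const 1)
  have hPbD : DFun n Pb := DFun.powConst ((DFun.const 4).mul hMD) _
  -- the orbit part
  have hC : Delta0 (n + 2) (fun u => 0 < Qs * (s * (u 1 / s)) ∧
      ∃ t, (tmap (k := Qs * s) s (Qs * (s * (u 1 / s))) (fun i _ => i * (u 1 / s))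
        (fun i _ => (i + 1) * (u 1 / s))
        (fun i _ => ((dltN P K s (i / s) (i % s)).1 + (Qs * s - i)) * (s * (u 1 / s)) +
          (dltN P K s (i / s) (i % s)).2))^[t]
        (fun _ : Fin 1 => x0 * u 1 + u 0) = fun _ => y0 * u 1 + 1) := by
    have hp' : DFun (n + 2) (fun u => u 1 / s) := DFun.divPos (DFun.proj 1) (DFun.const s)
      (fun _ => by omega)
    have hsp : DFun (n + 2) (fun u => s * (u 1 / s)) := (DFun.const s).mul hp'
    exact H (n + 2) (fun u => Qs * (s * (u 1 / s))) (fun i _ u => i * (u 1 / s))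
      (fun i _ u => (i + 1) * (u 1 / s))
      (fun i _ u => ((dltN P K s (i / s) (i % s)).1 + (Qs * s - i)) * (s * (u 1 / s)) +
          (dltN P K s (i / s) (i % s)).2) (fun _ u => x0 * u 1 + u 0) (fun _ u => y0 * u 1 + 1)
      ((DFun.const _).mul hsp) (fun i _ => (DFun.const _).mul hp')
      (fun i _ => (DFun.const _).mul hp')
      (fun i _ => ((DFun.const _).mul hsp).add (DFun.const _))
      (fun _ => ((DFun.const _).mul (DFun.proj 1)).add (DFun.proj 0))
      (fun _ => ((DFun.const _).mul (DFun.proj 1)).add (DFun.const 1))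
  -- the start
  have hA : Delta0 (n + 2) (fun u => ∃ L, L ≤ 1 * (lg (M (fun i => u i.succ.succ)) + 1) ∧
      Run (fun d : Fin K → Fin s => Clk.cA d) (fun _ _ _ => 0) (fun _ _ => True) L
        (Clk.cst 1 (s ^ (K + 1)) (fun _ => 0))
        (Clk.cst (u 0) (u 1) (regs (fun i => u i.succ.succ)))) := by
    have h1 := run_delta0 (fun d : Fin K → Fin s => Clk.cA d) (fun _ _ _ => 0) (fun _ _ => True)
      (fun _ m g _ => (Delta0.eqFun (DFun.const 0) (DFun.const 0)).of_iff fun v => by simp) 1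
      (n := n + 2) (w := fun u => M (fun i => u i.succ.succ)) (hMD.weak.weak)
      (s := fun k u => Clk.cst 1 (s ^ (K + 1)) (fun _ => 0) k)
      (t := fun k u => Clk.cst (u 0) (u 1) (regs (fun i => u i.succ.succ)) k)
      (fun k => DFun.const _) (fun k => by
        match k with
        | .inl 0 => exact DFun.proj 0
        | .inl 1 => exact DFun.proj 1
        | .inl 2 => exact DFun.const 1
        | .inr i =>
          show DFun (n + 2) (fun u => regs (fun i => u i.succ.succ) i)
          unfold regs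
          by_cases hi : (i : ℕ) < n
          · simp only [dif_pos hi]
            exact DFun.proj _
          · simp only [dif_neg hi]
            exact DFun.const 0)
    exact h1
  have hB : Delta0 (n + 2) (fun u => (s * M (fun i => u i.succ.succ)) ^ (K + 1) ≤ u 1) :=
    Delta0.leFun (DFun.powConst ((DFun.const s).mul hMD.weak.weak) _) (DFun.proj 1)
  have hABC := (hA.and hB).and hC
  have h1 := Delta0.bexFun (n := n + 1) (b := fun u => Pb (fun i => u i.succ)) hPbD.weak
    (P := fun w u => ((∃ L, L ≤ 1 * (lg (M (fun i => u i.succ)) + 1) ∧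
      Run (fun d : Fin K → Fin s => Clk.cA d) (fun _ _ _ => 0) (fun _ _ => True) L
        (Clk.cst 1 (s ^ (K + 1)) (fun _ => 0))
        (Clk.cst w (u 0) (regs (fun i => u i.succ)))) ∧
      (s * M (fun i => u i.succ)) ^ (K + 1) ≤ u 0) ∧ (0 < Qs * (s * (u 0 / s)) ∧
      ∃ t, (tmap (k := Qs * s) s (Qs * (s * (u 0 / s))) (fun i _ => i * (u 0 / s))
        (fun i _ => (i + 1) * (u 0 / s))
        (fun i _ => ((dltN P K s (i / s) (i % s)).1 + (Qs * s - i)) * (s * (u 0 / s)) +
          (dltN P K s (i / s) (i % s)).2))^[t]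
        (fun _ : Fin 1 => x0 * u 0 + w) = fun _ => y0 * u 0 + 1)) hABC
  have h2 := Delta0.bexFun (n := n) (b := Pb) hPbD
    (P := fun p v => ∃ w, w ≤ Pb v ∧ (((∃ L, L ≤ 1 * (lg (M v) + 1) ∧
      Run (fun d : Fin K → Fin s => Clk.cA d) (fun _ _ _ => 0) (fun _ _ => True) L
        (Clk.cst 1 (s ^ (K + 1)) (fun _ => 0))
        (Clk.cst w p (regs v))) ∧
      (s * M v) ^ (K + 1) ≤ p) ∧ (0 < Qs * (s * (p / s)) ∧
      ∃ t, (tmap (k := Qs * s) s (Qs * (s * (p / s))) (fun i _ => i * (p / s))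
        (fun i _ => (i + 1) * (p / s))
        (fun i _ => ((dltN P K s (i / s) (i % s)).1 + (Qs * s - i)) * (s * (p / s)) +
          (dltN P K s (i / s) (i % s)).2))^[t]
        (fun _ : Fin 1 => x0 * p + w) = fun _ => y0 * p + 1))) h1
  refine h2.of_iff fun v => ?_
  obtain ⟨hreg, σ', hex, hn', hz⟩ := hc (M v) v (by simp only [hM]; omega)
  have hsteps := hflat (M v) (regs v) σ' hex
  have hM1 : 1 ≤ M v := by simp only [hM]; omega
  have hRiff : R v ↔ ∀ i, i < K → σ' i = 0 := by
    constructor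
    · intro hv i hi
      by_cases hin : i = n
      · subst hin
        rw [hn']
        exact (hfR v).1 hv
      · exact hz i hi hin
    · intro h0
      by_contra hv
      have h3 := (hfR v).2 hv
      rw [← hn', h0 n hnK] at h3
      exact absurd h3 (by norm_num)
  -- the translation of the orbit part
  have htr : ∀ (L : ℕ) (p w : ℕ), p = s ^ ((K + 1) * (L + 1)) → M v ≤ s ^ L →
      w = wval s (tape K s L (regs v)) →
      ((∃ t, (tmap (k := Qs * s) s (Qs * (s * (p / s))) (fun i _ => i * (p / s))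
        (fun i _ => (i + 1) * (p / s))
        (fun i _ => ((dltN P K s (i / s) (i % s)).1 + (Qs * s - i)) * (s * (p / s)) +
          (dltN P K s (i / s) (i % s)).2))^[t]
        (fun _ : Fin 1 => x0 * p + w) = fun _ => y0 * p + 1) ↔ R v) := by
    intro L p w hp hML hw
    obtain ⟨m, hm⟩ : ∃ m, (K + 1) * (L + 1) = m + 1 :=
      Nat.exists_eq_succ_of_ne_zero (Nat.mul_ne_zero (by omega) (by omega))
    have hdp := div_of_pow hs (n := m) (p := p) (by rw [hp, hm])
    have hcl := clk_orbit hs hML hK hm hP hh (fun i _ => hreg i) hsteps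
    rw [hRiff, ← hcl]
    have e1 : (fun _ : Fin 1 => x0 * p + w) = num s (codest K (0, 0, 1)) (tape K s L (regs v)) := by
      funext _
      show _ = codest K (0, 0, 1) * s ^ (tape K s L (regs v)).length + _
      rw [length_tape, ← hp, ← hw]
    have e2 : (fun _ : Fin 1 => y0 * p + 1) =
        num s (codest K (h, 0, 1)) (tape K s L (fun _ => 0)) := by
      funext _
      show _ = codest K (h, 0, 1) * s ^ (tape K s L (fun _ => 0)).length + _
      rw [length_tape, ← hp, wval_tape_zero]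
    rw [e1, e2, hdp.1]
    exact Iff.rfl
  constructor
  · intro hv
    have hLM : M v ≤ s ^ (lg (M v) + 1) := by
      have h3 := lt_two_pow_lg (M v)
      exact h3.le.trans (Nat.pow_le_pow_left hs _)
    set L := lg (M v) + 1 with hL
    have hσ : ∀ i, i < K → regs v i < s ^ L := fun i _ => lt_of_lt_of_le (hreg i) hLM
    have hrun := crun_complete hs L (regs v) hσ
    have hpb : s ^ ((K + 1) * (L + 1)) ≤ Pb v := by
      have h3 : s ≤ 2 ^ s := Nat.lt_two_pow_self.le
      have h4 := lg_pow_ge (M v) hM1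
      calc s ^ ((K + 1) * (L + 1)) ≤ (2 ^ s) ^ ((K + 1) * (L + 1)) := Nat.pow_le_pow_left h3 _
        _ = (2 ^ (L + 1)) ^ (s * (K + 1)) := by rw [← pow_mul, ← pow_mul]; ring_nf
        _ ≤ Pb v := by
          refine Nat.pow_le_pow_left ?_ _
          rw [hL, pow_succ, pow_succ]
          omega
    have hw : wval s (tape K s L (regs v)) < s ^ ((K + 1) * (L + 1)) := by
      have := wval_lt (tape_lt hs L (regs v) (K := K))
      rwa [length_tape] at this
    refine ⟨s ^ ((K + 1) * (L + 1)), hpb, wval s (tape K s L (regs v)), hw.le.trans hpb,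
      ⟨⟨L, by omega, hrun⟩, ?_⟩, ?_, ?_⟩
    · calc (s * M v) ^ (K + 1) ≤ (s * s ^ L) ^ (K + 1) :=
            Nat.pow_le_pow_left (Nat.mul_le_mul_left _ hLM) _
        _ = s ^ ((K + 1) * (L + 1)) := by rw [← pow_succ', ← pow_mul]; congr 1; ring
    · obtain ⟨m, hm⟩ : ∃ m, (K + 1) * (L + 1) = m + 1 :=
        Nat.exists_eq_succ_of_ne_zero (Nat.mul_ne_zero (by omega) (by omega))
      rw [(div_of_pow hs (n := m) (by rw [hm])).2]
      have : 0 < s ^ ((K + 1) * (L + 1)) := Nat.pow_pos (by omega)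
      have : 0 < Qs := by
        rw [hQs]
        exact Nat.mul_pos (Nat.mul_pos hPpos (by omega)) (by omega)
      positivity
    · exact (htr L _ _ rfl hLM rfl).2 hv
  · rintro ⟨p, -, w, -, ⟨⟨L, -, hrun⟩, hB'⟩, -, horb⟩
    obtain ⟨σ, hσ, he⟩ := crun_sound hs hrun
    have ew : w = wval s (tape K s L σ) := congrFun he (.inl 0)
    have ep : p = s ^ ((K + 1) * (L + 1)) := congrFun he (.inl 1)
    have eσ : ∀ i, i < K → regs v i = σ i := fun i hi => congrFun he (.inr ⟨i, hi⟩)
    rw [tape_congr L (fun i hi => (eσ i hi).symm)] at ew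
    have hML : M v ≤ s ^ L := by
      rw [ep] at hB'
      have h3 : (s * M v) ^ (K + 1) ≤ (s ^ (L + 1)) ^ (K + 1) := by
        refine hB'.trans (le_of_eq ?_)
        rw [← pow_mul]; congr 1; ring
      have h4 : s * M v ≤ s ^ (L + 1) := (Nat.pow_le_pow_iff_left (by omega)).1 h3
      rw [pow_succ'] at h4
      exact Nat.le_of_mul_le_mul_left h4 (by omega)
    exact (htr L p w ep hML ew).1 horb

end Pool.Agent.PTr
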