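import Mathlib
import Pool.Agent.PTr.Upper
import Pool.Agent.PTr.ClkMain
import Pool.Agent.PTr.BMain

/-!
# Universal polynomial data, change of dimension, hardness for all `(r, s) ≠ (1, 1)`
-/

set_option autoImplicit false

namespace Pool.Agent.PTr

open Finset Function Pool.Agent.Grz MvPolynomial

/-- extension of a vector by a constant -/
def extV {r : ℕ} (r' z : ℕ) (u : Fin r → ℕ) : Fin r' → ℕ :=
  fun l => if h : (l : ℕ) < r then u ⟨l, h⟩ else z

theorem extV_inj {r r' z : ℕ} (h : r ≤ r') {u v : Fin r → ℕ} :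
    extV r' z u = extV r' z v ↔ u = v := by
  constructor
  · intro he
    funext l
    have := congrFun he ⟨l, lt_of_lt_of_le l.2 h⟩
    simpa [extV] using this
  · intro he
    rw [he]

theorem tmap_ext {r r' k : ℕ} (hr : r ≤ r') (s N : ℕ) (a b c : Fin k → Fin r → ℕ)
    (u : Fin r → ℕ) :
    tmap s N (fun i => extV r' 0 (a i)) (fun i => extV r' 1 (b i)) (fun i => extV r' 0 (c i))
      (extV r' 0 u) = extV r' 0 (tmap s N a b c u) := by
  have hin : ∀ i : Fin k, (∀ l, extV r' 0 (a i) l ≤ extV r' 0 u l ∧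
      extV r' 0 u l < extV r' 1 (b i) l) ↔ (∀ l, a i l ≤ u l ∧ u l < b i l) := by
    intro i
    constructor
    · intro h l
      have := h ⟨l, lt_of_lt_of_le l.2 hr⟩
      simpa [extV] using this
    · intro h l
      unfold extV
      by_cases hl : (l : ℕ) < r
      · simp only [dif_pos hl]
        exact h _
      · simp only [dif_neg hl]
        exact ⟨le_rfl, Nat.zero_lt_one⟩
  funext j
  unfold tmap
  simp only [hin]
  by_cases hj : (j : ℕ) < r
  · simp only [extV, dif_pos hj]
  · simp only [extV, dif_neg hj]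
    simp

theorem tmap_ext_iter {r r' k : ℕ} (hr : r ≤ r') (s N : ℕ) (a b c : Fin k → Fin r → ℕ)
    (u : Fin r → ℕ) (t : ℕ) :
    (tmap s N (fun i => extV r' 0 (a i)) (fun i => extV r' 1 (b i))
      (fun i => extV r' 0 (c i)))^[t] (extV r' 0 u) = extV r' 0 ((tmap s N a b c)^[t] u) := by
  induction t generalizing u with
  | zero => rfl
  | succ t ih => rw [iterate_succ_apply, iterate_succ_apply, tmap_ext hr, ih]

theorem OrbK.mono {r r' s k : ℕ} (hr : r ≤ r') (H : OrbK r' s k) : OrbK r s k := by
  intro n N a b c x y hN ha hb hc hx hy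
  have hext : ∀ (z : ℕ) (g : Fin r → (Fin n → ℕ) → ℕ), (∀ l, DFun n (g l)) →
      ∀ l : Fin r', DFun n (fun v => extV r' z (fun l => g l v) l) := by
    intro z g hg l
    unfold extV
    by_cases hl : (l : ℕ) < r
    · simp only [dif_pos hl]
      exact hg _
    · simp only [dif_neg hl]
      exact DFun.const z
  have h := H n N (fun i l v => extV r' 0 (fun l => a i l v) l)
    (fun i l v => extV r' 1 (fun l => b i l v) l) (fun i l v => extV r' 0 (fun l => c i l v) l)
    (fun l v => extV r' 0 (fun l => x l v) l) (fun l v => extV r' 0 (fun l => y l v) l) hN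
    (fun i => hext 0 _ (ha i)) (fun i => hext 1 _ (hb i)) (fun i => hext 0 _ (hc i))
    (hext 0 _ hx) (hext 0 _ hy)
  refine h.of_iff fun v => ?_
  refine and_congr_right fun _ => ?_
  have e := tmap_ext_iter hr s (N v) (fun i l => a i l v) (fun i l => b i l v)
    (fun i l => c i l v) (fun l => x l v)
  constructor
  · rintro ⟨t, ht⟩
    exact ⟨t, (e t).trans ((extV_inj hr).2 ht)⟩
  · rintro ⟨t, ht⟩
    exact ⟨t, (extV_inj hr).1 ((e t).symm.trans ht)⟩

/-- Hardness in dimension two. -/
theorem exists_orbK_two {n : ℕ} {R : (Fin n → ℕ) → Prop} (hR : E2Star n R) :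
    ∃ k, OrbK 2 1 k → Delta0 n R := by
  obtain ⟨k, N, a, b, c, x, y, h⟩ := form2 hR
  refine ⟨k, fun H => ?_⟩
  have h1 := H n (fun v => eval v N) (fun i l v => eval v (a i l)) (fun i l v => eval v (b i l))
    (fun i l v => eval v (c i l)) (fun l v => eval v (x l)) (fun l v => eval v (y l))
    (DFun.ofPoly _) (fun _ _ => DFun.ofPoly _) (fun _ _ => DFun.ofPoly _)
    (fun _ _ => DFun.ofPoly _) (fun _ => DFun.ofPoly _) (fun _ => DFun.ofPoly _)
  refine h1.of_iff fun v => ?_
  obtain ⟨h2, -, -, -, h3⟩ := h v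
  rw [h3]
  exact ⟨fun h => ⟨h2, h⟩, fun h => h.2⟩

/-- Hardness for all `(r, s) ≠ (1, 1)`. -/
theorem exists_orbK {r s : ℕ} (hr : 1 ≤ r) (hs : 1 ≤ s) (hrs : (r, s) ≠ (1, 1)) {n : ℕ}
    {R : (Fin n → ℕ) → Prop} (hR : E2Star n R) : ∃ k, OrbK r s k → Delta0 n R := by
  rcases Nat.lt_or_ge s 2 with h | h
  · obtain rfl : s = 1 := by omega
    have hr2 : 2 ≤ r := by
      by_contra h2
      exact hrs (by rw [show r = 1 by omega])
    obtain ⟨k, hk⟩ := exists_orbK_two hR
    exact ⟨k, fun H => hk (H.mono hr2)⟩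
  · obtain ⟨k, hk⟩ := exists_orbK_one h hR
    exact ⟨k, fun H => hk (H.mono hr)⟩

/-! ### More boxes -/

/-- additional empty boxes -/
def padB {α : Type} {k : ℕ} (k' : ℕ) (z : α) (a : Fin k → α) : Fin k' → α :=
  fun i => if h : (i : ℕ) < k then a ⟨i, h⟩ else z

theorem tmap_pad {r k k' : ℕ} (hk : k ≤ k') (s N : ℕ) (a b c : Fin k → Fin r → ℕ) :
    tmap s N (padB k' (fun _ => 0) a) (padB k' (fun _ => 0) b) (padB k' (fun _ => 0) c) =
      tmap s N a b c := by
  funext u j
  unfold tmap
  congr 2
  set F : ℕ → ℕ := fun i => if h : i < k then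
    (if (∀ l, a ⟨i, h⟩ l ≤ u l ∧ u l < b ⟨i, h⟩ l) then c ⟨i, h⟩ j else 0) else 0 with hF
  have h1 : ∀ i : Fin k', (if (∀ l, padB k' (fun _ => 0) a i l ≤ u l ∧
      u l < padB k' (fun _ => 0) b i l) then padB k' (fun _ => 0) c i j else 0) = F i := by
    intro i
    simp only [hF, padB]
    by_cases h : (i : ℕ) < k
    · simp only [dif_pos h]
    · simp only [dif_neg h, ite_self]
  have h2 : ∀ i : Fin k, (if (∀ l, a i l ≤ u l ∧ u l < b i l) then c i j else 0) = F i := by
    intro i
    simp only [hF, dif_pos i.2]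
  simp only [h1, h2]
  rw [← Finset.sum_range F, ← Finset.sum_range F]
  refine (Finset.sum_subset (Finset.range_subset_range.2 hk) fun i _ hi => ?_).symm
  simp only [hF]
  rw [dif_neg (by simpa using hi)]

theorem OrbK.anti {r s k k' : ℕ} (hk : k ≤ k') (H : OrbK r s k') : OrbK r s k := by
  intro n N a b c x y hN ha hb hc hx hy
  have hpad : ∀ (g : Fin k → Fin r → (Fin n → ℕ) → ℕ), (∀ i l, DFun n (g i l)) →
      ∀ (i : Fin k') (l : Fin r), DFun n (fun v => padB k' (fun _ => 0) (fun i l => g i l v) i l) := by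
    intro g hg i l
    unfold padB
    by_cases h : (i : ℕ) < k
    · simp only [dif_pos h]
      exact hg _ _
    · simp only [dif_neg h]
      exact DFun.const 0
  have h := H n N (fun i l v => padB k' (fun _ => 0) (fun i l => a i l v) i l)
    (fun i l v => padB k' (fun _ => 0) (fun i l => b i l v) i l)
    (fun i l v => padB k' (fun _ => 0) (fun i l => c i l v) i l) x y hN (hpad a ha) (hpad b hb)
    (hpad c hc) hx hy
  refine h.of_iff fun v => ?_
  have e := tmap_pad hk s (N v) (fun i l => a i l v) (fun i l => b i l v) (fun i l => c i l v)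
  rw [← e]

/-- indices of the universal data -/
abbrev UIx (r k : ℕ) : Type := Option ((Fin 3 × Fin k × Fin r) ⊕ (Fin 2 × Fin r))

/-- If the polynomial orbit relations are definable then so are all of them. -/
theorem orbK_of_poly {r s k : ℕ}
    (H : ∀ (n : ℕ) (N : MvPolynomial (Fin n) ℕ) (a b c : Fin k → Fin r → MvPolynomial (Fin n) ℕ)
      (x y : Fin r → MvPolynomial (Fin n) ℕ), Delta0 n (fun v => 0 < eval v N ∧
        ∃ t, (tmap s (eval v N) (fun i l => eval v (a i l)) (fun i l => eval v (b i l))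
          (fun i l => eval v (c i l)))^[t] (fun l => eval v (x l)) = fun l => eval v (y l))) :
    OrbK r s k := by
  intro n N a b c x y hN ha hb hc hx hy
  let e := Fintype.equivFin (UIx r k)
  have h1 := H (Fintype.card (UIx r k)) (X (e none)) (fun i l => X (e (some (.inl (0, i, l)))))
    (fun i l => X (e (some (.inl (1, i, l))))) (fun i l => X (e (some (.inl (2, i, l)))))
    (fun l => X (e (some (.inr (0, l))))) (fun l => X (e (some (.inr (1, l)))))
  simp only [eval_X] at h1
  let g : UIx r k → (Fin n → ℕ) → ℕ := fun z => match z with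
    | none => N
    | some (.inl (0, i, l)) => a i l
    | some (.inl (1, i, l)) => b i l
    | some (.inl (2, i, l)) => c i l
    | some (.inr (0, l)) => x l
    | some (.inr (1, l)) => y l
  have hg : ∀ z, DFun n (g z) := by
    intro z
    match z with
    | none => exact hN
    | some (.inl (0, i, l)) => exact ha i l
    | some (.inl (1, i, l)) => exact hb i l
    | some (.inl (2, i, l)) => exact hc i l
    | some (.inr (0, l)) => exact hx l
    | some (.inr (1, l)) => exact hy l
  have h2 := h1.subst (h := fun j => g (e.symm j)) (fun j => hg _)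
  refine h2.of_iff fun v => ?_
  simp only [Equiv.symm_apply_apply]
  exact Iff.rfl

end Pool.Agent.PTr
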