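import Mathlib
import Pool.Agent.PTr.TMap
import Pool.Agent.PTr.Orbit2
import Pool.Agent.PTr.Upper

/-!
# Part (A) for the maps `tmap 1` in dimension one
-/

set_option autoImplicit false

namespace Pool.Agent.PTr

open Pool.Agent.Grz Finset

theorem iterate_bounded (f : ℕ → ℕ) (b : ℕ) (hf : ∀ x, f x ≤ b) (x : ℕ) :
    ∀ t, ∃ t', t' ≤ b + 1 ∧ f^[t] x = f^[t'] x := by
  have hle : ∀ t, f^[t + 1] x ≤ b := by
    intro t
    rw [Function.iterate_succ_apply']
    exact hf _
  obtain ⟨i, hi, j, hj, hij, he⟩ : ∃ i, 1 ≤ i ∧ ∃ j, j ≤ b + 2 ∧ i < j ∧ f^[i] x = f^[j] x := by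
    have hcard : (Finset.range (b + 1)).card < (Finset.range (b + 2)).card := by simp
    obtain ⟨a, ha, c, hc, hac, heq⟩ := Finset.exists_ne_map_eq_of_card_lt_of_maps_to hcard
      (f := fun t => f^[t + 1] x) (fun t _ => by
        have := hle t
        simp only [Finset.coe_range, Set.mem_Iio]
        omega)
    simp only [Finset.mem_range] at ha hc
    rcases Nat.lt_or_gt_of_ne hac with h | h
    · exact ⟨a + 1, by omega, c + 1, by omega, by omega, heq⟩
    · exact ⟨c + 1, by omega, a + 1, by omega, by omega, heq.symm⟩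
  intro t
  induction t using Nat.strong_induction_on with
  | _ t ih =>
    by_cases ht : t ≤ b + 1
    · exact ⟨t, ht, rfl⟩
    · obtain ⟨t', ht', he'⟩ := ih (t - (j - i)) (by omega)
      refine ⟨t', ht', ?_⟩
      rw [← he']
      have e1 : t = (t - j) + j := by omega
      have e2 : t - (j - i) = (t - j) + i := by omega
      rw [e2, Function.iterate_add_apply, he, ← Function.iterate_add_apply, ← e1]

theorem tmap_one {k : ℕ} (N : ℕ) (a b c : Fin k → Fin 1 → ℕ) (u : Fin 1 → ℕ) :
    tmap 1 N a b c u = fun _ => tm N (fun i => a i 0) (fun i => b i 0) (fun i => c i 0) (u 0) := by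
  funext j
  obtain rfl : j = 0 := Subsingleton.elim _ _
  unfold tmap tm
  rw [one_mul]
  congr 2
  refine Finset.sum_congr rfl fun i _ => ?_
  have h : (∀ l, a i l ≤ u l ∧ u l < b i l) ↔ (a i 0 ≤ u 0 ∧ u 0 < b i 0) := by
    constructor
    · intro h; exact h 0
    · intro h l
      obtain rfl : l = 0 := Subsingleton.elim _ _
      exact h
  simp only [h]

theorem tmap_one_iter {k : ℕ} (N : ℕ) (a b c : Fin k → Fin 1 → ℕ) (u : Fin 1 → ℕ) (t : ℕ) :
    (tmap 1 N a b c)^[t] u =
      fun _ => (tm N (fun i => a i 0) (fun i => b i 0) (fun i => c i 0))^[t] (u 0) := by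
  induction t generalizing u with
  | zero =>
    funext j
    obtain rfl : j = 0 := Subsingleton.elim _ _
    rfl
  | succ t ih =>
    rw [Function.iterate_succ_apply, Function.iterate_succ_apply, ih, tmap_one]

/-- **Part (A)** for `tmap`. -/
theorem tmap_one_delta0 {k n : ℕ} {N t : (Fin n → ℕ) → ℕ} {a b c : Fin k → Fin 1 → (Fin n → ℕ) → ℕ}
    {x y : Fin 1 → (Fin n → ℕ) → ℕ} (hN : DFun n N) (ht : DFun n t) (ha : ∀ i l, DFun n (a i l))
    (hb : ∀ i l, DFun n (b i l)) (hc : ∀ i l, DFun n (c i l)) (hx : ∀ l, DFun n (x l))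
    (hy : ∀ l, DFun n (y l)) :
    Delta0 n (fun v => 0 < N v ∧ (tmap 1 (N v) (fun i l => a i l v) (fun i l => b i l v)
        (fun i l => c i l v))^[t v] (fun l => x l v) = fun l => y l v) := by
  refine (tm_orbit_delta0 hN (hx 0) (hy 0) ht (fun i => ha i 0) (fun i => hb i 0)
    (fun i => hc i 0)).of_iff fun v => ?_
  refine and_congr_right fun _ => ?_
  rw [tmap_one_iter]
  constructor
  · intro h
    exact congrFun h 0
  · intro h
    funext l
    obtain rfl : l = 0 := Subsingleton.elim _ _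
    exact h

/-- **Part (A)** for `tmap` and membership in orbits. -/
theorem tmap_one_orbit_delta0 {k n : ℕ} {N : (Fin n → ℕ) → ℕ}
    {a b c : Fin k → Fin 1 → (Fin n → ℕ) → ℕ}
    {x y : Fin 1 → (Fin n → ℕ) → ℕ} (hN : DFun n N) (ha : ∀ i l, DFun n (a i l))
    (hb : ∀ i l, DFun n (b i l)) (hc : ∀ i l, DFun n (c i l)) (hx : ∀ l, DFun n (x l))
    (hy : ∀ l, DFun n (y l)) :
    Delta0 n (fun v => 0 < N v ∧ ∃ t, (tmap 1 (N v) (fun i l => a i l v) (fun i l => b i l v)
        (fun i l => c i l v))^[t] (fun l => x l v) = fun l => y l v) := by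
  have h1 : Delta0 (n + 1) (fun w => 0 < N (fun i => w i.succ) ∧
      (tmap 1 (N (fun i => w i.succ)) (fun i l => a i l (fun i => w i.succ))
        (fun i l => b i l (fun i => w i.succ)) (fun i l => c i l (fun i => w i.succ)))^[w 0]
        (fun l => x l (fun i => w i.succ)) = fun l => y l (fun i => w i.succ)) :=
    tmap_one_delta0 hN.weak (DFun.proj 0) (fun i l => (ha i l).weak) (fun i l => (hb i l).weak)
      (fun i l => (hc i l).weak) (fun l => (hx l).weak) (fun l => (hy l).weak)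
  have h2 := Delta0.bexFun (n := n) (b := fun v => N v + 1) (hN.add (DFun.const 1))
    (P := fun t v => 0 < N v ∧ (tmap 1 (N v) (fun i l => a i l v) (fun i l => b i l v)
        (fun i l => c i l v))^[t] (fun l => x l v) = fun l => y l v) h1
  refine h2.of_iff fun v => ?_
  constructor
  · rintro ⟨hv, t, ht⟩
    obtain ⟨t', ht', he⟩ := iterate_bounded (tm (N v) (fun i => a i 0 v) (fun i => b i 0 v)
      (fun i => c i 0 v)) (N v) (fun z => (Nat.mod_lt _ hv).le) (x 0 v) t
    refine ⟨t', ht', hv, ?_⟩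
    rw [tmap_one_iter] at ht ⊢
    rw [← he]
    exact ht
  · rintro ⟨t, -, hv, ht⟩
    exact ⟨hv, t, ht⟩

end Pool.Agent.PTr
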