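import Mathlib
import Pool.Agent.GAvg.E2Tools
import Pool.Agent.GAvg.DigDef
import Pool.Agent.PTr.Embed
import Pool.Agent.PTr.PartA

/-!
# One complete relation; one number of boxes suffices
-/

set_option autoImplicit false

namespace Pool.Agent.PTr

open Finset Pool.Agent.Grz Pool.Agent.GAvg MvPolynomial
open scoped Classical

/-- the point is in the coded box -/
def ubox (D A B i u0 u1 : ℕ) : Prop :=
  (dig D A (2 * i) ≤ u0 ∧ u0 < dig D B (2 * i)) ∧
    (dig D A (2 * i + 1) ≤ u1 ∧ u1 < dig D B (2 * i + 1))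

/-- the map with coded boxes on coded points -/
noncomputable def ustep (k N D A B C z : ℕ) : ℕ :=
  if N = 0 then 0 else
  Nat.pair (((Nat.unpair z).1 + ∑ i ∈ range k,
      if ubox D A B i (Nat.unpair z).1 (Nat.unpair z).2 then dig D C (2 * i) else 0) % N)
    (((Nat.unpair z).2 + ∑ i ∈ range k,
      if ubox D A B i (Nat.unpair z).1 (Nat.unpair z).2 then dig D C (2 * i + 1) else 0) % N)

/-- the universal relation -/
def URel (v : Fin 10 → ℕ) : Prop :=
  0 < v 1 ∧ ∃ t, (ustep (v 0) (v 1) (v 2) (v 3) (v 4) (v 5))^[t] (Nat.pair (v 6) (v 7)) =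
    Nat.pair (v 8) (v 9)

theorem E2.unpair1 {n : ℕ} {f : (Fin n → ℕ) → ℕ} (hf : E2 n f) :
    E2 n (fun v => (Nat.unpair (f v)).1) :=
  E2.comp1 (g := fun x => (Nat.unpair x).1) (DFun.e2 (DFun.unpair1 (DFun.proj 0))) hf

theorem E2.unpair2 {n : ℕ} {f : (Fin n → ℕ) → ℕ} (hf : E2 n f) :
    E2 n (fun v => (Nat.unpair (f v)).2) :=
  E2.comp1 (g := fun x => (Nat.unpair x).2) (DFun.e2 (DFun.unpair2 (DFun.proj 0))) hf

theorem E2.pair {n : ℕ} {f g : (Fin n → ℕ) → ℕ} (hf : E2 n f) (hg : E2 n g) :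
    E2 n (fun v => Nat.pair (f v) (g v)) :=
  E2.comp2 (g := fun x y => Nat.pair x y) (DFun.e2 (DFun.pair (DFun.proj 0) (DFun.proj 1))) hf hg

theorem ubox_e2 {n : ℕ} {D A B i u0 u1 : (Fin n → ℕ) → ℕ} (hD : E2 n D) (hA : E2 n A)
    (hB : E2 n B) (hi : E2 n i) (h0 : E2 n u0) (h1 : E2 n u1) :
    E2Star n (fun v => ubox (D v) (A v) (B v) (i v) (u0 v) (u1 v)) := by
  have h2 : E2 n (fun v => 2 * i v) := (E2.const 2).mul hi
  have h3 : E2 n (fun v => 2 * i v + 1) := h2.add (E2.const 1)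
  exact ((E2Star.leFun (E2.dig hD hA h2) h0).and (E2Star.ltFun h0 (E2.dig hD hB h2))).and
    ((E2Star.leFun (E2.dig hD hA h3) h1).and (E2Star.ltFun h1 (E2.dig hD hB h3)))

theorem ustep_e2 {n : ℕ} {k N D A B C z : (Fin n → ℕ) → ℕ} (hk : E2 n k) (hN : E2 n N)
    (hD : E2 n D) (hA : E2 n A) (hB : E2 n B) (hC : E2 n C) (hz : E2 n z) :
    E2 n (fun v => ustep (k v) (N v) (D v) (A v) (B v) (C v) (z v)) := by
  have h0 := E2.unpair1 hz
  have h1 := E2.unpair2 hz
  have hi : E2 (n + 1) (fun w => w 0) := E2.proj 0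
  have hbox : E2Star (n + 1) (fun w => ubox (D (fun i => w i.succ)) (A (fun i => w i.succ))
      (B (fun i => w i.succ)) (w 0) (Nat.unpair (z (fun i => w i.succ))).1
      (Nat.unpair (z (fun i => w i.succ))).2) :=
    ubox_e2 hD.weak hA.weak hB.weak hi h0.weak h1.weak
  have hs0 : E2 n (fun v => ∑ i ∈ range (k v),
      if ubox (D v) (A v) (B v) i (Nat.unpair (z v)).1 (Nat.unpair (z v)).2 then
        dig (D v) (C v) (2 * i) else 0) :=
    E2.sumRange (f := fun i v => if ubox (D v) (A v) (B v) i (Nat.unpair (z v)).1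
      (Nat.unpair (z v)).2 then dig (D v) (C v) (2 * i) else 0) hk
      (E2.ite hbox (E2.dig hD.weak hC.weak ((E2.const 2).mul hi)) (E2.const 0))
  have hs1 : E2 n (fun v => ∑ i ∈ range (k v),
      if ubox (D v) (A v) (B v) i (Nat.unpair (z v)).1 (Nat.unpair (z v)).2 then
        dig (D v) (C v) (2 * i + 1) else 0) :=
    E2.sumRange (f := fun i v => if ubox (D v) (A v) (B v) i (Nat.unpair (z v)).1
      (Nat.unpair (z v)).2 then dig (D v) (C v) (2 * i + 1) else 0) hk
      (E2.ite hbox (E2.dig hD.weak hC.weak (((E2.const 2).mul hi).add (E2.const 1)))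
        (E2.const 0))
  unfold ustep
  have h := E2.ite (E2Star.eqFun hN (E2.const 0)) (E2.const 0)
    (E2.pair ((h0.add hs0).mod hN) ((h1.add hs1).mod hN))
  refine h.congr fun v => ?_
  congr

theorem ustep_le (k N D A B C z : ℕ) : ustep k N D A B C z ≤ Nat.pair N N := by
  unfold ustep
  split_ifs with h
  · exact Nat.zero_le _
  · have h1 := Nat.mod_lt ((Nat.unpair z).1 + ∑ i ∈ range k,
      if ubox D A B i (Nat.unpair z).1 (Nat.unpair z).2 then dig D C (2 * i) else 0)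
      (Nat.pos_of_ne_zero h)
    have h2 := Nat.mod_lt ((Nat.unpair z).2 + ∑ i ∈ range k,
      if ubox D A B i (Nat.unpair z).1 (Nat.unpair z).2 then dig D C (2 * i + 1) else 0)
      (Nat.pos_of_ne_zero h)
    exact ((Nat.pair_lt_pair_left _ h1).le).trans ((Nat.pair_lt_pair_right _ h2).le)

theorem urel_e2Star : E2Star 10 URel := by
  have hst : E2 11 (fun w : Fin 11 → ℕ => ustep (w 1) (w 2) (w 3) (w 4) (w 5) (w 6) (w 0)) :=
    ustep_e2 (E2.proj 1) (E2.proj 2) (E2.proj 3) (E2.proj 4) (E2.proj 5) (E2.proj 6) (E2.proj 0)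
  have hS : E2 10 (fun v : Fin 10 → ℕ => Nat.pair (v 6) (v 7)) := E2.pair (E2.proj 6) (E2.proj 7)
  have hNN : E2 10 (fun v : Fin 10 → ℕ => Nat.pair (v 1) (v 1)) := E2.pair (E2.proj 1) (E2.proj 1)
  have h1 := E2.iterate (n := 10)
    (P := fun z v => ustep (v 0) (v 1) (v 2) (v 3) (v 4) (v 5) z)
    (S := fun v => Nat.pair (v 6) (v 7)) (B := fun v => Nat.pair (v 6) (v 7) + Nat.pair (v 1) (v 1))
    hst hS (hS.add hNN) (by
      intro t v
      cases t with
      | zero => exact Nat.le_add_right _ _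
      | succ t =>
        rw [Function.iterate_succ_apply']
        exact (ustep_le _ _ _ _ _ _ _).trans (Nat.le_add_left _ _))
  have h2 : E2Star 11 (fun w : Fin 11 → ℕ => (fun z => ustep (w 1) (w 2) (w 3) (w 4) (w 5) (w 6)
      z)^[w 0] (Nat.pair (w 7) (w 8)) = Nat.pair (w 9) (w 10)) :=
    E2Star.eqFun h1 (E2.pair (E2.proj 9) (E2.proj 10))
  have h3 := E2Star.bex (n := 10) (b := fun v => Nat.pair (v 1) (v 1) + 1)
    (P := fun t v => (fun z => ustep (v 0) (v 1) (v 2) (v 3) (v 4) (v 5) z)^[t]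
      (Nat.pair (v 6) (v 7)) = Nat.pair (v 8) (v 9)) (hNN.add (E2.const 1)) h2
  refine ((E2Star.ltFun (E2.const 0) (E2.proj (n := 10) 1)).and h3).of_iff fun v => ?_
  refine and_congr_right fun _ => ?_
  constructor
  · rintro ⟨t, ht⟩
    obtain ⟨t', ht', he⟩ := iterate_bounded (fun z => ustep (v 0) (v 1) (v 2) (v 3) (v 4) (v 5) z)
      (Nat.pair (v 1) (v 1)) (fun z => ustep_le _ _ _ _ _ _ _) (Nat.pair (v 6) (v 7)) t
    exact ⟨t', ht', he.symm.trans ht⟩
  · rintro ⟨t, -, ht⟩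
    exact ⟨t, ht⟩

/-- the code of a point -/
def pcode (u : Fin 2 → ℕ) : ℕ := Nat.pair (u 0) (u 1)

theorem pcode_inj {u v : Fin 2 → ℕ} : pcode u = pcode v ↔ u = v := by
  constructor
  · intro h
    have h1 := Nat.pair_eq_pair.1 h
    funext l
    fin_cases l
    · exact h1.1
    · exact h1.2
  · intro h
    rw [h]

theorem ustep_tmap {k N D A B C : ℕ} (hN : 0 < N) {a b c : Fin k → Fin 2 → ℕ}
    (hA : ∀ (i : Fin k), dig D A (2 * i) = a i 0 ∧ dig D A (2 * i + 1) = a i 1)
    (hB : ∀ (i : Fin k), dig D B (2 * i) = b i 0 ∧ dig D B (2 * i + 1) = b i 1)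
    (hC : ∀ (i : Fin k), dig D C (2 * i) = c i 0 ∧ dig D C (2 * i + 1) = c i 1)
    (u : Fin 2 → ℕ) : ustep k N D A B C (pcode u) = pcode (tmap 1 N a b c u) := by
  unfold ustep pcode
  rw [if_neg (by omega), Nat.unpair_pair]
  have hbox : ∀ i : Fin k, ubox D A B i (u 0) (u 1) ↔ ∀ l, a i l ≤ u l ∧ u l < b i l := by
    intro i
    unfold ubox
    rw [(hA i).1, (hA i).2, (hB i).1, (hB i).2, Fin.forall_fin_two]
  congr 1
  · unfold tmap
    rw [one_mul, Finset.sum_range]
    simp only [hbox, (hC _).1]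
  · unfold tmap
    rw [one_mul, Finset.sum_range]
    simp only [hbox, (hC _).2]

/-- the digits of coded corners -/
noncomputable def cdig {k n : ℕ} (a : Fin k → Fin 2 → MvPolynomial (Fin n) ℕ) (j : ℕ) :
    MvPolynomial (Fin n) ℕ :=
  if h : j / 2 < k then a ⟨j / 2, h⟩ (if j % 2 = 0 then 0 else 1) else 0

theorem cdig_even {k n : ℕ} (a : Fin k → Fin 2 → MvPolynomial (Fin n) ℕ)
    (i : Fin k) : cdig a (2 * i) = a i 0 ∧ cdig a (2 * i + 1) = a i 1 := by
  unfold cdig
  have h1 : 2 * (i : ℕ) / 2 = i := by omega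
  have h2 : (2 * (i : ℕ) + 1) / 2 = i := by omega
  have h3 : 2 * (i : ℕ) % 2 = 0 := by omega
  have h4 : (2 * (i : ℕ) + 1) % 2 ≠ 0 := by omega
  constructor
  · rw [dif_pos (by omega), if_pos h3]
    simp only [h1]
  · rw [dif_pos (by omega), if_neg h4]
    simp only [h2]

/-- The relation `URel` is complete. -/
theorem urel_complete {n : ℕ} {R : (Fin n → ℕ) → Prop} (hR : E2Star n R) :
    ∃ g : Fin 10 → MvPolynomial (Fin n) ℕ, ∀ v, R v ↔ URel (fun i => eval v (g i)) := by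
  obtain ⟨k, N, a, b, c, x, y, h⟩ := form2 hR
  set S : MvPolynomial (Fin n) ℕ := 1 + ∑ j ∈ range (2 * k), (cdig a j + cdig b j + cdig c j)
    with hS
  refine ⟨![(k : MvPolynomial (Fin n) ℕ), N, S, ∑ j ∈ range (2 * k), cdig a j * S ^ j,
    ∑ j ∈ range (2 * k), cdig b j * S ^ j, ∑ j ∈ range (2 * k), cdig c j * S ^ j, x 0, x 1,
    y 0, y 1], ?_⟩
  intro v
  obtain ⟨hN, -, -, -, hRv⟩ := h v
  have hSv : eval v S = 1 + ∑ j ∈ range (2 * k),
      (eval v (cdig a j) + eval v (cdig b j) + eval v (cdig c j)) := by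
    rw [hS, map_add, map_one, map_sum]
    simp only [map_add]
  have hlt : ∀ j, j < 2 * k → eval v (cdig a j) < eval v S ∧ eval v (cdig b j) < eval v S ∧
      eval v (cdig c j) < eval v S := by
    intro j hj
    have h1 : eval v (cdig a j) + eval v (cdig b j) + eval v (cdig c j) ≤
        ∑ j ∈ range (2 * k), (eval v (cdig a j) + eval v (cdig b j) + eval v (cdig c j)) :=
      Finset.single_le_sum (f := fun j => eval v (cdig a j) + eval v (cdig b j) +
        eval v (cdig c j)) (fun _ _ => Nat.zero_le _) (Finset.mem_range.2 hj)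
    rw [hSv]
    omega
  have hSpos : 0 < eval v S := by rw [hSv]; omega
  have hcode : ∀ e : Fin k → Fin 2 → MvPolynomial (Fin n) ℕ,
      eval v (∑ j ∈ range (2 * k), cdig e j * S ^ j) =
        ∑ j ∈ range (2 * k), eval v (cdig e j) * eval v S ^ j := by
    intro e
    rw [map_sum]
    simp only [map_mul, map_pow]
  have hdig : ∀ e : Fin k → Fin 2 → MvPolynomial (Fin n) ℕ,
      (∀ j, j < 2 * k → eval v (cdig e j) < eval v S) → ∀ i : Fin k,
      dig (eval v S) (eval v (∑ j ∈ range (2 * k), cdig e j * S ^ j)) (2 * i) =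
        eval v (e i 0) ∧
      dig (eval v S) (eval v (∑ j ∈ range (2 * k), cdig e j * S ^ j)) (2 * i + 1) =
        eval v (e i 1) := by
    intro e he i
    have hi := i.2
    rw [hcode, dig_sum hSpos _ he (by omega), dig_sum hSpos _ he (by omega)]
    rw [(cdig_even e i).1, (cdig_even e i).2]
    exact ⟨rfl, rfl⟩
  have hk : eval v (k : MvPolynomial (Fin n) ℕ) = k := by rw [map_natCast]; rfl
  have hstep := ustep_tmap (k := k) (N := eval v N) (D := eval v S) hN
    (a := fun i l => eval v (a i l)) (b := fun i l => eval v (b i l))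
    (c := fun i l => eval v (c i l)) (hdig a fun j hj => (hlt j hj).1)
    (hdig b fun j hj => (hlt j hj).2.1) (hdig c fun j hj => (hlt j hj).2.2)
  have hiter : ∀ t u, (ustep k (eval v N) (eval v S)
      (eval v (∑ j ∈ range (2 * k), cdig a j * S ^ j))
      (eval v (∑ j ∈ range (2 * k), cdig b j * S ^ j))
      (eval v (∑ j ∈ range (2 * k), cdig c j * S ^ j)))^[t] (pcode u) =
      pcode ((tmap 1 (eval v N) (fun i l => eval v (a i l)) (fun i l => eval v (b i l))
        (fun i l => eval v (c i l)))^[t] u) := by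
    intro t
    induction t with
    | zero => intro u; rfl
    | succ t ih => intro u; rw [Function.iterate_succ_apply, Function.iterate_succ_apply, hstep, ih]
  rw [hRv]
  show _ ↔ (0 < eval v N ∧ ∃ t, (ustep (eval v (k : MvPolynomial (Fin n) ℕ)) (eval v N)
    (eval v S) (eval v (∑ j ∈ range (2 * k), cdig a j * S ^ j))
    (eval v (∑ j ∈ range (2 * k), cdig b j * S ^ j))
    (eval v (∑ j ∈ range (2 * k), cdig c j * S ^ j)))^[t] (pcode fun l => eval v (x l)) =
    pcode fun l => eval v (y l))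
  rw [hk]
  constructor
  · rintro ⟨t, ht⟩
    exact ⟨hN, t, by rw [hiter, ht]⟩
  · rintro ⟨-, t, ht⟩
    exact ⟨t, pcode_inj.1 ((hiter t _).symm.trans ht)⟩

/-- Hardness for all `(r, s) ≠ (1, 1)` with one number of boxes. -/
theorem exists_orbK_univ {r s : ℕ} (hr : 1 ≤ r) (hs : 1 ≤ s) (hrs : (r, s) ≠ (1, 1)) :
    ∃ k₀, ∀ k, k₀ ≤ k → OrbK r s k →
      ∀ (n : ℕ) (R : (Fin n → ℕ) → Prop), E2Star n R → Delta0 n R := by
  obtain ⟨k₀, hk₀⟩ := exists_orbK hr hs hrs urel_e2Star
  refine ⟨k₀, fun k hk H n R hR => ?_⟩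
  have h1 := hk₀ (H.anti hk)
  obtain ⟨g, hg⟩ := urel_complete hR
  refine (h1.subst (h := fun i v => eval v (g i)) (fun i => DFun.ofPoly _)).of_iff fun v => ?_
  exact hg v

/-- The normal form with one number of boxes. -/
theorem form2_univ : ∃ k₀, ∀ k, k₀ ≤ k → ∀ {n : ℕ} {R : (Fin n → ℕ) → Prop}, E2Star n R →
    ∃ (N : MvPolynomial (Fin n) ℕ)
      (a b c : Fin k → Fin 2 → MvPolynomial (Fin n) ℕ)
      (x y : Fin 2 → MvPolynomial (Fin n) ℕ), ∀ v : Fin n → ℕ,
        0 < MvPolynomial.eval v N ∧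
        (∀ l, MvPolynomial.eval v (x l) < MvPolynomial.eval v N) ∧
        (∀ l, MvPolynomial.eval v (y l) < MvPolynomial.eval v N) ∧
        Set.BijOn (tmap 1 (MvPolynomial.eval v N) (fun i l => MvPolynomial.eval v (a i l))
            (fun i l => MvPolynomial.eval v (b i l)) (fun i l => MvPolynomial.eval v (c i l)))
          {u | ∀ l, u l < MvPolynomial.eval v N} {u | ∀ l, u l < MvPolynomial.eval v N} ∧
        (R v ↔ ∃ t : ℕ, (tmap 1 (MvPolynomial.eval v N)
            (fun i l => MvPolynomial.eval v (a i l)) (fun i l => MvPolynomial.eval v (b i l))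
            (fun i l => MvPolynomial.eval v (c i l)))^[t] (fun l => MvPolynomial.eval v (x l)) =
          fun l => MvPolynomial.eval v (y l)) := by
  obtain ⟨k₀, N, a, b, c, x, y, h⟩ := form2 urel_e2Star
  refine ⟨k₀, fun k hk n R hR => ?_⟩
  obtain ⟨g, hg⟩ := urel_complete hR
  refine ⟨bind₁ g N, padB k (fun _ => 0) (fun i l => bind₁ g (a i l)),
    padB k (fun _ => 0) (fun i l => bind₁ g (b i l)),
    padB k (fun _ => 0) (fun i l => bind₁ g (c i l)), fun l => bind₁ g (x l),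
    fun l => bind₁ g (y l), fun v => ?_⟩
  have hb : ∀ p : MvPolynomial (Fin 10) ℕ, eval v (bind₁ g p) = eval (fun i => eval v (g i)) p := by
    intro p
    exact eval_bind g v p
  have hp : ∀ e : Fin k₀ → Fin 2 → MvPolynomial (Fin 10) ℕ,
      (fun (i : Fin k) (l : Fin 2) => eval v
        (padB k (fun _ => (0 : MvPolynomial (Fin n) ℕ)) (fun i l => bind₁ g (e i l)) i l)) =
      padB k (fun _ => 0) (fun i l => eval (fun i => eval v (g i)) (e i l)) := by
    intro e
    funext i l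
    unfold padB
    by_cases hi : (i : ℕ) < k₀
    · simp only [dif_pos hi, hb]
    · simp only [dif_neg hi, map_zero]
  obtain ⟨h1, h2, h3, h4, h5⟩ := h (fun i => eval v (g i))
  simp only [hb, hp, tmap_pad hk]
  refine ⟨h1, h2, h3, h4, ?_⟩
  rw [hg v]
  exact h5

end Pool.Agent.PTr
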