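import Mathlib
import Pool.Agent.PTr.Gen
import Pool.Agent.PTr.BoxFun
import Pool.Agent.PTr.Univ

/-!
# Negative slopes are as hard as positive slopes
-/

set_option autoImplicit false

namespace Pool.Agent.PTr

open Finset Pool.Agent.Grz

/-- The orbits of the maps `zmap s` in dimension `r` with `k` boxes are definable by bounded
formulas. -/
def OrbZ (r : ℕ) (s : ℤ) (k : ℕ) : Prop :=
  ∀ (n : ℕ) (N : (Fin n → ℕ) → ℕ) (a b c : Fin k → Fin r → (Fin n → ℕ) → ℕ)
    (x y : Fin r → (Fin n → ℕ) → ℕ), DFun n N → (∀ i l, DFun n (a i l)) →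
    (∀ i l, DFun n (b i l)) → (∀ i l, DFun n (c i l)) → (∀ l, DFun n (x l)) →
    (∀ l, DFun n (y l)) → Delta0 n (fun v => 0 < N v ∧
      ∃ t, (zmap s (N v) (fun i l => a i l v) (fun i l => b i l v) (fun i l => c i l v))^[t]
        (fun l => x l v) = fun l => y l v)

theorem orbZ_natCast {r s k : ℕ} : OrbZ r (s : ℤ) k ↔ OrbK r s k := by
  unfold OrbZ OrbK
  simp only [zmap_natCast]

/-! ### The exact value of the maps -/

theorem count_mult {q X N : ℕ} (hN : 0 < N) (h : X / N ≤ q) :
    (∑ e ∈ range q, if (e + 1) * N ≤ X then (1 : ℤ) else 0) = ((X / N : ℕ) : ℤ) := by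
  rw [Finset.sum_ite, Finset.sum_const_zero, add_zero, Finset.sum_const, nsmul_one]
  congr 1
  have : (range q).filter (fun e => (e + 1) * N ≤ X) = range (X / N) := by
    ext e
    rw [mem_filter, mem_range, mem_range, ← Nat.le_div_iff_mul_le hN]
    omega
  rw [this, card_range]

section lift

variable {n r k : ℕ} (m : ℕ) (N : (Fin n → ℕ) → ℕ) (a b c : Fin k → Fin r → (Fin n → ℕ) → ℕ)

/-- the sum of the translations over a set of boxes -/
def cSum (I : Finset (Fin k)) (l : Fin r) (v : Fin n → ℕ) : ℕ := ∑ i ∈ I, c i l v % N v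

/-- the indicator of a box -/
def indB (i : Fin k) (v : Fin n → ℕ) (u : Fin r → ℕ) : ℤ :=
  if ∀ l, a i l v ≤ u l ∧ u l < b i l v then 1 else 0

/-- the indicator of the set of the points which are exactly in the boxes `I` -/
def indI (I : Finset (Fin k)) (v : Fin n → ℕ) (u : Fin r → ℕ) : ℤ :=
  (∏ i ∈ I, indB a b i v u) * ∏ i ∈ univ \ I, (1 - indB a b i v u)

/-- the threshold -/
def thr (e : ℕ) (I : Finset (Fin k)) (l : Fin r) (v : Fin n → ℕ) : ℕ :=
  (e * N v - cSum N c I l v + (m - 1)) / m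

/-- the indicator of a half space -/
def ind2 (e : ℕ) (I : Finset (Fin k)) (l : Fin r) (v : Fin n → ℕ) (u : Fin r → ℕ) : ℤ :=
  if thr m N c e I l v ≤ u l then 1 else 0

/-- the exact translation -/
def exC (l : Fin r) (v : Fin n → ℕ) (u : Fin r → ℕ) : ℤ :=
  ∑ I : Finset (Fin k), indI a b I v u *
    ((cSum N c I l v : ℤ) - (N v : ℤ) * ∑ e ∈ range (m + k), ind2 m N c (e + 1) I l v u)

variable {m N a b c}

theorem indI_eq (I : Finset (Fin k)) (v : Fin n → ℕ) (u : Fin r → ℕ) :
    indI a b I v u =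
      if I = univ.filter (fun i => ∀ l, a i l v ≤ u l ∧ u l < b i l v) then 1 else 0 := by
  unfold indI indB
  split_ifs with h
  · have h1 : (∏ i ∈ I, if ∀ l, a i l v ≤ u l ∧ u l < b i l v then (1 : ℤ) else 0) = 1 := by
      refine Finset.prod_eq_one fun i hi => ?_
      rw [h, mem_filter] at hi
      rw [if_pos hi.2]
    have h2 : (∏ i ∈ univ \ I,
        (1 - if ∀ l, a i l v ≤ u l ∧ u l < b i l v then (1 : ℤ) else 0)) = 1 := by
      refine Finset.prod_eq_one fun i hi => ?_
      rw [mem_sdiff, h, mem_filter] at hi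
      rw [if_neg fun h' => hi.2 ⟨mem_univ _, h'⟩, sub_zero]
    rw [h1, h2, one_mul]
  · by_contra hne
    apply h
    ext i
    rw [mem_filter]
    constructor
    · intro hi
      refine ⟨mem_univ _, ?_⟩
      by_contra hbox
      apply hne
      rw [Finset.prod_eq_zero hi (by rw [if_neg hbox]), zero_mul]
    · rintro ⟨-, hbox⟩
      by_contra hi
      apply hne
      rw [Finset.prod_eq_zero (s := univ \ I) (mem_sdiff.2 ⟨mem_univ _, hi⟩)
        (by rw [if_pos hbox, sub_self]), mul_zero]

theorem thr_le (hm : 1 ≤ m) (e : ℕ) (I : Finset (Fin k)) (l : Fin r) (v : Fin n → ℕ) (x : ℕ) :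
    thr m N c e I l v ≤ x ↔ e * N v ≤ m * x + cSum N c I l v := by
  unfold thr
  rw [← Nat.lt_succ_iff, Nat.div_lt_iff_lt_mul (by omega), Nat.succ_mul]
  rw [mul_comm x m]
  omega

theorem exC_eq (hm : 1 ≤ m) {v : Fin n → ℕ} (hN : 0 < N v) {u : Fin r → ℕ}
    (hu : ∀ l, u l < N v) (j : Fin r) :
    ((tmap m (N v) (fun i l => a i l v) (fun i l => b i l v) (fun i l => c i l v) u j : ℕ) : ℤ) =
      (m : ℤ) * (u j : ℤ) + exC m N a b c j v u := by
  set I := univ.filter (fun i : Fin k => ∀ l, a i l v ≤ u l ∧ u l < b i l v) with hI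
  have h1 : exC m N a b c j v u = (cSum N c I j v : ℤ) -
      (N v : ℤ) * ∑ e ∈ range (m + k), ind2 m N c (e + 1) I j v u := by
    unfold exC
    rw [Finset.sum_eq_single I]
    · rw [indI_eq, if_pos hI, one_mul]
    · intro J _ hJ
      rw [indI_eq, if_neg (by rw [← hI]; exact hJ), zero_mul]
    · intro h
      exact absurd (mem_univ _) h
  have hcS : cSum N c I j v ≤ k * (N v - 1) := by
    unfold cSum
    calc ∑ i ∈ I, c i j v % N v ≤ ∑ i ∈ I, (N v - 1) := by
          refine Finset.sum_le_sum fun i _ => ?_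
          have := Nat.mod_lt (c i j v) hN
          omega
      _ = #I * (N v - 1) := by rw [Finset.sum_const, smul_eq_mul]
      _ ≤ k * (N v - 1) := by
          refine Nat.mul_le_mul_right _ ?_
          calc #I ≤ #(univ : Finset (Fin k)) := Finset.card_le_univ _
            _ = k := by rw [Finset.card_univ, Fintype.card_fin]
  have hX : (m * u j + cSum N c I j v) / N v ≤ m + k := by
    rw [← Nat.lt_succ_iff, Nat.div_lt_iff_lt_mul hN]
    have h2 : m * u j ≤ m * N v := Nat.mul_le_mul_left _ (hu j).le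
    have h3 : k * (N v - 1) ≤ k * N v := Nat.mul_le_mul_left _ (by omega)
    have h4 : (m + k).succ * N v = m * N v + k * N v + N v := by rw [Nat.succ_mul, Nat.add_mul]
    omega
  have h2 : (∑ e ∈ range (m + k), ind2 m N c (e + 1) I j v u) =
      (((m * u j + cSum N c I j v) / N v : ℕ) : ℤ) := by
    rw [← count_mult hN hX]
    refine Finset.sum_congr rfl fun e _ => ?_
    unfold ind2
    simp only [thr_le hm]
  have h3 : tmap m (N v) (fun i l => a i l v) (fun i l => b i l v) (fun i l => c i l v) u j =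
      (m * u j + cSum N c I j v) % N v := by
    unfold tmap cSum
    rw [hI, Finset.sum_filter]
    refine Nat.ModEq.add_left _ ?_
    refine Nat.ModEq.symm ?_
    refine Nat.ModEq.sum fun i _ => ?_
    split_ifs
    · exact Nat.mod_modEq _ _
    · exact Nat.ModEq.refl _
  rw [h1, h2, h3]
  have h4 := Nat.div_add_mod (m * u j + cSum N c I j v) (N v)
  have h5 : (((m * u j + cSum N c I j v) % N v : ℕ) : ℤ) =
      ((m * u j + cSum N c I j v : ℕ) : ℤ) -
        (N v : ℤ) * (((m * u j + cSum N c I j v) / N v : ℕ) : ℤ) := by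
    have h6 : ((N v * ((m * u j + cSum N c I j v) / N v) +
      (m * u j + cSum N c I j v) % N v : ℕ) : ℤ) = ((m * u j + cSum N c I j v : ℕ) : ℤ) := by
      rw [h4]
    push_cast at h6 ⊢
    linarith
  rw [h5]
  push_cast
  ring

theorem exC_bf {M : (Fin n → ℕ) → ℕ} (hm : 1 ≤ m) (hM : DFun n M) (hN : DFun n N)
    (ha : ∀ i l, DFun n (a i l)) (hb : ∀ i l, DFun n (b i l)) (hc : ∀ i l, DFun n (c i l))
    (j : Fin r) : BF n r M (exC m N a b c j) := by
  classical
  have hind : ∀ i, BF n r M (indB a b i) := by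
    intro i
    refine (BF.box (M := M) (c := fun _ => 1) (fun l => ha i l) (fun l => hb i l)
      (DFun.const 1)).congr fun v u _ _ => ?_
    unfold indB
    simp
  have hone : BF n r M (fun _ _ => (1 : ℤ)) := by
    refine (BF.const (r := r) hM (DFun.const 1)).congr fun v u _ _ => ?_
    simp
  have hI : ∀ I, BF n r M (indI a b I) := fun I =>
    (BF.prod hM I hind).mul (BF.prod hM _ fun i => hone.sub hM (hind i))
  have hcS : ∀ I l, DFun n (cSum N c I l) := fun I l =>
    DFun.finSum _ fun i => DFun.modAny (hc i l) hN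
  have hthr : ∀ e I l, DFun n (thr m N c e I l) := fun e I l =>
    DFun.divPos ((((DFun.const e).mul hN).sub (hcS I l)).add (DFun.const _)) (DFun.const m)
      (fun _ => hm)
  have h2 : ∀ e I l, BF n r M (ind2 m N c e I l) := by
    intro e I l
    refine (BF.box (M := M) (a := fun l' v => if l' = l then thr m N c e I l v else 0)
      (b := fun _ v => M v) (c := fun _ => 1) (fun l' => ?_) (fun _ => hM)
      (DFun.const 1)).congr fun v u _ hu => ?_
    · by_cases h : l' = l
      · simp only [if_pos h]; exact hthr e I l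
      · simp only [if_neg h]; exact DFun.const 0
    · unfold ind2
      have : (∀ l', (if l' = l then thr m N c e I l v else 0) ≤ u l' ∧ u l' < M v) ↔
          thr m N c e I l v ≤ u l := by
        constructor
        · intro h
          have := (h l).1
          rwa [if_pos rfl] at this
        · intro h l'
          refine ⟨?_, hu l'⟩
          split_ifs with h'
          · rw [h']; exact h
          · exact Nat.zero_le _
      simp only [this]
      simp
  have hconst : ∀ {g : (Fin n → ℕ) → ℕ}, DFun n g → BF n r M (fun v _ => (g v : ℤ)) := fun hg =>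
    BF.const hM hg
  exact BF.sum hM _ fun I => (hI I).mul ((hconst (hcS I j)).sub hM
    ((hconst hN).mul (BF.sum hM _ fun e => h2 (e + 1) I j)))

end lift

/-! ### The double cover -/

/-- reflection -/
def refl2 {r : ℕ} (N : ℕ) (u : Fin r → ℕ) : Fin r → ℕ := fun l => 2 * N - 1 - u l

theorem refl2_refl2 {r N : ℕ} {u : Fin r → ℕ} (hu : ∀ l, u l < 2 * N) :
    refl2 N (refl2 N u) = u := by
  funext l
  have := hu l
  unfold refl2
  omega

theorem exists_cover {n r k m : ℕ} (hm : 1 ≤ m) {N : (Fin n → ℕ) → ℕ}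
    {a b c : Fin k → Fin r → (Fin n → ℕ) → ℕ} (hN : DFun n N) (ha : ∀ i l, DFun n (a i l))
    (hb : ∀ i l, DFun n (b i l)) (hc : ∀ i l, DFun n (c i l)) :
    ∃ (k' : ℕ) (a' b' c' : Fin k' → Fin r → (Fin n → ℕ) → ℕ), (∀ i l, DFun n (a' i l)) ∧
      (∀ i l, DFun n (b' i l)) ∧ (∀ i l, DFun n (c' i l)) ∧ ∀ v, 0 < N v →
      ∀ u : Fin r → ℕ, (∀ l, u l < N v) →
        zmap (-(m : ℤ)) (2 * N v) (fun i l => a' i l v) (fun i l => b' i l v)
          (fun i l => c' i l v) u = refl2 (N v) (tmap m (N v) (fun i l => a i l v)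
            (fun i l => b i l v) (fun i l => c i l v) u) ∧
        zmap (-(m : ℤ)) (2 * N v) (fun i l => a' i l v) (fun i l => b' i l v)
          (fun i l => c' i l v) (refl2 (N v) u) = tmap m (N v) (fun i l => a i l v)
            (fun i l => b i l v) (fun i l => c i l v) u := by
  set M : (Fin n → ℕ) → ℕ := fun v => 2 * N v with hM
  have hMD : DFun n M := (DFun.const 2).mul hN
  have hC : ∀ j, BF n r M (exC m N a b c j) := exC_bf hm hMD hN ha hb hc
  have hE : BF n r M (fun v u => if ∀ l : Fin r, 0 ≤ u l ∧ u l < N v then ((1 : ℕ) : ℤ) else 0) :=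
    BF.box (a := fun _ _ => 0) (b := fun _ v => N v) (c := fun _ => 1) (fun _ => DFun.const 0)
      (fun _ => hN) (DFun.const 1)
  have hO : BF n r M (fun v u => if ∀ l : Fin r, N v ≤ u l ∧ u l < M v then ((1 : ℕ) : ℤ)
      else 0) :=
    BF.box (a := fun _ v => N v) (b := fun _ v => M v) (c := fun _ => 1) (fun _ => hN)
      (fun _ => hMD) (DFun.const 1)
  have hP : BF n r M (fun v _ => ((M v - 1 : ℕ) : ℤ)) := BF.const hMD (hMD.sub (DFun.const 1))
  have hmc : BF n r M (fun v _ => ((m * (M v - 1) : ℕ) : ℤ)) :=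
    BF.const hMD ((DFun.const m).mul (hMD.sub (DFun.const 1)))
  have hG : ∀ j, BF n r M (fun v u =>
      (if ∀ l : Fin r, 0 ≤ u l ∧ u l < N v then ((1 : ℕ) : ℤ) else 0) *
        (((M v - 1 : ℕ) : ℤ) - exC m N a b c j v u) +
      (if ∀ l : Fin r, N v ≤ u l ∧ u l < M v then ((1 : ℕ) : ℤ) else 0) *
        (((m * (M v - 1) : ℕ) : ℤ) + exC m N a b c j v (fun l => M v - 1 - u l))) := fun j =>
    (hE.mul (hP.sub hMD (hC j))).add (hO.mul (hmc.add ((hC j).reflect hMD)))
  obtain ⟨k', a', b', c', h1, h2, h3, h4⟩ := BF.assemble hG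
  refine ⟨k', a', b', c', h1, h2, h3, fun v hv u hu => ?_⟩
  have hMv : M v = 2 * N v := rfl
  have hMpos : 0 < M v := by omega
  have hTlt : ∀ j, tmap m (N v) (fun i l => a i l v) (fun i l => b i l v)
      (fun i l => c i l v) u j < N v := fun j => Nat.mod_lt _ hv
  have hex := fun j => exC_eq (a := a) (b := b) (c := c) hm hv hu j
  rcases Nat.eq_zero_or_pos r with hr0 | hr0
  · subst hr0
    exact ⟨funext fun j => j.elim0, funext fun j => j.elim0⟩
  constructor
  · funext j
    have hz := zmap_cast (s := -(m : ℤ)) hMpos (fun i l => a' i l v) (fun i l => b' i l v)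
      (fun i l => c' i l v) u j
    have hg := h4 v u hMpos (fun l => by have := hu l; omega) j
    rw [if_pos (fun l => ⟨Nat.zero_le _, hu l⟩), if_neg (by
      intro h
      have h5 := (h ⟨0, hr0⟩).1
      have h6 := hu ⟨0, hr0⟩
      omega)] at hg
    have h7 : (-(m : ℤ) * (u j : ℤ) + ∑ i : Fin k', if (∀ l, a' i l v ≤ u l ∧ u l < b' i l v) then
        (c' i j v : ℤ) else 0) % (M v : ℤ) =
        (((M v - 1 - tmap m (N v) (fun i l => a i l v) (fun i l => b i l v)
          (fun i l => c i l v) u j : ℕ)) : ℤ) := by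
      have h8 : (-(m : ℤ) * (u j : ℤ) + ∑ i : Fin k', if (∀ l, a' i l v ≤ u l ∧ u l < b' i l v) then
        (c' i j v : ℤ) else 0) ≡ (((M v - 1 - tmap m (N v) (fun i l => a i l v)
          (fun i l => b i l v) (fun i l => c i l v) u j : ℕ)) : ℤ) [ZMOD (M v : ℤ)] := by
        refine (Int.ModEq.add_left _ hg.symm).trans ?_
        refine Int.ModEq.symm ?_
        have h9 : (((M v - 1 - tmap m (N v) (fun i l => a i l v)
          (fun i l => b i l v) (fun i l => c i l v) u j : ℕ)) : ℤ) =
          ((M v - 1 : ℕ) : ℤ) - ((m : ℤ) * (u j : ℤ) + exC m N a b c j v u) := by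
          rw [← hex j, Nat.cast_sub (by have := hTlt j; omega)]
        rw [h9]
        simp only [Nat.cast_one, one_mul, zero_mul, add_zero]
        have : ((M v - 1 : ℕ) : ℤ) - ((m : ℤ) * (u j : ℤ) + exC m N a b c j v u) =
          -(m : ℤ) * (u j : ℤ) + (((M v - 1 : ℕ) : ℤ) - exC m N a b c j v u) := by ring
        rw [this]
      rw [h8]
      refine Int.emod_eq_of_lt (Int.natCast_nonneg _) ?_
      exact_mod_cast (by omega : M v - 1 - tmap m (N v) (fun i l => a i l v)
        (fun i l => b i l v) (fun i l => c i l v) u j < M v)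
    rw [h7] at hz
    exact_mod_cast hz
  · funext j
    have hu' : ∀ l, refl2 (N v) u l < M v := fun l => by unfold refl2; omega
    have hz := zmap_cast (s := -(m : ℤ)) hMpos (fun i l => a' i l v) (fun i l => b' i l v)
      (fun i l => c' i l v) (refl2 (N v) u) j
    have hg := h4 v (refl2 (N v) u) hMpos hu' j
    have hrr : (fun l => M v - 1 - refl2 (N v) u l) = u := by
      funext l
      have := hu l
      unfold refl2
      omega
    rw [if_neg (by
      intro h
      have h5 := (h ⟨0, hr0⟩).2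
      have h6 := hu ⟨0, hr0⟩
      unfold refl2 at h5
      omega), if_pos (fun l => ⟨by have := hu l; unfold refl2; omega, hu' l⟩), hrr] at hg
    have h7 : (-(m : ℤ) * (refl2 (N v) u j : ℤ) + ∑ i : Fin k',
        if (∀ l, a' i l v ≤ refl2 (N v) u l ∧ refl2 (N v) u l < b' i l v) then
        (c' i j v : ℤ) else 0) % (M v : ℤ) =
        ((tmap m (N v) (fun i l => a i l v) (fun i l => b i l v)
          (fun i l => c i l v) u j : ℕ) : ℤ) := by
      have h8 : (-(m : ℤ) * (refl2 (N v) u j : ℤ) + ∑ i : Fin k',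
          if (∀ l, a' i l v ≤ refl2 (N v) u l ∧ refl2 (N v) u l < b' i l v) then
          (c' i j v : ℤ) else 0) ≡ ((tmap m (N v) (fun i l => a i l v)
          (fun i l => b i l v) (fun i l => c i l v) u j : ℕ) : ℤ) [ZMOD (M v : ℤ)] := by
        refine (Int.ModEq.add_left _ hg.symm).trans ?_
        refine Int.ModEq.symm ?_
        rw [hex j]
        have h9 : ((refl2 (N v) u j : ℕ) : ℤ) = ((M v - 1 : ℕ) : ℤ) - (u j : ℤ) := by
          unfold refl2
          rw [← Nat.cast_sub (by have := hu j; omega)]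
        rw [h9]
        simp only [Nat.cast_one, one_mul, zero_mul, zero_add]
        have : -(m : ℤ) * (((M v - 1 : ℕ) : ℤ) - (u j : ℤ)) +
            (((m * (M v - 1) : ℕ) : ℤ) + exC m N a b c j v u) =
            (m : ℤ) * (u j : ℤ) + exC m N a b c j v u := by
          rw [Nat.cast_mul]
          ring
        rw [this]
      rw [h8]
      refine Int.emod_eq_of_lt (Int.natCast_nonneg _) ?_
      exact_mod_cast (by have := hTlt j; omega : tmap m (N v) (fun i l => a i l v)
        (fun i l => b i l v) (fun i l => c i l v) u j < M v)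
    rw [h7] at hz
    exact_mod_cast hz

/-- iterates on the double cover -/
theorem cover_iter {r N : ℕ} {f g : (Fin r → ℕ) → Fin r → ℕ} (hf : ∀ u l, f u l < N)
    (h1 : ∀ u : Fin r → ℕ, (∀ l, u l < N) → g u = refl2 N (f u) ∧ g (refl2 N u) = f u)
    {x : Fin r → ℕ} (hx : ∀ l, x l < N) (t : ℕ) :
    (∀ l, f^[t] x l < N) ∧ g^[t] x = if t % 2 = 0 then f^[t] x else refl2 N (f^[t] x) := by
  induction t with
  | zero => exact ⟨hx, rfl⟩
  | succ t ih =>
    obtain ⟨i1, i2⟩ := ih
    rw [Function.iterate_succ_apply', Function.iterate_succ_apply', i2]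
    refine ⟨fun l => hf _ l, ?_⟩
    rcases Nat.mod_two_eq_zero_or_one t with h | h
    · rw [if_pos h, if_neg (by omega), (h1 _ i1).1]
    · rw [if_neg (by omega), if_pos (by omega), (h1 _ i1).2]

theorem cover_hits {r N : ℕ} (hr : 0 < r) {f g : (Fin r → ℕ) → Fin r → ℕ}
    (hf : ∀ u l, f u l < N)
    (h1 : ∀ u : Fin r → ℕ, (∀ l, u l < N) → g u = refl2 N (f u) ∧ g (refl2 N u) = f u)
    (x y : Fin r → ℕ) :
    (∃ t, f^[t] x = y) ↔ (x = y ∨ ((∀ l, y l < N) ∧
      ((∃ t, g^[t] (f x) = y) ∨ ∃ t, g^[t] (f x) = refl2 N y))) := by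
  have hfx : ∀ l, f x l < N := hf x
  constructor
  · rintro ⟨t, ht⟩
    cases t with
    | zero => exact Or.inl ht
    | succ t =>
      right
      rw [Function.iterate_succ_apply] at ht
      obtain ⟨h2, h3⟩ := cover_iter hf h1 hfx t
      rw [ht] at h2 h3
      refine ⟨h2, ?_⟩
      rcases Nat.mod_two_eq_zero_or_one t with h | h
      · rw [if_pos h] at h3
        exact Or.inl ⟨t, h3⟩
      · rw [if_neg (by omega)] at h3
        exact Or.inr ⟨t, h3⟩
  · rintro (h | ⟨hy, ⟨t, ht⟩ | ⟨t, ht⟩⟩)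
    · exact ⟨0, h⟩
    · obtain ⟨h2, h3⟩ := cover_iter hf h1 hfx t
      rw [ht] at h3
      rcases Nat.mod_two_eq_zero_or_one t with h | h
      · rw [if_pos h] at h3
        exact ⟨t + 1, by rw [Function.iterate_succ_apply]; exact h3.symm⟩
      · rw [if_neg (by omega)] at h3
        exfalso
        have h4 := congrFun h3 ⟨0, hr⟩
        have h5 := hy ⟨0, hr⟩
        have h6 := h2 ⟨0, hr⟩
        unfold refl2 at h4
        omega
    · obtain ⟨h2, h3⟩ := cover_iter hf h1 hfx t
      rw [ht] at h3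
      rcases Nat.mod_two_eq_zero_or_one t with h | h
      · rw [if_pos h] at h3
        exfalso
        have h4 := congrFun h3 ⟨0, hr⟩
        have h5 := hy ⟨0, hr⟩
        have h6 := h2 ⟨0, hr⟩
        unfold refl2 at h4
        omega
      · rw [if_neg (by omega)] at h3
        refine ⟨t + 1, ?_⟩
        rw [Function.iterate_succ_apply]
        have h7 : refl2 N (refl2 N y) = refl2 N (refl2 N (f^[t] (f x))) := by rw [h3]
        rw [refl2_refl2 (fun l => by have := hy l; omega),
          refl2_refl2 (fun l => by have := h2 l; omega)] at h7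
        exact h7.symm

/-- The orbits of a family of slope `m` reduce to those of a family of slope `-m`. -/
theorem exists_orbZ_neg {n r k m : ℕ} (hr : 1 ≤ r) (hm : 1 ≤ m) {N : (Fin n → ℕ) → ℕ}
    {a b c : Fin k → Fin r → (Fin n → ℕ) → ℕ} {x y : Fin r → (Fin n → ℕ) → ℕ} (hN : DFun n N)
    (ha : ∀ i l, DFun n (a i l)) (hb : ∀ i l, DFun n (b i l)) (hc : ∀ i l, DFun n (c i l))
    (hx : ∀ l, DFun n (x l)) (hy : ∀ l, DFun n (y l)) :
    ∃ k', OrbZ r (-(m : ℤ)) k' → Delta0 n (fun v => 0 < N v ∧
      ∃ t, (tmap m (N v) (fun i l => a i l v) (fun i l => b i l v) (fun i l => c i l v))^[t]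
        (fun l => x l v) = fun l => y l v) := by
  obtain ⟨k', a', b', c', h1, h2, h3, h4⟩ := exists_cover hm hN ha hb hc
  refine ⟨k', fun H => ?_⟩
  have hfx : ∀ l, DFun n (fun v => tmap m (N v) (fun i l => a i l v) (fun i l => b i l v)
      (fun i l => c i l v) (fun l => x l v) l) := fun l => DFun.tmap m hN ha hb hc hx l
  have g1 := H n (fun v => 2 * N v) a' b' c' (fun l v => tmap m (N v) (fun i l => a i l v)
    (fun i l => b i l v) (fun i l => c i l v) (fun l => x l v) l) y ((DFun.const 2).mul hN)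
    h1 h2 h3 hfx hy
  have g2 := H n (fun v => 2 * N v) a' b' c' (fun l v => tmap m (N v) (fun i l => a i l v)
    (fun i l => b i l v) (fun i l => c i l v) (fun l => x l v) l)
    (fun l v => 2 * N v - 1 - y l v) ((DFun.const 2).mul hN)
    h1 h2 h3 hfx (fun l => (((DFun.const 2).mul hN).sub (DFun.const 1)).sub (hy l))
  have g3 : Delta0 n (fun v => ∀ l, x l v = y l v) :=
    Delta0.allOf fun l => Delta0.eqFun (hx l) (hy l)
  have g4 : Delta0 n (fun v => ∀ l, y l v < N v) := Delta0.allOf fun l => Delta0.ltFun (hy l) hN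
  refine ((Delta0.ltFun (DFun.const 0) hN).and (g3.or (g4.and (g1.or g2)))).of_iff fun v => ?_
  refine and_congr_right fun hv => ?_
  have hc := cover_hits (N := N v) (by omega) (fun u l => Nat.mod_lt _ hv) (h4 v hv)
    (fun l => x l v) (fun l => y l v)
  refine hc.trans ?_
  have e1 : ((fun l => x l v) = fun l => y l v) ↔ ∀ l, x l v = y l v := funext_iff
  have e2 : 0 < 2 * N v := by omega
  rw [e1]
  simp only [e2, true_and]
  exact Iff.rfl

end Pool.Agent.PTr
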