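import Mathlib
import Pool.Agent.PTr.Neg

/-!
# Hardness for all integer slopes, with one number of boxes
-/

set_option autoImplicit false

namespace Pool.Agent.PTr

open Finset Pool.Agent.Grz MvPolynomial

theorem zmap_pad {r k k' : ℕ} (hk : k ≤ k') (s : ℤ) (N : ℕ) (a b c : Fin k → Fin r → ℕ) :
    zmap s N (padB k' (fun _ => 0) a) (padB k' (fun _ => 0) b) (padB k' (fun _ => 0) c) =
      zmap s N a b c := by
  funext u j
  unfold zmap
  congr 3
  set F : ℕ → ℤ := fun i => if h : i < k then
    (if (∀ l, a ⟨i, h⟩ l ≤ u l ∧ u l < b ⟨i, h⟩ l) then (c ⟨i, h⟩ j : ℤ) else 0) else 0 with hF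
  have h1 : ∀ i : Fin k', (if (∀ l, padB k' (fun _ => 0) a i l ≤ u l ∧
      u l < padB k' (fun _ => 0) b i l) then (padB k' (fun _ => 0) c i j : ℤ) else 0) = F i := by
    intro i
    simp only [hF, padB]
    by_cases h : (i : ℕ) < k
    · simp only [dif_pos h]
    · simp only [dif_neg h, Nat.cast_zero, ite_self]
  have h2 : ∀ i : Fin k, (if (∀ l, a i l ≤ u l ∧ u l < b i l) then (c i j : ℤ) else 0) = F i := by
    intro i
    simp only [hF, dif_pos i.2]
  simp only [h1, h2]
  rw [← Finset.sum_range F, ← Finset.sum_range F]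
  refine (Finset.sum_subset (Finset.range_subset_range.2 hk) fun i _ hi => ?_).symm
  simp only [hF]
  rw [dif_neg (by simpa using hi)]

theorem OrbZ.anti {r k k' : ℕ} {s : ℤ} (hk : k ≤ k') (H : OrbZ r s k') : OrbZ r s k := by
  intro n N a b c x y hN ha hb hc hx hy
  have hpad : ∀ (g : Fin k → Fin r → (Fin n → ℕ) → ℕ), (∀ i l, DFun n (g i l)) →
      ∀ (i : Fin k') (l : Fin r), DFun n (fun v => padB k' (fun _ => 0) (fun i l => g i l v) i l) := by
    intro g hg i l
    unfold padB
    by_cases h : (i : ℕ) < k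
    · simp only [dif_pos h]
      exact hg _ _
    · simp only [dif_neg h]
      exact DFun.const 0
  have h := H n N (fun i l v => padB k' (fun _ => 0) (fun i l => a i l v) i l)
    (fun i l v => padB k' (fun _ => 0) (fun i l => b i l v) i l)
    (fun i l v => padB k' (fun _ => 0) (fun i l => c i l v) i l) x y hN (hpad a ha) (hpad b hb)
    (hpad c hc) hx hy
  refine h.of_iff fun v => ?_
  have e := zmap_pad hk s (N v) (fun i l => a i l v) (fun i l => b i l v) (fun i l => c i l v)
  rw [← e]

/-- the universal family -/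
noncomputable def uFam {r k : ℕ} : UIx r k → (Fin (Fintype.card (UIx r k)) → ℕ) → ℕ :=
  fun z v => v (Fintype.equivFin (UIx r k) z)

theorem dfun_uFam {r k : ℕ} (z : UIx r k) : DFun (Fintype.card (UIx r k)) (uFam z) :=
  DFun.proj _

/-- from the universal family to all families -/
theorem orbZ_of_univ {r k : ℕ} {s : ℤ}
    (h1 : Delta0 (Fintype.card (UIx r k)) (fun v => 0 < uFam (r := r) (k := k) none v ∧
      ∃ t, (zmap s (uFam (r := r) (k := k) none v) (fun i l => uFam (some (.inl (0, i, l))) v)
        (fun i l => uFam (some (.inl (1, i, l))) v) (fun i l => uFam (some (.inl (2, i, l))) v))^[t]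
        (fun l => uFam (k := k) (some (.inr (0, l))) v) =
          fun l => uFam (k := k) (some (.inr (1, l))) v)) : OrbZ r s k := by
  intro n N a b c x y hN ha hb hc hx hy
  let e := Fintype.equivFin (UIx r k)
  let g : UIx r k → (Fin n → ℕ) → ℕ := fun z => match z with
    | none => N
    | some (.inl (0, i, l)) => a i l
    | some (.inl (1, i, l)) => b i l
    | some (.inl (2, i, l)) => c i l
    | some (.inr (0, l)) => x l
    | some (.inr (1, l)) => y l
  have hg : ∀ z, DFun n (g z) := by
    intro z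
    match z with
    | none => exact hN
    | some (.inl (0, i, l)) => exact ha i l
    | some (.inl (1, i, l)) => exact hb i l
    | some (.inl (2, i, l)) => exact hc i l
    | some (.inr (0, l)) => exact hx l
    | some (.inr (1, l)) => exact hy l
  have h2 := h1.subst (h := fun j => g (e.symm j)) (fun j => hg _)
  refine h2.of_iff fun v => ?_
  unfold uFam
  have he : ∀ z, (fun j => g (e.symm j) v) (Fintype.equivFin (UIx r k) z) = g z v := by
    intro z
    show g (e.symm (e z)) v = g z v
    rw [Equiv.symm_apply_apply]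
  simp only [he]
  exact Iff.rfl

/-- If the polynomial orbit relations are definable then so are all of them. -/
theorem orbZ_of_poly {r k : ℕ} {s : ℤ}
    (H : ∀ (n : ℕ) (N : MvPolynomial (Fin n) ℕ) (a b c : Fin k → Fin r → MvPolynomial (Fin n) ℕ)
      (x y : Fin r → MvPolynomial (Fin n) ℕ), Delta0 n (fun v => 0 < eval v N ∧
        ∃ t, (zmap s (eval v N) (fun i l => eval v (a i l)) (fun i l => eval v (b i l))
          (fun i l => eval v (c i l)))^[t] (fun l => eval v (x l)) = fun l => eval v (y l))) :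
    OrbZ r s k := by
  refine orbZ_of_univ ?_
  let e := Fintype.equivFin (UIx r k)
  have h1 := H (Fintype.card (UIx r k)) (X (e none)) (fun i l => X (e (some (.inl (0, i, l)))))
    (fun i l => X (e (some (.inl (1, i, l))))) (fun i l => X (e (some (.inl (2, i, l)))))
    (fun l => X (e (some (.inr (0, l))))) (fun l => X (e (some (.inr (1, l)))))
  simp only [eval_X] at h1
  exact h1

/-- Hardness for all integer slopes except `0` and, in dimension one, `1` and `-1`. -/
theorem exists_orbZ_univ {r : ℕ} {s : ℤ} (hr : 1 ≤ r) (hs : s ≠ 0)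
    (hrs : ¬ (r = 1 ∧ (s = 1 ∨ s = -1))) :
    ∃ k₀, ∀ k, k₀ ≤ k → OrbZ r s k →
      ∀ (n : ℕ) (R : (Fin n → ℕ) → Prop), E2Star n R → Delta0 n R := by
  obtain ⟨m, rfl | rfl⟩ := Int.eq_nat_or_neg s
  · have hm : 1 ≤ m := by
      rcases Nat.eq_zero_or_pos m with h | h
      · subst h; exact absurd rfl hs
      · exact h
    obtain ⟨k₀, hk₀⟩ := exists_orbK_univ (r := r) (s := m) hr hm (by
      intro h
      obtain ⟨h1, h2⟩ := Prod.mk.inj h
      exact hrs ⟨h1, Or.inl (by rw [h2]; rfl)⟩)
    exact ⟨k₀, fun k hk H => hk₀ k hk (orbZ_natCast.1 H)⟩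
  · have hm : 1 ≤ m := by
      rcases Nat.eq_zero_or_pos m with h | h
      · subst h; exact absurd rfl hs
      · exact h
    obtain ⟨k₁, hk₁⟩ := exists_orbK_univ (r := r) (s := m) hr hm (by
      intro h
      obtain ⟨h1, h2⟩ := Prod.mk.inj h
      exact hrs ⟨h1, Or.inr (by rw [h2]; rfl)⟩)
    obtain ⟨k', hk'⟩ := exists_orbZ_neg (n := Fintype.card (UIx r k₁)) hr hm
      (dfun_uFam (r := r) (k := k₁) none) (fun i l => dfun_uFam (some (.inl (0, i, l))))
      (fun i l => dfun_uFam (some (.inl (1, i, l)))) (fun i l => dfun_uFam (some (.inl (2, i, l))))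
      (fun l => dfun_uFam (k := k₁) (some (.inr (0, l))))
      (fun l => dfun_uFam (k := k₁) (some (.inr (1, l))))
    refine ⟨k', fun k hk H => hk₁ k₁ le_rfl (orbZ_natCast.1 (orbZ_of_univ ?_))⟩
    have h1 := hk' (H.anti hk)
    simp only [zmap_natCast]
    exact h1

end Pool.Agent.PTr
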