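import Mathlib
import Pool.Agent.PTr.TMap
import Pool.Agent.PTr.Upper

/-!
# Slope zero: the maps take boundedly many values
-/

set_option autoImplicit false

namespace Pool.Agent.PTr

open Finset Pool.Agent.Grz

/-- A map with at most `m` values has orbits with preperiod and period bounded by `m`. -/
theorem iterate_periodic {X : Type*} (f : X → X) (A : Finset X) (hA : ∀ x, f x ∈ A) (x : X)
    (t : ℕ) (ht : #A + 1 ≤ t) : f^[t + (#A).factorial] x = f^[t] x := by
  classical
  obtain ⟨i, hi, j, hj, hij, he⟩ : ∃ i, 1 ≤ i ∧ ∃ j, j ≤ #A + 1 ∧ i < j ∧ f^[i] x = f^[j] x := by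
    obtain ⟨a, ha, b, hb, hab, heq⟩ := Finset.exists_ne_map_eq_of_card_lt_of_maps_to
      (s := range (#A + 1)) (t := A) (by simp) (f := fun t => f^[t + 1] x) (fun t _ => by
        simp only [Function.iterate_succ_apply']
        exact hA _)
    simp only [mem_range] at ha hb
    rcases Nat.lt_or_gt_of_ne hab with h | h
    · exact ⟨a + 1, by omega, b + 1, by omega, by omega, heq⟩
    · exact ⟨b + 1, by omega, a + 1, by omega, by omega, heq.symm⟩
  have hstep : ∀ t, i ≤ t → f^[t + (j - i)] x = f^[t] x := by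
    intro t hit
    obtain ⟨r, rfl⟩ : ∃ r, t = r + i := ⟨t - i, by omega⟩
    rw [show r + i + (j - i) = r + j by omega, Function.iterate_add_apply, ← he,
      ← Function.iterate_add_apply]
  have hmul : ∀ q t, i ≤ t → f^[t + (j - i) * q] x = f^[t] x := by
    intro q
    induction q with
    | zero => intro t _; simp
    | succ q ih =>
      intro t hit
      rw [Nat.mul_succ, ← add_assoc, hstep _ (by omega), ih t hit]
  obtain ⟨q, hq⟩ : (j - i) ∣ (#A).factorial := Nat.dvd_factorial (by omega) (by omega)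
  rw [hq]
  exact hmul q t (by omega)

theorem iterate_reduce {X : Type*} (f : X → X) (A : Finset X) (m : ℕ) (hm : #A ≤ m)
    (hA : ∀ x, f x ∈ A) (x : X) (t : ℕ) (ht : m + 1 ≤ t) :
    f^[t] x = f^[m + 1 + (t - (m + 1)) % m.factorial] x := by
  have hP : (#A).factorial ∣ m.factorial := Nat.factorial_dvd_factorial hm
  obtain ⟨q, hq⟩ := hP
  have hmul : ∀ p t, m + 1 ≤ t → f^[t + (#A).factorial * p] x = f^[t] x := by
    intro p
    induction p with
    | zero => intro t _; simp
    | succ p ih =>
      intro t hit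
      rw [Nat.mul_succ, ← add_assoc, iterate_periodic f A hA x _ (by omega), ih t hit]
  have h1 := Nat.div_add_mod (t - (m + 1)) m.factorial
  have h2 : t = m + 1 + (t - (m + 1)) % m.factorial +
      (#A).factorial * (q * ((t - (m + 1)) / m.factorial)) := by
    rw [← mul_assoc, ← hq]
    omega
  conv_lhs => rw [h2]
  exact hmul _ _ (by omega)

theorem DFun.tmap_iter {r k n : ℕ} (s : ℕ) {N : (Fin n → ℕ) → ℕ}
    {a b c : Fin k → Fin r → (Fin n → ℕ) → ℕ} {x : Fin r → (Fin n → ℕ) → ℕ}
    (hN : DFun n N) (ha : ∀ i l, DFun n (a i l)) (hb : ∀ i l, DFun n (b i l))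
    (hc : ∀ i l, DFun n (c i l)) (hx : ∀ l, DFun n (x l)) (t : ℕ) :
    ∀ l, DFun n (fun v => (PTr.tmap s (N v) (fun i l => a i l v) (fun i l => b i l v)
      (fun i l => c i l v))^[t] (fun l => x l v) l) := by
  induction t with
  | zero => exact hx
  | succ t ih =>
    intro l
    simp only [Function.iterate_succ_apply']
    exact DFun.tmap s hN ha hb hc (u := fun l v => (PTr.tmap s (N v) (fun i l => a i l v)
      (fun i l => b i l v) (fun i l => c i l v))^[t] (fun l => x l v) l) ih l

/-- the orbits of the maps of slope `0` are definable by bounded formulas -/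
theorem tmap_zero_delta0 {r k n : ℕ} {N t : (Fin n → ℕ) → ℕ}
    {a b c : Fin k → Fin r → (Fin n → ℕ) → ℕ} {x y : Fin r → (Fin n → ℕ) → ℕ}
    (hN : DFun n N) (ht : DFun n t) (ha : ∀ i l, DFun n (a i l)) (hb : ∀ i l, DFun n (b i l))
    (hc : ∀ i l, DFun n (c i l)) (hx : ∀ l, DFun n (x l)) (hy : ∀ l, DFun n (y l)) :
    Delta0 n (fun v => 0 < N v ∧ (tmap 0 (N v) (fun i l => a i l v) (fun i l => b i l v)
        (fun i l => c i l v))^[t v] (fun l => x l v) = fun l => y l v) := by
  classical
  set m : ℕ := 2 ^ k with hm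
  have hmf : 0 < m.factorial := Nat.factorial_pos _
  have hval : ∀ j, Delta0 n (fun v => (tmap 0 (N v) (fun i l => a i l v) (fun i l => b i l v)
      (fun i l => c i l v))^[j] (fun l => x l v) = fun l => y l v) := by
    intro j
    refine (Delta0.allOf fun l : Fin r => Delta0.eqFun
      (DFun.tmap_iter 0 hN ha hb hc hx j l) (hy l)).of_iff fun v => ?_
    exact funext_iff
  have h1 : Delta0 n (fun v => ∃ j ∈ range (m + 1), t v = j ∧
      (tmap 0 (N v) (fun i l => a i l v) (fun i l => b i l v)
      (fun i l => c i l v))^[j] (fun l => x l v) = fun l => y l v) :=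
    Delta0.finEx _ fun j => (Delta0.eqFun ht (DFun.const j)).and (hval j)
  have h2 : Delta0 n (fun v => ∃ j ∈ range m.factorial, (m + 1 ≤ t v ∧
      (t v - (m + 1)) % m.factorial = j) ∧
      (tmap 0 (N v) (fun i l => a i l v) (fun i l => b i l v)
      (fun i l => c i l v))^[m + 1 + j] (fun l => x l v) = fun l => y l v) :=
    Delta0.finEx _ fun j => ((Delta0.leFun (DFun.const _) ht).and (Delta0.eqFun
      (DFun.modAny (ht.sub (DFun.const _)) (DFun.const _)) (DFun.const j))).and (hval _)
  refine ((Delta0.ltFun (DFun.const 0) hN).and (h1.or h2)).of_iff fun v => ?_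
  refine and_congr_right fun _ => ?_
  -- the set of values
  set f := tmap 0 (N v) (fun i l => a i l v) (fun i l => b i l v) (fun i l => c i l v) with hf
  let g : Finset (Fin k) → Fin r → ℕ := fun I j => (∑ i ∈ I, c i j v) % N v
  have hA : ∀ u, f u ∈ (Finset.univ : Finset (Finset (Fin k))).image g := by
    intro u
    rw [Finset.mem_image]
    refine ⟨Finset.univ.filter fun i => ∀ l, a i l v ≤ u l ∧ u l < b i l v, Finset.mem_univ _, ?_⟩
    funext j
    simp only [g, hf, tmap, zero_mul, zero_add]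
    rw [Finset.sum_filter]
  have hcard : #((Finset.univ : Finset (Finset (Fin k))).image g) ≤ m := by
    refine Finset.card_image_le.trans (le_of_eq ?_)
    rw [Finset.card_univ, Fintype.card_finset, Fintype.card_fin]
  constructor
  · intro h
    rcases Nat.lt_or_ge (t v) (m + 1) with h3 | h3
    · exact Or.inl ⟨t v, mem_range.2 h3, rfl, h⟩
    · refine Or.inr ⟨_, mem_range.2 (Nat.mod_lt _ hmf), ⟨h3, rfl⟩, ?_⟩
      rw [← iterate_reduce f _ m hcard hA _ _ h3]
      exact h
  · rintro (⟨j, -, h3, h4⟩ | ⟨j, -, ⟨h3, h4⟩, h5⟩)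
    · rw [h3]; exact h4
    · rw [iterate_reduce f _ m hcard hA _ _ h3, h4]
      exact h5

/-- membership in the orbits of the maps of slope `0` is definable by bounded formulas -/
theorem tmap_zero_orbit_delta0 {r k n : ℕ} {N : (Fin n → ℕ) → ℕ}
    {a b c : Fin k → Fin r → (Fin n → ℕ) → ℕ} {x y : Fin r → (Fin n → ℕ) → ℕ}
    (hN : DFun n N) (ha : ∀ i l, DFun n (a i l)) (hb : ∀ i l, DFun n (b i l))
    (hc : ∀ i l, DFun n (c i l)) (hx : ∀ l, DFun n (x l)) (hy : ∀ l, DFun n (y l)) :
    Delta0 n (fun v => 0 < N v ∧ ∃ t, (tmap 0 (N v) (fun i l => a i l v) (fun i l => b i l v)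
        (fun i l => c i l v))^[t] (fun l => x l v) = fun l => y l v) := by
  have h1 : Delta0 (n + 1) (fun w => 0 < N (fun i => w i.succ) ∧
      (tmap 0 (N (fun i => w i.succ)) (fun i l => a i l (fun i => w i.succ))
        (fun i l => b i l (fun i => w i.succ)) (fun i l => c i l (fun i => w i.succ)))^[w 0]
        (fun l => x l (fun i => w i.succ)) = fun l => y l (fun i => w i.succ)) :=
    tmap_zero_delta0 hN.weak (DFun.proj 0) (fun i l => (ha i l).weak) (fun i l => (hb i l).weak)
      (fun i l => (hc i l).weak) (fun l => (hx l).weak) (fun l => (hy l).weak)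
  have h2 := Delta0.bexFun (n := n) (b := fun v => enc r (fun _ => N v) + 1)
    ((DFun.enc fun _ => hN).add (DFun.const 1))
    (P := fun t v => 0 < N v ∧ (tmap 0 (N v) (fun i l => a i l v) (fun i l => b i l v)
        (fun i l => c i l v))^[t] (fun l => x l v) = fun l => y l v) h1
  refine h2.of_iff fun v => ?_
  constructor
  · rintro ⟨hv, t, ht⟩
    obtain ⟨t', ht', he⟩ := tmap_iter_bdd 0 hv (fun i l => a i l v) (fun i l => b i l v)
      (fun i l => c i l v) (fun l => x l v) t
    exact ⟨t', ht', hv, he.symm.trans ht⟩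
  · rintro ⟨t, -, hv, ht⟩
    exact ⟨hv, t, ht⟩

end Pool.Agent.PTr
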