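import Mathlib
import Pool.Agent.PTr.ZUniv
import Pool.Agent.PTr.Birk2
import Pool.Agent.PTr.Zero

/-!
# Slope `-1` in dimension one; all the unconditional cases
-/

set_option autoImplicit false

namespace Pool.Agent.PTr

open Finset Pool.Agent.Grz

/-- the map of slope `-1` of an interval -/
def zm1 {k : ℕ} (N : ℕ) (a b c : Fin k → ℕ) (u : ℕ) : ℕ :=
  (N - u % N + ∑ i : Fin k, if a i ≤ u ∧ u < b i then c i else 0) % N

theorem zm1_cut1 {k : ℕ} (N : ℕ) (a b c : Fin k → ℕ) :
    ∃ cut : Fin (k + (k + 2 ^ k)) → ℕ, ∀ u, u + 1 < N → (∀ j, cut j ≠ u) →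
      zm1 N a b c u = zm1 N a b c (u + 1) + 1 := by
  classical
  have e : Fin (k + (k + 2 ^ k)) ≃ Fin k ⊕ (Fin k ⊕ Finset (Fin k)) := by
    refine (Fintype.equivFinOfCardEq ?_).symm
    simp
  refine ⟨fun j => Sum.elim (fun i => a i - 1) (Sum.elim (fun i => b i - 1)
    fun I => (∑ i ∈ I, c i) % N) (e j), ?_⟩
  intro u hu hj
  have ha : ∀ i, a i - 1 ≠ u := fun i => by
    have := hj (e.symm (.inl i))
    simpa using this
  have hb : ∀ i, b i - 1 ≠ u := fun i => by
    have := hj (e.symm (.inr (.inl i)))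
    simpa using this
  have hI : ∀ I : Finset (Fin k), (∑ i ∈ I, c i) % N ≠ u := fun I => by
    have := hj (e.symm (.inr (.inr I)))
    simpa using this
  have hsum : (∑ i : Fin k, if a i ≤ u + 1 ∧ u + 1 < b i then c i else 0) =
      ∑ i : Fin k, if a i ≤ u ∧ u < b i then c i else 0 := by
    refine Finset.sum_congr rfl fun i _ => ?_
    have h1 := ha i
    have h2 := hb i
    have h3 : (a i ≤ u + 1 ∧ u + 1 < b i) ↔ (a i ≤ u ∧ u < b i) := by omega
    simp only [h3]
  unfold zm1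
  rw [hsum]
  set S := ∑ i : Fin k, if a i ≤ u ∧ u < b i then c i else 0 with hS
  have hS' : S = ∑ i ∈ Finset.univ.filter (fun i => a i ≤ u ∧ u < b i), c i := by
    rw [hS, Finset.sum_filter]
  have h4 := hI (Finset.univ.filter (fun i => a i ≤ u ∧ u < b i))
  rw [← hS'] at h4
  have hNpos : 0 < N := by omega
  rw [Nat.mod_eq_of_lt (show u < N by omega), Nat.mod_eq_of_lt hu]
  have h5 := Nat.div_add_mod S N
  have h6 := Nat.mod_lt S hNpos
  -- the value
  rcases Nat.lt_or_ge u (S % N) with h7 | h7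
  · have e1 : N - u + S = N * (S / N + 1) + (S % N - u) := by
      rw [Nat.mul_add]; omega
    have e2 : N - (u + 1) + S = N * (S / N + 1) + (S % N - u - 1) := by
      rw [Nat.mul_add]; omega
    rw [e1, e2, Nat.mul_add_mod, Nat.mul_add_mod, Nat.mod_eq_of_lt (show S % N - u < N by omega),
      Nat.mod_eq_of_lt (show S % N - u - 1 < N by omega)]
    omega
  · have e1 : N - u + S = N * (S / N) + (N + S % N - u) := by omega
    have e2 : N - (u + 1) + S = N * (S / N) + (N + S % N - u - 1) := by omega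
    rw [e1, e2, Nat.mul_add_mod, Nat.mul_add_mod,
      Nat.mod_eq_of_lt (show N + S % N - u < N by omega),
      Nat.mod_eq_of_lt (show N + S % N - u - 1 < N by omega)]
    omega

theorem zm1_cutA {k : ℕ} (N : ℕ) (a b c : Fin k → ℕ) :
    CutA ((k + (k + 2 ^ k)) + (k + (k + 2 ^ k))) N (zm1 N a b c) := by
  obtain ⟨cut, hcut⟩ := zm1_cut1 N a b c
  refine ⟨Fin.append cut (fun j => cut j - 1), fun u hu hj => ?_⟩
  have h1 : ∀ j, cut j ≠ u := fun j => by
    have := hj (Fin.castAdd _ j)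
    rwa [Fin.append_left] at this
  have h2 : ∀ j, cut j ≠ u + 1 := fun j => by
    have := hj (Fin.natAdd _ j)
    rw [Fin.append_right] at this
    omega
  right; left
  have h3 := hcut u (by omega) h1
  have h4 := hcut (u + 1) (by omega) h2
  exact ⟨h3, by rw [h3, h4]⟩

theorem zmap_negone {k : ℕ} {N : ℕ} (hN : 0 < N) (a b c : Fin k → Fin 1 → ℕ) (u : Fin 1 → ℕ) :
    zmap (-1) N a b c u = fun _ => zm1 N (fun i => a i 0) (fun i => b i 0) (fun i => c i 0)
      (u 0) := by
  funext j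
  obtain rfl : j = 0 := Subsingleton.elim _ _
  have h := zmap_neg (m := 1) hN a b c u 0
  rw [Nat.cast_one] at h
  rw [h]
  unfold zm1
  rw [one_mul]
  congr 2
  refine Finset.sum_congr rfl fun i _ => ?_
  have h : (∀ l, a i l ≤ u l ∧ u l < b i l) ↔ (a i 0 ≤ u 0 ∧ u 0 < b i 0) := by
    constructor
    · intro h; exact h 0
    · intro h l
      obtain rfl : l = 0 := Subsingleton.elim _ _
      exact h
  simp only [h]

theorem zmap_negone_iter {k : ℕ} {N : ℕ} (hN : 0 < N) (a b c : Fin k → Fin 1 → ℕ)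
    (u : Fin 1 → ℕ) (t : ℕ) :
    (zmap (-1) N a b c)^[t] u =
      fun _ => (zm1 N (fun i => a i 0) (fun i => b i 0) (fun i => c i 0))^[t] (u 0) := by
  induction t generalizing u with
  | zero =>
    funext j
    obtain rfl : j = 0 := Subsingleton.elim _ _
    rfl
  | succ t ih =>
    rw [Function.iterate_succ_apply, Function.iterate_succ_apply, ih, zmap_negone hN]

theorem zm1_delta0 {k n : ℕ} {N x y t : (Fin n → ℕ) → ℕ} {a b c : Fin k → (Fin n → ℕ) → ℕ}
    (hN : DFun n N) (hx : DFun n x) (hy : DFun n y) (ht : DFun n t)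
    (ha : ∀ i, DFun n (a i)) (hb : ∀ i, DFun n (b i)) (hc : ∀ i, DFun n (c i)) :
    Delta0 n (fun v => 0 < N v ∧
      (zm1 (N v) (fun i => a i v) (fun i => b i v) (fun i => c i v))^[t v] (x v) = y v) := by
  have hD : ∀ {m : ℕ} {N' u : (Fin m → ℕ) → ℕ} {a' b' c' : Fin k → (Fin m → ℕ) → ℕ},
      DFun m N' → DFun m u → (∀ i, DFun m (a' i)) → (∀ i, DFun m (b' i)) →
      (∀ i, DFun m (c' i)) → DFun m (fun v => zm1 (N' v) (fun i => a' i v) (fun i => b' i v)
        (fun i => c' i v) (u v)) := by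
    intro m N' u a' b' c' hN' hu ha' hb' hc'
    unfold zm1
    exact DFun.modAny ((hN'.sub (DFun.modAny hu hN')).add (DFun.finSum _ fun i =>
      DFun.ite ((Delta0.leFun (ha' i) hu).and (Delta0.ltFun hu (hb' i))) (hc' i)
        (DFun.const 0))) hN'
  have hTx := hD hN hx ha hb hc
  have h1 := aff_delta0 ((k + (k + 2 ^ k)) + (k + (k + 2 ^ k))) 0 (N := N)
    (x := fun v => zm1 (N v) (fun i => a i v) (fun i => b i v) (fun i => c i v) (x v)) (y := y)
    (t := fun v => t v - 1) (S := fun _ => 0)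
    (T := fun u v => zm1 (N v) (fun i => a i v) (fun i => b i v) (fun i => c i v) u)
    (w := fun _ _ => 0) hN hTx hy (ht.sub (DFun.const 1)) (DFun.const 0)
    (hD hN.weak (DFun.proj 0) (fun i => (ha i).weak) (fun i => (hb i).weak)
      (fun i => (hc i).weak)) (DFun.const 0) (fun v u hu => Nat.mod_lt _ (by omega))
    (fun v => zm1_cutA _ _ _ _) (fun v => ⟨fun j => j.elim0, fun u _ _ => rfl⟩)
  refine ((Delta0.ltFun (DFun.const 0) hN).and (((Delta0.eqFun ht (DFun.const 0)).and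
    (Delta0.eqFun hx hy)).or ((Delta0.ltFun (DFun.const 0) ht).and h1))).of_iff fun v => ?_
  constructor
  · rintro ⟨hNv, h⟩
    refine ⟨hNv, ?_⟩
    rcases Nat.eq_zero_or_pos (t v) with h0 | h0
    · left
      rw [h0] at h
      exact ⟨h0, h⟩
    · right
      refine ⟨h0, Nat.mod_lt _ hNv, ?_, ?_⟩
      · obtain ⟨r, hr⟩ : ∃ r, t v = r + 1 := ⟨t v - 1, by omega⟩
        rw [hr, Function.iterate_succ_apply] at h
        rw [hr, Nat.add_sub_cancel]
        exact h
      · simp [bsum]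
  · rintro ⟨hNv, h⟩
    refine ⟨hNv, ?_⟩
    rcases h with ⟨h0, h1⟩ | ⟨h0, -, h1, -⟩
    · rw [h0]; exact h1
    · obtain ⟨r, hr⟩ : ∃ r, t v = r + 1 := ⟨t v - 1, by omega⟩
      rw [hr, Nat.add_sub_cancel] at h1
      rw [hr, Function.iterate_succ_apply]
      exact h1

/-- All unconditional cases: slope `0`, and the slopes `1` and `-1` in dimension one. -/
theorem zmap_delta0 {r k n : ℕ} {s : ℤ} (hs : s = 0 ∨ (r = 1 ∧ (s = 1 ∨ s = -1)))
    {N t : (Fin n → ℕ) → ℕ} {a b c : Fin k → Fin r → (Fin n → ℕ) → ℕ}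
    {x y : Fin r → (Fin n → ℕ) → ℕ} (hN : DFun n N) (ht : DFun n t) (ha : ∀ i l, DFun n (a i l))
    (hb : ∀ i l, DFun n (b i l)) (hc : ∀ i l, DFun n (c i l)) (hx : ∀ l, DFun n (x l))
    (hy : ∀ l, DFun n (y l)) :
    Delta0 n (fun v => 0 < N v ∧ (zmap s (N v) (fun i l => a i l v) (fun i l => b i l v)
        (fun i l => c i l v))^[t v] (fun l => x l v) = fun l => y l v) := by
  rcases hs with rfl | ⟨rfl, rfl | rfl⟩
  · have h := tmap_zero_delta0 hN ht ha hb hc hx hy
    refine h.of_iff fun v => ?_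
    rw [← zmap_natCast, Nat.cast_zero]
  · have h := tmap_one_delta0 hN ht ha hb hc hx hy
    refine h.of_iff fun v => ?_
    rw [← zmap_natCast, Nat.cast_one]
  · refine (zm1_delta0 hN (hx 0) (hy 0) ht (fun i => ha i 0) (fun i => hb i 0)
      (fun i => hc i 0)).of_iff fun v => ?_
    refine and_congr_right fun hv => ?_
    rw [zmap_negone_iter hv]
    constructor
    · intro h
      exact congrFun h 0
    · intro h
      funext l
      obtain rfl : l = 0 := Subsingleton.elim _ _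
      exact h

end Pool.Agent.PTr
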