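import Mathlib

/-!
# The Euler tour of a functional graph with boundedly many injective branches

`E i y x` says that the `i`-th branch (`i < m`) maps `y` to `x`. Every `y` lies in the domain of at most
one branch, the branches are injective; a vertex in no domain is a root. The tour is a permutation
of the positions `pos x i`, `i ≤ m`; a vertex `x` reaches the root `z` if and only if the tour
starting in `pos x 0` visits `pos z 0`.
-/

set_option autoImplicit false

namespace Pool.Agent.PTr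

variable {X Y : Type*} {m : ℕ}

/-- `τ` is the tour of the functional graph with the branches `E i` -/
structure TourOk (E : Fin m → X → X → Prop) (τ : Y → Y) (pos : X → Fin (m + 1) → Y) : Prop where
  fn : ∀ i j y x x', E i y x → E j y x' → i = j ∧ x = x'
  inj : ∀ i y y' x, E i y x → E i y' x → y = y'
  down : ∀ i y x, E i y x → τ (pos x i.castSucc) = pos y 0
  skip : ∀ i x, (∀ y, ¬ E i y x) → τ (pos x i.castSucc) = pos x i.succ
  up : ∀ i y x, E i y x → τ (pos y (Fin.last m)) = pos x i.succ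
  root : ∀ x, (∀ i x', ¬ E i x x') → τ (pos x (Fin.last m)) = pos x 0
  pinj : ∀ x i x' i', pos x i = pos x' i' → x = x' ∧ i = i'

/-- `z` is reached from `x` in `n` steps -/
def Reach (E : Fin m → X → X → Prop) : ℕ → X → X → Prop
  | 0, x, z => x = z
  | n + 1, x, z => ∃ i y, E i x y ∧ Reach E n y z

variable {E : Fin m → X → X → Prop} {τ : Y → Y} {pos : X → Fin (m + 1) → Y}

/-- the four kinds of steps -/
theorem TourOk.cases (h : TourOk E τ pos) (x : X) (i : Fin (m + 1)) :
    (∃ j y, i = Fin.castSucc j ∧ E j y x ∧ τ (pos x i) = pos y 0) ∨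
    (∃ j, i = Fin.castSucc j ∧ (∀ y, ¬ E j y x) ∧ τ (pos x i) = pos x j.succ) ∨
    (∃ j x', i = Fin.last m ∧ E j x x' ∧ τ (pos x i) = pos x' j.succ) ∨
    (i = Fin.last m ∧ (∀ j x', ¬ E j x x') ∧ τ (pos x i) = pos x 0) := by
  refine Fin.lastCases ?_ (fun j => ?_) i
  · by_cases hx : ∃ j x', E j x x'
    · obtain ⟨j, x', hj⟩ := hx
      exact Or.inr (Or.inr (Or.inl ⟨j, x', rfl, hj, h.up j x x' hj⟩))
    · push Not at hx
      exact Or.inr (Or.inr (Or.inr ⟨rfl, hx, h.root x hx⟩))
  · by_cases hx : ∃ y, E j y x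
    · obtain ⟨y, hy⟩ := hx
      exact Or.inl ⟨j, y, rfl, hy, h.down j y x hy⟩
    · push Not at hx
      exact Or.inr (Or.inl ⟨j, rfl, hx, h.skip j x hx⟩)

/-- the tour is injective -/
theorem TourOk.injective (h : TourOk E τ pos) {x x' : X} {i i' : Fin (m + 1)}
    (he : τ (pos x i) = τ (pos x' i')) : x = x' ∧ i = i' := by
  rcases h.cases x i with ⟨j, y, rfl, h1, h2⟩ | ⟨j, rfl, h1, h2⟩ | ⟨j, y, rfl, h1, h2⟩ |
    ⟨rfl, h1, h2⟩ <;>
  rcases h.cases x' i' with ⟨j', y', rfl, h3, h4⟩ | ⟨j', rfl, h3, h4⟩ | ⟨j', y', rfl, h3, h4⟩ |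
    ⟨rfl, h3, h4⟩ <;>
  rw [h2, h4] at he <;>
  obtain ⟨e1, e2⟩ := h.pinj _ _ _ _ he
  · subst e1
    obtain ⟨rfl, rfl⟩ := h.fn _ _ _ _ _ h1 h3
    exact ⟨rfl, rfl⟩
  · exact absurd e2.symm (Fin.succ_ne_zero _)
  · exact absurd e2.symm (Fin.succ_ne_zero _)
  · subst e1
    exact absurd h1 (h3 _ _)
  · exact absurd e2 (Fin.succ_ne_zero _)
  · subst e1
    rw [Fin.succ_inj] at e2
    subst e2
    exact ⟨rfl, rfl⟩
  · subst e1
    rw [Fin.succ_inj] at e2
    subst e2
    exact absurd h3 (h1 _)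
  · exact absurd e2 (Fin.succ_ne_zero _)
  · exact absurd e2 (Fin.succ_ne_zero _)
  · subst e1
    rw [Fin.succ_inj] at e2
    subst e2
    exact absurd h1 (h3 _)
  · subst e1
    rw [Fin.succ_inj] at e2
    subst e2
    exact ⟨h.inj _ _ _ _ h1 h3, rfl⟩
  · exact absurd e2 (Fin.succ_ne_zero _)
  · subst e1
    exact absurd h3 (h1 _ _)
  · exact absurd e2.symm (Fin.succ_ne_zero _)
  · exact absurd e2.symm (Fin.succ_ne_zero _)
  · exact ⟨e1, rfl⟩

/-- every position has a predecessor -/
theorem TourOk.surjective (h : TourOk E τ pos) (x : X) (i : Fin (m + 1)) :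
    ∃ x' i', τ (pos x' i') = pos x i := by
  refine Fin.cases ?_ (fun j => ?_) i
  · by_cases hx : ∃ j x', E j x x'
    · obtain ⟨j, x', hj⟩ := hx
      exact ⟨x', j.castSucc, h.down j x x' hj⟩
    · push Not at hx
      exact ⟨x, Fin.last m, h.root x hx⟩
  · by_cases hx : ∃ y, E j y x
    · obtain ⟨y, hy⟩ := hx
      exact ⟨y, Fin.last m, h.up j y x hy⟩
    · push Not at hx
      exact ⟨x, j.castSucc, h.skip j x hx⟩

theorem TourOk.reach_unique (h : TourOk E τ pos) {z : X} (hz : ∀ i x, ¬ E i z x) :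
    ∀ n n' x, Reach E n x z → Reach E n' x z → n = n' := by
  intro n
  induction n with
  | zero =>
    intro n' x h1 h2
    cases n' with
    | zero => rfl
    | succ n' =>
      obtain ⟨i, y, h3, -⟩ := h2
      have h1' : x = z := h1
      subst h1'
      exact absurd h3 (hz _ _)
  | succ n ih =>
    intro n' x h1 h2
    cases n' with
    | zero =>
      obtain ⟨i, y, h3, -⟩ := h1
      have h2' : x = z := h2
      subst h2'
      exact absurd h3 (hz _ _)
    | succ n' =>
      obtain ⟨i, y, h3, h4⟩ := h1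
      obtain ⟨i', y', h5, h6⟩ := h2
      obtain ⟨rfl, rfl⟩ := h.fn _ _ _ _ _ h3 h5
      rw [ih n' y h4 h6]

theorem reach_suffix {z : X} : ∀ n x, Reach E n x z → ∀ j, j ≤ n → ∃ w, Reach E j w z := by
  intro n
  induction n with
  | zero =>
    intro x h1 j hj
    obtain rfl : j = 0 := by omega
    exact ⟨x, h1⟩
  | succ n ih =>
    intro x h1 j hj
    rcases Nat.lt_or_ge j (n + 1) with h2 | h2
    · obtain ⟨i, y, -, h3⟩ := h1
      exact ih y h3 j (by omega)
    · obtain rfl : j = n + 1 := by omega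
      exact ⟨x, h1⟩

theorem TourOk.reach_bound [Finite X] (h : TourOk E τ pos) {z : X} (hz : ∀ i x, ¬ E i z x) {n : ℕ}
    {x : X} (hr : Reach E n x z) : n < Nat.card X := by
  classical
  have := Fintype.ofFinite X
  choose w hw using fun j : Fin (n + 1) => reach_suffix n x hr j (by omega)
  have hinj : Function.Injective w := by
    intro j j' hjj
    have h1 := hw j
    have h2 := hw j'
    rw [← hjj] at h2
    exact Fin.ext (h.reach_unique hz _ _ _ h1 h2)
  have h3 := Fintype.card_le_of_injective w hinj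
  rw [Fintype.card_fin] at h3
  rw [Nat.card_eq_fintype_card]
  omega

/-- an invariant labelling takes the same value at all positions of a vertex of the tree of `z` -/
theorem TourOk.layers [Finite X] (h : TourOk E τ pos) {z : X} (hz : ∀ i x, ¬ E i z x)
    {f : Y → Prop} (hf : ∀ x i, f (τ (pos x i)) ↔ f (pos x i)) :
    ∀ d n x, Nat.card X - n ≤ d → Reach E n x z → ∀ i, f (pos x i) ↔ f (pos x 0) := by
  intro d
  induction d with
  | zero =>
    intro n x h1 h2
    have := h.reach_bound hz h2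
    omega
  | succ d ih =>
    intro n x h1 h2 i
    have hb := h.reach_bound hz h2
    induction i using Fin.induction with
    | zero => rfl
    | succ i hi =>
      refine Iff.trans ?_ hi
      by_cases hx : ∃ y, E i y x
      · obtain ⟨y, hy⟩ := hx
        have h3 : Reach E (n + 1) y z := ⟨i, x, hy, h2⟩
        have h4 := ih (n + 1) y (by omega) h3 (Fin.last m)
        have h5 := hf x i.castSucc
        rw [h.down i y x hy] at h5
        have h6 := hf y (Fin.last m)
        rw [h.up i y x hy] at h6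
        rw [h6, h4, h5]
      · push Not at hx
        have h5 := hf x i.castSucc
        rw [h.skip i x hx] at h5
        exact h5

/-- an invariant labelling takes the same value at a vertex of the tree of `z` and at `z` -/
theorem TourOk.to_root [Finite X] (h : TourOk E τ pos) {z : X} (hz : ∀ i x, ¬ E i z x)
    {f : Y → Prop} (hf : ∀ x i, f (τ (pos x i)) ↔ f (pos x i)) :
    ∀ n x, Reach E n x z → (f (pos x 0) ↔ f (pos z 0)) := by
  intro n
  induction n with
  | zero =>
    intro x h1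
    have h1' : x = z := h1
    rw [h1']
  | succ n ih =>
    intro x h1
    obtain ⟨i, y, h2, h3⟩ := h1
    have h4 := h.layers hz hf _ (n + 1) x le_rfl ⟨i, y, h2, h3⟩ (Fin.last m)
    have h5 := hf x (Fin.last m)
    rw [h.up i x y h2] at h5
    have h6 := h.layers hz hf _ n y le_rfl h3 i.succ
    rw [← ih y h3, ← h6, h5, h4]

/-- `reaches z` is an invariant labelling -/
theorem TourOk.reach_inv (h : TourOk E τ pos) {z : X} (hz : ∀ i x, ¬ E i z x) (x : X)
    (i : Fin (m + 1)) :
    (∃ x' i', τ (pos x i) = pos x' i' ∧ ∃ n, Reach E n x' z) ↔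
      (∃ x' i', pos x i = pos x' i' ∧ ∃ n, Reach E n x' z) := by
  have key : ∀ j y x, E j y x → ((∃ n, Reach E n y z) ↔ ∃ n, Reach E n x z) := by
    intro j y x hj
    constructor
    · rintro ⟨n, hn⟩
      cases n with
      | zero =>
        have hn' : y = z := hn
        subst hn'
        exact absurd hj (hz _ _)
      | succ n =>
        obtain ⟨j', x', h1, h2⟩ := hn
        obtain ⟨rfl, rfl⟩ := h.fn _ _ _ _ _ hj h1
        exact ⟨n, h2⟩
    · rintro ⟨n, hn⟩
      exact ⟨n + 1, j, x, hj, hn⟩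
  have red : ∀ x i, (∃ x' i', pos x i = pos x' i' ∧ ∃ n, Reach E n x' z) ↔
      ∃ n, Reach E n x z := by
    intro x i
    constructor
    · rintro ⟨x', i', h1, h2⟩
      obtain ⟨rfl, rfl⟩ := h.pinj _ _ _ _ h1
      exact h2
    · intro h1
      exact ⟨x, i, rfl, h1⟩
  rw [red]
  rcases h.cases x i with ⟨j, y, rfl, h1, h2⟩ | ⟨j, rfl, h1, h2⟩ | ⟨j, y, rfl, h1, h2⟩ |
    ⟨rfl, h1, h2⟩
  · rw [h2, red, key j y x h1]
  · rw [h2, red]
  · rw [h2, red, key j x y h1]
  · rw [h2, red]

/-- every position is periodic under the tour -/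
theorem TourOk.periodic [Finite X] (h : TourOk E τ pos) (x : X) (i : Fin (m + 1)) :
    ∃ n, 0 < n ∧ τ^[n] (pos x i) = pos x i := by
  have hs : ∀ p : X × Fin (m + 1), ∃ q : X × Fin (m + 1), τ (pos p.1 p.2) = pos q.1 q.2 := by
    intro p
    rcases h.cases p.1 p.2 with ⟨j, y, -, h1, h2⟩ | ⟨j, -, h1, h2⟩ | ⟨j, y, -, h1, h2⟩ |
      ⟨-, h1, h2⟩
    · exact ⟨(y, 0), h2⟩
    · exact ⟨(p.1, j.succ), h2⟩
    · exact ⟨(y, j.succ), h2⟩
    · exact ⟨(p.1, 0), h2⟩
  choose σ hσ using hs
  have hinj : Function.Injective σ := by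
    intro p q hpq
    have h1 := hσ p
    have h2 := hσ q
    rw [← hpq, ← h1] at h2
    obtain ⟨e1, e2⟩ := h.injective h2
    exact (Prod.ext e1 e2).symm
  have hit : ∀ n (p : X × Fin (m + 1)), τ^[n] (pos p.1 p.2) = pos (σ^[n] p).1 (σ^[n] p).2 := by
    intro n
    induction n with
    | zero => intro p; rfl
    | succ n ih =>
      intro p
      rw [Function.iterate_succ_apply, Function.iterate_succ_apply, hσ, ih]
  obtain ⟨n, hn, hp⟩ := Function.mem_periodicPts.1 (hinj.mem_periodicPts (x, i))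
  refine ⟨n, hn, ?_⟩
  have h3 := hit n (x, i)
  have h4 : σ^[n] (x, i) = (x, i) := hp
  rw [h4] at h3
  exact h3

/-- **The tour theorem**: `x` reaches the root `z` if and only if the tour from `pos x 0` visits
`pos z 0`. -/
theorem TourOk.reach_iff [Finite X] (h : TourOk E τ pos) {z : X} (hz : ∀ i x, ¬ E i z x) (x : X) :
    (∃ n, τ^[n] (pos x 0) = pos z 0) ↔ ∃ n, Reach E n x z := by
  constructor
  · rintro ⟨n, hn⟩
    have hs : ∀ x i, ∃ x' i', τ (pos x i) = pos x' i' := by
      intro x i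
      rcases h.cases x i with ⟨j, y, -, h1, h2⟩ | ⟨j, -, h1, h2⟩ | ⟨j, y, -, h1, h2⟩ |
        ⟨-, h1, h2⟩
      · exact ⟨y, 0, h2⟩
      · exact ⟨x, j.succ, h2⟩
      · exact ⟨y, j.succ, h2⟩
      · exact ⟨x, 0, h2⟩
    have key : ∀ n x i, (∃ x' i', τ^[n] (pos x i) = pos x' i' ∧ ∃ n, Reach E n x' z) →
        (∃ x' i', pos x i = pos x' i' ∧ ∃ n, Reach E n x' z) := by
      intro n
      induction n with
      | zero => intro x i h1; exact h1
      | succ n ih =>
        intro x i h1
        obtain ⟨x', i', h2⟩ := hs x i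
        rw [Function.iterate_succ_apply, h2] at h1
        have h3 := ih x' i' h1
        rw [← h2] at h3
        exact (h.reach_inv hz x i).1 h3
    obtain ⟨x', i', h1, h2⟩ := key n x 0 ⟨z, 0, hn, 0, rfl⟩
    obtain ⟨rfl, -⟩ := h.pinj _ _ _ _ h1
    exact h2
  · rintro ⟨n, hn⟩
    have hf : ∀ x i, (∃ k, τ^[k] (τ (pos x i)) = pos z 0) ↔ (∃ k, τ^[k] (pos x i) = pos z 0) := by
      intro x i
      constructor
      · rintro ⟨k, hk⟩
        exact ⟨k + 1, hk⟩
      · rintro ⟨k, hk⟩
        cases k with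
        | succ k => exact ⟨k, hk⟩
        | zero =>
          have hk' : pos x i = pos z 0 := hk
          obtain ⟨p, hp, hpp⟩ := h.periodic z 0
          obtain ⟨p', rfl⟩ : ∃ p', p = p' + 1 := ⟨p - 1, by omega⟩
          rw [hk']
          exact ⟨p', hpp⟩
    exact (h.to_root hz (f := fun y => ∃ k, τ^[k] y = pos z 0) hf n x hn).2 ⟨0, rfl⟩

end Pool.Agent.PTr
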